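import Mathlib

set_option autoImplicit false

open MeasureTheory Set Real Matrix
open scoped ENNReal ComplexOrder

namespace Pool.Agent.Helper766.M

/-- Complex square matrices. -/
abbrev CM (N : ℕ) := Matrix (Fin N) (Fin N) ℂ

/-- The polynomial kernel with coefficients `w`. -/
noncomputable def PK (A : Finset (ℕ × ℕ)) (w : ℕ × ℕ → ℝ) (s t : ℝ) : ℝ :=
  ∑ q ∈ A, w q * (s ^ q.1 * t ^ q.2)

/-- The complete homogeneous sum `(s ^ a - r ^ a) / (s - r)`. -/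
noncomputable def gs (a : ℕ) (s r : ℝ) : ℝ := ∑ l ∈ Finset.range a, s ^ l * r ^ (a - 1 - l)

/-- The sum of the divided differences of the kernel in its two slots. -/
noncomputable def DK (A : Finset (ℕ × ℕ)) (w : ℕ × ℕ → ℝ) (s r t : ℝ) : ℝ :=
  ∑ q ∈ A, w q * (t ^ q.2 * gs q.1 s r + t ^ q.1 * gs q.2 s r)

/-- The exact kernel expression for the parameter `θ`. -/
noncomputable def TK (θ s r t : ℝ) : ℝ :=
  -(θ ^ 2 / 4) * ((sinc (θ * (s - r) / 2) - cos (θ * (s - r) / 2)) /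
    (cos (θ * (s + t) / 2) * cos (θ * (r + t) / 2)))

/-- The derivative of `B ^ a` in the direction `R`. -/
noncomputable def dpow {N : ℕ} (B R : CM N) (a : ℕ) : CM N :=
  ∑ l ∈ Finset.range a, B ^ l * R * B ^ (a - 1 - l)

/-- The kernel applied to `R` as a Schur multiplier in the eigenbasis of `B`. -/
noncomputable def YK {N : ℕ} (A : Finset (ℕ × ℕ)) (w : ℕ × ℕ → ℝ) (B R : CM N) : CM N :=
  ∑ q ∈ A, ((w q : ℝ) : ℂ) • (B ^ q.1 * R * B ^ q.2)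

/-- The integral of a matrix valued function over a set, entrywise. -/
noncomputable def mInt {N : ℕ} (s : Set ℝ) (R : ℝ → CM N) : CM N :=
  Matrix.of fun i j => ∫ t in s, R t i j

/-- The Gram matrix of a family of functions. -/
noncomputable def Gram {n N : ℕ} (u : Fin N → (Fin n → ℝ) → ℂ) : CM N :=
  Matrix.of fun i j => ∫ x, u i x * starRingEnd ℂ (u j x)

/-- The density of a family of functions. -/
noncomputable def rho {n N : ℕ} (u : Fin N → (Fin n → ℝ) → ℂ) (x : Fin n → ℝ) : ℝ≥0∞ :=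
  ∑ i, ‖u i x‖ₑ ^ 2

/-- The magnetic energy density of a function. -/
noncomputable def eT {n : ℕ} (A : (Fin n → ℝ) → (Fin n → ℝ)) (f : (Fin n → ℝ) → ℂ)
    (x : Fin n → ℝ) : ℝ≥0∞ :=
  ∑ j : Fin n, ‖fderiv ℝ f x (Pi.single j 1) - Complex.I * ((A x j : ℝ) : ℂ) * f x‖ₑ ^ 2

/-- The magnetic kinetic energy of a family of functions. -/
noncomputable def Tmag {n N : ℕ} (A : (Fin n → ℝ) → (Fin n → ℝ))
    (u : Fin N → (Fin n → ℝ) → ℂ) : ℝ≥0∞ :=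
  ∑ i, ∫⁻ x, eT A (u i) x

/-- The slice of a family of functions at the first coordinate `t`. -/
noncomputable def slice {n N : ℕ} (u : Fin N → (Fin (n + 1) → ℝ) → ℂ) (t : ℝ) :
    Fin N → (Fin n → ℝ) → ℂ := fun i y => u i (Fin.cons t y : Fin (n + 1) → ℝ)

/-- The vector potential on a slice. -/
noncomputable def sliceA {n : ℕ} (A : (Fin (n + 1) → ℝ) → (Fin (n + 1) → ℝ)) (t : ℝ) :
    (Fin n → ℝ) → (Fin n → ℝ) := fun y j => A (Fin.cons t y : Fin (n + 1) → ℝ) j.succ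

/-- The derivative in the first coordinate direction. -/
noncomputable def pd0 {n : ℕ} (f : (Fin (n + 1) → ℝ) → ℂ) (x : Fin (n + 1) → ℝ) : ℂ :=
  fderiv ℝ f x (Pi.single 0 1)

/-- The derivative of the Gram matrix of the slices. -/
noncomputable def Gram' {n N : ℕ} (u : Fin N → (Fin (n + 1) → ℝ) → ℂ) (t : ℝ) : CM N :=
  Matrix.of fun i j => ∫ y : Fin n → ℝ,
    (pd0 (u i) (Fin.cons t y : Fin (n + 1) → ℝ) *
        starRingEnd ℂ (u j (Fin.cons t y : Fin (n + 1) → ℝ)) +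
      u i (Fin.cons t y : Fin (n + 1) → ℝ) *
        starRingEnd ℂ (pd0 (u j) (Fin.cons t y : Fin (n + 1) → ℝ)))

/-- The energy in the first direction on a slice. -/
noncomputable def tau {n N : ℕ} (A : (Fin (n + 1) → ℝ) → (Fin (n + 1) → ℝ))
    (u : Fin N → (Fin (n + 1) → ℝ) → ℂ) (t : ℝ) : ℝ≥0∞ :=
  ∫⁻ y : Fin n → ℝ, ∑ i, ‖pd0 (u i) (Fin.cons t y : Fin (n + 1) → ℝ) -
    Complex.I * ((A (Fin.cons t y : Fin (n + 1) → ℝ) 0 : ℝ) : ℂ) *
      u i (Fin.cons t y : Fin (n + 1) → ℝ)‖ₑ ^ 2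

/-- The inequality for `γ = 3/2` on `ℝⁿ` with constant `c`. -/
def PP (n : ℕ) (c : ℝ≥0∞) : Prop :=
  ∀ (N : ℕ) (u : Fin N → (Fin n → ℝ) → ℂ) (A : (Fin n → ℝ) → (Fin n → ℝ))
    (V : (Fin n → ℝ) → ℝ≥0∞), (∀ i, ContDiff ℝ 1 (u i)) → (∀ i, HasCompactSupport (u i)) →
    Measurable A → Measurable V →
    ∫⁻ x, V x * rho u x ≤ Tmag A u +
      ENNReal.ofReal (1 / 3 * (Gram u * Gram u * Gram u).trace.re) +
      c * ∫⁻ x, V x ^ (((n : ℝ) + 3) / 2)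

/-- The inequality for `γ = 2` on `ℝⁿ` with constant `c`. -/
def PP' (n : ℕ) (c : ℝ≥0∞) : Prop :=
  ∀ (N : ℕ) (u : Fin N → (Fin n → ℝ) → ℂ) (A : (Fin n → ℝ) → (Fin n → ℝ))
    (V : (Fin n → ℝ) → ℝ≥0∞), (∀ i, ContDiff ℝ 1 (u i)) → (∀ i, HasCompactSupport (u i)) →
    Measurable A → Measurable V →
    ∫⁻ x, V x * rho u x ≤ Tmag A u +
      ENNReal.ofReal (2 * (Gram u * Gram u).trace.re) +
      c * ∫⁻ x, V x ^ (((n : ℝ) + 4) / 2)

/-- The constants `(2/3) L^cl_{3/2,n}`. -/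
noncomputable def cc (n : ℕ) : ℝ :=
  2 / 3 * (Gamma (5 / 2) / ((4 * π) ^ ((n : ℝ) / 2) * Gamma (((n : ℝ) + 5) / 2)))

/-- The semiclassical Lieb-Thirring constant. -/
noncomputable def Lcl (γ : ℝ) (n : ℕ) : ℝ :=
  Gamma (γ + 1) / ((4 * π) ^ ((n : ℝ) / 2) * Gamma (γ + 1 + (n : ℝ) / 2))

/-- Finite dimensional spaces of trial functions: `C¹`, compactly supported in `Ω`. -/
def Dom {n : ℕ} (Ω : Set (Fin n → ℝ)) (S : Submodule ℂ ((Fin n → ℝ) → ℂ)) : Prop :=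
  ∀ u ∈ S, ContDiff ℝ 1 u ∧ HasCompactSupport u ∧ tsupport u ⊆ Ω

/-- The absolute value of the `k`-th negative eigenvalue (or zero) of the magnetic Schrödinger
operator with potential `P - W` by the min-max principle. -/
noncomputable def negE {n : ℕ} (Ω : Set (Fin n → ℝ)) (A : (Fin n → ℝ) → (Fin n → ℝ))
    (P W : (Fin n → ℝ) → ℝ≥0∞) (k : ℕ) : ℝ≥0∞ :=
  ⨆ (S : Submodule ℂ ((Fin n → ℝ) → ℂ)) (_ : Dom Ω S) (_ : Module.finrank ℂ S = k + 1),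
    ⨅ (u : (Fin n → ℝ) → ℂ) (_ : u ∈ S) (_ : u ≠ 0),
      ((∫⁻ x, W x * ‖u x‖ₑ ^ 2) - ((∫⁻ x, eT A u x) + ∫⁻ x, P x * ‖u x‖ₑ ^ 2)) /
        ∫⁻ x, ‖u x‖ₑ ^ 2

/-- The plane wave with integer frequency `m`. -/
noncomputable def em {d : ℕ} (m : Fin d → ℤ) (x : Fin d → ℝ) : ℂ :=
  Complex.exp (2 * π * Complex.I * ((∑ j, (m j : ℝ) * x j : ℝ) : ℂ))

/-- The product cutoff. -/
noncomputable def GG {d : ℕ} (g : ℝ → ℝ) (x : Fin d → ℝ) : ℝ := ∏ j, g (x j)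

/-- Cutoff functions whose squares are a partition of unity under integer translations. -/
structure IsCut (ε K : ℝ) (g : ℝ → ℝ) : Prop where
  smooth : ContDiff ℝ 1 g
  supp : ∀ x, x ∉ Icc 0 (1 + ε) → g x = 0
  bd : ∀ x, |g x| ≤ 1
  K0 : 0 ≤ K
  der : ∀ x, |deriv g x| ≤ K
  part : ∀ x ∈ Icc (0 : ℝ) 1, g x ^ 2 + g (x + 1) ^ 2 = 1

end Pool.Agent.Helper766.M
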