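import Mathlib

set_option autoImplicit false

open MeasureTheory Set Real Matrix
open scoped ENNReal ComplexOrder

namespace Pool.Agent.Helper766.M

/-- the real kernel `K` is positive semidefinite -/
private def PSK {n : ℕ} (K : Fin n → Fin n → ℝ) : Prop :=
  (Matrix.of fun i j => ((K i j : ℝ) : ℂ)).PosSemidef

private theorem PSK.congr {n : ℕ} {K L : Fin n → Fin n → ℝ} (h : PSK K) (e : ∀ i j, L i j = K i j) :
    PSK L := by
  have : L = K := by funext i j; exact e i j
  rw [this]; exact h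

private theorem PSK.symm {n : ℕ} {K : Fin n → Fin n → ℝ} (h : PSK K) (i j : Fin n) :
    K i j = K j i := by
  have h1 := h.isHermitian
  have h2 := congrFun (congrFun h1 i) j
  simp only [Matrix.conjTranspose_apply, Matrix.of_apply, Complex.star_def,
    Complex.conj_ofReal] at h2
  exact_mod_cast h2.symm

private theorem PSK.rank {n : ℕ} (v : Fin n → ℝ) : PSK (fun i j => v i * v j) := by
  have h := Matrix.posSemidef_vecMulVec_self_star (R := ℂ) (fun i => ((v i : ℝ) : ℂ))
  unfold PSK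
  convert h using 1
  ext i j
  simp [Matrix.vecMulVec]

private theorem PSK.one {n : ℕ} : PSK (fun (_ _ : Fin n) => (1 : ℝ)) :=
  (PSK.rank (fun _ => (1 : ℝ))).congr (by intro i j; simp)

private theorem PSK.mul {n : ℕ} {K L : Fin n → Fin n → ℝ} (hK : PSK K) (hL : PSK L) :
    PSK (fun i j => K i j * L i j) := by
  have h := Matrix.PosSemidef.hadamard (𝕜 := ℂ) hK hL
  have e : (Matrix.of fun i j => ((K i j * L i j : ℝ) : ℂ)) =
      (Matrix.of fun i j => ((K i j : ℝ) : ℂ)) ⊙ (Matrix.of fun i j => ((L i j : ℝ) : ℂ)) := by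
    ext i j
    simp
  unfold PSK
  rw [e]
  exact h

private theorem PSK.add {n : ℕ} {K L : Fin n → Fin n → ℝ} (hK : PSK K) (hL : PSK L) :
    PSK (fun i j => K i j + L i j) := by
  have h := Matrix.PosSemidef.add hK hL
  unfold PSK
  convert h using 1
  ext i j
  simp

private theorem PSK.smul {n : ℕ} {K : Fin n → Fin n → ℝ} (hK : PSK K) {c : ℝ} (hc : 0 ≤ c) :
    PSK (fun i j => c * K i j) := by
  have h1 : PSK (fun (_ _ : Fin n) => c) :=
    (PSK.rank (fun _ : Fin n => Real.sqrt c)).congr (by intro i j; simp [Real.mul_self_sqrt hc])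
  exact h1.mul hK

private theorem PSK.zero {n : ℕ} : PSK (fun (_ _ : Fin n) => (0 : ℝ)) :=
  (PSK.rank (fun _ => (0 : ℝ))).congr (by intro i j; simp)

private theorem PSK.limit {n : ℕ} {K : ℕ → Fin n → Fin n → ℝ} {L : Fin n → Fin n → ℝ}
    (hK : ∀ m, PSK (K m))
    (hL : ∀ i j, Filter.Tendsto (fun m => K m i j) Filter.atTop (nhds (L i j))) : PSK L := by
  unfold PSK
  rw [Matrix.posSemidef_iff_dotProduct_mulVec]
  constructor
  · ext i j
    simp only [Matrix.conjTranspose_apply, Matrix.of_apply, Complex.star_def,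
      Complex.conj_ofReal]
    congr 1
    refine tendsto_nhds_unique (hL j i) ?_
    refine (hL i j).congr fun m => (hK m).symm i j
  · intro x
    have h1 : ∀ m, 0 ≤ star x ⬝ᵥ ((Matrix.of fun i j => ((K m i j : ℝ) : ℂ)) *ᵥ x) :=
      fun m => (hK m).dotProduct_mulVec_nonneg x
    have h2 : Filter.Tendsto
        (fun m => star x ⬝ᵥ ((Matrix.of fun i j => ((K m i j : ℝ) : ℂ)) *ᵥ x)) Filter.atTop
        (nhds (star x ⬝ᵥ ((Matrix.of fun i j => ((L i j : ℝ) : ℂ)) *ᵥ x))) := by
      simp only [dotProduct, mulVec, Matrix.of_apply]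
      apply tendsto_finsetSum
      intro i _
      apply Filter.Tendsto.const_mul
      apply tendsto_finsetSum
      intro j _
      apply Filter.Tendsto.mul_const
      exact (Complex.continuous_ofReal.tendsto _).comp (hL i j)
    exact ge_of_tendsto' h2 h1

private theorem PSK.ofHasSum {n : ℕ} (K : Fin n → Fin n → ℝ) (v : ℕ → Fin n → ℝ)
    (h : ∀ i j, HasSum (fun k => v k i * v k j) (K i j)) : PSK K := by
  have h1 : ∀ m : ℕ, PSK (fun i j => ∑ k ∈ Finset.range m, v k i * v k j) := by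
    intro m
    induction m with
    | zero => exact PSK.zero.congr (by intro i j; simp)
    | succ m ih => exact (ih.add (PSK.rank (v m))).congr (by
        intro i j; rw [Finset.sum_range_succ])
  exact PSK.limit h1 fun i j => (h i j).tendsto_sum_nat

theorem cauchy_psd {n : ℕ} (P : Fin n → ℝ) (hP : ∀ i, 0 < P i) :
    (Matrix.of fun i j => ((1 / (P i + P j) : ℝ) : ℂ)).PosSemidef := by
  have key : PSK (fun i j => 1 / (P i + P j)) := by
    apply PSK.ofHasSum _ (fun k i => Real.sqrt 2 / (1 + P i) * ((1 - P i) / (1 + P i)) ^ k)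
    intro i j
    have hi := hP i
    have hj := hP j
    have hab : ∀ i, |(1 - P i) / (1 + P i)| < 1 := by
      intro i
      have hi := hP i
      rw [abs_div, abs_of_pos (by linarith : 0 < 1 + P i), div_lt_one (by linarith), abs_lt]
      constructor <;> linarith
    have hr : |(1 - P i) / (1 + P i) * ((1 - P j) / (1 + P j))| < 1 := by
      rw [abs_mul]
      have h1 := hab i
      have h2 := hab j
      have h3 := abs_nonneg ((1 - P i) / (1 + P i))
      have h4 := abs_nonneg ((1 - P j) / (1 + P j))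
      nlinarith
    have hs := (hasSum_geometric_of_abs_lt_one hr).mul_left (2 / ((1 + P i) * (1 + P j)))
    have e1 : 2 / ((1 + P i) * (1 + P j)) * (1 - (1 - P i) / (1 + P i) * ((1 - P j) / (1 + P j)))⁻¹
        = 1 / (P i + P j) := by
      have h1 : (1 + P i) ≠ 0 := by linarith
      have h2 : (1 + P j) ≠ 0 := by linarith
      have h3 : P i + P j ≠ 0 := by linarith
      have h4 : 1 - (1 - P i) / (1 + P i) * ((1 - P j) / (1 + P j))
          = 2 * (P i + P j) / ((1 + P i) * (1 + P j)) := by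
        field_simp
        ring
      rw [h4]
      field_simp
    rw [e1] at hs
    refine hs.congr_fun ?_
    intro k
    have h5 : Real.sqrt 2 * Real.sqrt 2 = 2 := Real.mul_self_sqrt (by norm_num)
    rw [mul_pow]
    have h6 : Real.sqrt 2 / (1 + P i) * ((1 - P i) / (1 + P i)) ^ k *
        (Real.sqrt 2 / (1 + P j) * ((1 - P j) / (1 + P j)) ^ k)
        = (Real.sqrt 2 * Real.sqrt 2) / ((1 + P i) * (1 + P j)) *
          (((1 - P i) / (1 + P i)) ^ k * ((1 - P j) / (1 + P j)) ^ k) := by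
      have h1 : (1 + P i) ≠ 0 := by linarith
      have h2 : (1 + P j) ≠ 0 := by linarith
      generalize ((1 - P i) / (1 + P i)) ^ k = x
      generalize ((1 - P j) / (1 + P j)) ^ k = y
      field_simp
    rw [h6, h5]
  exact key


private theorem factor_psd {n : ℕ} (p : Fin n → ℝ) (hp : ∀ i, p i ∈ Ioo 0 π) (σ : ℝ) (h0 : 0 ≤ σ)
    (h1 : σ ≤ 1) (j : ℕ) :
    PSK (fun a b : Fin n => (1 - (σ * ((p a + p b) / 2) / π) ^ 2 / ((j : ℝ) + 1) ^ 2) /
      (1 - (((p a + p b) / 2) / π) ^ 2 / ((j : ℝ) + 1) ^ 2)) := by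
  have hpi := Real.pi_pos
  have hJ : (1 : ℝ) ≤ (j : ℝ) + 1 := by
    have : (0 : ℝ) ≤ (j : ℝ) := Nat.cast_nonneg _
    linarith
  set J : ℝ := (j : ℝ) + 1 with hJdef
  have hJpi : π ≤ J * π := by nlinarith
  have hc1 : PSK (fun a b : Fin n => 1 / ((J * π / 2 - p a / 2) + (J * π / 2 - p b / 2))) :=
    cauchy_psd (fun a => J * π / 2 - p a / 2) (fun a => by have := (hp a).2; linarith)
  have hc2 : PSK (fun a b : Fin n => 1 / ((J * π / 2 + p a / 2) + (J * π / 2 + p b / 2))) :=
    cauchy_psd (fun a => J * π / 2 + p a / 2) (fun a => by have := (hp a).1; positivity)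
  have hs : 0 ≤ 1 - σ ^ 2 := by nlinarith
  have hk := ((PSK.one (n := n)).smul (sq_nonneg σ)).add ((hc1.mul hc2).smul
    (c := (1 - σ ^ 2) * (J * π) ^ 2) (by positivity))
  refine hk.congr ?_
  intro a b
  have ha := hp a
  have hb := hp b
  have e1 : (J * π / 2 - p a / 2) + (J * π / 2 - p b / 2) = J * π - (p a + p b) / 2 := by ring
  have e2 : (J * π / 2 + p a / 2) + (J * π / 2 + p b / 2) = J * π + (p a + p b) / 2 := by ring
  rw [e1, e2]
  have hy1 : 0 < (p a + p b) / 2 := by have := ha.1; have := hb.1; linarith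
  have hy2 : (p a + p b) / 2 < π := by have := ha.2; have := hb.2; linarith
  generalize (p a + p b) / 2 = y at hy1 hy2
  have h3 : 0 < J * π - y := by linarith
  have h4 : 0 < J * π + y := by linarith
  have h5 : 1 - (y / π) ^ 2 / J ^ 2 = (J * π - y) * (J * π + y) / (J * π) ^ 2 := by
    field_simp
    ring
  have h6 : 1 - (σ * y / π) ^ 2 / J ^ 2 = ((J * π) ^ 2 - σ ^ 2 * y ^ 2) / (J * π) ^ 2 := by
    field_simp
  rw [h5, h6]
  field_simp
  ring

private theorem prodPSK {n : ℕ} (K : ℕ → Fin n → Fin n → ℝ) (h : ∀ j, PSK (K j)) (m : ℕ) :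
    PSK (fun a b => ∏ j ∈ Finset.range m, K j a b) := by
  induction m with
  | zero => exact PSK.one.congr (by intro i j; simp)
  | succ m ih => exact (ih.mul (h m)).congr (by intro i j; rw [Finset.prod_range_succ])

private theorem sigma_PSK {n : ℕ} (p : Fin n → ℝ) (hp : ∀ i, p i ∈ Ioo 0 π) (σ : ℝ) (h0 : 0 ≤ σ)
    (h1 : σ ≤ 1) :
    PSK (fun i j => sin (σ * ((p i + p j) / 2)) / sin ((p i + p j) / 2)) := by
  have hpi := Real.pi_pos
  have hprod := fun m => (prodPSK _ (fun j => factor_psd p hp σ h0 h1 j) m).smul h0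
  refine PSK.limit hprod ?_
  intro a b
  have ha := hp a
  have hb := hp b
  have hy1 : 0 < (p a + p b) / 2 := by have := ha.1; have := hb.1; linarith
  have hy2 : (p a + p b) / 2 < π := by have := ha.2; have := hb.2; linarith
  generalize (p a + p b) / 2 = y at hy1 hy2
  have t1 := Real.tendsto_euler_sin_prod (σ * y / π)
  have t2 := Real.tendsto_euler_sin_prod (y / π)
  have e1 : π * (σ * y / π) = σ * y := by field_simp
  have e2 : π * (y / π) = y := by field_simp
  rw [e1] at t1
  rw [e2] at t2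
  have hsin : sin y ≠ 0 := (Real.sin_pos_of_pos_of_lt_pi hy1 hy2).ne'
  have t3 := t1.div t2 hsin
  refine t3.congr ?_
  intro m
  rw [Finset.prod_div_distrib]
  simp only [Pi.div_apply]
  rw [mul_div_mul_comm]
  congr 1
  field_simp

theorem sigma_psd {n : ℕ} (p : Fin n → ℝ) (hp : ∀ i, p i ∈ Ioo 0 π) (σ : ℝ) (h0 : 0 ≤ σ)
    (h1 : σ ≤ 1) :
    (Matrix.of fun i j => ((sin (σ * ((p i + p j) / 2)) / sin ((p i + p j) / 2) : ℝ) : ℂ)).PosSemidef :=
  sigma_PSK p hp σ h0 h1

private theorem cos_mean_pos {n : ℕ} (a : Fin n → ℝ) (ha : ∀ i, a i ∈ Ioo (-(π / 2)) (π / 2))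
    (i j : Fin n) : 0 < cos ((a i + a j) / 2) := by
  apply Real.cos_pos_of_mem_Ioo
  have hi := ha i
  have hj := ha j
  constructor
  · have := hi.1; have := hj.1; linarith
  · have := hi.2; have := hj.2; linarith

private theorem S_PSK_pos {n : ℕ} (a : Fin n → ℝ) (ha : ∀ i, a i ∈ Ioo (-(π / 2)) (π / 2))
    (σ β : ℝ) (h0 : 0 < σ) (h1 : σ < 1) (hβ : |β| ≤ (1 - σ) * (π / 2)) :
    PSK (fun i j => cos (σ * ((a i + a j) / 2) + β) / cos ((a i + a j) / 2)) := by
  have hpi := Real.pi_pos
  obtain ⟨hb1, hb2⟩ := abs_le.mp hβ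
  have hs1 : 0 < (1 - σ) * (π / 2) := by
    have : 0 < 1 - σ := by linarith
    positivity
  have hs2 : (1 - σ) * (π / 2) < π / 2 := by nlinarith
  have hsin2 : 0 < sin (2 * ((1 - σ) * (π / 2))) :=
    Real.sin_pos_of_pos_of_lt_pi (by linarith) (by linarith)
  have hc1 : 0 ≤ sin ((1 - σ) * (π / 2) + β) :=
    Real.sin_nonneg_of_nonneg_of_le_pi (by linarith) (by linarith)
  have hc2 : 0 ≤ sin ((1 - σ) * (π / 2) - β) :=
    Real.sin_nonneg_of_nonneg_of_le_pi (by linarith) (by linarith)
  have k1 := sigma_PSK (fun i => π / 2 - a i)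
    (fun i => ⟨by have := (ha i).2; linarith, by have := (ha i).1; linarith⟩) σ h0.le h1.le
  have k2 := sigma_PSK (fun i => π / 2 + a i)
    (fun i => ⟨by have := (ha i).1; linarith, by have := (ha i).2; linarith⟩) σ h0.le h1.le
  have k := ((k1.smul hc1).add (k2.smul hc2)).smul
    (c := (sin (2 * ((1 - σ) * (π / 2))))⁻¹) (inv_nonneg.mpr hsin2.le)
  refine k.congr ?_
  intro i j
  have hcos := cos_mean_pos a ha i j
  have e1 : (π / 2 - a i + (π / 2 - a j)) / 2 = π / 2 - (a i + a j) / 2 := by ring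
  have e2 : (π / 2 + a i + (π / 2 + a j)) / 2 = π / 2 + (a i + a j) / 2 := by ring
  rw [e1, e2]
  generalize (a i + a j) / 2 = x at hcos
  rw [Real.sin_pi_div_two_sub]
  have e3 : sin (π / 2 + x) = cos x := by
    rw [add_comm, Real.sin_add_pi_div_two]
  rw [e3]
  have e4 : sin (σ * (π / 2 - x)) = cos (σ * x + (1 - σ) * (π / 2)) := by
    rw [← Real.cos_pi_div_two_sub]
    congr 1
    ring
  have e5 : sin (σ * (π / 2 + x)) = cos (σ * x - (1 - σ) * (π / 2)) := by
    rw [← Real.cos_pi_div_two_sub, ← Real.cos_neg]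
    congr 1
    ring
  rw [e4, e5]
  generalize (1 - σ) * (π / 2) = γ at hsin2
  have e6 : cos (σ * x + β) * sin (2 * γ)
      = sin (γ + β) * cos (σ * x + γ) + sin (γ - β) * cos (σ * x - γ) := by
    rw [Real.sin_two_mul, Real.cos_add, Real.cos_add, Real.cos_sub, Real.sin_add, Real.sin_sub]
    have := Real.sin_sq_add_cos_sq γ
    linear_combination (-2 : ℝ) * 0 * this
  have h7 : sin (2 * γ) ≠ 0 := hsin2.ne'
  have h8 : cos x ≠ 0 := hcos.ne'
  field_simp
  linarith

theorem S_psd {n : ℕ} (a : Fin n → ℝ) (ha : ∀ i, a i ∈ Ioo (-(π / 2)) (π / 2)) (σ β : ℝ)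
    (h0 : 0 ≤ σ) (h1 : σ ≤ 1) (hβ : |β| ≤ (1 - σ) * (π / 2)) :
    (Matrix.of fun i j => ((cos (σ * ((a i + a j) / 2) + β) / cos ((a i + a j) / 2) : ℝ) : ℂ)).PosSemidef := by
  have hpi := Real.pi_pos
  suffices h : PSK (fun i j => cos (σ * ((a i + a j) / 2) + β) / cos ((a i + a j) / 2)) from h
  rcases eq_or_lt_of_le h1 with h | h
  · subst h
    have hb : β = 0 := by
      have : |β| ≤ 0 := by linarith
      exact abs_nonpos_iff.mp this
    subst hb
    refine PSK.one.congr ?_
    intro i j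
    rw [one_mul, add_zero, div_self (cos_mean_pos a ha i j).ne']
  · rcases eq_or_lt_of_le h0 with h' | h'
    · subst h'
      have hlim : PSK (fun i j => 1 / cos ((a i + a j) / 2)) := by
        refine PSK.limit (K := fun m i j => cos ((1 / ((m : ℝ) + 1 + 1)) * ((a i + a j) / 2) + 0) /
          cos ((a i + a j) / 2)) ?_ ?_
        · intro m
          have hm : (0 : ℝ) ≤ (m : ℝ) := Nat.cast_nonneg _
          have h2 : 1 / ((m : ℝ) + 1 + 1) < 1 := by
            rw [div_lt_one (by positivity)]; linarith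
          apply S_PSK_pos a ha _ 0 (by positivity) h2
          rw [abs_zero]
          have : 0 ≤ 1 - 1 / ((m : ℝ) + 1 + 1) := by linarith
          positivity
        · intro i j
          apply Filter.Tendsto.div_const
          have t1 : Filter.Tendsto (fun m : ℕ => 1 / ((m : ℝ) + 1 + 1)) Filter.atTop (nhds 0) := by
            have := (tendsto_one_div_add_atTop_nhds_zero_nat (𝕜 := ℝ)).comp
              (Filter.tendsto_add_atTop_nat 1)
            refine this.congr ?_
            intro m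
            simp
          have t2 : Filter.Tendsto (fun m : ℕ => cos ((1 / ((m : ℝ) + 1 + 1)) * ((a i + a j) / 2) + 0))
              Filter.atTop (nhds (cos (0 * ((a i + a j) / 2) + 0))) :=
            (Real.continuous_cos.tendsto _).comp ((t1.mul_const _).add_const 0)
          simpa using t2
      have hb := abs_le.mp hβ
      have hc : 0 ≤ cos β := Real.cos_nonneg_of_mem_Icc ⟨by linarith [hb.1], by linarith [hb.2]⟩
      refine (hlim.smul hc).congr ?_
      intro i j
      rw [zero_mul, zero_add]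
      ring
    · exact S_PSK_pos a ha σ β h' h hβ

end Pool.Agent.Helper766.M
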