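import Mathlib

set_option autoImplicit false

open MeasureTheory Set Real Matrix
open scoped ENNReal ComplexOrder

namespace Pool.Agent.Helper766.M

/-- Loewner kernel of the sine. -/
noncomputable def Lf (a b : ℝ) : ℝ := cos ((a + b) / 2) * sinc ((a - b) / 2)


theorem B_sinc_integral (x : ℝ) : ∫ e in (0:ℝ)..1, cos (e * x) = sinc x := by
  by_cases hx : x = 0
  · subst hx; simp
  · rw [intervalIntegral.integral_comp_mul_right (fun y => cos y) hx, integral_cos,
      sinc_of_ne_zero hx]
    simp only [zero_mul, one_mul, sin_zero, sub_zero, smul_eq_mul]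
    field_simp

theorem B_mul_sinc (x : ℝ) : x * sinc x = sin x := by
  by_cases hx : x = 0
  · subst hx; simp
  · rw [sinc_of_ne_zero hx]; field_simp

theorem B_pt {n : ℕ} (v : Fin n → ℂ) (a : Fin n → ℝ) (s e : ℝ) :
    ((Complex.normSq (∑ j, v j * ((cos (e * s * a j) : ℝ) : ℂ))
      + Complex.normSq (∑ j, v j * ((sin (e * s * a j) : ℝ) : ℂ)) : ℝ) : ℂ)
      = ∑ i, ∑ j, star (v i) * v j * ((cos (e * (s * (a i - a j))) : ℝ) : ℂ) := by
  rw [Complex.ofReal_add, Complex.normSq_eq_conj_mul_self, Complex.normSq_eq_conj_mul_self,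
    map_sum, map_sum, Finset.sum_mul_sum, Finset.sum_mul_sum, ← Finset.sum_add_distrib]
  refine Finset.sum_congr rfl fun i _ => ?_
  rw [← Finset.sum_add_distrib]
  refine Finset.sum_congr rfl fun j _ => ?_
  have h : cos (e * (s * (a i - a j)))
      = cos (e * s * a i) * cos (e * s * a j) + sin (e * s * a i) * sin (e * s * a j) := by
    rw [← cos_sub]
    congr 1
    ring
  rw [h]
  simp only [map_mul, Complex.conj_ofReal, Complex.ofReal_add, Complex.ofReal_mul,
    Complex.star_def]
  ring

theorem B_key {n : ℕ} (a : Fin n → ℝ) (s : ℝ) (v : Fin n → ℂ) :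
    star v ⬝ᵥ ((Matrix.of fun i j => ((sinc (s * (a i - a j)) : ℝ) : ℂ)) *ᵥ v)
      = ((∫ e in (0:ℝ)..1, (Complex.normSq (∑ j, v j * ((cos (e * s * a j) : ℝ) : ℂ))
      + Complex.normSq (∑ j, v j * ((sin (e * s * a j) : ℝ) : ℂ))) : ℝ) : ℂ) := by
  rw [← intervalIntegral.integral_ofReal]
  simp_rw [B_pt]
  rw [intervalIntegral.integral_finsetSum]
  · simp only [dotProduct, mulVec, Pi.star_apply, Matrix.of_apply]
    refine Finset.sum_congr rfl fun i _ => ?_
    rw [intervalIntegral.integral_finsetSum, Finset.mul_sum]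
    · refine Finset.sum_congr rfl fun j _ => ?_
      rw [intervalIntegral.integral_const_mul, intervalIntegral.integral_ofReal, B_sinc_integral]
      ring
    · intro j _
      apply Continuous.intervalIntegrable
      fun_prop
  · intro i _
    apply Continuous.intervalIntegrable
    fun_prop

theorem B_hasDerivAt_S (d s : ℝ) :
    HasDerivAt (fun s : ℝ => s * sinc (s * d)) (cos (s * d)) s := by
  by_cases hd : d = 0
  · subst hd
    simp only [mul_zero, sinc_zero, mul_one, cos_zero]
    exact hasDerivAt_id s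
  · have h : (fun s : ℝ => s * sinc (s * d)) = fun s => sin (s * d) / d := by
      funext s
      rw [← B_mul_sinc]
      field_simp
    rw [h]
    have h1 : HasDerivAt (fun s : ℝ => s * d) d s := by
      simpa using (hasDerivAt_id s).mul_const d
    have h2 := (h1.sin).div_const d
    rwa [mul_div_cancel_right₀ _ hd] at h2

theorem B_int_cos (a c : ℝ) : ∫ s in (0:ℝ)..1, cos (c + s * (a - c)) = Lf a c := by
  unfold Lf
  by_cases h : a - c = 0
  · have : a = c := by linarith
    subst this
    simp
  · have h1 : ∀ s ∈ Set.uIcc (0:ℝ) 1,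
        HasDerivAt (fun s : ℝ => sin (c + s * (a - c)) / (a - c)) (cos (c + s * (a - c))) s := by
      intro s _
      have h2 : HasDerivAt (fun s : ℝ => c + s * (a - c)) (a - c) s := by
        simpa using ((hasDerivAt_id s).mul_const (a - c)).const_add c
      have h3 := (h2.sin).div_const (a - c)
      rwa [mul_div_cancel_right₀ _ h] at h3
    rw [intervalIntegral.integral_eq_sub_of_hasDerivAt h1
      (Continuous.intervalIntegrable (by fun_prop) _ _)]
    have h4 : (a - c) / 2 ≠ 0 := by
      intro h5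
      apply h
      linarith
    rw [sinc_of_ne_zero h4, ← sub_div]
    have h5 : sin (c + 1 * (a - c)) - sin (c + 0 * (a - c)) = 2 * sin ((a - c) / 2)
        * cos ((a + c) / 2) := by
      rw [sin_sub_sin]
      congr 2 <;> [congr 2; skip] <;> ring_nf
    rw [h5]
    field_simp

theorem B_G (c y d s : ℝ) : HasDerivAt (fun s : ℝ => (1 - s) * (cos (c + s * y) * cos (s * d)
      + y * sin (c + s * y) * (s * sinc (s * d))) - cos (c + s * y) * (s * sinc (s * d)))
    ((y ^ 2 - d ^ 2) * ((1 - s) * cos (c + s * y) * (s * sinc (s * d)))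
      - 2 * (cos (c + s * y) * cos (s * d))) s := by
  have hS := B_hasDerivAt_S d s
  have h1 : HasDerivAt (fun s : ℝ => c + s * y) y s := by
    simpa using ((hasDerivAt_id s).mul_const y).const_add c
  have h2 : HasDerivAt (fun s : ℝ => s * d) d s := by
    simpa using (hasDerivAt_id s).mul_const d
  have h3 : HasDerivAt (fun s : ℝ => 1 - s) (-1) s := by
    simpa using (hasDerivAt_id s).const_sub 1
  have h4 := (h3.mul ((h1.cos.mul h2.cos).add ((h1.sin.const_mul y).mul hS))).sub (h1.cos.mul hS)
  have h5 : sin (s * d) = d * (s * sinc (s * d)) := by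
    rw [← B_mul_sinc]; ring
  exact h4.congr_deriv (by
    simp only [Pi.mul_apply, Pi.add_apply]
    rw [h5]
    ring)

theorem sinc_psd {n : ℕ} (a : Fin n → ℝ) (s : ℝ) :
    (Matrix.of fun i j => ((sinc (s * (a i - a j)) : ℝ) : ℂ)).PosSemidef := by
  refine Matrix.PosSemidef.of_dotProduct_mulVec_nonneg ?_ ?_
  · ext i j
    simp only [Matrix.conjTranspose_apply, Matrix.of_apply, Complex.star_def, Complex.conj_ofReal]
    rw [← sinc_neg]
    congr 2
    ring
  · intro v
    rw [B_key]
    have h : 0 ≤ ∫ e in (0:ℝ)..1, (Complex.normSq (∑ j, v j * ((cos (e * s * a j) : ℝ) : ℂ))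
      + Complex.normSq (∑ j, v j * ((sin (e * s * a j) : ℝ) : ℂ))) := by
      apply intervalIntegral.integral_nonneg zero_le_one
      intro e _
      exact add_nonneg (Complex.normSq_nonneg _) (Complex.normSq_nonneg _)
    exact_mod_cast h

theorem kappa_identity (a b c : ℝ) :
    (a - c) * (b - c) * ∫ σ in (0:ℝ)..1, (1 - σ) * cos (c + σ * ((a + b) / 2 - c)) *
      (σ * sinc (σ * ((a - b) / 2))) = Lf a c + Lf b c - Lf a b - cos c := by
  obtain ⟨y, hy⟩ : ∃ y, y = (a + b) / 2 - c := ⟨_, rfl⟩
  obtain ⟨d, hd⟩ : ∃ d, d = (a - b) / 2 := ⟨_, rfl⟩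
  have hcS : Continuous (fun s : ℝ => sinc (s * d)) := by
    exact continuous_sinc.comp (by fun_prop)
  have hI1 : IntervalIntegrable (fun s : ℝ => (1 - s) * cos (c + s * y) * (s * sinc (s * d)))
      volume 0 1 := by
    apply Continuous.intervalIntegrable
    fun_prop
  have hI2 : IntervalIntegrable (fun s : ℝ => cos (c + s * y) * cos (s * d)) volume 0 1 := by
    apply Continuous.intervalIntegrable
    fun_prop
  have h1 := intervalIntegral.integral_eq_sub_of_hasDerivAt (a := 0) (b := 1)
    (fun s _ => B_G c y d s) ((hI1.const_mul (y ^ 2 - d ^ 2)).sub (hI2.const_mul 2))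
  rw [intervalIntegral.integral_sub (hI1.const_mul (y ^ 2 - d ^ 2)) (hI2.const_mul 2),
    intervalIntegral.integral_const_mul, intervalIntegral.integral_const_mul] at h1
  have h2 : 2 * ∫ s in (0:ℝ)..1, cos (c + s * y) * cos (s * d) = Lf a c + Lf b c := by
    rw [← B_int_cos a c, ← B_int_cos b c, ← intervalIntegral.integral_add
      (Continuous.intervalIntegrable (by fun_prop) _ _)
      (Continuous.intervalIntegrable (by fun_prop) _ _), ← intervalIntegral.integral_const_mul]
    apply intervalIntegral.integral_congr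
    intro s _
    have e1 : c + s * (a - c) = (c + s * y) + s * d := by rw [hy, hd]; ring
    have e2 : c + s * (b - c) = (c + s * y) - s * d := by rw [hy, hd]; ring
    show 2 * (cos (c + s * y) * cos (s * d)) = cos (c + s * (a - c)) + cos (c + s * (b - c))
    rw [e1, e2, cos_add (c + s * y) (s * d), cos_sub (c + s * y) (s * d)]
    ring
  have h3 : (a - c) * (b - c) = y ^ 2 - d ^ 2 := by rw [hy, hd]; ring
  have h4 : cos (c + 1 * y) * (1 * sinc (1 * d)) = Lf a b := by
    unfold Lf
    rw [hy, hd]
    congr 2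
    · ring
    · rw [one_mul, one_mul]
  rw [← hy, ← hd, h3]
  rw [h4] at h1
  simp only [sub_self, zero_mul, sub_zero, mul_zero, cos_zero, add_zero, one_mul, mul_one] at h1
  linarith

end Pool.Agent.Helper766.M
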