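import Mathlib
import Pool.Agent.Helper766.M.KerA
import Pool.Agent.Helper766.M.KerB


set_option autoImplicit false

open MeasureTheory Set Real Matrix
open scoped ENNReal ComplexOrder

namespace Pool.Agent.Helper766.M

theorem ki_rot {n : ℕ} (g : Fin n → Fin n → Fin n → ℝ) :
    ∑ i, ∑ j, ∑ k, g i j k = ∑ i, ∑ j, ∑ k, g j k i := by
  rw [Finset.sum_comm (f := fun i j => ∑ k, g j k i)]
  exact Finset.sum_congr rfl fun j _ => Finset.sum_comm

theorem ki_quad {n : ℕ} (τ : Fin n → ℝ) (hτ : ∀ i, τ i ∈ Ioo (-(π / 2)) (π / 2))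
    (r : Matrix (Fin n) (Fin n) ℂ) (hr : r.PosSemidef) (C : Fin n → Fin n → ℝ)
    (hC : C = fun i j => cos ((τ i + τ j) / 2)) (k : Fin n) (σ : ℝ) (h0 : 0 ≤ σ) (h1 : σ ≤ 1) :
    0 ≤ ∑ i, ∑ j, (r i j * r j k * r k i).re / (C i j * C j k * C k i) *
      ((τ i - τ k) * (τ j - τ k)) *
      (cos (τ k + σ * ((τ i + τ j) / 2 - τ k)) * sinc (σ * ((τ i - τ j) / 2))) := by
  have hβ : |(1 - σ) * τ k| ≤ (1 - σ) * (π / 2) := by
    rw [abs_mul, abs_of_nonneg (by linarith : (0:ℝ) ≤ 1 - σ)]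
    refine mul_le_mul_of_nonneg_left ?_ (by linarith)
    exact abs_le.2 ⟨(hτ k).1.le, (hτ k).2.le⟩
  have hQ := (hr.hadamard (S_psd τ hτ σ ((1 - σ) * τ k) h0 h1 hβ)).hadamard (sinc_psd τ (σ / 2))
  obtain ⟨z, hz⟩ : ∃ z : Fin n → ℂ, z = fun i => ((τ i - τ k : ℝ) : ℂ) * r i k / ((C i k : ℝ) : ℂ) :=
    ⟨_, rfl⟩
  have h2 := hQ.dotProduct_mulVec_nonneg z
  have h3 := (Complex.le_def.1 h2).1
  rw [Complex.zero_re] at h3
  have hCs : ∀ i, C k i = C i k := by intro i; rw [hC]; simp only [add_comm]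
  have hrs : ∀ i, star (r i k) = r k i := fun i => by
    have := congrFun (congrFun hr.isHermitian k) i
    simpa [Matrix.conjTranspose_apply] using this
  have key : (star z ⬝ᵥ (Matrix.hadamard (Matrix.hadamard r (Matrix.of fun i j =>
        ((cos (σ * ((τ i + τ j) / 2) + (1 - σ) * τ k) / cos ((τ i + τ j) / 2) : ℝ) : ℂ)))
        (Matrix.of fun i j => ((sinc (σ / 2 * (τ i - τ j)) : ℝ) : ℂ))) *ᵥ z).re =
      ∑ i, ∑ j, (r i j * r j k * r k i).re / (C i j * C j k * C k i) *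
      ((τ i - τ k) * (τ j - τ k)) *
      (cos (τ k + σ * ((τ i + τ j) / 2 - τ k)) * sinc (σ * ((τ i - τ j) / 2))) := by
    simp only [dotProduct, mulVec, Complex.re_sum, Finset.mul_sum]
    refine Finset.sum_congr rfl fun i _ => Finset.sum_congr rfl fun j _ => ?_
    simp only [Pi.star_apply, hadamard_apply, of_apply]
    have e1 : cos (σ * ((τ i + τ j) / 2) + (1 - σ) * τ k) = cos (τ k + σ * ((τ i + τ j) / 2 - τ k)) := by
      congr 1; ring
    have e2 : sinc (σ / 2 * (τ i - τ j)) = sinc (σ * ((τ i - τ j) / 2)) := by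
      congr 1; ring
    have e3 : cos ((τ i + τ j) / 2) = C i j := by rw [hC]
    rw [e1, e2, e3]
    obtain ⟨c1, hc1⟩ : ∃ c1 : ℝ, c1 = cos (τ k + σ * ((τ i + τ j) / 2 - τ k)) := ⟨_, rfl⟩
    obtain ⟨c2, hc2⟩ : ∃ c2 : ℝ, c2 = sinc (σ * ((τ i - τ j) / 2)) := ⟨_, rfl⟩
    rw [← hc1, ← hc2]
    have e4 : star (z i) = ((τ i - τ k : ℝ) : ℂ) * r k i / ((C k i : ℝ) : ℂ) := by
      rw [hz]
      simp only [star_div₀, star_mul', hrs, hCs]
      have : ∀ x : ℝ, star (x : ℂ) = (x : ℂ) := fun x => Complex.conj_ofReal x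
      rw [this, this]
    have e5 : z j = ((τ j - τ k : ℝ) : ℂ) * r j k / ((C j k : ℝ) : ℂ) := by rw [hz]
    rw [e4, e5]
    have e6 : ((τ i - τ k : ℝ) : ℂ) * r k i / ((C k i : ℝ) : ℂ) *
        (r i j * (((c1 / C i j : ℝ)) : ℂ) * ((c2 : ℝ) : ℂ) *
        (((τ j - τ k : ℝ) : ℂ) * r j k / ((C j k : ℝ) : ℂ))) =
        (((1 / (C i j * C j k * C k i) * ((τ i - τ k) * (τ j - τ k)) * (c1 * c2) : ℝ)) : ℂ) *
        (r i j * r j k * r k i) := by
      push_cast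
      ring
    rw [e6, Complex.re_ofReal_mul]
    ring
  rw [← key]
  exact h3

-- TARGET
theorem kernel_ineq {n : ℕ} (τ : Fin n → ℝ) (hτ : ∀ i, τ i ∈ Ioo (-(π / 2)) (π / 2))
    (r : Matrix (Fin n) (Fin n) ℂ) (hr : r.PosSemidef) :
    0 ≤ ∑ i, ∑ j, ∑ k, (r i j * r j k * r k i).re *
      ((sinc ((τ i - τ k) / 2) - cos ((τ i - τ k) / 2)) /
        (cos ((τ i + τ j) / 2) * cos ((τ j + τ k) / 2))) := by
  obtain ⟨C, hC⟩ : ∃ C : Fin n → Fin n → ℝ, C = fun i j => cos ((τ i + τ j) / 2) := ⟨_, rfl⟩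
  have hCpos : ∀ i j, 0 < C i j := by
    intro i j
    rw [hC]
    refine cos_pos_of_mem_Ioo ⟨?_, ?_⟩
    · linarith [(hτ i).1, (hτ j).1]
    · linarith [(hτ i).2, (hτ j).2]
  have hCs : ∀ i j, C i j = C j i := by intro i j; rw [hC]; simp only [add_comm]
  obtain ⟨T, hT⟩ : ∃ T : Fin n → Fin n → Fin n → ℝ, T = fun i j k =>
    (r i j * r j k * r k i).re / (C i j * C j k * C k i) := ⟨_, rfl⟩
  have hTrot : ∀ i j k, T j k i = T i j k := by
    intro i j k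
    rw [hT]
    simp only
    congr 1
    · congr 1; ring
    · ring
  -- rotation of sums against `T`
  have hrot : ∀ f : Fin n → Fin n → Fin n → ℝ,
      ∑ i, ∑ j, ∑ k, T i j k * f i j k = ∑ i, ∑ j, ∑ k, T i j k * f j k i := by
    intro f
    rw [ki_rot]
    simp only [hTrot]
  have hLs : ∀ a b, Lf a b = Lf b a := by
    intro a b
    unfold Lf
    rw [add_comm a b, show (a - b) / 2 = -((b - a) / 2) by ring, sinc_neg]
  have hA1 : ∑ i, ∑ j, ∑ k, T i j k * Lf (τ i) (τ k) = ∑ i, ∑ j, ∑ k, T i j k * Lf (τ i) (τ j) := by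
    rw [hrot (fun i _ k => Lf (τ i) (τ k))]
    refine Finset.sum_congr rfl fun i _ => Finset.sum_congr rfl fun j _ =>
      Finset.sum_congr rfl fun k _ => ?_
    rw [hLs (τ j) (τ i)]
  have hA2 : ∑ i, ∑ j, ∑ k, T i j k * Lf (τ i) (τ j) = ∑ i, ∑ j, ∑ k, T i j k * Lf (τ j) (τ k) :=
    hrot (fun i j _ => Lf (τ i) (τ j))
  have hB1 : ∑ i, ∑ j, ∑ k, T i j k * cos (τ i) = ∑ i, ∑ j, ∑ k, T i j k * cos (τ j) :=
    hrot (fun i _ _ => cos (τ i))
  have hB2 : ∑ i, ∑ j, ∑ k, T i j k * cos (τ j) = ∑ i, ∑ j, ∑ k, T i j k * cos (τ k) :=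
    hrot (fun _ j _ => cos (τ j))
  have hsum : ∀ i j k, (r i j * r j k * r k i).re *
      ((sinc ((τ i - τ k) / 2) - cos ((τ i - τ k) / 2)) /
        (cos ((τ i + τ j) / 2) * cos ((τ j + τ k) / 2))) =
      T i j k * Lf (τ i) (τ k) - (T i j k * cos (τ i) + T i j k * cos (τ k)) / 2 := by
    intro i j k
    have e1 : cos ((τ i + τ j) / 2) = C i j := by rw [hC]
    have e2 : cos ((τ j + τ k) / 2) = C j k := by rw [hC]
    have e3 : Lf (τ i) (τ k) = C k i * sinc ((τ i - τ k) / 2) := by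
      rw [hCs k i, hC]; rfl
    have e4 : cos (τ i) + cos (τ k) = 2 * C k i * cos ((τ i - τ k) / 2) := by
      rw [hCs k i, hC, Real.cos_add_cos]
    have e5 : T i j k * Lf (τ i) (τ k) - (T i j k * cos (τ i) + T i j k * cos (τ k)) / 2 =
        T i j k * (Lf (τ i) (τ k) - (cos (τ i) + cos (τ k)) / 2) := by ring
    rw [e5, e3, e4, e1, e2, hT]
    have p1 := (hCpos i j).ne'
    have p2 := (hCpos j k).ne'
    have p3 := (hCpos k i).ne'
    field_simp
  have hmain : ∑ i, ∑ j, ∑ k, (r i j * r j k * r k i).re *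
      ((sinc ((τ i - τ k) / 2) - cos ((τ i - τ k) / 2)) /
        (cos ((τ i + τ j) / 2) * cos ((τ j + τ k) / 2))) =
      ∑ i, ∑ j, ∑ k, T i j k * (Lf (τ i) (τ k) + Lf (τ j) (τ k) - Lf (τ i) (τ j) - cos (τ k)) := by
    simp only [hsum]
    have f1 : ∀ i j k, T i j k * (Lf (τ i) (τ k) + Lf (τ j) (τ k) - Lf (τ i) (τ j) - cos (τ k)) =
        T i j k * Lf (τ i) (τ k) + T i j k * Lf (τ j) (τ k) - T i j k * Lf (τ i) (τ j)
          - T i j k * cos (τ k) := by intro i j k; ring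
    simp only [f1, Finset.sum_sub_distrib, Finset.sum_add_distrib, ← Finset.sum_div]
    rw [← hA2, hB1, hB2]
    ring
  rw [hmain]
  have hk : ∀ i j k, T i j k * (Lf (τ i) (τ k) + Lf (τ j) (τ k) - Lf (τ i) (τ j) - cos (τ k)) =
      ∫ σ in (0:ℝ)..1, T i j k * ((τ i - τ k) * (τ j - τ k)) *
        ((1 - σ) * cos (τ k + σ * ((τ i + τ j) / 2 - τ k)) * (σ * sinc (σ * ((τ i - τ j) / 2)))) := by
    intro i j k
    rw [intervalIntegral.integral_const_mul, ← kappa_identity]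
    ring
  simp only [hk]
  have hswap : ∀ g : Fin n → Fin n → Fin n → ℝ, ∑ i, ∑ j, ∑ k, g i j k = ∑ k, ∑ i, ∑ j, g i j k := by
    intro g
    rw [ki_rot, ki_rot]
  rw [hswap]
  refine Finset.sum_nonneg fun k _ => ?_
  have hcont : ∀ i j, Continuous fun σ : ℝ => T i j k * ((τ i - τ k) * (τ j - τ k)) *
        ((1 - σ) * cos (τ k + σ * ((τ i + τ j) / 2 - τ k)) * (σ * sinc (σ * ((τ i - τ j) / 2)))) := by
    intro i j
    have h1 : Continuous fun σ : ℝ => sinc (σ * ((τ i - τ j) / 2)) :=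
      continuous_sinc.comp (by fun_prop)
    fun_prop
  have hint : ∑ i, ∑ j, ∫ σ in (0:ℝ)..1, T i j k * ((τ i - τ k) * (τ j - τ k)) *
        ((1 - σ) * cos (τ k + σ * ((τ i + τ j) / 2 - τ k)) * (σ * sinc (σ * ((τ i - τ j) / 2)))) =
      ∫ σ in (0:ℝ)..1, ∑ i, ∑ j, T i j k * ((τ i - τ k) * (τ j - τ k)) *
        ((1 - σ) * cos (τ k + σ * ((τ i + τ j) / 2 - τ k)) * (σ * sinc (σ * ((τ i - τ j) / 2)))) := by
    rw [intervalIntegral.integral_finsetSum]
    · refine Finset.sum_congr rfl fun i _ => ?_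
      rw [intervalIntegral.integral_finsetSum]
      intro j _
      exact (hcont i j).intervalIntegrable _ _
    · intro i _
      exact (continuous_finsetSum _ fun j _ => hcont i j).intervalIntegrable _ _
  rw [hint]
  refine intervalIntegral.integral_nonneg zero_le_one fun σ hσ => ?_
  have hq := ki_quad τ hτ r hr C hC k σ hσ.1 hσ.2
  have e : ∑ i, ∑ j, T i j k * ((τ i - τ k) * (τ j - τ k)) *
        ((1 - σ) * cos (τ k + σ * ((τ i + τ j) / 2 - τ k)) * (σ * sinc (σ * ((τ i - τ j) / 2)))) =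
      ((1 - σ) * σ) * ∑ i, ∑ j, (r i j * r j k * r k i).re / (C i j * C j k * C k i) *
      ((τ i - τ k) * (τ j - τ k)) *
      (cos (τ k + σ * ((τ i + τ j) / 2 - τ k)) * sinc (σ * ((τ i - τ j) / 2))) := by
    rw [Finset.mul_sum]
    refine Finset.sum_congr rfl fun i _ => ?_
    rw [Finset.mul_sum]
    refine Finset.sum_congr rfl fun j _ => ?_
    rw [hT]
    ring
  rw [e]
  exact mul_nonneg (mul_nonneg (by linarith [hσ.2]) hσ.1) hq

end Pool.Agent.Helper766.M
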