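import Mathlib
import Pool.Agent.Helper766.M.Defs


set_option autoImplicit false

open MeasureTheory Set Real Matrix
open scoped ENNReal ComplexOrder

namespace Pool.Agent.Helper766.M


theorem beta_lint_one {δ q : ℝ} (hδ : 0 < δ) (hq : 0 < q) :
    ∫⁻ t in Ioi (0 : ℝ), ENNReal.ofReal (t ^ (δ - 1)) * (1 - ENNReal.ofReal t) ^ q =
      ENNReal.ofReal (ProbabilityTheory.beta δ (q + 1)) := by
  have hb : 0 < ProbabilityTheory.beta δ (q + 1) := ProbabilityTheory.beta_pos hδ (by linarith)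
  have h1 := ProbabilityTheory.lintegral_betaPDF_eq_one hδ (show 0 < q + 1 by linarith)
  rw [ProbabilityTheory.lintegral_betaPDF] at h1
  have h2 : ∫⁻ (x : ℝ) in Ioo 0 1, ENNReal.ofReal (1 / ProbabilityTheory.beta δ (q + 1) *
      x ^ (δ - 1) * (1 - x) ^ (q + 1 - 1)) = ENNReal.ofReal (1 / ProbabilityTheory.beta δ (q + 1)) *
      ∫⁻ (x : ℝ) in Ioo 0 1, ENNReal.ofReal (x ^ (δ - 1) * (1 - x) ^ q) := by
    rw [← lintegral_const_mul' _ _ ENNReal.ofReal_ne_top]
    apply lintegral_congr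
    intro x
    rw [← ENNReal.ofReal_mul (by positivity), add_sub_cancel_right, mul_assoc]
  rw [h2] at h1
  have h3 : ∫⁻ (x : ℝ) in Ioo 0 1, ENNReal.ofReal (x ^ (δ - 1) * (1 - x) ^ q) =
      ENNReal.ofReal (ProbabilityTheory.beta δ (q + 1)) := by
    have h4 : ENNReal.ofReal (ProbabilityTheory.beta δ (q + 1)) *
        ENNReal.ofReal (1 / ProbabilityTheory.beta δ (q + 1)) = 1 := by
      rw [← ENNReal.ofReal_mul hb.le, mul_one_div_cancel hb.ne', ENNReal.ofReal_one]
    calc _ = 1 * ∫⁻ (x : ℝ) in Ioo 0 1, ENNReal.ofReal (x ^ (δ - 1) * (1 - x) ^ q) := (one_mul _).symm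
      _ = ENNReal.ofReal (ProbabilityTheory.beta δ (q + 1)) *
        (ENNReal.ofReal (1 / ProbabilityTheory.beta δ (q + 1)) *
          ∫⁻ (x : ℝ) in Ioo 0 1, ENNReal.ofReal (x ^ (δ - 1) * (1 - x) ^ q)) := by
            rw [← mul_assoc, h4]
      _ = _ := by rw [h1, mul_one]
  rw [← h3, ← Ioo_union_Ici_eq_Ioi (show (0:ℝ) < 1 by norm_num),
    lintegral_union measurableSet_Ici (by
      rw [Set.disjoint_left]
      intro x hx hx'
      exact absurd hx.2 (not_lt.2 hx'))]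
  have h5 : ∫⁻ t in Ici (1 : ℝ), ENNReal.ofReal (t ^ (δ - 1)) * (1 - ENNReal.ofReal t) ^ q = 0 := by
    apply setLIntegral_eq_zero measurableSet_Ici
    intro t ht
    have h6 : 1 - ENNReal.ofReal t = 0 := by
      rw [tsub_eq_zero_iff_le]
      exact ENNReal.one_le_ofReal.2 ht
    change ENNReal.ofReal (t ^ (δ - 1)) * (1 - ENNReal.ofReal t) ^ q = 0
    rw [h6, ENNReal.zero_rpow_of_pos hq, mul_zero]
  rw [h5, add_zero]
  apply setLIntegral_congr_fun measurableSet_Ioo
  intro t ht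
  have h7 : 1 - ENNReal.ofReal t = ENNReal.ofReal (1 - t) := by
    rw [ENNReal.ofReal_sub _ ht.1.le, ENNReal.ofReal_one]
  have h8 : 0 < 1 - t := by linarith [ht.2]
  beta_reduce
  rw [h7, ENNReal.ofReal_rpow_of_pos h8, ← ENNReal.ofReal_mul (Real.rpow_nonneg ht.1.le _)]

theorem beta_lint_scale (s : ℝ) (hs : 0 < s) (f : ℝ → ℝ≥0∞) :
    ∫⁻ t in Ioi (0 : ℝ), f t = ENNReal.ofReal s * ∫⁻ x in Ioi (0 : ℝ), f (s * x) := by
  rw [← lintegral_indicator measurableSet_Ioi, ← lintegral_indicator measurableSet_Ioi]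
  conv_lhs => rw [← Real.smul_map_volume_mul_left hs.ne']
  rw [lintegral_smul_measure, abs_of_pos hs, (measurableEmbedding_mulLeft₀ hs.ne').lintegral_map,
    smul_eq_mul]
  congr 1
  apply lintegral_congr
  intro x
  by_cases hx : x ∈ Ioi (0:ℝ)
  · have hx' : s * x ∈ Ioi (0:ℝ) := mul_pos hs hx
    rw [indicator_of_mem hx, indicator_of_mem hx']
  · have hx' : s * x ∉ Ioi (0:ℝ) := by
      intro h
      exact hx ((mul_pos_iff_of_pos_left hs).1 h)
    rw [indicator_of_notMem hx, indicator_of_notMem hx']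

theorem beta_lint (v : ℝ≥0∞) {δ q : ℝ} (hδ : 0 < δ) (hq : 0 < q) :
    ∫⁻ t in Ioi (0 : ℝ), ENNReal.ofReal (t ^ (δ - 1)) * (v - ENNReal.ofReal t) ^ q =
      ENNReal.ofReal (Gamma δ * Gamma (q + 1) / Gamma (δ + q + 1)) * v ^ (q + δ) := by
  have hc : 0 < Gamma δ * Gamma (q + 1) / Gamma (δ + q + 1) :=
    div_pos (mul_pos (Real.Gamma_pos_of_pos hδ) (Real.Gamma_pos_of_pos (by linarith)))
      (Real.Gamma_pos_of_pos (by linarith))
  have hcb : ProbabilityTheory.beta δ (q + 1) = Gamma δ * Gamma (q + 1) / Gamma (δ + q + 1) := by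
    unfold ProbabilityTheory.beta
    rw [add_assoc]
  induction v using ENNReal.recTopCoe with
  | top =>
    have h1 : ∀ t ∈ Ioi (0:ℝ), ENNReal.ofReal (t ^ (δ - 1)) * (⊤ - ENNReal.ofReal t) ^ q = ⊤ := by
      intro t ht
      rw [ENNReal.top_sub ENNReal.ofReal_ne_top, ENNReal.top_rpow_of_pos hq, ENNReal.mul_top]
      have : 0 < t ^ (δ - 1) := Real.rpow_pos_of_pos ht _
      exact (ENNReal.ofReal_pos.2 this).ne'
    rw [setLIntegral_congr_fun measurableSet_Ioi h1, ENNReal.top_rpow_of_pos (by linarith),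
      ENNReal.mul_top (ENNReal.ofReal_pos.2 hc).ne', setLIntegral_const, Real.volume_Ioi,
      ENNReal.top_mul_top]
  | coe a =>
    rcases eq_or_ne a 0 with rfl | ha
    · rw [ENNReal.coe_zero, ENNReal.zero_rpow_of_pos (by linarith), mul_zero]
      apply setLIntegral_eq_zero measurableSet_Ioi
      intro t _
      change ENNReal.ofReal (t ^ (δ - 1)) * (0 - ENNReal.ofReal t) ^ q = 0
      rw [zero_tsub, ENNReal.zero_rpow_of_pos hq, mul_zero]
    · have hs : (0:ℝ) < (a:ℝ) := by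
        have : 0 < a := pos_iff_ne_zero.2 ha
        exact_mod_cast this
      have hav : ((a : ℝ≥0∞)) = ENNReal.ofReal (a:ℝ) := (ENNReal.ofReal_coe_nnreal).symm
      rw [hav]
      generalize (a:ℝ) = s at hs
      have hs0 : ENNReal.ofReal s ≠ 0 := (ENNReal.ofReal_pos.2 hs).ne'
      have hst : ENNReal.ofReal s ≠ ⊤ := ENNReal.ofReal_ne_top
      rw [beta_lint_scale s hs, ← hcb, ← beta_lint_one hδ hq]
      have h2 : ∀ x ∈ Ioi (0:ℝ), ENNReal.ofReal ((s * x) ^ (δ - 1)) *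
          (ENNReal.ofReal s - ENNReal.ofReal (s * x)) ^ q =
          (ENNReal.ofReal s ^ (δ - 1) * ENNReal.ofReal s ^ q) *
            (ENNReal.ofReal (x ^ (δ - 1)) * (1 - ENNReal.ofReal x) ^ q) := by
        intro x hx
        have hx0 : (0:ℝ) < x := hx
        have h3 : ENNReal.ofReal s - ENNReal.ofReal (s * x) =
            ENNReal.ofReal s * (1 - ENNReal.ofReal x) := by
          rw [ENNReal.ofReal_mul hs.le, ENNReal.mul_sub (fun _ _ => hst), mul_one]
        rw [h3, ENNReal.mul_rpow_of_nonneg _ _ hq.le, Real.mul_rpow hs.le hx0.le,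
          ENNReal.ofReal_mul (Real.rpow_nonneg hs.le _),
          ← ENNReal.ofReal_rpow_of_pos (p := δ - 1) hs]
        ring
      rw [setLIntegral_congr_fun measurableSet_Ioi h2,
        lintegral_const_mul' _ _ (ENNReal.mul_ne_top (ENNReal.rpow_ne_top_of_ne_zero hs0 hst)
          (ENNReal.rpow_ne_top_of_ne_zero hs0 hst))]
      have h4 : ENNReal.ofReal s ^ (q + δ) =
          ENNReal.ofReal s * (ENNReal.ofReal s ^ (δ - 1) * ENNReal.ofReal s ^ q) := by
        have e : q + δ = 1 + ((δ - 1) + q) := by ring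
        rw [e, ENNReal.rpow_add _ _ hs0 hst, ENNReal.rpow_add _ _ hs0 hst, ENNReal.rpow_one]
      rw [h4]
      ring


end Pool.Agent.Helper766.M
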