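import Mathlib
import Pool.Agent.Helper766.M.Defs
import Pool.Agent.Helper766.M.L_beta_lint


set_option autoImplicit false

open MeasureTheory Set Real Matrix
open scoped ENNReal ComplexOrder

namespace Pool.Agent.Helper766.M


theorem AL_core_const : Gamma (1 / 2 : ℝ) * Gamma ((3 / 2 : ℝ) + 1) /
    Gamma ((1 / 2 : ℝ) + 3 / 2 + 1) = 3 * π / 8 := by
  have h1 : Gamma ((3 / 2 : ℝ) + 1) = 3 / 4 * √π := by
    rw [Real.Gamma_add_one (by norm_num), show (3 / 2 : ℝ) = 1 / 2 + 1 by norm_num,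
      Real.Gamma_add_one (by norm_num), Real.Gamma_one_half_eq]
    ring
  have h2 : Gamma ((1 / 2 : ℝ) + 3 / 2 + 1) = 2 := by
    rw [show (1 / 2 : ℝ) + 3 / 2 + 1 = ((2 : ℕ) : ℝ) + 1 by norm_num,
      Real.Gamma_nat_eq_factorial]
    norm_num
  rw [h1, h2, Real.Gamma_one_half_eq]
  have h3 : √π * √π = π := Real.mul_self_sqrt pi_pos.le
  calc √π * (3 / 4 * √π) / 2 = 3 / 8 * (√π * √π) := by ring
    _ = 3 * π / 8 := by rw [h3]; ring

theorem AL_core_cube (a : ℝ) : √(max a 0) ^ 3 = (max a 0) ^ (3 / 2 : ℝ) := by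
  rw [Real.sqrt_eq_rpow, ← Real.rpow_natCast, ← Real.rpow_mul (le_max_right _ _)]
  norm_num

theorem AL_core_mul (a : ℝ) : √(max a 0) * a = √(max a 0) ^ 3 := by
  rcases le_total a 0 with h | h
  · rw [max_eq_right h]
    simp
  · rw [max_eq_left h]
    have := Real.sq_sqrt h
    calc √a * a = √a * (√a ^ 2) := by rw [this]
      _ = √a ^ 3 := by ring

theorem AL_core_point {N : ℕ} (X T : Fin N → ℝ≥0∞) (hX : ∀ i, X i ≠ ⊤) (hT : ∀ i, T i ≠ ⊤)
    (l : Fin N → ℝ) (hl : ∀ i, 0 ≤ l i) (w : ℝ≥0∞) (e : Fin N → ℝ)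
    (he : ∀ i, e i = ((X i).toReal - (T i).toReal) / l i) (t : ℝ) (ht : 0 < t)
    (h : ∀ b : Fin N → ℝ, (∀ i, 0 ≤ b i) →
      ∑ i, ENNReal.ofReal (b i / l i) * X i ≤ ∑ i, ENNReal.ofReal (b i / l i) * T i +
        ∑ i, ENNReal.ofReal (b i * t) + ENNReal.ofReal (1 / 3 * ∑ i, b i ^ 3) + w) :
    ∑ i, ENNReal.ofReal (2 / 3) * (ENNReal.ofReal (e i) - ENNReal.ofReal t) ^ (3 / 2 : ℝ) ≤ w := by
  rcases eq_or_ne w ⊤ with hw | hw
  · rw [hw]; exact le_top
  have hb : ∀ i, 0 ≤ √(max (e i - t) 0) := fun i => Real.sqrt_nonneg _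
  have h1 := h (fun i => √(max (e i - t) 0)) hb
  have hconvX : ∀ i, ENNReal.ofReal (√(max (e i - t) 0) / l i) * X i =
      ENNReal.ofReal (√(max (e i - t) 0) / l i * (X i).toReal) := by
    intro i
    rw [ENNReal.ofReal_mul (div_nonneg (hb i) (hl i)), ENNReal.ofReal_toReal (hX i)]
  have hconvT : ∀ i, ENNReal.ofReal (√(max (e i - t) 0) / l i) * T i =
      ENNReal.ofReal (√(max (e i - t) 0) / l i * (T i).toReal) := by
    intro i
    rw [ENNReal.ofReal_mul (div_nonneg (hb i) (hl i)), ENNReal.ofReal_toReal (hT i)]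
  have hnX : ∀ i ∈ Finset.univ, 0 ≤ √(max (e i - t) 0) / l i * (X i).toReal := fun i _ =>
    mul_nonneg (div_nonneg (hb i) (hl i)) ENNReal.toReal_nonneg
  have hnT : ∀ i ∈ Finset.univ, 0 ≤ √(max (e i - t) 0) / l i * (T i).toReal := fun i _ =>
    mul_nonneg (div_nonneg (hb i) (hl i)) ENNReal.toReal_nonneg
  have hnt : ∀ i ∈ Finset.univ, 0 ≤ √(max (e i - t) 0) * t := fun i _ =>
    mul_nonneg (hb i) ht.le
  have hn3 : 0 ≤ 1 / 3 * ∑ i, √(max (e i - t) 0) ^ 3 :=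
    mul_nonneg (by norm_num) (Finset.sum_nonneg fun i _ => pow_nonneg (hb i) 3)
  simp only [hconvX, hconvT] at h1
  rw [← ENNReal.ofReal_sum_of_nonneg hnX, ← ENNReal.ofReal_sum_of_nonneg hnT,
    ← ENNReal.ofReal_sum_of_nonneg hnt,
    ← ENNReal.ofReal_add (Finset.sum_nonneg hnT) (Finset.sum_nonneg hnt),
    ← ENNReal.ofReal_add (add_nonneg (Finset.sum_nonneg hnT) (Finset.sum_nonneg hnt)) hn3,
    ← ENNReal.ofReal_toReal hw,
    ← ENNReal.ofReal_add (add_nonneg (add_nonneg (Finset.sum_nonneg hnT)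
      (Finset.sum_nonneg hnt)) hn3) ENNReal.toReal_nonneg,
    ENNReal.ofReal_le_ofReal_iff (add_nonneg (add_nonneg (add_nonneg (Finset.sum_nonneg hnT)
      (Finset.sum_nonneg hnt)) hn3) ENNReal.toReal_nonneg)] at h1
  have h2 : ∑ i, √(max (e i - t) 0) / l i * (X i).toReal -
      ∑ i, √(max (e i - t) 0) / l i * (T i).toReal - ∑ i, √(max (e i - t) 0) * t =
      ∑ i, √(max (e i - t) 0) ^ 3 := by
    rw [← Finset.sum_sub_distrib, ← Finset.sum_sub_distrib]
    refine Finset.sum_congr rfl fun i _ => ?_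
    rw [← AL_core_mul (e i - t), mul_sub]
    have : √(max (e i - t) 0) / l i * (X i).toReal - √(max (e i - t) 0) / l i * (T i).toReal =
        √(max (e i - t) 0) * e i := by
      rw [he i]
      ring
    rw [this]
  have h3 : 2 / 3 * ∑ i, √(max (e i - t) 0) ^ 3 ≤ w.toReal := by linarith
  have h4 : ∀ i, ENNReal.ofReal (2 / 3) * (ENNReal.ofReal (e i) - ENNReal.ofReal t) ^ (3 / 2 : ℝ) =
      ENNReal.ofReal (2 / 3 * √(max (e i - t) 0) ^ 3) := by
    intro i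
    rw [ENNReal.ofReal_mul (by norm_num), AL_core_cube,
      ← ENNReal.ofReal_rpow_of_nonneg (le_max_right _ _) (by norm_num),
      ← ENNReal.ofReal_sub _ ht.le, ENNReal.ofReal_max, ENNReal.ofReal_zero]
    simp
  simp only [h4]
  rw [← ENNReal.ofReal_sum_of_nonneg (fun i _ => mul_nonneg (by norm_num) (pow_nonneg (hb i) 3)),
    ← Finset.mul_sum]
  exact (ENNReal.ofReal_le_iff_le_toReal hw).mpr h3

theorem AL_core {N : ℕ} (X T : Fin N → ℝ≥0∞) (hX : ∀ i, X i ≠ ⊤) (hT : ∀ i, T i ≠ ⊤)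
    (l : Fin N → ℝ) (hl : ∀ i, 0 ≤ l i) (h0 : ∀ i, l i = 0 → X i = 0) (W : ℝ → ℝ≥0∞)
    (h : ∀ t : ℝ, 0 < t → ∀ b : Fin N → ℝ, (∀ i, 0 ≤ b i) →
      ∑ i, ENNReal.ofReal (b i / l i) * X i ≤ ∑ i, ENNReal.ofReal (b i / l i) * T i +
        ∑ i, ENNReal.ofReal (b i * t) + ENNReal.ofReal (1 / 3 * ∑ i, b i ^ 3) + W t) :
    ∑ i, X i ≤ ∑ i, T i + ENNReal.ofReal (2 * ∑ i, l i ^ 2) +
      ENNReal.ofReal (1 / (2 * π)) *
        ∫⁻ t in Ioi (0 : ℝ), ENNReal.ofReal (t ^ ((1 / 2 : ℝ) - 1)) * W t := by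
  obtain ⟨e, he⟩ : ∃ e : Fin N → ℝ, ∀ i, e i = ((X i).toReal - (T i).toReal) / l i :=
    ⟨fun i => ((X i).toReal - (T i).toReal) / l i, fun i => rfl⟩
  have hpt : ∀ t : ℝ, 0 < t → ∑ i, ENNReal.ofReal (2 / 3) *
      (ENNReal.ofReal (e i) - ENNReal.ofReal t) ^ (3 / 2 : ℝ) ≤ W t := fun t ht =>
    AL_core_point X T hX hT l hl (W t) e he t ht (h t ht)
  -- the integral
  have hint : ∑ i, ENNReal.ofReal (2 / 3) * (ENNReal.ofReal (3 * π / 8) *
      ENNReal.ofReal (e i) ^ (2 : ℝ)) ≤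
      ∫⁻ t in Ioi (0 : ℝ), ENNReal.ofReal (t ^ ((1 / 2 : ℝ) - 1)) * W t := by
    have hB : ∀ i, ENNReal.ofReal (3 * π / 8) * ENNReal.ofReal (e i) ^ (2 : ℝ) =
        ∫⁻ t in Ioi (0 : ℝ), ENNReal.ofReal (t ^ ((1 / 2 : ℝ) - 1)) *
          (ENNReal.ofReal (e i) - ENNReal.ofReal t) ^ (3 / 2 : ℝ) := by
      intro i
      rw [beta_lint (ENNReal.ofReal (e i)) (by norm_num : (0 : ℝ) < 1 / 2)
        (by norm_num : (0 : ℝ) < 3 / 2), AL_core_const]
      norm_num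
    have hm : ∀ i, Measurable (fun t : ℝ => ENNReal.ofReal (t ^ ((1 / 2 : ℝ) - 1)) *
          (ENNReal.ofReal (e i) - ENNReal.ofReal t) ^ (3 / 2 : ℝ)) := by
      intro i
      have h1 : Measurable (fun t : ℝ => t ^ ((1 / 2 : ℝ) - 1)) :=
        measurable_id.pow_const _
      have h2 : Measurable (fun t : ℝ => ENNReal.ofReal (e i) - ENNReal.ofReal t) :=
        measurable_const.sub ENNReal.measurable_ofReal
      exact h1.ennreal_ofReal.mul (h2.pow_const _)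
    calc ∑ i, ENNReal.ofReal (2 / 3) * (ENNReal.ofReal (3 * π / 8) *
          ENNReal.ofReal (e i) ^ (2 : ℝ))
        = ∑ i, ∫⁻ t in Ioi (0 : ℝ), ENNReal.ofReal (2 / 3) *
            (ENNReal.ofReal (t ^ ((1 / 2 : ℝ) - 1)) *
            (ENNReal.ofReal (e i) - ENNReal.ofReal t) ^ (3 / 2 : ℝ)) := by
          refine Finset.sum_congr rfl fun i _ => ?_
          rw [hB i, lintegral_const_mul _ (hm i)]
      _ = ∫⁻ t in Ioi (0 : ℝ), ∑ i, ENNReal.ofReal (2 / 3) *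
            (ENNReal.ofReal (t ^ ((1 / 2 : ℝ) - 1)) *
            (ENNReal.ofReal (e i) - ENNReal.ofReal t) ^ (3 / 2 : ℝ)) := by
          rw [lintegral_finsetSum _ (fun i _ => (hm i).const_mul _)]
      _ ≤ ∫⁻ t in Ioi (0 : ℝ), ENNReal.ofReal (t ^ ((1 / 2 : ℝ) - 1)) * W t := by
          refine setLIntegral_mono' measurableSet_Ioi fun t ht => ?_
          calc ∑ i, ENNReal.ofReal (2 / 3) * (ENNReal.ofReal (t ^ ((1 / 2 : ℝ) - 1)) *
                (ENNReal.ofReal (e i) - ENNReal.ofReal t) ^ (3 / 2 : ℝ))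
              = ENNReal.ofReal (t ^ ((1 / 2 : ℝ) - 1)) * ∑ i, ENNReal.ofReal (2 / 3) *
                (ENNReal.ofReal (e i) - ENNReal.ofReal t) ^ (3 / 2 : ℝ) := by
                rw [Finset.mul_sum]
                refine Finset.sum_congr rfl fun i _ => ?_
                ring
            _ ≤ _ := by gcongr; exact hpt t ht
  -- the pointwise inequality
  have hXi : ∀ i, X i ≤ T i + ENNReal.ofReal (2 * l i ^ 2) +
      ENNReal.ofReal (1 / 8 * (max (e i) 0) ^ 2) := by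
    intro i
    rcases eq_or_lt_of_le (hl i) with h1 | h1
    · rw [h0 i h1.symm]; exact zero_le
    have h2 : (X i).toReal = (T i).toReal + l i * e i := by
      rw [he i]
      field_simp
      ring
    have h3 : l i * e i ≤ 2 * l i ^ 2 + 1 / 8 * (max (e i) 0) ^ 2 := by
      have h4 : l i * e i ≤ l i * max (e i) 0 :=
        mul_le_mul_of_nonneg_left (le_max_left _ _) h1.le
      nlinarith [sq_nonneg (l i - max (e i) 0 / 4)]
    rw [← ENNReal.ofReal_toReal (hX i), ← ENNReal.ofReal_toReal (hT i),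
      ← ENNReal.ofReal_add ENNReal.toReal_nonneg (by positivity),
      ← ENNReal.ofReal_add (by positivity) (by positivity)]
    apply ENNReal.ofReal_le_ofReal
    linarith
  have hsum : ∑ i, X i ≤ ∑ i, T i + ENNReal.ofReal (2 * ∑ i, l i ^ 2) +
      ∑ i, ENNReal.ofReal (1 / 8 * (max (e i) 0) ^ 2) := by
    calc ∑ i, X i ≤ ∑ i, (T i + ENNReal.ofReal (2 * l i ^ 2) +
          ENNReal.ofReal (1 / 8 * (max (e i) 0) ^ 2)) := Finset.sum_le_sum fun i _ => hXi i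
      _ = _ := by
        rw [Finset.sum_add_distrib, Finset.sum_add_distrib, Finset.mul_sum,
          ENNReal.ofReal_sum_of_nonneg (fun i _ => by positivity)]
  refine hsum.trans ?_
  gcongr
  calc ∑ i, ENNReal.ofReal (1 / 8 * (max (e i) 0) ^ 2)
      = ENNReal.ofReal (1 / (2 * π)) * ∑ i, ENNReal.ofReal (2 / 3) *
          (ENNReal.ofReal (3 * π / 8) * ENNReal.ofReal (e i) ^ (2 : ℝ)) := by
        rw [Finset.mul_sum]
        refine Finset.sum_congr rfl fun i _ => ?_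
        have h5 : ENNReal.ofReal (e i) ^ (2 : ℝ) = ENNReal.ofReal ((max (e i) 0) ^ 2) := by
          rw [ENNReal.ofReal_pow (le_max_right _ _), ENNReal.ofReal_max, ENNReal.ofReal_zero,
            ENNReal.rpow_two]
          simp
        rw [h5, ← ENNReal.ofReal_mul (by positivity), ← ENNReal.ofReal_mul (by positivity),
          ← ENNReal.ofReal_mul (by positivity)]
        congr 1
        have := pi_pos.ne'
        field_simp
    _ ≤ _ := by gcongr


end Pool.Agent.Helper766.M
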