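import Mathlib
import Pool.Agent.Helper766.M.Defs


set_option autoImplicit false

open MeasureTheory Set Real Matrix
open scoped ENNReal ComplexOrder

namespace Pool.Agent.Helper766.M


theorem A_deriv_mul {N : ℕ} {A B : ℝ → CM N} {A' B' : CM N} {x : ℝ}
    (hA : ∀ i j, HasDerivAt (fun t => A t i j) (A' i j) x)
    (hB : ∀ i j, HasDerivAt (fun t => B t i j) (B' i j) x) (i j : Fin N) :
    HasDerivAt (fun t => (A t * B t) i j) ((A' * B x + A x * B') i j) x := by
  have h1 : HasDerivAt (fun t => ∑ k, A t i k * B t k j)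
      (∑ k, (A' i k * B x k j + A x i k * B' k j)) x := by
    refine HasDerivAt.fun_sum fun k _ => ?_
    exact (hA i k).mul (hB k j)
  have h2 : (fun t => (A t * B t) i j) = fun t => ∑ k, A t i k * B t k j := by
    funext t
    rw [Matrix.mul_apply]
  have h3 : (A' * B x + A x * B') i j = ∑ k, (A' i k * B x k j + A x i k * B' k j) := by
    rw [Matrix.add_apply, Matrix.mul_apply, Matrix.mul_apply, ← Finset.sum_add_distrib]
  rw [h2, h3]
  exact h1

theorem A_deriv_dpow_succ {N : ℕ} (B R : CM N) (a : ℕ) :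
    dpow B R (a + 1) = dpow B R a * B + B ^ a * R := by
  unfold dpow
  rw [Finset.sum_range_succ, Finset.sum_mul]
  congr 1
  · refine Finset.sum_congr rfl fun l hl => ?_
    have hl' := Finset.mem_range.mp hl
    have h1 : a + 1 - 1 - l = (a - 1 - l) + 1 := by omega
    rw [h1, pow_succ]
    simp only [mul_assoc]
  · have h1 : a + 1 - 1 - a = 0 := by omega
    rw [h1, pow_zero, mul_one]

theorem A_deriv_pow {N : ℕ} {B : ℝ → CM N} {R : CM N} {x : ℝ}
    (hB : ∀ i j, HasDerivAt (fun t => B t i j) (R i j) x) (a : ℕ) :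
    ∀ i j, HasDerivAt (fun t => (B t ^ a) i j) (dpow (B x) R a i j) x := by
  induction a with
  | zero =>
    intro i j
    have h1 : dpow (B x) R 0 = 0 := by simp [dpow]
    simp only [pow_zero, h1]
    exact hasDerivAt_const x _
  | succ a ih =>
    intro i j
    have h1 := A_deriv_mul ih hB i j
    rw [A_deriv_dpow_succ]
    simp only [pow_succ]
    exact h1

theorem A_deriv_trace {N : ℕ} {A : ℝ → CM N} {A' : CM N} {x : ℝ}
    (hA : ∀ i j, HasDerivAt (fun t => A t i j) (A' i j) x) :
    HasDerivAt (fun t => (A t).trace) (A'.trace) x := by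
  unfold Matrix.trace
  refine HasDerivAt.fun_sum fun k _ => ?_
  exact hA k k

theorem A_deriv {N : ℕ} {B R R' : ℝ → CM N}
    (hB : ∀ i j x, HasDerivAt (fun t => B t i j) (R x i j) x)
    (hR : ∀ i j x, HasDerivAt (fun t => R t i j) (R' x i j) x) (a b : ℕ) (x : ℝ) :
    HasDerivAt (fun t => (R t * B t ^ a * R t * B t ^ b).trace)
      ((R' x * B x ^ a * R x * B x ^ b).trace + (R x * dpow (B x) (R x) a * R x * B x ^ b).trace +
        (R x * B x ^ a * R' x * B x ^ b).trace +
        (R x * B x ^ a * R x * dpow (B x) (R x) b).trace) x := by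
  have hB' := fun i j => hB i j x
  have hR' := fun i j => hR i j x
  have h1 := A_deriv_mul hR' (A_deriv_pow hB' a)
  have h2 := A_deriv_mul h1 hR'
  have h3 := A_deriv_mul h2 (A_deriv_pow hB' b)
  have h4 := A_deriv_trace h3
  have h5 : ((((R' x * B x ^ a + R x * dpow (B x) (R x) a) * R x + R x * B x ^ a * R' x) *
      B x ^ b + R x * B x ^ a * R x * dpow (B x) (R x) b)).trace =
      ((R' x * B x ^ a * R x * B x ^ b).trace + (R x * dpow (B x) (R x) a * R x * B x ^ b).trace +
        (R x * B x ^ a * R' x * B x ^ b).trace +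
        (R x * B x ^ a * R x * dpow (B x) (R x) b).trace) := by
    simp only [add_mul, Matrix.trace_add]
  rw [← h5]
  exact h4


end Pool.Agent.Helper766.M
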