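import Mathlib
import Pool.Agent.Helper766.M.Defs


set_option autoImplicit false

open MeasureTheory Set Real Matrix
open scoped ENNReal ComplexOrder

namespace Pool.Agent.Helper766.M


theorem A_err_spec {N : ℕ} (R : CM N) (hR : R.PosSemidef) :
    ∃ (U : CM N) (l : Fin N → ℝ), U ∈ Matrix.unitaryGroup (Fin N) ℂ ∧ (∀ i, 0 ≤ l i) ∧
      R = U * diagonal (fun i => (l i : ℂ)) * star U := by
  refine ⟨(hR.isHermitian.eigenvectorUnitary : CM N), hR.isHermitian.eigenvalues,
    (hR.isHermitian.eigenvectorUnitary).2, hR.eigenvalues_nonneg, ?_⟩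
  conv_lhs => rw [hR.isHermitian.spectral_theorem, Unitary.conjStarAlgAut_apply]
  rfl

theorem A_err_entry {N : ℕ} (U : CM N) (l : Fin N → ℝ) (hU : U ∈ Matrix.unitaryGroup (Fin N) ℂ)
    (hl : ∀ i, 0 ≤ l i) (i j : Fin N) :
    ‖(U * diagonal (fun i => (l i : ℂ)) * star U) i j‖ ≤ ∑ k, l k := by
  rw [Matrix.mul_apply]
  refine (norm_sum_le _ _).trans ?_
  apply Finset.sum_le_sum
  intro k _
  rw [Matrix.mul_diagonal, Matrix.star_apply, norm_mul, norm_mul, norm_star]
  have h1 := entry_norm_bound_of_unitary hU i k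
  have h2 := entry_norm_bound_of_unitary hU j k
  have h3 : ‖(l k : ℂ)‖ = l k := by
    rw [Complex.norm_real, Real.norm_eq_abs, abs_of_nonneg (hl k)]
  rw [h3]
  have h4 := norm_nonneg (U i k)
  have h5 := norm_nonneg (U j k)
  have h6 := hl k
  calc ‖U i k‖ * l k * ‖U j k‖ ≤ 1 * l k * 1 := by
        apply mul_le_mul _ h2 h5 (by positivity)
        exact mul_le_mul_of_nonneg_right h1 h6
    _ = l k := by ring

theorem A_err_trace {N : ℕ} (U : CM N) (l : Fin N → ℝ) (hU : U ∈ Matrix.unitaryGroup (Fin N) ℂ) :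
    ((U * diagonal (fun i => (l i : ℂ)) * star U) * (U * diagonal (fun i => (l i : ℂ)) * star U) *
      (U * diagonal (fun i => (l i : ℂ)) * star U)).trace.re = ∑ k, l k ^ 3 := by
  have h2 : star U * U = 1 := Matrix.mem_unitaryGroup_iff'.mp hU
  have e3 : (U * diagonal (fun i => (l i : ℂ)) * star U) *
      (U * diagonal (fun i => (l i : ℂ)) * star U) *
      (U * diagonal (fun i => (l i : ℂ)) * star U) =
      U * diagonal (fun i => ((l i : ℂ)) ^ 3) * star U := by
    calc (U * diagonal (fun i => (l i : ℂ)) * star U) *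
        (U * diagonal (fun i => (l i : ℂ)) * star U) * (U * diagonal (fun i => (l i : ℂ)) * star U)
        = U * (diagonal (fun i => (l i : ℂ)) * (star U * U) * diagonal (fun i => (l i : ℂ)) *
          (star U * U) * diagonal (fun i => (l i : ℂ))) * star U := by
            simp only [Matrix.mul_assoc]
      _ = _ := by
        rw [h2, Matrix.mul_one, Matrix.mul_one, Matrix.diagonal_mul_diagonal,
          Matrix.diagonal_mul_diagonal]
        congr 3
        funext i
        ring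
  rw [e3, Matrix.mul_assoc, Matrix.trace_mul_comm, Matrix.mul_assoc, h2, Matrix.mul_one,
    Matrix.trace_diagonal, Complex.re_sum]
  apply Finset.sum_congr rfl
  intro k _
  rw [← Complex.ofReal_pow, Complex.ofReal_re]

theorem A_err {N : ℕ} (R : CM N) (hR : R.PosSemidef) (x : Fin N → Fin N → Fin N → ℝ) (ε : ℝ)
    (hε : 0 ≤ ε) (hx : ∀ i j k, |x i j k| ≤ ε) :
    |∑ i, ∑ j, ∑ k, (R i j * R j k * R k i).re * x i j k| ≤
      ε * (N : ℝ) ^ 5 * (R * R * R).trace.re := by
  obtain ⟨U, l, hU, hl, hRU⟩ := A_err_spec R hR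
  have hent : ∀ i j, ‖R i j‖ ≤ ∑ k, l k := by
    intro i j
    rw [hRU]
    exact A_err_entry U l hU hl i j
  have htr : (R * R * R).trace.re = ∑ k, l k ^ 3 := by
    rw [hRU]
    exact A_err_trace U l hU
  obtain ⟨s, hs⟩ : ∃ s, s = ∑ k, l k := ⟨_, rfl⟩
  rw [← hs] at hent
  have hs0 : 0 ≤ s := by
    rw [hs]
    exact Finset.sum_nonneg (fun k _ => hl k)
  have hpow : s ^ 3 ≤ (N : ℝ) ^ 2 * ∑ k, l k ^ 3 := by
    have h := pow_sum_le_card_mul_sum_pow (s := (Finset.univ : Finset (Fin N))) (f := l)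
      (fun i _ => hl i) 2
    rw [Finset.card_univ, Fintype.card_fin, ← hs] at h
    exact h
  have hterm : ∀ i j k, |(R i j * R j k * R k i).re * x i j k| ≤ s ^ 3 * ε := by
    intro i j k
    rw [abs_mul]
    apply mul_le_mul _ (hx i j k) (abs_nonneg _) (by positivity)
    refine (Complex.abs_re_le_norm _).trans ?_
    rw [norm_mul, norm_mul]
    calc ‖R i j‖ * ‖R j k‖ * ‖R k i‖ ≤ s * s * s := by
          apply mul_le_mul _ (hent k i) (norm_nonneg _) (by positivity)
          exact mul_le_mul (hent i j) (hent j k) (norm_nonneg _) hs0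
      _ = s ^ 3 := by ring
  have hsum : |∑ i, ∑ j, ∑ k, (R i j * R j k * R k i).re * x i j k| ≤
      ∑ _i : Fin N, ∑ _j : Fin N, ∑ _k : Fin N, s ^ 3 * ε := by
    refine (Finset.abs_sum_le_sum_abs _ _).trans (Finset.sum_le_sum fun i _ => ?_)
    refine (Finset.abs_sum_le_sum_abs _ _).trans (Finset.sum_le_sum fun j _ => ?_)
    refine (Finset.abs_sum_le_sum_abs _ _).trans (Finset.sum_le_sum fun k _ => ?_)
    exact hterm i j k
  refine hsum.trans ?_
  rw [htr]
  simp only [Finset.sum_const, Finset.card_univ, Fintype.card_fin, nsmul_eq_mul]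
  calc (N : ℝ) * (N * (N * (s ^ 3 * ε))) = (N : ℝ) ^ 3 * ε * s ^ 3 := by ring
    _ ≤ (N : ℝ) ^ 3 * ε * ((N : ℝ) ^ 2 * ∑ k, l k ^ 3) :=
        mul_le_mul_of_nonneg_left hpow (by positivity)
    _ = ε * (N : ℝ) ^ 5 * ∑ k, l k ^ 3 := by ring


end Pool.Agent.Helper766.M
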