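import Mathlib
import Pool.Agent.Helper766.M.Defs


set_option autoImplicit false

open MeasureTheory Set Real Matrix
open scoped ENNReal ComplexOrder

namespace Pool.Agent.Helper766.M


theorem A_trace1_three {N : ℕ} (X Y Z : CM N) :
    (X * Y * Z).trace = ∑ i, ∑ j, ∑ k, X i j * Y j k * Z k i := by
  unfold Matrix.trace
  refine Finset.sum_congr rfl fun i _ => ?_
  rw [Matrix.diag_apply, Matrix.mul_apply]
  have h1 : ∀ k, (X * Y) i k * Z k i = ∑ j, X i j * Y j k * Z k i := by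
    intro k
    rw [Matrix.mul_apply, Finset.sum_mul]
  rw [Finset.sum_congr rfl fun k _ => h1 k, Finset.sum_comm]

theorem A_trace1_conj_mul {N : ℕ} {U : CM N} (hU' : Uᴴ * U = 1) (X Y : CM N) :
    (U * X * Uᴴ) * (U * Y * Uᴴ) = U * (X * Y) * Uᴴ := by
  calc (U * X * Uᴴ) * (U * Y * Uᴴ) = U * X * (Uᴴ * U) * Y * Uᴴ := by simp only [Matrix.mul_assoc]
    _ = U * (X * Y) * Uᴴ := by rw [hU', Matrix.mul_one]; simp only [Matrix.mul_assoc]

theorem A_trace1_conj_trace {N : ℕ} {U : CM N} (hU' : Uᴴ * U = 1) (X : CM N) :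
    (U * X * Uᴴ).trace = X.trace := by
  rw [Matrix.trace_mul_comm, ← Matrix.mul_assoc, hU', Matrix.one_mul]

theorem A_trace1_R {N : ℕ} {U : CM N} (hU : U * Uᴴ = 1) (R : CM N) : U * (Uᴴ * R * U) * Uᴴ = R := by
  calc U * (Uᴴ * R * U) * Uᴴ = (U * Uᴴ) * R * (U * Uᴴ) := by simp only [Matrix.mul_assoc]
    _ = R := by rw [hU, Matrix.one_mul, Matrix.mul_one]

theorem A_trace1_pow {N : ℕ} {U : CM N} (hU : U * Uᴴ = 1) (hU' : Uᴴ * U = 1) (e : Fin N → ℝ) (n : ℕ) :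
    (U * Matrix.diagonal (fun i => (e i : ℂ)) * Uᴴ) ^ n
      = U * Matrix.diagonal (fun i => (e i : ℂ) ^ n) * Uᴴ := by
  induction n with
  | zero =>
    have h : Matrix.diagonal (fun i => (e i : ℂ) ^ 0) = (1 : CM N) := by
      simp only [pow_zero]
      exact Matrix.diagonal_one
    rw [h, pow_zero, Matrix.mul_one, hU]
  | succ n ih =>
    rw [pow_succ, ih, A_trace1_conj_mul hU', Matrix.diagonal_mul_diagonal]
    simp only [pow_succ]

theorem A_trace1_diag {N : ℕ} (e : Fin N → ℝ) (r : CM N) (a b : ℕ) (i j : Fin N) :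
    (Matrix.diagonal (fun i => (e i : ℂ) ^ a) * r * Matrix.diagonal (fun i => (e i : ℂ) ^ b)) i j
      = r i j * ((e i ^ a * e j ^ b : ℝ) : ℂ) := by
  rw [Matrix.mul_diagonal, Matrix.diagonal_mul]
  push_cast
  ring

theorem A_trace1_dpow {N : ℕ} {U : CM N} (hU : U * Uᴴ = 1) (hU' : Uᴴ * U = 1) (R : CM N) (e : Fin N → ℝ)
    (a : ℕ) : ∃ G : CM N, dpow (U * Matrix.diagonal (fun i => (e i : ℂ)) * Uᴴ) R a = U * G * Uᴴ ∧
      ∀ j k, G j k = (Uᴴ * R * U) j k * ((gs a (e j) (e k) : ℝ) : ℂ) := by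
  refine ⟨∑ l ∈ Finset.range a, Matrix.diagonal (fun i => (e i : ℂ) ^ l) * (Uᴴ * R * U) *
    Matrix.diagonal (fun i => (e i : ℂ) ^ (a - 1 - l)), ?_, ?_⟩
  · unfold dpow
    rw [Finset.mul_sum, Finset.sum_mul]
    refine Finset.sum_congr rfl fun l _ => ?_
    rw [A_trace1_pow hU hU', A_trace1_pow hU hU']
    conv_lhs => rw [← A_trace1_R hU R]
    rw [A_trace1_conj_mul hU', A_trace1_conj_mul hU']
  · intro j k
    rw [Matrix.sum_apply, Finset.sum_congr rfl fun l _ => A_trace1_diag e (Uᴴ * R * U) l (a - 1 - l) j k,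
      ← Finset.mul_sum]
    unfold gs
    rw [Complex.ofReal_sum]

theorem A_trace1 {N : ℕ} (U R : CM N) (e : Fin N → ℝ) (hU : U * Uᴴ = 1) (hU' : Uᴴ * U = 1)
    (a b : ℕ) :
    (R * dpow (U * Matrix.diagonal (fun i => (e i : ℂ)) * Uᴴ) R a * R *
        (U * Matrix.diagonal (fun i => (e i : ℂ)) * Uᴴ) ^ b).trace =
      ∑ i, ∑ j, ∑ k, (Uᴴ * R * U) i j * (Uᴴ * R * U) j k * (Uᴴ * R * U) k i *
        ((e i ^ b * gs a (e j) (e k) : ℝ) : ℂ) := by
  obtain ⟨G, hG1, hG2⟩ := A_trace1_dpow hU hU' R e a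
  rw [hG1, A_trace1_pow hU hU']
  obtain ⟨r, hr⟩ : ∃ r, r = Uᴴ * R * U := ⟨_, rfl⟩
  have hR : R = U * r * Uᴴ := by rw [hr, A_trace1_R hU R]
  rw [← hr] at hG2 ⊢
  rw [hR, A_trace1_conj_mul hU', A_trace1_conj_mul hU', A_trace1_conj_mul hU', A_trace1_conj_trace hU',
    Matrix.mul_assoc (r * G), A_trace1_three]
  refine Finset.sum_congr rfl fun i _ => Finset.sum_congr rfl fun j _ => Finset.sum_congr rfl fun k _ => ?_
  rw [hG2, Matrix.mul_diagonal]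
  push_cast
  ring

theorem A_trace2 {N : ℕ} (U R : CM N) (e : Fin N → ℝ) (hU : U * Uᴴ = 1) (hU' : Uᴴ * U = 1)
    (a b : ℕ) :
    (R * (U * Matrix.diagonal (fun i => (e i : ℂ)) * Uᴴ) ^ a * R *
        dpow (U * Matrix.diagonal (fun i => (e i : ℂ)) * Uᴴ) R b).trace =
      ∑ i, ∑ j, ∑ k, (Uᴴ * R * U) i j * (Uᴴ * R * U) j k * (Uᴴ * R * U) k i *
        ((e i ^ a * gs b (e j) (e k) : ℝ) : ℂ) := by
  obtain ⟨G, hG1, hG2⟩ := A_trace1_dpow hU hU' R e b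
  rw [hG1, A_trace1_pow hU hU']
  obtain ⟨r, hr⟩ : ∃ r, r = Uᴴ * R * U := ⟨_, rfl⟩
  have hR : R = U * r * Uᴴ := by rw [hr, A_trace1_R hU R]
  rw [← hr] at hG2 ⊢
  rw [hR, A_trace1_conj_mul hU', A_trace1_conj_mul hU', A_trace1_conj_mul hU', A_trace1_conj_trace hU']
  have h1 : (r * Matrix.diagonal (fun i => (e i : ℂ) ^ a) * r * G).trace
      = ((Matrix.diagonal (fun i => (e i : ℂ) ^ a) * r) * G * r).trace := by
    rw [Matrix.trace_mul_comm ((Matrix.diagonal (fun i => (e i : ℂ) ^ a) * r) * G) r]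
    simp only [Matrix.mul_assoc]
  rw [h1, A_trace1_three]
  refine Finset.sum_congr rfl fun i _ => Finset.sum_congr rfl fun j _ => Finset.sum_congr rfl fun k _ => ?_
  rw [hG2, Matrix.diagonal_mul]
  push_cast
  ring

theorem A_trace3 {N : ℕ} (A : Finset (ℕ × ℕ)) (w : ℕ × ℕ → ℝ) (U R : CM N) (e : Fin N → ℝ)
    (hU : U * Uᴴ = 1) (hU' : Uᴴ * U = 1) :
    (YK A w (U * Matrix.diagonal (fun i => (e i : ℂ)) * Uᴴ) R * R *
        YK A w (U * Matrix.diagonal (fun i => (e i : ℂ)) * Uᴴ) R).trace =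
      ∑ i, ∑ j, ∑ k, (Uᴴ * R * U) i j * (Uᴴ * R * U) j k * (Uᴴ * R * U) k i *
        ((PK A w (e i) (e j) * PK A w (e k) (e i) : ℝ) : ℂ) := by
  obtain ⟨G, hG1, hG2⟩ : ∃ G : CM N, YK A w (U * Matrix.diagonal (fun i => (e i : ℂ)) * Uᴴ) R = U * G * Uᴴ ∧
      ∀ j k, G j k = (Uᴴ * R * U) j k * ((PK A w (e j) (e k) : ℝ) : ℂ) := by
    refine ⟨∑ q ∈ A, ((w q : ℝ) : ℂ) • (Matrix.diagonal (fun i => (e i : ℂ) ^ q.1) * (Uᴴ * R * U) *
      Matrix.diagonal (fun i => (e i : ℂ) ^ q.2)), ?_, ?_⟩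
    · unfold YK
      rw [Finset.mul_sum, Finset.sum_mul]
      refine Finset.sum_congr rfl fun q _ => ?_
      rw [A_trace1_pow hU hU', A_trace1_pow hU hU', Matrix.mul_smul, Matrix.smul_mul]
      conv_lhs => rw [← A_trace1_R hU R]
      rw [A_trace1_conj_mul hU', A_trace1_conj_mul hU']
    · intro j k
      rw [Matrix.sum_apply]
      unfold PK
      rw [Complex.ofReal_sum, Finset.mul_sum]
      refine Finset.sum_congr rfl fun q _ => ?_
      rw [Matrix.smul_apply, A_trace1_diag, smul_eq_mul]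
      push_cast
      ring
  rw [hG1]
  obtain ⟨r, hr⟩ : ∃ r, r = Uᴴ * R * U := ⟨_, rfl⟩
  have hR : R = U * r * Uᴴ := by rw [hr, A_trace1_R hU R]
  rw [← hr] at hG2 ⊢
  rw [hR, A_trace1_conj_mul hU', A_trace1_conj_mul hU', A_trace1_conj_trace hU', A_trace1_three]
  refine Finset.sum_congr rfl fun i _ => Finset.sum_congr rfl fun j _ => Finset.sum_congr rfl fun k _ => ?_
  rw [hG2, hG2]
  push_cast
  ring


end Pool.Agent.Helper766.M
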