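import Mathlib
import Pool.Agent.Helper766.M.Defs
import Pool.Agent.Helper766.M.KerC
import Pool.Agent.Helper766.M.L_A_err
import Pool.Agent.Helper766.M.L_A_traces


set_option autoImplicit false

open MeasureTheory Set Real Matrix
open scoped ENNReal ComplexOrder

namespace Pool.Agent.Helper766.M


theorem A_point_spec {N : ℕ} {B : CM N} (hB : B.IsHermitian) :
    ∃ (V : CM N) (e : Fin N → ℝ), V * Vᴴ = 1 ∧ Vᴴ * V = 1 ∧
      B = V * Matrix.diagonal (fun i => (e i : ℂ)) * Vᴴ := by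
  refine ⟨(hB.eigenvectorUnitary : CM N), hB.eigenvalues, ?_, ?_, ?_⟩
  · exact Unitary.mul_star_self_of_mem hB.eigenvectorUnitary.2
  · exact Unitary.star_mul_self_of_mem hB.eigenvectorUnitary.2
  · have h := hB.spectral_theorem
    rw [Unitary.conjStarAlgAut_apply] at h
    exact h

theorem A_point_tr {N : ℕ} (M : CM N) :
    (M * M * M).trace.re = ∑ i, ∑ j, ∑ k, (M i j * M j k * M k i).re := by
  simp only [Matrix.trace, Matrix.diag, Matrix.mul_apply, Finset.sum_mul, Complex.re_sum]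
  refine Finset.sum_congr rfl fun i _ => ?_
  rw [Finset.sum_comm]

theorem A_point_tr2 {N : ℕ} (V R : CM N) (hV : V * Vᴴ = 1) :
    ((Vᴴ * R * V) * (Vᴴ * R * V) * (Vᴴ * R * V)).trace = (R * R * R).trace := by
  have h1 : (Vᴴ * R * V) * (Vᴴ * R * V) * (Vᴴ * R * V) =
      Vᴴ * (R * (V * Vᴴ) * R * (V * Vᴴ) * R * V) := by
    simp only [Matrix.mul_assoc]
  rw [h1, hV, Matrix.trace_mul_comm]
  have h2 : R * 1 * R * 1 * R * V * Vᴴ = R * R * R * (V * Vᴴ) := by
    simp only [Matrix.mul_assoc, Matrix.one_mul]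
  rw [h2, hV, Matrix.mul_one]

theorem A_point_re {N : ℕ} (M : CM N) (x : Fin N → Fin N → Fin N → ℝ) :
    (∑ i, ∑ j, ∑ k, M i j * M j k * M k i * ((x i j k : ℝ) : ℂ)).re =
      ∑ i, ∑ j, ∑ k, (M i j * M j k * M k i).re * x i j k := by
  simp only [Complex.re_sum, Complex.re_mul_ofReal]

theorem A_point {N : ℕ} {θ ε : ℝ} (hθ0 : 0 < θ) (hθ : θ < π) (hε : 0 ≤ ε)
    (A : Finset (ℕ × ℕ)) (w : ℕ × ℕ → ℝ) (hsym : ∀ s t, PK A w s t = PK A w t s)
    (hK : ∀ s ∈ Icc (-(1 / 2) : ℝ) (1 / 2), ∀ r ∈ Icc (-(1 / 2) : ℝ) (1 / 2),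
        ∀ t ∈ Icc (-(1 / 2) : ℝ) (1 / 2),
        |4 * (θ / 4) ^ 2 * (PK A w t s * PK A w t r) + θ / 4 * DK A w s r t + θ ^ 2 / 4 -
          TK θ s r t| ≤ ε)
    (B R : CM N) (hB : B.IsHermitian)
    (hB1 : ((((1 / 2 : ℝ) : ℂ) • (1 : CM N)) + B).PosSemidef)
    (hB2 : ((((1 / 2 : ℝ) : ℂ) • (1 : CM N)) - B).PosSemidef) (hR : R.PosSemidef) :
    θ / 4 * (∑ q ∈ A, w q * ((R * dpow B R q.1 * R * B ^ q.2).trace.re +
        (R * B ^ q.1 * R * dpow B R q.2).trace.re)) +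
      4 * (θ / 4) ^ 2 * (YK A w B R * R * YK A w B R).trace.re +
      (θ ^ 2 / 4 - ε * (N : ℝ) ^ 5) * (R * R * R).trace.re ≤ 0 := by
  obtain ⟨V, e, hV, hV', rfl⟩ := A_point_spec hB
  obtain ⟨Rh, hRh⟩ : ∃ Rh : CM N, Rh = Vᴴ * R * V := ⟨_, rfl⟩
  have hRhP : Rh.PosSemidef := by
    rw [hRh]
    exact hR.conjTranspose_mul_mul_same V
  have hD : Vᴴ * (V * Matrix.diagonal (fun i => (e i : ℂ)) * Vᴴ) * V =
      Matrix.diagonal (fun i => (e i : ℂ)) := by
    calc Vᴴ * (V * Matrix.diagonal (fun i => (e i : ℂ)) * Vᴴ) * V =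
        (Vᴴ * V) * Matrix.diagonal (fun i => (e i : ℂ)) * (Vᴴ * V) := by
          simp only [Matrix.mul_assoc]
      _ = Matrix.diagonal (fun i => (e i : ℂ)) := by rw [hV', Matrix.one_mul, Matrix.mul_one]
  have hI : Vᴴ * (((1 / 2 : ℝ) : ℂ) • (1 : CM N)) * V = ((1 / 2 : ℝ) : ℂ) • (1 : CM N) := by
    rw [Matrix.mul_smul, Matrix.mul_one, Matrix.smul_mul, hV']
  have he : ∀ i, e i ∈ Icc (-(1 / 2) : ℝ) (1 / 2) := by
    intro i
    constructor
    · have h1 := (hB1.conjTranspose_mul_mul_same V).diag_nonneg (i := i)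
      rw [Matrix.mul_add, Matrix.add_mul, hD, hI] at h1
      simp only [Matrix.add_apply, Matrix.smul_apply, Matrix.one_apply_eq,
        Matrix.diagonal_apply_eq, smul_eq_mul, mul_one] at h1
      rw [← Complex.ofReal_add, Complex.zero_le_real] at h1
      linarith
    · have h1 := (hB2.conjTranspose_mul_mul_same V).diag_nonneg (i := i)
      rw [Matrix.mul_sub, Matrix.sub_mul, hD, hI] at h1
      simp only [Matrix.sub_apply, Matrix.smul_apply, Matrix.one_apply_eq,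
        Matrix.diagonal_apply_eq, smul_eq_mul, mul_one] at h1
      rw [← Complex.ofReal_sub, Complex.zero_le_real] at h1
      linarith
  obtain ⟨c, hc⟩ : ∃ c : Fin N → Fin N → Fin N → ℝ,
      c = fun i j k => (Rh i j * Rh j k * Rh k i).re := ⟨_, rfl⟩
  have hcc : ∀ i j k, (Rh i j * Rh j k * Rh k i).re = c i j k := fun i j k => by rw [hc]
  have e1 : ∑ q ∈ A, w q * ((R * dpow (V * Matrix.diagonal (fun i => (e i : ℂ)) * Vᴴ) R q.1 * R *
        (V * Matrix.diagonal (fun i => (e i : ℂ)) * Vᴴ) ^ q.2).trace.re +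
      (R * (V * Matrix.diagonal (fun i => (e i : ℂ)) * Vᴴ) ^ q.1 * R *
        dpow (V * Matrix.diagonal (fun i => (e i : ℂ)) * Vᴴ) R q.2).trace.re) =
      ∑ i, ∑ j, ∑ k, c i j k * DK A w (e j) (e k) (e i) := by
    have h1 : ∀ q ∈ A, w q * ((R * dpow (V * Matrix.diagonal (fun i => (e i : ℂ)) * Vᴴ) R q.1 * R *
        (V * Matrix.diagonal (fun i => (e i : ℂ)) * Vᴴ) ^ q.2).trace.re +
      (R * (V * Matrix.diagonal (fun i => (e i : ℂ)) * Vᴴ) ^ q.1 * R *
        dpow (V * Matrix.diagonal (fun i => (e i : ℂ)) * Vᴴ) R q.2).trace.re) =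
        ∑ i, ∑ j, ∑ k, c i j k * (w q * (e i ^ q.2 * gs q.1 (e j) (e k) +
          e i ^ q.1 * gs q.2 (e j) (e k))) := by
      intro q _
      rw [A_trace1 V R e hV hV' q.1 q.2, A_trace2 V R e hV hV' q.1 q.2, ← hRh,
        A_point_re, A_point_re, ← Finset.sum_add_distrib, Finset.mul_sum]
      refine Finset.sum_congr rfl fun i _ => ?_
      rw [← Finset.sum_add_distrib, Finset.mul_sum]
      refine Finset.sum_congr rfl fun j _ => ?_
      rw [← Finset.sum_add_distrib, Finset.mul_sum]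
      refine Finset.sum_congr rfl fun k _ => ?_
      rw [hcc]
      ring
    rw [Finset.sum_congr rfl h1, Finset.sum_comm]
    refine Finset.sum_congr rfl fun i _ => ?_
    rw [Finset.sum_comm]
    refine Finset.sum_congr rfl fun j _ => ?_
    rw [Finset.sum_comm]
    refine Finset.sum_congr rfl fun k _ => ?_
    rw [DK, Finset.mul_sum]
  have e3 : (YK A w (V * Matrix.diagonal (fun i => (e i : ℂ)) * Vᴴ) R * R *
      YK A w (V * Matrix.diagonal (fun i => (e i : ℂ)) * Vᴴ) R).trace.re =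
      ∑ i, ∑ j, ∑ k, c i j k * (PK A w (e i) (e j) * PK A w (e i) (e k)) := by
    rw [A_trace3 A w V R e hV hV', ← hRh, A_point_re]
    refine Finset.sum_congr rfl fun i _ => Finset.sum_congr rfl fun j _ =>
      Finset.sum_congr rfl fun k _ => ?_
    rw [hsym (e k) (e i), hcc]
  have e4 : (R * R * R).trace.re = ∑ i, ∑ j, ∑ k, c i j k := by
    rw [← A_point_tr2 V R hV, ← hRh, A_point_tr]
    simp only [hcc]
  have hs0 := kernel_ineq (fun i => θ * e i) (fun i => by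
    have h1 := (he i).1
    have h2 := (he i).2
    constructor <;> nlinarith only [h1, h2, hθ0, hθ]) Rh hRhP
  have hs : 0 ≤ ∑ i, ∑ j, ∑ k, c i j k *
      ((sinc ((θ * e j - θ * e k) / 2) - cos ((θ * e j - θ * e k) / 2)) /
        (cos ((θ * e j + θ * e i) / 2) * cos ((θ * e k + θ * e i) / 2))) := by
    rw [Finset.sum_comm] at hs0
    refine le_of_le_of_eq hs0 ?_
    refine Finset.sum_congr rfl fun i _ => ?_
    rw [Finset.sum_comm]
    refine Finset.sum_congr rfl fun j _ => Finset.sum_congr rfl fun k _ => ?_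
    rw [← hcc]
    have f1 : Rh k i * Rh i j * Rh j k = Rh i j * Rh j k * Rh k i := by ring
    have f2 : (θ * e k - θ * e j) / 2 = -((θ * e j - θ * e k) / 2) := by ring
    have f3 : (θ * e i + θ * e j) / 2 = (θ * e j + θ * e i) / 2 := by ring
    rw [f1, f2, f3, Real.sinc_neg, Real.cos_neg, mul_comm (cos ((θ * e k + θ * e i) / 2))]
  have hx := A_err Rh hRhP (fun i j k =>
    4 * (θ / 4) ^ 2 * (PK A w (e i) (e j) * PK A w (e i) (e k)) +
      θ / 4 * DK A w (e j) (e k) (e i) + θ ^ 2 / 4 - TK θ (e j) (e k) (e i)) ε hε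
    (fun i j k => hK (e j) (he j) (e k) (he k) (e i) (he i))
  have e5 : (Rh * Rh * Rh).trace.re = (R * R * R).trace.re := by
    rw [hRh, A_point_tr2 V R hV]
  rw [e5] at hx
  have hx2 := (abs_le.1 hx).2
  simp only [hcc] at hx2
  have hT : ∑ i, ∑ j, ∑ k, c i j k * TK θ (e j) (e k) (e i) =
      -(θ ^ 2 / 4) * ∑ i, ∑ j, ∑ k, c i j k *
      ((sinc ((θ * e j - θ * e k) / 2) - cos ((θ * e j - θ * e k) / 2)) /
        (cos ((θ * e j + θ * e i) / 2) * cos ((θ * e k + θ * e i) / 2))) := by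
    rw [Finset.mul_sum]
    refine Finset.sum_congr rfl fun i _ => ?_
    rw [Finset.mul_sum]
    refine Finset.sum_congr rfl fun j _ => ?_
    rw [Finset.mul_sum]
    refine Finset.sum_congr rfl fun k _ => ?_
    rw [TK, ← mul_sub, ← mul_add, ← mul_add]
    ring
  have hT2 : ∑ i, ∑ j, ∑ k, c i j k * TK θ (e j) (e k) (e i) ≤ 0 := by
    rw [hT]
    have h9 : 0 ≤ θ ^ 2 / 4 := by positivity
    nlinarith only [h9, hs]
  have hsum : ∑ i, ∑ j, ∑ k, c i j k *
      (4 * (θ / 4) ^ 2 * (PK A w (e i) (e j) * PK A w (e i) (e k)) +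
      θ / 4 * DK A w (e j) (e k) (e i) + θ ^ 2 / 4 - TK θ (e j) (e k) (e i)) =
      4 * (θ / 4) ^ 2 * (∑ i, ∑ j, ∑ k, c i j k *
        (PK A w (e i) (e j) * PK A w (e i) (e k))) +
      θ / 4 * (∑ i, ∑ j, ∑ k, c i j k * DK A w (e j) (e k) (e i)) +
      θ ^ 2 / 4 * (∑ i, ∑ j, ∑ k, c i j k) -
      ∑ i, ∑ j, ∑ k, c i j k * TK θ (e j) (e k) (e i) := by
    simp only [Finset.mul_sum, ← Finset.sum_add_distrib, ← Finset.sum_sub_distrib]
    refine Finset.sum_congr rfl fun i _ => Finset.sum_congr rfl fun j _ =>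
      Finset.sum_congr rfl fun k _ => ?_
    ring
  rw [hsum, ← e4, ← e1, ← e3] at hx2
  linarith only [hx2, hT2]


end Pool.Agent.Helper766.M
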