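import Mathlib
import Pool.Agent.Helper766.M.Defs


set_option autoImplicit false

open MeasureTheory Set Real Matrix
open scoped ENNReal ComplexOrder

namespace Pool.Agent.Helper766.M


theorem cutoff_int_per (k : ℤ) (x : ℝ) :
    Complex.exp (2 * π * Complex.I * (((k : ℝ) * (x + 1) : ℝ) : ℂ)) =
      Complex.exp (2 * π * Complex.I * (((k : ℝ) * x : ℝ) : ℂ)) := by
  have e : 2 * π * Complex.I * (((k : ℝ) * (x + 1) : ℝ) : ℂ) =
      2 * π * Complex.I * (((k : ℝ) * x : ℝ) : ℂ) + (k : ℂ) * (2 * π * Complex.I) := by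
    push_cast
    ring
  rw [e, Complex.exp_add, Complex.exp_int_mul_two_pi_mul_I, mul_one]

theorem cutoff_int_phi (k : ℤ) :
    ∫ x in (0:ℝ)..1, Complex.exp (2 * π * Complex.I * (((k : ℝ) * x : ℝ) : ℂ)) =
      if k = 0 then 1 else 0 := by
  by_cases hk : k = 0
  · subst hk
    simp
  · rw [if_neg hk]
    have hc : (k : ℂ) * (2 * π * Complex.I) ≠ 0 := by
      refine mul_ne_zero (by exact_mod_cast hk) ?_
      exact Complex.two_pi_I_ne_zero
    have h := integral_exp_mul_complex (a := 0) (b := 1) hc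
    have e : (fun x : ℝ => Complex.exp (2 * π * Complex.I * (((k : ℝ) * x : ℝ) : ℂ))) =
        fun x : ℝ => Complex.exp ((k : ℂ) * (2 * π * Complex.I) * x) := by
      funext x
      congr 1
      push_cast
      ring
    rw [e, h]
    simp only [Complex.ofReal_one, Complex.ofReal_zero, mul_one, mul_zero, Complex.exp_zero]
    rw [Complex.exp_int_mul_two_pi_mul_I, sub_self, zero_div]

theorem cutoff_int {ε K : ℝ} (hε : 0 < ε) (hε1 : ε ≤ 1) {g : ℝ → ℝ} (hg : IsCut ε K g) (k : ℤ) :
    ∫ x, ((g x ^ 2 : ℝ) : ℂ) * Complex.exp (2 * π * Complex.I * (((k : ℝ) * x : ℝ) : ℂ)) =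
      if k = 0 then 1 else 0 := by
  set F : ℝ → ℂ := fun x => ((g x ^ 2 : ℝ) : ℂ) *
    Complex.exp (2 * π * Complex.I * (((k : ℝ) * x : ℝ) : ℂ)) with hF
  have hgc : Continuous g := hg.smooth.continuous
  have hFc : Continuous F := by
    rw [hF]
    refine (Complex.continuous_ofReal.comp (hgc.pow 2)).mul ?_
    exact Complex.continuous_exp.comp (continuous_const.mul
      (Complex.continuous_ofReal.comp (continuous_const.mul continuous_id)))
  have h1 : ∫ x, F x = ∫ x in Icc (0:ℝ) 2, F x := by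
    rw [setIntegral_eq_integral_of_forall_compl_eq_zero]
    intro x hx
    have : x ∉ Icc 0 (1 + ε) := by
      intro h
      exact hx ⟨h.1, h.2.trans (by linarith)⟩
    simp only [hF]
    rw [hg.supp x this]
    simp
  have h2 : ∫ x in Icc (0:ℝ) 2, F x = ∫ x in (0:ℝ)..2, F x := by
    rw [integral_Icc_eq_integral_Ioc, intervalIntegral.integral_of_le (by norm_num)]
  have h3 : ∫ x in (0:ℝ)..2, F x = (∫ x in (0:ℝ)..1, F x) + ∫ x in (0:ℝ)..1, F (x + 1) := by
    have h := intervalIntegral.integral_comp_add_right (a := 0) (b := 1) F 1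
    rw [h, zero_add, one_add_one_eq_two]
    exact (intervalIntegral.integral_add_adjacent_intervals (hFc.intervalIntegrable _ _)
      (hFc.intervalIntegrable _ _)).symm
  have h4 : (∫ x in (0:ℝ)..1, F x) + ∫ x in (0:ℝ)..1, F (x + 1) =
      ∫ x in (0:ℝ)..1, Complex.exp (2 * π * Complex.I * (((k : ℝ) * x : ℝ) : ℂ)) := by
    have hFc1 : Continuous fun x : ℝ => F (x + 1) := hFc.comp (continuous_id.add continuous_const)
    rw [← intervalIntegral.integral_add (hFc.intervalIntegrable _ _)
      (hFc1.intervalIntegrable _ _)]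
    refine intervalIntegral.integral_congr fun x hx => ?_
    rw [uIcc_of_le zero_le_one] at hx
    simp only [hF]
    rw [cutoff_int_per, ← add_mul, ← Complex.ofReal_add, hg.part x hx]
    simp
  show ∫ x, F x = _
  rw [h1, h2, h3, h4, cutoff_int_phi]


end Pool.Agent.Helper766.M
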