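import Mathlib
import Pool.Agent.Helper766.M.Defs
import Pool.Agent.Helper766.M.L_cutoff_int


set_option autoImplicit false

open MeasureTheory Set Real Matrix
open scoped ENNReal ComplexOrder

namespace Pool.Agent.Helper766.M


theorem GG_int {d : ℕ} {ε K : ℝ} (hε : 0 < ε) (hε1 : ε ≤ 1) {g : ℝ → ℝ} (hg : IsCut ε K g)
    (m : Fin d → ℤ) :
    ∫ x : Fin d → ℝ, ((GG g x ^ 2 : ℝ) : ℂ) * em m x = if m = 0 then 1 else 0 := by
  have h1 : ∀ x : Fin d → ℝ, ((GG g x ^ 2 : ℝ) : ℂ) * em m x =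
      ∏ j, (((g (x j) ^ 2 : ℝ) : ℂ) *
        Complex.exp (2 * π * Complex.I * (((m j : ℝ) * x j : ℝ) : ℂ))) := by
    intro x
    rw [Finset.prod_mul_distrib, ← Complex.exp_sum]
    congr 1
    · unfold GG
      rw [← Finset.prod_pow]
      push_cast
      rfl
    · unfold em
      rw [← Finset.mul_sum]
      push_cast
      rfl
  simp only [h1]
  rw [MeasureTheory.integral_fintype_prod_volume_eq_prod (fun (j : Fin d) (y : ℝ) =>
    ((g y ^ 2 : ℝ) : ℂ) * Complex.exp (2 * π * Complex.I * (((m j : ℝ) * y : ℝ) : ℂ)))]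
  simp only [cutoff_int hε hε1 hg]
  by_cases hm : m = 0
  · rw [if_pos hm]
    refine Finset.prod_eq_one fun j _ => ?_
    rw [hm, Pi.zero_apply, if_pos rfl]
  · rw [if_neg hm]
    have hj : ∃ j, m j ≠ 0 := by
      by_contra hcon
      push Not at hcon
      exact hm (funext hcon)
    obtain ⟨j, hj⟩ := hj
    exact Finset.prod_eq_zero (Finset.mem_univ j) (if_neg hj)


end Pool.Agent.Helper766.M
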