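import Mathlib
import Pool.Agent.Helper766.M.Defs


set_option autoImplicit false

open MeasureTheory Set Real Matrix
open scoped ENNReal ComplexOrder

namespace Pool.Agent.Helper766.M


theorem int_cons {n : ℕ} (f : (Fin (n + 1) → ℝ) → ℂ) (hf : Continuous f)
    (hc : HasCompactSupport f) :
    ∫ x, f x = ∫ t : ℝ, ∫ y : Fin n → ℝ, f (Fin.cons t y : Fin (n + 1) → ℝ) := by
  have hmp := volume_preserving_piFinSuccAbove (fun _ : Fin (n + 1) => ℝ) 0
  have hi : Integrable f := hf.integrable_of_hasCompactSupport hc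
  have h1 : ∀ q : ℝ × (Fin n → ℝ),
      (MeasurableEquiv.piFinSuccAbove (fun _ : Fin (n + 1) => ℝ) 0).symm q =
        (Fin.cons q.1 q.2 : Fin (n + 1) → ℝ) := by
    intro q
    show Fin.insertNth (α := fun _ : Fin (n + 1) => ℝ) 0 q.1 q.2 = _
    rw [Fin.insertNth_zero]
    rfl
  have hmp' := hmp.symm
  have h2 := hmp'.integral_comp
    (MeasurableEquiv.piFinSuccAbove (fun _ : Fin (n + 1) => ℝ) 0).symm.measurableEmbedding f
  have h3 := (hmp'.integrable_comp_emb
    (MeasurableEquiv.piFinSuccAbove (fun _ : Fin (n + 1) => ℝ) 0).symm.measurableEmbedding).2 hi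
  rw [← h2]
  have h4 := integral_prod _ h3
  simp only [Function.comp_def, h1] at h4
  simp only [h1]
  exact h4


end Pool.Agent.Helper766.M
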