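import Mathlib
import Pool.Agent.Helper766.M.Defs
import Pool.Agent.Helper766.M.L_int_cons


set_option autoImplicit false

open MeasureTheory Set Real Matrix
open scoped ENNReal ComplexOrder

namespace Pool.Agent.Helper766.M


theorem Gram_psd_cont {n N : ℕ} (u : Fin N → (Fin n → ℝ) → ℂ) (hu : ∀ i, Continuous (u i))
    (i j : Fin N) : Continuous (fun x => u i x * starRingEnd ℂ (u j x)) :=
  (hu i).mul (Complex.continuous_conj.comp (hu j))

theorem Gram_psd_supp {n N : ℕ} (u : Fin N → (Fin n → ℝ) → ℂ) (hc : ∀ i, HasCompactSupport (u i))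
    (i j : Fin N) : HasCompactSupport (fun x => u i x * starRingEnd ℂ (u j x)) :=
  (hc i).mul_right

theorem Gram_psd_int {n N : ℕ} (u : Fin N → (Fin n → ℝ) → ℂ) (hu : ∀ i, Continuous (u i))
    (hc : ∀ i, HasCompactSupport (u i)) (i j : Fin N) :
    Integrable (fun x => u i x * starRingEnd ℂ (u j x)) :=
  (Gram_psd_cont u hu i j).integrable_of_hasCompactSupport (Gram_psd_supp u hc i j)

theorem Gram_psd {n N : ℕ} (u : Fin N → (Fin n → ℝ) → ℂ) (hu : ∀ i, Continuous (u i))
    (hc : ∀ i, HasCompactSupport (u i)) : (Gram u).PosSemidef := by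
  refine Matrix.PosSemidef.of_dotProduct_mulVec_nonneg ?_ ?_
  · ext i j
    rw [Matrix.conjTranspose_apply]
    show star (∫ x, u j x * starRingEnd ℂ (u i x)) = ∫ x, u i x * starRingEnd ℂ (u j x)
    have h1 : star (∫ x, u j x * starRingEnd ℂ (u i x)) =
        ∫ x, starRingEnd ℂ (u j x * starRingEnd ℂ (u i x)) := integral_conj.symm
    rw [h1]
    congr 1
    funext x
    rw [map_mul, Complex.conj_conj, mul_comm]
  · intro x
    have h1 : star x ⬝ᵥ (Gram u *ᵥ x) =
        ∫ z, ∑ i, ∑ j, (star (x i)) * ((u i z * starRingEnd ℂ (u j z)) * x j) := by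
      rw [integral_finsetSum]
      · simp only [dotProduct, mulVec, Pi.star_apply]
        refine Finset.sum_congr rfl fun i _ => ?_
        rw [integral_finsetSum]
        · rw [Finset.mul_sum]
          refine Finset.sum_congr rfl fun j _ => ?_
          rw [integral_const_mul, integral_mul_const]
          rfl
        · intro j _
          exact ((Gram_psd_int u hu hc i j).mul_const _).const_mul _
      · intro i _
        refine integrable_finsetSum _ fun j _ => ?_
        exact ((Gram_psd_int u hu hc i j).mul_const _).const_mul _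
    have h2 : ∀ z, ∑ i, ∑ j, (star (x i)) * ((u i z * starRingEnd ℂ (u j z)) * x j) =
        ((‖∑ i, star (x i) * u i z‖ ^ 2 : ℝ) : ℂ) := by
      intro z
      rw [← Complex.normSq_eq_norm_sq, Complex.normSq_eq_conj_mul_self, mul_comm, map_sum,
        Finset.sum_mul_sum]
      refine Finset.sum_congr rfl fun i _ => Finset.sum_congr rfl fun j _ => ?_
      rw [map_mul]
      have : starRingEnd ℂ (star (x j)) = x j := Complex.conj_conj (x j)
      rw [this]
      ring
    rw [h1]
    simp_rw [h2]
    rw [integral_complex_ofReal]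
    have h3 : 0 ≤ ∫ z, ‖∑ i, star (x i) * u i z‖ ^ 2 := integral_nonneg fun z => by positivity
    exact_mod_cast h3

theorem Gram_supp {n N : ℕ} (u : Fin N → (Fin (n + 1) → ℝ) → ℂ)
    (hc : ∀ i, HasCompactSupport (u i)) :
    ∃ M : ℝ, ∀ t, M < |t| → Gram (slice u t) = 0 := by
  have h1 : ∀ i, ∃ M : ℝ, 0 ≤ M ∧ ∀ x ∈ tsupport (u i), |x 0| ≤ M := by
    intro i
    obtain ⟨C, hC⟩ := (hc i).isCompact.exists_bound_of_continuousOn
      (f := fun x : Fin (n + 1) → ℝ => x 0) (continuous_apply 0).continuousOn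
    refine ⟨max C 0, le_max_right _ _, fun x hx => ?_⟩
    exact (hC x hx).trans (le_max_left _ _)
  choose M hM0 hM using h1
  refine ⟨∑ i, M i, fun t ht => ?_⟩
  have hz : ∀ i y, slice u t i y = 0 := by
    intro i y
    by_contra hne
    have hmem : (Fin.cons t y : Fin (n + 1) → ℝ) ∈ tsupport (u i) :=
      subset_tsupport _ hne
    have h2 := hM i _ hmem
    rw [Fin.cons_zero] at h2
    have h3 : M i ≤ ∑ i, M i := Finset.single_le_sum (f := M) (fun j _ => hM0 j) (Finset.mem_univ i)
    linarith
  ext i j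
  show ∫ y, slice u t i y * starRingEnd ℂ (slice u t j y) = 0
  simp [hz]

theorem Gram_int {n N : ℕ} (u : Fin N → (Fin (n + 1) → ℝ) → ℂ) (hu : ∀ i, Continuous (u i))
    (hc : ∀ i, HasCompactSupport (u i)) :
    mInt univ (fun t => Gram (slice u t)) = Gram u := by
  ext i j
  show ∫ t in univ, ∫ y, slice u t i y * starRingEnd ℂ (slice u t j y) =
    ∫ x, u i x * starRingEnd ℂ (u j x)
  rw [setIntegral_univ, int_cons _ (Gram_psd_cont u hu i j) (Gram_psd_supp u hc i j)]
  rfl


end Pool.Agent.Helper766.M
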