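import Mathlib
import Pool.Agent.Helper766.M.Defs


set_option autoImplicit false

open MeasureTheory Set Real Matrix
open scoped ENNReal ComplexOrder

namespace Pool.Agent.Helper766.M


/-- linear part of `y ↦ cons t y` -/
noncomputable def slice_reg_L (n : ℕ) : (Fin n → ℝ) →L[ℝ] (Fin (n + 1) → ℝ) :=
  ContinuousLinearMap.pi (fun i => Fin.cases (motive := fun _ => (Fin n → ℝ) →L[ℝ] ℝ) 0
    (fun j => ContinuousLinearMap.proj j) i)

theorem slice_reg_fd {n : ℕ} (t : ℝ) (y : Fin n → ℝ) :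
    HasFDerivAt (fun y : Fin n → ℝ => (Fin.cons t y : Fin (n + 1) → ℝ)) (slice_reg_L n) y := by
  rw [hasFDerivAt_pi']
  intro i
  refine Fin.cases ?_ (fun j => ?_) i
  · exact hasFDerivAt_const t y
  · exact hasFDerivAt_apply j y

theorem slice_reg_cd {n : ℕ} (t : ℝ) :
    ContDiff ℝ 1 (fun y : Fin n → ℝ => (Fin.cons t y : Fin (n + 1) → ℝ)) := by
  rw [contDiff_pi]
  intro i
  refine Fin.cases ?_ (fun j => ?_) i
  · exact contDiff_const
  · exact contDiff_apply ℝ ℝ j

theorem slice_reg {n N : ℕ} (u : Fin N → (Fin (n + 1) → ℝ) → ℂ) (hu : ∀ i, ContDiff ℝ 1 (u i))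
    (hc : ∀ i, HasCompactSupport (u i)) (t : ℝ) :
    (∀ i, ContDiff ℝ 1 (slice u t i)) ∧ (∀ i, HasCompactSupport (slice u t i)) ∧
      ∀ i (y : Fin n → ℝ) (j : Fin n), fderiv ℝ (slice u t i) y (Pi.single j 1) =
        fderiv ℝ (u i) (Fin.cons t y : Fin (n + 1) → ℝ) (Pi.single j.succ 1) := by
  refine ⟨fun i => (hu i).comp (slice_reg_cd t), fun i => ?_, fun i y j => ?_⟩
  · have hK : IsCompact ((fun x : Fin (n + 1) → ℝ => fun j : Fin n => x j.succ) ''
        tsupport (u i)) :=
      (hc i).image (continuous_pi fun j => continuous_apply _)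
    refine HasCompactSupport.intro hK fun y hy => ?_
    by_contra h
    apply hy
    exact ⟨Fin.cons t y, subset_tsupport _ h, by funext j; simp⟩
  · have h1 : HasFDerivAt (u i) (fderiv ℝ (u i) (Fin.cons t y : Fin (n + 1) → ℝ))
        (Fin.cons t y : Fin (n + 1) → ℝ) :=
      ((hu i).differentiable (by norm_num) _).hasFDerivAt
    have h2 : HasFDerivAt (slice u t i)
        ((fderiv ℝ (u i) (Fin.cons t y : Fin (n + 1) → ℝ)).comp (slice_reg_L n)) y :=
      HasFDerivAt.comp (g := u i) y h1 (slice_reg_fd t y)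
    rw [h2.fderiv, ContinuousLinearMap.comp_apply]
    congr 1
    funext k
    refine Fin.cases ?_ (fun l => ?_) k
    · show (0 : ℝ) = _
      rw [Pi.single_eq_of_ne (Fin.succ_ne_zero j).symm]
    · show (Pi.single j (1 : ℝ) : Fin n → ℝ) l = _
      by_cases h : l = j
      · subst h
        rw [Pi.single_eq_same, Pi.single_eq_same]
      · rw [Pi.single_eq_of_ne h, Pi.single_eq_of_ne (fun h' => h (Fin.succ_injective _ h'))]


end Pool.Agent.Helper766.M
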