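import Mathlib
import Pool.Agent.Helper766.M.Defs
import Pool.Agent.Helper766.M.L_slice_reg


set_option autoImplicit false

open MeasureTheory Set Real Matrix
open scoped ENNReal ComplexOrder

namespace Pool.Agent.Helper766.M


theorem Gram_der_cont {m : ℕ} {f : (Fin (m + 1) → ℝ) → ℂ} (hf : Continuous f)
    (hc : HasCompactSupport f) :
    Continuous (fun x : ℝ => ∫ y : Fin m → ℝ, f (Fin.cons x y : Fin (m + 1) → ℝ)) ∧
    (∀ x : ℝ, Continuous fun y : Fin m → ℝ => f (Fin.cons x y : Fin (m + 1) → ℝ)) ∧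
    (∀ x : ℝ, HasCompactSupport fun y : Fin m → ℝ => f (Fin.cons x y : Fin (m + 1) → ℝ)) := by
  have hcons : Continuous fun p : ℝ × (Fin m → ℝ) => (Fin.cons p.1 p.2 : Fin (m + 1) → ℝ) := by
    refine continuous_pi fun i => ?_
    refine Fin.cases ?_ (fun j => ?_) i
    · exact continuous_fst
    · exact (continuous_apply j).comp continuous_snd
  have hF : Continuous fun p : ℝ × (Fin m → ℝ) => f (Fin.cons p.1 p.2 : Fin (m + 1) → ℝ) :=
    hf.comp hcons
  obtain ⟨M, hM⟩ := hc.isCompact.isBounded.subset_closedBall 0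
  have hz : ∀ z : Fin (m + 1) → ℝ, M < ‖z‖ → f z = 0 := by
    intro z hz
    by_contra h
    have h1 := hM (subset_tsupport f h)
    rw [mem_closedBall_zero_iff] at h1
    linarith
  have h1 : ∀ (x : ℝ) (y : Fin m → ℝ), y ∉ Metric.closedBall (0 : Fin m → ℝ) M →
      f (Fin.cons x y : Fin (m + 1) → ℝ) = 0 := by
    intro x y hy
    rw [mem_closedBall_zero_iff, not_le] at hy
    refine hz _ (hy.trans_le ?_)
    refine (pi_norm_le_iff_of_nonneg (norm_nonneg _)).2 fun j => ?_
    have h1 := norm_le_pi_norm (Fin.cons x y : Fin (m + 1) → ℝ) j.succ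
    rwa [Fin.cons_succ] at h1
  refine ⟨?_, ?_, ?_⟩
  · have h2 : (fun x : ℝ => ∫ y : Fin m → ℝ, f (Fin.cons x y : Fin (m + 1) → ℝ)) =
        fun x : ℝ => ∫ y in Metric.closedBall (0 : Fin m → ℝ) M,
          f (Fin.cons x y : Fin (m + 1) → ℝ) := by
      funext x
      exact (setIntegral_eq_integral_of_forall_compl_eq_zero fun y hy => h1 x y hy).symm
    rw [h2]
    exact continuous_parametric_integral_of_continuous
      (f := fun (x : ℝ) (y : Fin m → ℝ) => f (Fin.cons x y : Fin (m + 1) → ℝ)) hF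
      (isCompact_closedBall 0 M)
  · intro x
    exact hF.comp (Continuous.prodMk_right x)
  · intro x
    exact HasCompactSupport.intro (isCompact_closedBall 0 M) fun y hy => h1 x y hy

theorem Gram_der_basic {m : ℕ} {f : (Fin (m + 1) → ℝ) → ℂ} (hf : ContDiff ℝ 1 f)
    (hc : HasCompactSupport f) : Continuous (pd0 f) ∧ HasCompactSupport (pd0 f) := by
  refine ⟨?_, ?_⟩
  · exact (hf.continuous_fderiv (by norm_num)).clm_apply continuous_const
  · have h := hc.fderiv (𝕜 := ℝ)
    exact h.comp_left (g := fun L : (Fin (m + 1) → ℝ) →L[ℝ] ℂ => L (Pi.single 0 1)) (by simp)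

theorem Gram_der_one {m : ℕ} {f : (Fin (m + 1) → ℝ) → ℂ} (hf : ContDiff ℝ 1 f)
    (hc : HasCompactSupport f) (x : ℝ) :
    HasDerivAt (fun x : ℝ => ∫ y : Fin m → ℝ, f (Fin.cons x y : Fin (m + 1) → ℝ))
      (∫ y : Fin m → ℝ, pd0 f (Fin.cons x y : Fin (m + 1) → ℝ)) x := by
  obtain ⟨hpc, hps⟩ := Gram_der_basic hf hc
  obtain ⟨-, hsl, hsc⟩ := Gram_der_cont hf.continuous hc
  obtain ⟨-, hpl, -⟩ := Gram_der_cont hpc hps
  obtain ⟨C, hC⟩ := hps.exists_bound_of_continuous hpc
  obtain ⟨R, hR⟩ := hps.isCompact.isBounded.subset_closedBall (0 : Fin (m + 1) → ℝ)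
  have hC0 : 0 ≤ C := le_trans (norm_nonneg _) (hC 0)
  have hvan : ∀ (t : ℝ) (y : Fin m → ℝ), y ∉ Metric.closedBall (0 : Fin m → ℝ) R →
      pd0 f (Fin.cons t y : Fin (m + 1) → ℝ) = 0 := by
    intro t y hy
    by_contra hne
    apply hy
    have h1 : (Fin.cons t y : Fin (m + 1) → ℝ) ∈ Metric.closedBall (0 : Fin (m + 1) → ℝ) R :=
      hR (subset_tsupport _ hne)
    rw [mem_closedBall_zero_iff] at h1 ⊢
    have hR0 : 0 ≤ R := le_trans (norm_nonneg _) h1
    rw [pi_norm_le_iff_of_nonneg hR0] at h1 ⊢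
    intro i
    have := h1 (Fin.succ i)
    simpa using this
  have hder : ∀ (y : Fin m → ℝ) (t : ℝ), HasDerivAt (fun t : ℝ => f (Fin.cons t y : Fin (m + 1) → ℝ))
      (pd0 f (Fin.cons t y : Fin (m + 1) → ℝ)) t := by
    intro y t
    have h1 : HasDerivAt (fun t : ℝ => (Fin.cons t y : Fin (m + 1) → ℝ))
        (Pi.single 0 1 : Fin (m + 1) → ℝ) t := by
      rw [hasDerivAt_pi]
      intro i
      refine Fin.cases ?_ (fun j => ?_) i
      · simpa using hasDerivAt_id' (𝕜 := ℝ) t
      · simpa using hasDerivAt_const t (y j)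
    have h2 : HasFDerivAt f (fderiv ℝ f (Fin.cons t y : Fin (m + 1) → ℝ))
        (Fin.cons t y : Fin (m + 1) → ℝ) :=
      (hf.differentiable (by norm_num)).differentiableAt.hasFDerivAt
    exact h2.comp_hasDerivAt t h1
  have key := hasDerivAt_integral_of_dominated_loc_of_deriv_le (μ := (volume : Measure (Fin m → ℝ)))
    (F := fun (t : ℝ) (y : Fin m → ℝ) => f (Fin.cons t y : Fin (m + 1) → ℝ))
    (F' := fun (t : ℝ) (y : Fin m → ℝ) => pd0 f (Fin.cons t y : Fin (m + 1) → ℝ))
    (x₀ := x) (s := Set.univ)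
    (bound := (Metric.closedBall (0 : Fin m → ℝ) R).indicator (fun _ => C))
    Filter.univ_mem
    (Filter.Eventually.of_forall fun t => (hsl t).aestronglyMeasurable)
    ((hsl x).integrable_of_hasCompactSupport (hsc x))
    (hpl x).aestronglyMeasurable
    (Filter.Eventually.of_forall fun y t _ => ?_)
    ?_
    (Filter.Eventually.of_forall fun y t _ => hder y t)
  · exact key.2
  · by_cases hy : y ∈ Metric.closedBall (0 : Fin m → ℝ) R
    · rw [Set.indicator_of_mem hy]
      exact hC _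
    · rw [Set.indicator_of_notMem hy]
      show ‖pd0 f (Fin.cons t y : Fin (m + 1) → ℝ)‖ ≤ 0
      rw [hvan t y hy, norm_zero]
  · rw [integrable_indicator_iff measurableSet_closedBall]
    exact integrableOn_const (measure_closedBall_lt_top.ne)

theorem Gram_der {n N : ℕ} (u : Fin N → (Fin (n + 1) → ℝ) → ℂ) (hu : ∀ i, ContDiff ℝ 1 (u i))
    (hc : ∀ i, HasCompactSupport (u i)) :
    (∀ i j t, HasDerivAt (fun t => Gram (slice u t) i j) (Gram' u t i j) t) ∧
      ∀ i j, Continuous fun t => Gram' u t i j := by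
  have hF : ∀ i j, ContDiff ℝ 1 (fun x => u i x * starRingEnd ℂ (u j x)) := by
    intro i j
    refine (hu i).mul ?_
    exact Complex.conjCLE.contDiff.comp (hu j)
  have hS : ∀ i j, HasCompactSupport (fun x => u i x * starRingEnd ℂ (u j x)) := by
    intro i j
    exact (hc i).mul_right
  have hp : ∀ i j x, pd0 (fun x => u i x * starRingEnd ℂ (u j x)) x =
      pd0 (u i) x * starRingEnd ℂ (u j x) + u i x * starRingEnd ℂ (pd0 (u j) x) := by
    intro i j x
    have h1 : HasFDerivAt (u i) (fderiv ℝ (u i) x) x :=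
      ((hu i).differentiable (by norm_num)).differentiableAt.hasFDerivAt
    have h2 : HasFDerivAt (u j) (fderiv ℝ (u j) x) x :=
      ((hu j).differentiable (by norm_num)).differentiableAt.hasFDerivAt
    have h3 : HasFDerivAt (fun x => starRingEnd ℂ (u j x))
        ((Complex.conjCLE : ℂ →L[ℝ] ℂ).comp (fderiv ℝ (u j) x)) x :=
      (Complex.conjCLE : ℂ →L[ℝ] ℂ).hasFDerivAt.comp x h2
    have h4 : fderiv ℝ (fun x => u i x * starRingEnd ℂ (u j x)) x = _ := (h1.mul h3).fderiv
    unfold pd0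
    rw [h4]
    simp
    ring
  refine ⟨fun i j t => ?_, fun i j => ?_⟩
  · have h := Gram_der_one (hF i j) (hS i j) t
    have e : (∫ y : Fin n → ℝ, pd0 (fun x => u i x * starRingEnd ℂ (u j x))
        (Fin.cons t y : Fin (n + 1) → ℝ)) = Gram' u t i j := by
      unfold Gram'
      rw [Matrix.of_apply]
      exact integral_congr_ae (Filter.Eventually.of_forall fun y => hp i j _)
    rw [e] at h
    exact h
  · obtain ⟨hpc, hps⟩ := Gram_der_basic (hF i j) (hS i j)
    have h := (Gram_der_cont hpc hps).1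
    have e : (fun t : ℝ => ∫ y : Fin n → ℝ, pd0 (fun x => u i x * starRingEnd ℂ (u j x))
        (Fin.cons t y : Fin (n + 1) → ℝ)) = fun t => Gram' u t i j := by
      funext t
      unfold Gram'
      rw [Matrix.of_apply]
      exact integral_congr_ae (Filter.Eventually.of_forall fun y => hp i j _)
    rw [e] at h
    exact h


end Pool.Agent.Helper766.M
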