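import Mathlib
import Pool.Agent.Helper766.M.Defs
import Pool.Agent.Helper766.M.L_beta_lint


set_option autoImplicit false

open MeasureTheory Set Real Matrix
open scoped ENNReal ComplexOrder

namespace Pool.Agent.Helper766.M


theorem W_int {n : ℕ} (V : (Fin n → ℝ) → ℝ≥0∞) (hV : Measurable V) {δ q : ℝ} (hδ : 0 < δ)
    (hq : 0 < q) :
    ∫⁻ t in Ioi (0 : ℝ), ENNReal.ofReal (t ^ (δ - 1)) *
        ∫⁻ x, (V x - ENNReal.ofReal t) ^ q =
      ENNReal.ofReal (Gamma δ * Gamma (q + 1) / Gamma (δ + q + 1)) * ∫⁻ x, V x ^ (q + δ) := by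
  have hm : Measurable (fun z : ℝ × (Fin n → ℝ) =>
      ENNReal.ofReal (z.1 ^ (δ - 1)) * (V z.2 - ENNReal.ofReal z.1) ^ q) := by
    have h1 : Measurable (fun z : ℝ × (Fin n → ℝ) => ENNReal.ofReal (z.1 ^ (δ - 1))) :=
      (measurable_fst.pow_const (δ - 1)).ennreal_ofReal
    have h2 : Measurable (fun z : ℝ × (Fin n → ℝ) => V z.2 - ENNReal.ofReal z.1) :=
      (hV.comp measurable_snd).sub measurable_fst.ennreal_ofReal
    exact h1.mul (h2.pow_const q)
  have e1 : ∀ t : ℝ, ENNReal.ofReal (t ^ (δ - 1)) *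
        ∫⁻ x, (V x - ENNReal.ofReal t) ^ q =
      ∫⁻ x, ENNReal.ofReal (t ^ (δ - 1)) * (V x - ENNReal.ofReal t) ^ q := by
    intro t
    rw [lintegral_const_mul]
    exact (hV.sub_const _).pow_const q
  simp_rw [e1]
  rw [lintegral_lintegral_swap hm.aemeasurable]
  simp_rw [beta_lint _ hδ hq]
  rw [lintegral_const_mul]
  exact hV.pow_const _


end Pool.Agent.Helper766.M
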