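import Mathlib
import Pool.Agent.Helper766.M.Defs


set_option autoImplicit false

open MeasureTheory Set Real Matrix
open scoped ENNReal ComplexOrder

namespace Pool.Agent.Helper766.M


theorem cc_zero : cc 0 = 2 / 3 := by
  have hG : Gamma (5 / 2 : ℝ) ≠ 0 := (Real.Gamma_pos_of_pos (by norm_num)).ne'
  unfold cc
  have e1 : (4 * π) ^ (((0 : ℕ) : ℝ) / 2) = 1 := by simp
  have e2 : (((0 : ℕ) : ℝ) + 5) / 2 = 5 / 2 := by norm_num
  rw [e1, e2, one_mul, div_self hG, mul_one]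

theorem cc_succ (n : ℕ) : 0 < cc n ∧ cc (n + 1) =
    1 / (2 * π) * (cc n * (Gamma (1 / 2) * Gamma (((n : ℝ) + 3) / 2 + 1) /
      Gamma (1 / 2 + ((n : ℝ) + 3) / 2 + 1))) := by
  have hpi : 0 < π := Real.pi_pos
  have h4 : 0 < 4 * π := by positivity
  have hn : (0 : ℝ) ≤ n := Nat.cast_nonneg n
  have hG0 : 0 < Gamma (5 / 2 : ℝ) := Real.Gamma_pos_of_pos (by norm_num)
  have hG1 : 0 < Gamma (((n : ℝ) + 5) / 2) := Real.Gamma_pos_of_pos (by positivity)
  have hG2 : 0 < Gamma (((n : ℝ) + 6) / 2) := Real.Gamma_pos_of_pos (by positivity)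
  have hp : 0 < (4 * π) ^ ((n : ℝ) / 2) := Real.rpow_pos_of_pos h4 _
  refine ⟨?_, ?_⟩
  · unfold cc
    positivity
  · unfold cc
    have e1 : ((n : ℝ) + 3) / 2 + 1 = ((n : ℝ) + 5) / 2 := by ring
    have e2 : 1 / 2 + ((n : ℝ) + 3) / 2 + 1 = ((n : ℝ) + 6) / 2 := by ring
    have e3 : (((n + 1 : ℕ) : ℝ) + 5) / 2 = ((n : ℝ) + 6) / 2 := by push_cast; ring
    have e4 : (4 * π) ^ (((n + 1 : ℕ) : ℝ) / 2) = (4 * π) ^ ((n : ℝ) / 2) * (2 * √π) := by
      have : (((n + 1 : ℕ) : ℝ) / 2) = (n : ℝ) / 2 + 1 / 2 := by push_cast; ring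
      rw [this, Real.rpow_add h4, ← Real.sqrt_eq_rpow (4 * π)]
      have h5 : √(4 * π) = 2 * √π := by
        rw [Real.sqrt_mul (by norm_num)]
        have : √(4 : ℝ) = 2 := by
          rw [show (4 : ℝ) = 2 ^ 2 by norm_num, Real.sqrt_sq (by norm_num)]
        rw [this]
      rw [h5]
    rw [e1, e2, e3, e4, Real.Gamma_one_half_eq]
    have hs : 0 < √π := Real.sqrt_pos.mpr hpi
    have hss : √π * √π = π := Real.mul_self_sqrt hpi.le
    generalize √π = s at *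
    rw [← hss]
    have hs' : s ≠ 0 := hs.ne'
    generalize (4 * (s * s)) ^ ((n : ℝ) / 2) = P at *
    field_simp


end Pool.Agent.Helper766.M
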