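import Mathlib
import Pool.Agent.Helper766.M.Defs


set_option autoImplicit false

open MeasureTheory Set Real Matrix
open scoped ENNReal ComplexOrder

namespace Pool.Agent.Helper766.M


theorem diag_family_unit {N : ℕ} (W : CM N) (hW : Wᴴ * W = 1) (p : Fin N → ℂ) :
    ∑ i, ‖∑ j, W i j * p j‖ₑ ^ 2 = ∑ j, ‖p j‖ₑ ^ 2 := by
  have h1 : star (W *ᵥ p) ⬝ᵥ (W *ᵥ p) = star p ⬝ᵥ p := by
    rw [Matrix.star_mulVec, Matrix.dotProduct_mulVec, Matrix.vecMul_vecMul, hW, Matrix.vecMul_one]
  have h2 : ∀ q : Fin N → ℂ, star q ⬝ᵥ q = ((∑ i, ‖q i‖ ^ 2 : ℝ) : ℂ) := by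
    intro q
    rw [dotProduct]
    push_cast
    apply Finset.sum_congr rfl
    intro i _
    rw [Pi.star_apply, mul_comm]
    exact Complex.mul_conj' _
  rw [h2, h2] at h1
  have h3 : ∑ i, ‖(W *ᵥ p) i‖ ^ 2 = ∑ i, ‖p i‖ ^ 2 := by exact_mod_cast h1
  have h4 : ∀ q : Fin N → ℂ, ∑ i, ‖q i‖ₑ ^ 2 = ENNReal.ofReal (∑ i, ‖q i‖ ^ 2) := by
    intro q
    rw [ENNReal.ofReal_sum_of_nonneg (fun i _ => by positivity)]
    apply Finset.sum_congr rfl
    intro i _
    rw [ENNReal.ofReal_pow (norm_nonneg _), ofReal_norm]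
  have h5 := h4 (W *ᵥ p)
  rw [h3, ← h4 p] at h5
  exact h5

theorem diag_family_gram {n N : ℕ} (u : Fin N → (Fin n → ℝ) → ℂ) (hu : ∀ i, Continuous (u i))
    (hc : ∀ i, HasCompactSupport (u i)) (W : CM N) :
    Gram (fun i x => ∑ j, W i j * u j x) = W * Gram u * Wᴴ := by
  have hint : ∀ j l, Integrable (fun x => u j x * starRingEnd ℂ (u l x)) := by
    intro j l
    apply Continuous.integrable_of_hasCompactSupport
    · exact (hu j).mul (Complex.continuous_conj.comp (hu l))
    · exact (hc j).mul_right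
  ext i k
  rw [Matrix.mul_apply]
  show ∫ x, (∑ j, W i j * u j x) * starRingEnd ℂ (∑ l, W k l * u l x) = _
  have e1 : ∀ x, (∑ j, W i j * u j x) * starRingEnd ℂ (∑ l, W k l * u l x)
      = ∑ l, ∑ j, (W i j * starRingEnd ℂ (W k l)) * (u j x * starRingEnd ℂ (u l x)) := by
    intro x
    rw [map_sum, Finset.mul_sum]
    apply Finset.sum_congr rfl
    intro l _
    rw [Finset.sum_mul]
    apply Finset.sum_congr rfl
    intro j _
    rw [map_mul]
    ring
  simp only [e1]
  rw [integral_finsetSum _ (fun l _ => integrable_finsetSum _ (fun j _ => (hint j l).const_mul _))]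
  apply Finset.sum_congr rfl
  intro l _
  rw [integral_finsetSum _ (fun j _ => (hint j l).const_mul _), Matrix.mul_apply, Finset.sum_mul]
  apply Finset.sum_congr rfl
  intro j _
  rw [integral_const_mul]
  have e2 : Gram u j l = ∫ x, u j x * starRingEnd ℂ (u l x) := rfl
  rw [← e2, Matrix.conjTranspose_apply]
  show W i j * star (W k l) * Gram u j l = _
  ring

theorem diag_family_eT_meas {n : ℕ} (A : (Fin n → ℝ) → (Fin n → ℝ)) (hA : Measurable A)
    (f : (Fin n → ℝ) → ℂ) (hf : ContDiff ℝ 1 f) : Measurable (eT A f) := by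
  unfold eT
  refine Finset.measurable_sum _ (fun j _ => ?_)
  have h1 : Continuous (fun x => fderiv ℝ f x (Pi.single j 1)) :=
    (hf.continuous_fderiv (by norm_num)).clm_apply continuous_const
  have h2 : Measurable (fun x => ((A x j : ℝ) : ℂ)) :=
    Complex.measurable_ofReal.comp ((measurable_pi_apply j).comp hA)
  exact ((h1.measurable.sub ((h2.const_mul _).mul hf.continuous.measurable)).enorm).pow_const 2

theorem diag_family_eT {n N : ℕ} (A : (Fin n → ℝ) → (Fin n → ℝ)) (u : Fin N → (Fin n → ℝ) → ℂ)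
    (hu : ∀ i, ContDiff ℝ 1 (u i)) (W : CM N) (hW : Wᴴ * W = 1) (x : Fin n → ℝ) :
    ∑ i, eT A (fun x => ∑ j, W i j * u j x) x = ∑ i, eT A (u i) x := by
  unfold eT
  rw [Finset.sum_comm, Finset.sum_comm (f := fun i j =>
    ‖fderiv ℝ (u i) x (Pi.single j 1) - Complex.I * ((A x j : ℝ) : ℂ) * u i x‖ₑ ^ 2)]
  apply Finset.sum_congr rfl
  intro k _
  rw [← diag_family_unit W hW (fun j =>
    fderiv ℝ (u j) x (Pi.single k 1) - Complex.I * ((A x k : ℝ) : ℂ) * u j x)]
  apply Finset.sum_congr rfl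
  intro i _
  congr 2
  have h1 : HasFDerivAt (fun x => ∑ j, W i j * u j x) (∑ j, W i j • fderiv ℝ (u j) x) x := by
    apply HasFDerivAt.fun_sum
    intro j _
    exact ((hu j).differentiable (by norm_num) x).hasFDerivAt.const_mul (W i j)
  rw [h1.fderiv]
  have h2 : (∑ j, W i j • fderiv ℝ (u j) x) (Pi.single k 1)
      = ∑ j, W i j * fderiv ℝ (u j) x (Pi.single k 1) := by
    rw [_root_.sum_apply]
    rfl
  rw [h2, Finset.mul_sum, ← Finset.sum_sub_distrib]
  apply Finset.sum_congr rfl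
  intro j _
  ring

theorem diag_family {n N : ℕ} (u : Fin N → (Fin n → ℝ) → ℂ) (hu : ∀ i, ContDiff ℝ 1 (u i))
    (hc : ∀ i, HasCompactSupport (u i)) :
    ∃ (v : Fin N → (Fin n → ℝ) → ℂ) (l : Fin N → ℝ), (∀ i, ContDiff ℝ 1 (v i)) ∧
      (∀ i, HasCompactSupport (v i)) ∧ (∀ i, 0 ≤ l i) ∧
      Gram v = Matrix.diagonal (fun i => (l i : ℂ)) ∧
      (Gram u * Gram u).trace.re = ∑ i, l i ^ 2 ∧ (∀ x, rho v x = rho u x) ∧
      ∀ A : (Fin n → ℝ) → (Fin n → ℝ), Measurable A → Tmag A v = Tmag A u := by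
  have hG : (Gram u).IsHermitian := by
    ext i j
    rw [Matrix.conjTranspose_apply]
    show starRingEnd ℂ (∫ x, u j x * starRingEnd ℂ (u i x)) = ∫ x, u i x * starRingEnd ℂ (u j x)
    rw [← integral_conj]
    congr 1
    funext x
    rw [map_mul, Complex.conj_conj, mul_comm]
  obtain ⟨W, l, hW1, hW2, hWG⟩ : ∃ (W : CM N) (l : Fin N → ℝ), Wᴴ * W = 1 ∧ W * Wᴴ = 1 ∧
      W * Gram u * Wᴴ = Matrix.diagonal (fun i => (l i : ℂ)) := by
    refine ⟨star (hG.eigenvectorUnitary : CM N), hG.eigenvalues, ?_, ?_, ?_⟩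
    · rw [Matrix.star_eq_conjTranspose, Matrix.conjTranspose_conjTranspose]
      exact Unitary.mul_star_self_of_mem hG.eigenvectorUnitary.2
    · rw [Matrix.star_eq_conjTranspose, Matrix.conjTranspose_conjTranspose]
      exact Unitary.star_mul_self_of_mem hG.eigenvectorUnitary.2
    · have h := hG.conjStarAlgAut_star_eigenvectorUnitary
      rw [Matrix.star_eq_conjTranspose, Matrix.conjTranspose_conjTranspose]
      rw [Unitary.conjStarAlgAut_apply] at h
      simp at h
      exact h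
  obtain ⟨v, hv⟩ : ∃ v : Fin N → (Fin n → ℝ) → ℂ, v = fun i x => ∑ j, W i j * u j x := ⟨_, rfl⟩
  have hGv : Gram v = Matrix.diagonal (fun i => (l i : ℂ)) := by
    rw [hv, diag_family_gram u (fun i => (hu i).continuous) hc W, hWG]
  have hv1 : ∀ i, ContDiff ℝ 1 (v i) := by
    intro i
    rw [hv]
    exact ContDiff.sum (fun j _ => contDiff_const.mul (hu j))
  refine ⟨v, l, hv1, ?_, ?_, hGv, ?_, ?_, ?_⟩
  · intro i
    rw [hv]
    have h1 : IsCompact (⋃ j, tsupport (u j)) := isCompact_iUnion (fun j => hc j)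
    apply HasCompactSupport.intro h1
    intro x hx
    apply Finset.sum_eq_zero
    intro j _
    have h2 : u j x = 0 := by
      by_contra h3
      exact hx (Set.mem_iUnion.2 ⟨j, subset_tsupport _ h3⟩)
    rw [h2, mul_zero]
  · intro i
    have h1 : Gram v i i = (l i : ℂ) := by
      rw [hGv, Matrix.diagonal_apply_eq]
    have h2 : Gram v i i = ((∫ x, ‖v i x‖ ^ 2 : ℝ) : ℂ) := by
      show ∫ x, v i x * starRingEnd ℂ (v i x) = _
      rw [← integral_complex_ofReal]
      congr 1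
      funext x
      rw [Complex.mul_conj']
      push_cast
      rfl
    rw [h2] at h1
    have h3 : (∫ x, ‖v i x‖ ^ 2 : ℝ) = l i := by exact_mod_cast h1
    rw [← h3]
    exact integral_nonneg (fun x => by positivity)
  · have h1 : Matrix.diagonal (fun i => (l i : ℂ)) * Matrix.diagonal (fun i => (l i : ℂ))
        = W * (Gram u * Gram u) * Wᴴ := by
      rw [← hWG]
      calc W * Gram u * Wᴴ * (W * Gram u * Wᴴ) = W * Gram u * (Wᴴ * W) * Gram u * Wᴴ := by
            simp only [Matrix.mul_assoc]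
        _ = _ := by rw [hW1, Matrix.mul_one]; simp only [Matrix.mul_assoc]
    have h2 : (Gram u * Gram u).trace = (Matrix.diagonal (fun i => (l i : ℂ))
        * Matrix.diagonal (fun i => (l i : ℂ))).trace := by
      rw [h1, Matrix.trace_mul_comm (W * (Gram u * Gram u)) Wᴴ, ← Matrix.mul_assoc Wᴴ W, hW1,
        Matrix.one_mul]
    rw [h2, Matrix.diagonal_mul_diagonal, Matrix.trace_diagonal]
    have h3 : ∑ i, (l i : ℂ) * (l i : ℂ) = ((∑ i, l i ^ 2 : ℝ) : ℂ) := by
      push_cast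
      apply Finset.sum_congr rfl
      intro i _
      ring
    rw [h3, Complex.ofReal_re]
  · intro x
    unfold rho
    rw [hv]
    exact diag_family_unit W hW1 (fun j => u j x)
  · intro A hA
    unfold Tmag
    rw [← lintegral_finsetSum _ (fun i _ => diag_family_eT_meas A hA (v i) (hv1 i)),
      ← lintegral_finsetSum _ (fun i _ => diag_family_eT_meas A hA (u i) (hu i))]
    congr 1
    funext x
    rw [hv]
    exact diag_family_eT A u hu W hW1 x


end Pool.Agent.Helper766.M
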