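import Mathlib
import Pool.Agent.Helper766.M.Defs
import Pool.Agent.Helper766.M.L_AL_core
import Pool.Agent.Helper766.M.L_W_int
import Pool.Agent.Helper766.M.L_beta_lint
import Pool.Agent.Helper766.M.L_cc
import Pool.Agent.Helper766.M.L_diag_family


set_option autoImplicit false

open MeasureTheory Set Real Matrix
open scoped ENNReal ComplexOrder

namespace Pool.Agent.Helper766.M


theorem PP_to_PP'_c {n : ℕ} (f : (Fin n → ℝ) → ℂ) (hf : ContDiff ℝ 1 f)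
    (hc : HasCompactSupport f) (l : ℝ)
    (h : ∫ x, f x * starRingEnd ℂ (f x) = (l : ℂ)) :
    ∫⁻ x, ‖f x‖ₑ ^ 2 = ENNReal.ofReal l := by
  have hcont := hf.continuous
  have hint : Integrable (fun x => ‖f x‖ ^ 2) := by
    have hcs : HasCompactSupport (fun x => ‖f x‖ ^ 2) := by
      refine hc.mono fun x hx => ?_
      rw [Function.mem_support] at hx ⊢
      intro e
      apply hx
      rw [e, norm_zero]
      norm_num
    exact (hcont.norm.pow 2).integrable_of_hasCompactSupport hcs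
  have h1 : ∫ x, ‖f x‖ ^ 2 = l := by
    have h2 : ∫ x, f x * starRingEnd ℂ (f x) = ((∫ x, ‖f x‖ ^ 2 : ℝ) : ℂ) := by
      have h3 : ∫ x, f x * starRingEnd ℂ (f x) = ∫ x, ((‖f x‖ ^ 2 : ℝ) : ℂ) := by
        refine integral_congr_ae (Filter.Eventually.of_forall fun x => ?_)
        simp only
        rw [Complex.mul_conj, Complex.normSq_eq_norm_sq]
      rw [h3]
      exact integral_ofReal
    rw [h2] at h
    exact_mod_cast h
  rw [← h1, ofReal_integral_eq_lintegral_ofReal hint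
    (Filter.Eventually.of_forall fun x => by positivity)]
  refine lintegral_congr fun x => ?_
  rw [ENNReal.ofReal_pow (norm_nonneg _), ofReal_norm_eq_enorm]

theorem PP_to_PP'_eT {n : ℕ} (A : (Fin n → ℝ) → (Fin n → ℝ)) (f : (Fin n → ℝ) → ℂ)
    (hf : ContDiff ℝ 1 f) (c : ℂ) (x : Fin n → ℝ) :
    eT A (fun y => c * f y) x = ‖c‖ₑ ^ 2 * eT A f x := by
  have hd : DifferentiableAt ℝ f x := (hf.differentiable (by norm_num)).differentiableAt
  unfold eT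
  rw [Finset.mul_sum]
  refine Finset.sum_congr rfl fun j _ => ?_
  rw [fderiv_const_mul hd, ContinuousLinearMap.smul_apply, smul_eq_mul]
  rw [show c * fderiv ℝ f x (Pi.single j 1) - Complex.I * ((A x j : ℝ) : ℂ) * (c * f x) =
    c * (fderiv ℝ f x (Pi.single j 1) - Complex.I * ((A x j : ℝ) : ℂ) * f x) by ring]
  rw [enorm_mul, mul_pow]

theorem PP_to_PP'_fin {n : ℕ} (V : (Fin n → ℝ) → ℝ≥0∞) (hV : Measurable V) (p : ℝ) (hp : 1 ≤ p)
    (hI : ∫⁻ x, V x ^ p ≠ ⊤) (f : (Fin n → ℝ) → ℂ) (hf : ContDiff ℝ 1 f)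
    (hc : HasCompactSupport f) (h2 : ∫⁻ x, ‖f x‖ₑ ^ 2 ≠ ⊤) :
    ∫⁻ x, V x * ‖f x‖ₑ ^ 2 ≠ ⊤ := by
  obtain ⟨C, hC⟩ := hc.exists_bound_of_continuous hf.continuous
  have hC' : ∀ x, ‖f x‖ₑ ≤ ENNReal.ofReal C := by
    intro x
    rw [← ofReal_norm_eq_enorm]
    exact ENNReal.ofReal_le_ofReal (hC x)
  have h1 : ∀ x, V x ≤ 1 + V x ^ p := by
    intro x
    rcases le_total (V x) 1 with h | h
    · exact h.trans le_self_add
    · have := ENNReal.rpow_le_rpow_of_exponent_le h hp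
      rw [ENNReal.rpow_one] at this
      exact this.trans le_add_self
  have hle : ∫⁻ x, V x * ‖f x‖ₑ ^ 2 ≤
      ∫⁻ x, (‖f x‖ₑ ^ 2 + (ENNReal.ofReal C) ^ 2 * V x ^ p) := by
    refine lintegral_mono fun x => ?_
    calc V x * ‖f x‖ₑ ^ 2 ≤ (1 + V x ^ p) * ‖f x‖ₑ ^ 2 := by gcongr; exact h1 x
      _ = ‖f x‖ₑ ^ 2 + ‖f x‖ₑ ^ 2 * V x ^ p := by ring
      _ ≤ _ := by gcongr; exact hC' x
  refine ne_top_of_le_ne_top ?_ hle
  rw [lintegral_add_left (by exact (hf.continuous.measurable.enorm).pow_const 2),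
    lintegral_const_mul _ (hV.pow_const p)]
  exact ENNReal.add_ne_top.2 ⟨h2, ENNReal.mul_ne_top (by simp) hI⟩

theorem PP_to_PP'_Gram {n N : ℕ} (v : Fin N → (Fin n → ℝ) → ℂ) (l : Fin N → ℝ) (c : Fin N → ℝ)
    (hG : Gram v = Matrix.diagonal (fun i => (l i : ℂ))) :
    Gram (fun i x => ((c i : ℝ) : ℂ) * v i x) =
      Matrix.diagonal (fun i => ((c i ^ 2 * l i : ℝ) : ℂ)) := by
  ext i j
  have h1 : Gram (fun i x => ((c i : ℝ) : ℂ) * v i x) i j =
      ((c i : ℝ) : ℂ) * ((c j : ℝ) : ℂ) * Gram v i j := by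
    unfold Gram
    rw [Matrix.of_apply, Matrix.of_apply, ← integral_const_mul]
    refine integral_congr_ae (Filter.Eventually.of_forall fun x => ?_)
    simp only [map_mul, Complex.conj_ofReal]
    ring
  rw [h1, hG]
  by_cases e : i = j
  · subst e
    rw [Matrix.diagonal_apply_eq, Matrix.diagonal_apply_eq]
    push_cast
    ring
  · rw [Matrix.diagonal_apply_ne _ e, Matrix.diagonal_apply_ne _ e, mul_zero]

theorem PP_to_PP'_tr {N : ℕ} (d : Fin N → ℝ) :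
    ((Matrix.diagonal (fun i => (d i : ℂ)) * Matrix.diagonal (fun i => (d i : ℂ)) *
      Matrix.diagonal (fun i => (d i : ℂ)) : CM N)).trace.re = ∑ i, d i ^ 3 := by
  rw [Matrix.diagonal_mul_diagonal, Matrix.diagonal_mul_diagonal, Matrix.trace_diagonal,
    Complex.re_sum]
  refine Finset.sum_congr rfl fun i _ => ?_
  rw [← Complex.ofReal_mul, ← Complex.ofReal_mul, Complex.ofReal_re]
  ring

theorem PP_to_PP'_step {n N : ℕ} (c : ℝ≥0∞) (h : PP n c) (v : Fin N → (Fin n → ℝ) → ℂ)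
    (l : Fin N → ℝ) (hv : ∀ i, ContDiff ℝ 1 (v i)) (hvc : ∀ i, HasCompactSupport (v i))
    (hl : ∀ i, 0 ≤ l i) (hG : Gram v = Matrix.diagonal (fun i => (l i : ℂ)))
    (hL : ∀ i, ∫⁻ x, ‖v i x‖ₑ ^ 2 = ENNReal.ofReal (l i))
    (A : (Fin n → ℝ) → (Fin n → ℝ)) (V : (Fin n → ℝ) → ℝ≥0∞) (hA : Measurable A)
    (hV : Measurable V) (t : ℝ) (ht : 0 < t) (b : Fin N → ℝ) (hb : ∀ i, 0 ≤ b i) :
    ∑ i, ENNReal.ofReal (b i / l i) * ∫⁻ x, V x * ‖v i x‖ₑ ^ 2 ≤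
      ∑ i, ENNReal.ofReal (b i / l i) * (∫⁻ x, eT A (v i) x) +
        ∑ i, ENNReal.ofReal (b i * t) + ENNReal.ofReal (1 / 3 * ∑ i, b i ^ 3) +
        c * ∫⁻ x, (V x - ENNReal.ofReal t) ^ (((n : ℝ) + 3) / 2) := by
  have hbl : ∀ i, 0 ≤ b i / l i := fun i => div_nonneg (hb i) (hl i)
  have hs : ∀ i, ‖((√(b i / l i) : ℝ) : ℂ)‖ₑ ^ 2 = ENNReal.ofReal (b i / l i) := by
    intro i
    rw [← ofReal_norm_eq_enorm, Complex.norm_real, Real.norm_of_nonneg (Real.sqrt_nonneg _),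
      ← ENNReal.ofReal_pow (Real.sqrt_nonneg _), Real.sq_sqrt (hbl i)]
  have hb' : ∀ i, √(b i / l i) ^ 2 * l i ≤ b i ∧ 0 ≤ √(b i / l i) ^ 2 * l i := by
    intro i
    rw [Real.sq_sqrt (hbl i)]
    refine ⟨?_, mul_nonneg (hbl i) (hl i)⟩
    by_cases e : l i = 0
    · rw [e, mul_zero]
      exact hb i
    · rw [div_mul_cancel₀ _ e]
  have key := h N (fun i x => ((√(b i / l i) : ℝ) : ℂ) * v i x) A
    (fun x => V x - ENNReal.ofReal t)
    (fun i => contDiff_const.mul (hv i)) (fun i => (hvc i).mul_left) hA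
    (hV.sub_const _)
  rw [PP_to_PP'_Gram v l _ hG, PP_to_PP'_tr] at key
  have hT : Tmag A (fun i x => ((√(b i / l i) : ℝ) : ℂ) * v i x) =
      ∑ i, ENNReal.ofReal (b i / l i) * (∫⁻ x, eT A (v i) x) := by
    unfold Tmag
    refine Finset.sum_congr rfl fun i _ => ?_
    rw [← lintegral_const_mul' _ _ ENNReal.ofReal_ne_top]
    refine lintegral_congr fun x => ?_
    rw [PP_to_PP'_eT A (v i) (hv i), hs i]
  have hr : ∀ x, rho (fun i x => ((√(b i / l i) : ℝ) : ℂ) * v i x) x =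
      ∑ i, ENNReal.ofReal (b i / l i) * ‖v i x‖ₑ ^ 2 := by
    intro x
    unfold rho
    refine Finset.sum_congr rfl fun i _ => ?_
    rw [enorm_mul, mul_pow, hs i]
  rw [hT] at key
  simp_rw [hr] at key
  have hmv : ∀ i, Measurable fun x => ‖v i x‖ₑ ^ 2 := fun i =>
    ((hv i).continuous.measurable.enorm).pow_const 2
  have e1 : ∑ i, ENNReal.ofReal (b i / l i) * ∫⁻ x, V x * ‖v i x‖ₑ ^ 2 =
      ∫⁻ x, V x * ∑ i, ENNReal.ofReal (b i / l i) * ‖v i x‖ₑ ^ 2 := by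
    have : ∀ x, V x * ∑ i, ENNReal.ofReal (b i / l i) * ‖v i x‖ₑ ^ 2 =
        ∑ i, ENNReal.ofReal (b i / l i) * (V x * ‖v i x‖ₑ ^ 2) := by
      intro x
      rw [Finset.mul_sum]
      exact Finset.sum_congr rfl fun i _ => by ring
    simp_rw [this]
    have hm1 : ∀ i, Measurable fun x => V x * ‖v i x‖ₑ ^ 2 := fun i => hV.mul (hmv i)
    have hm2 : ∀ i, Measurable fun x => ENNReal.ofReal (b i / l i) * (V x * ‖v i x‖ₑ ^ 2) :=
      fun i => (hm1 i).const_mul _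
    rw [lintegral_finset_sum _ fun i _ => hm2 i]
    exact Finset.sum_congr rfl fun i _ => by rw [lintegral_const_mul _ (hm1 i)]
  have e2 : ∫⁻ x, V x * ∑ i, ENNReal.ofReal (b i / l i) * ‖v i x‖ₑ ^ 2 ≤
      (∫⁻ x, (V x - ENNReal.ofReal t) * ∑ i, ENNReal.ofReal (b i / l i) * ‖v i x‖ₑ ^ 2) +
        ENNReal.ofReal t * ∑ i, ENNReal.ofReal (b i / l i) * ENNReal.ofReal (l i) := by
    have hms : Measurable fun x => ∑ i, ENNReal.ofReal (b i / l i) * ‖v i x‖ₑ ^ 2 :=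
      Finset.measurable_sum _ fun i _ => (hmv i).const_mul _
    have e3 : ∫⁻ x, ∑ i, ENNReal.ofReal (b i / l i) * ‖v i x‖ₑ ^ 2 =
        ∑ i, ENNReal.ofReal (b i / l i) * ENNReal.ofReal (l i) := by
      have hm3 : ∀ i, Measurable fun x => ENNReal.ofReal (b i / l i) * ‖v i x‖ₑ ^ 2 :=
        fun i => (hmv i).const_mul _
      rw [lintegral_finset_sum _ fun i _ => hm3 i]
      exact Finset.sum_congr rfl fun i _ => by rw [lintegral_const_mul _ (hmv i), hL i]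
    have hms' : Measurable fun x => ENNReal.ofReal t *
        ∑ i, ENNReal.ofReal (b i / l i) * ‖v i x‖ₑ ^ 2 := hms.const_mul _
    rw [← e3, ← lintegral_const_mul _ hms, ← lintegral_add_right _ hms']
    refine lintegral_mono fun x => ?_
    simp only
    rw [← add_mul]
    gcongr
    exact le_tsub_add
  have e4 : ENNReal.ofReal t * ∑ i, ENNReal.ofReal (b i / l i) * ENNReal.ofReal (l i) ≤
      ∑ i, ENNReal.ofReal (b i * t) := by
    rw [Finset.mul_sum]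
    refine Finset.sum_le_sum fun i _ => ?_
    rw [← ENNReal.ofReal_mul (hbl i), ← ENNReal.ofReal_mul ht.le]
    apply ENNReal.ofReal_le_ofReal
    have := (hb' i).1
    rw [Real.sq_sqrt (hbl i)] at this
    nlinarith
  have e5 : ENNReal.ofReal (1 / 3 * ∑ i, (√(b i / l i) ^ 2 * l i) ^ 3) ≤
      ENNReal.ofReal (1 / 3 * ∑ i, b i ^ 3) := by
    apply ENNReal.ofReal_le_ofReal
    have : ∑ i, (√(b i / l i) ^ 2 * l i) ^ 3 ≤ ∑ i, b i ^ 3 :=
      Finset.sum_le_sum fun i _ => pow_le_pow_left₀ (hb' i).2 (hb' i).1 3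
    linarith
  calc ∑ i, ENNReal.ofReal (b i / l i) * ∫⁻ x, V x * ‖v i x‖ₑ ^ 2
      = ∫⁻ x, V x * ∑ i, ENNReal.ofReal (b i / l i) * ‖v i x‖ₑ ^ 2 := e1
    _ ≤ _ := e2
    _ ≤ (∑ i, ENNReal.ofReal (b i / l i) * (∫⁻ x, eT A (v i) x) +
          ENNReal.ofReal (1 / 3 * ∑ i, b i ^ 3) +
          c * ∫⁻ x, (V x - ENNReal.ofReal t) ^ (((n : ℝ) + 3) / 2)) +
          ∑ i, ENNReal.ofReal (b i * t) := by
        refine add_le_add (key.trans ?_) e4
        gcongr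
    _ = _ := by ring

theorem PP_to_PP' (n : ℕ) (h : PP n (ENNReal.ofReal (cc n))) :
    PP' n (ENNReal.ofReal (cc (n + 1))) := by
  intro N u A V hu hc hA hV
  obtain ⟨v, l, hv, hvc, hl, hG, htr, hrho, hTm⟩ := diag_family u hu hc
  rw [← hTm A hA, htr]
  simp_rw [← hrho]
  by_cases hTtop : Tmag A v = ⊤
  · rw [hTtop]; simp
  by_cases hVtop : ∫⁻ x, V x ^ (((n : ℝ) + 4) / 2) = ⊤
  · rw [hVtop, ENNReal.mul_top]
    · simp
    · simpa using (cc_succ (n + 1)).1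
  have hL : ∀ i, ∫⁻ x, ‖v i x‖ₑ ^ 2 = ENNReal.ofReal (l i) := by
    intro i
    apply PP_to_PP'_c (v i) (hv i) (hvc i)
    have := congrFun (congrFun hG i) i
    rw [Matrix.diagonal_apply_eq] at this
    exact this
  have hT : ∀ i, ∫⁻ x, eT A (v i) x ≠ ⊤ := by
    intro i hi
    apply hTtop
    unfold Tmag
    exact ENNReal.sum_eq_top.2 ⟨i, Finset.mem_univ i, hi⟩
  have hn : (1 : ℝ) ≤ ((n : ℝ) + 4) / 2 := by
    have : (0 : ℝ) ≤ n := Nat.cast_nonneg n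
    linarith
  have hX : ∀ i, ∫⁻ x, V x * ‖v i x‖ₑ ^ 2 ≠ ⊤ := by
    intro i
    refine PP_to_PP'_fin V hV _ hn hVtop (v i) (hv i) (hvc i) ?_
    rw [hL i]
    exact ENNReal.ofReal_ne_top
  have hmv : ∀ i, Measurable fun x => ‖v i x‖ₑ ^ 2 := fun i =>
    ((hv i).continuous.measurable.enorm).pow_const 2
  have h0 : ∀ i, l i = 0 → ∫⁻ x, V x * ‖v i x‖ₑ ^ 2 = 0 := by
    intro i hi
    have h1 := hL i
    rw [hi, ENNReal.ofReal_zero, lintegral_eq_zero_iff (hmv i)] at h1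
    have hm1 : Measurable fun x => V x * ‖v i x‖ₑ ^ 2 := hV.mul (hmv i)
    rw [lintegral_eq_zero_iff hm1]
    filter_upwards [h1] with x hx
    simp only [Pi.zero_apply] at hx ⊢
    rw [hx, mul_zero]
  have core := AL_core (fun i => ∫⁻ x, V x * ‖v i x‖ₑ ^ 2) (fun i => ∫⁻ x, eT A (v i) x) hX hT
    l hl h0 (fun t => ENNReal.ofReal (cc n) *
      ∫⁻ x, (V x - ENNReal.ofReal t) ^ (((n : ℝ) + 3) / 2))
    (fun t ht b hb => PP_to_PP'_step _ h v l hv hvc hl hG hL A V hA hV t ht b hb)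
  have e1 : ∫⁻ x, V x * rho v x = ∑ i, ∫⁻ x, V x * ‖v i x‖ₑ ^ 2 := by
    have hm1 : ∀ i, Measurable fun x => V x * ‖v i x‖ₑ ^ 2 := fun i => hV.mul (hmv i)
    rw [← lintegral_finset_sum _ fun i _ => hm1 i]
    refine lintegral_congr fun x => ?_
    unfold rho
    rw [Finset.mul_sum]
  have hq : (0 : ℝ) < ((n : ℝ) + 3) / 2 := by positivity
  have e2 : ENNReal.ofReal (1 / (2 * π)) *
      ∫⁻ t in Ioi (0 : ℝ), ENNReal.ofReal (t ^ ((1 / 2 : ℝ) - 1)) *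
        (ENNReal.ofReal (cc n) * ∫⁻ x, (V x - ENNReal.ofReal t) ^ (((n : ℝ) + 3) / 2)) =
      ENNReal.ofReal (cc (n + 1)) * ∫⁻ x, V x ^ (((n : ℝ) + 4) / 2) := by
    have e3 : ∀ t : ℝ, ENNReal.ofReal (t ^ ((1 / 2 : ℝ) - 1)) *
        (ENNReal.ofReal (cc n) * ∫⁻ x, (V x - ENNReal.ofReal t) ^ (((n : ℝ) + 3) / 2)) =
        ENNReal.ofReal (cc n) * (ENNReal.ofReal (t ^ ((1 / 2 : ℝ) - 1)) *
          ∫⁻ x, (V x - ENNReal.ofReal t) ^ (((n : ℝ) + 3) / 2)) := fun t => by ring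
    simp_rw [e3]
    rw [lintegral_const_mul' _ _ ENNReal.ofReal_ne_top,
      W_int V hV (δ := 1 / 2) (by norm_num) hq, (cc_succ n).2]
    rw [show ((n : ℝ) + 3) / 2 + 1 / 2 = ((n : ℝ) + 4) / 2 by ring]
    have hR : 0 ≤ Gamma (1 / 2) * Gamma (((n : ℝ) + 3) / 2 + 1) /
      Gamma (1 / 2 + ((n : ℝ) + 3) / 2 + 1) := by
      apply div_nonneg (mul_nonneg _ _) _
      · exact (Real.Gamma_pos_of_pos (by positivity)).le
      · exact (Real.Gamma_pos_of_pos (by positivity)).le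
      · exact (Real.Gamma_pos_of_pos (by positivity)).le
    rw [ENNReal.ofReal_mul (p := 1 / (2 * π)) (by positivity),
      ENNReal.ofReal_mul (p := cc n) (cc_succ n).1.le]
    ring
  rw [e1]
  refine core.trans (le_of_eq ?_)
  rw [e2]
  rfl


end Pool.Agent.Helper766.M
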