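import Mathlib
import Pool.Agent.Helper766.M.Defs


set_option autoImplicit false

open MeasureTheory Set Real Matrix
open scoped ENNReal ComplexOrder

namespace Pool.Agent.Helper766.M


theorem PP_zero : PP 0 (ENNReal.ofReal (2 / 3)) := by
  intro N u A V _ _ _ _
  set x0 : Fin 0 → ℝ := isEmptyElim with hx0
  have hvol : (volume : Measure (Fin 0 → ℝ)) = Measure.dirac x0 :=
    Measure.volume_pi_eq_dirac x0
  have hl : ∀ F : (Fin 0 → ℝ) → ℝ≥0∞, ∫⁻ x, F x = F x0 := by
    intro F
    rw [hvol, lintegral_dirac]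
  have hi : ∀ F : (Fin 0 → ℝ) → ℂ, ∫ x, F x = F x0 := by
    intro F
    rw [hvol, integral_dirac]
  rw [hl, hl]
  set r : ℝ := ∑ i, ‖u i x0‖ ^ 2 with hr
  have hr0 : 0 ≤ r := Finset.sum_nonneg fun i _ => by positivity
  have hrho : rho u x0 = ENNReal.ofReal r := by
    unfold rho
    rw [hr, ENNReal.ofReal_sum_of_nonneg (fun i _ => by positivity)]
    refine Finset.sum_congr rfl fun i _ => ?_
    rw [ENNReal.ofReal_pow (norm_nonneg _), ofReal_norm_eq_enorm]
  have hG : ∀ i j, Gram u i j = u i x0 * starRingEnd ℂ (u j x0) := by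
    intro i j
    simp only [Gram, Matrix.of_apply]
    exact hi _
  have hrc : ∑ j, starRingEnd ℂ (u j x0) * u j x0 = (r : ℂ) := by
    rw [hr]
    push_cast
    refine Finset.sum_congr rfl fun i _ => ?_
    rw [mul_comm, Complex.mul_conj']
  have hG2 : ∀ i j, (Gram u * Gram u) i j = (r : ℂ) * (u i x0 * starRingEnd ℂ (u j x0)) := by
    intro i j
    rw [Matrix.mul_apply]
    simp only [hG]
    rw [← hrc, Finset.sum_mul]
    exact Finset.sum_congr rfl fun k _ => by ring
  have hG3 : (Gram u * Gram u * Gram u).trace.re = r ^ 3 := by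
    have h1 : (Gram u * Gram u * Gram u).trace = ((r ^ 3 : ℝ) : ℂ) := by
      rw [Matrix.trace]
      simp only [Matrix.diag_apply]
      have h2 : ∀ i, (Gram u * Gram u * Gram u) i i =
          (r : ℂ) ^ 2 * (starRingEnd ℂ (u i x0) * u i x0) := by
        intro i
        rw [Matrix.mul_apply]
        simp only [hG, hG2]
        have h3 : ∀ k, (r : ℂ) * (u i x0 * starRingEnd ℂ (u k x0)) *
            (u k x0 * starRingEnd ℂ (u i x0)) =
            (starRingEnd ℂ (u k x0) * u k x0) * ((r : ℂ) * (starRingEnd ℂ (u i x0) * u i x0)) :=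
          fun k => by ring
        simp only [h3]
        rw [← Finset.sum_mul, hrc]
        ring
      simp only [h2]
      rw [← Finset.mul_sum, hrc]
      push_cast
      ring
    rw [h1, Complex.ofReal_re]
  rw [hrho, hG3]
  have hexp : (((0 : ℕ) : ℝ) + 3) / 2 = 3 / 2 := by norm_num
  rw [hexp]
  refine le_trans ?_ (add_le_add_left (le_add_self : _ ≤ Tmag A u + _) _)
  by_cases hV : V x0 = ⊤
  · rw [hV, ENNReal.top_rpow_of_pos (by norm_num), ENNReal.mul_top (by
      rw [Ne, ENNReal.ofReal_eq_zero]; norm_num)]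
    simp
  · obtain ⟨v, hv⟩ : ∃ v : ℝ, 0 ≤ v ∧ V x0 = ENNReal.ofReal v :=
      ⟨(V x0).toReal, ENNReal.toReal_nonneg, (ENNReal.ofReal_toReal hV).symm⟩
    rw [hv.2, ENNReal.ofReal_rpow_of_nonneg hv.1 (by norm_num), ← ENNReal.ofReal_mul hv.1,
      ← ENNReal.ofReal_mul (by norm_num), ← ENNReal.ofReal_add (by positivity)
        (mul_nonneg (by norm_num) (Real.rpow_nonneg hv.1 _))]
    apply ENNReal.ofReal_le_ofReal
    have hy := Real.young_inequality_of_nonneg hv.1 hr0
      (show Real.HolderConjugate (3 / 2) 3 from by constructor <;> norm_num)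
    have e2 : r ^ (3 : ℝ) = r ^ 3 := by
      rw [← Real.rpow_natCast]; norm_num
    rw [e2] at hy
    linarith


end Pool.Agent.Helper766.M
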