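import Mathlib
import Pool.Agent.Helper766.M.Defs


set_option autoImplicit false

open MeasureTheory Set Real Matrix
open scoped ENNReal ComplexOrder

namespace Pool.Agent.Helper766.M


theorem lint_cons {n : ℕ} (f : (Fin (n + 1) → ℝ) → ℝ≥0∞) (hf : Measurable f) :
    (∫⁻ x, f x = ∫⁻ t : ℝ, ∫⁻ y : Fin n → ℝ, f (Fin.cons t y : Fin (n + 1) → ℝ)) ∧
      Measurable fun t : ℝ => ∫⁻ y : Fin n → ℝ, f (Fin.cons t y : Fin (n + 1) → ℝ) := by
  have hmp := (volume_preserving_piFinSuccAbove (fun _ : Fin (n + 1) => ℝ) 0).symm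
  have hcons : ∀ p : ℝ × (Fin n → ℝ),
      (MeasurableEquiv.piFinSuccAbove (fun _ : Fin (n + 1) => ℝ) 0).symm p =
        (Fin.cons p.1 p.2 : Fin (n + 1) → ℝ) := by
    intro p
    exact Fin.insertNth_zero' p.1 p.2
  have hmeas : Measurable fun p : ℝ × (Fin n → ℝ) => f (Fin.cons p.1 p.2 : Fin (n + 1) → ℝ) := by
    have h1 := hf.comp (MeasurableEquiv.piFinSuccAbove (fun _ : Fin (n + 1) => ℝ) 0).symm.measurable
    convert h1 using 1
    funext p
    simp only [Function.comp]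
    rw [hcons]
  refine ⟨?_, hmeas.lintegral_prod_right'⟩
  rw [← hmp.lintegral_comp hf, Measure.volume_eq_prod]
  rw [lintegral_prod _ (by
    have h2 : (fun p : ℝ × (Fin n → ℝ) =>
      f ((MeasurableEquiv.piFinSuccAbove (fun _ : Fin (n + 1) => ℝ) 0).symm p)) =
      fun p : ℝ × (Fin n → ℝ) => f (Fin.cons p.1 p.2 : Fin (n + 1) → ℝ) := by
      funext p; rw [hcons]
    rw [h2]
    exact hmeas.aemeasurable)]
  refine lintegral_congr fun t => lintegral_congr fun y => ?_
  rw [hcons]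


end Pool.Agent.Helper766.M
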