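import Mathlib
import Pool.Agent.Helper766.M.Defs
import Pool.Agent.Helper766.M.L_lint_cons
import Pool.Agent.Helper766.M.L_slice_reg


set_option autoImplicit false

open MeasureTheory Set Real Matrix
open scoped ENNReal ComplexOrder

namespace Pool.Agent.Helper766.M


noncomputable def Tmag_split_Q {n N : ℕ} (A : (Fin (n + 1) → ℝ) → (Fin (n + 1) → ℝ))
    (u : Fin N → (Fin (n + 1) → ℝ) → ℂ) (i : Fin N) (j : Fin (n + 1)) (x : Fin (n + 1) → ℝ) :
    ℝ≥0∞ :=
  ‖fderiv ℝ (u i) x (Pi.single j 1) - Complex.I * ((A x j : ℝ) : ℂ) * u i x‖ₑ ^ 2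

theorem Tmag_split_Q_meas {n N : ℕ} (A : (Fin (n + 1) → ℝ) → (Fin (n + 1) → ℝ))
    (hA : Measurable A)
    (u : Fin N → (Fin (n + 1) → ℝ) → ℂ) (hu : ∀ i, ContDiff ℝ 1 (u i)) (i : Fin N)
    (j : Fin (n + 1)) : Measurable (Tmag_split_Q A u i j) := by
  unfold Tmag_split_Q
  have h1 : Measurable (fun x => fderiv ℝ (u i) x (Pi.single j 1)) := by
    have h2 : Continuous (fderiv ℝ (u i)) := (hu i).continuous_fderiv (by norm_num)
    exact (h2.clm_apply continuous_const).measurable
  have h3 : Measurable (u i) := (hu i).continuous.measurable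
  have h4 : Measurable (fun x => A x j) := (measurable_pi_apply j).comp hA
  have h5 : Measurable (fun x => ((A x j : ℝ) : ℂ)) := Complex.measurable_ofReal.comp h4
  have h6 : Measurable (fun x => fderiv ℝ (u i) x (Pi.single j 1) -
      Complex.I * ((A x j : ℝ) : ℂ) * u i x) := h1.sub ((h5.const_mul Complex.I).mul h3)
  exact (h6.enorm).pow_const 2

theorem Tmag_split {n N : ℕ} (A : (Fin (n + 1) → ℝ) → (Fin (n + 1) → ℝ)) (hA : Measurable A)
    (u : Fin N → (Fin (n + 1) → ℝ) → ℂ) (hu : ∀ i, ContDiff ℝ 1 (u i))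
    (hc : ∀ i, HasCompactSupport (u i)) :
    (∫⁻ t, Tmag (sliceA A t) (slice u t)) + ∫⁻ t, tau A u t = Tmag A u ∧
      Measurable (fun t => Tmag (sliceA A t) (slice u t)) := by
  have hQ := Tmag_split_Q_meas A hA u hu
  have hF : ∀ i, Measurable (fun x => ∑ j : Fin n, Tmag_split_Q A u i j.succ x) := fun i =>
    Finset.measurable_fun_sum _ (fun j _ => hQ i j.succ)
  have hS : ∀ i (t : ℝ) (y : Fin n → ℝ), eT (sliceA A t) (slice u t i) y =
      ∑ j : Fin n, Tmag_split_Q A u i j.succ (Fin.cons t y : Fin (n + 1) → ℝ) := by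
    intro i t y
    unfold eT Tmag_split_Q
    apply Finset.sum_congr rfl
    intro j _
    rw [(slice_reg u hu hc t).2.2 i y j]
    rfl
  have hT : ∀ t, Tmag (sliceA A t) (slice u t) =
      ∑ i, ∫⁻ y : Fin n → ℝ, ∑ j : Fin n,
        Tmag_split_Q A u i j.succ (Fin.cons t y : Fin (n + 1) → ℝ) := by
    intro t
    unfold Tmag
    apply Finset.sum_congr rfl
    intro i _
    apply lintegral_congr
    intro y
    exact hS i t y
  have htau : ∀ t, tau A u t =
      ∑ i, ∫⁻ y : Fin n → ℝ, Tmag_split_Q A u i 0 (Fin.cons t y : Fin (n + 1) → ℝ) := by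
    intro t
    unfold tau
    rw [lintegral_finsetSum]
    · rfl
    · intro i _
      have hcons : Measurable (fun y : Fin n → ℝ => (Fin.cons t y : Fin (n + 1) → ℝ)) := by
        refine measurable_pi_lambda _ (fun j => ?_)
        refine Fin.cases ?_ (fun j => ?_) j
        · simp
        · simp only [Fin.cons_succ]
          exact measurable_pi_apply j
      exact (hQ i 0).comp hcons
  constructor
  · simp only [hT, htau]
    rw [lintegral_finsetSum _ (fun i _ => (lint_cons _ (hF i)).2),
      lintegral_finsetSum _ (fun i _ => (lint_cons _ (hQ i 0)).2), ← Finset.sum_add_distrib]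
    unfold Tmag
    apply Finset.sum_congr rfl
    intro i _
    rw [← (lint_cons _ (hF i)).1, ← (lint_cons _ (hQ i 0)).1, ← lintegral_add_left (hF i)]
    apply lintegral_congr
    intro x
    unfold eT
    rw [Fin.sum_univ_succ, add_comm]
    rfl
  · simp only [hT]
    exact Finset.measurable_fun_sum _ (fun i _ => (lint_cons _ (hF i)).2)


end Pool.Agent.Helper766.M
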