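import Mathlib
import Pool.Agent.Helper766.M.Defs


set_option autoImplicit false

open MeasureTheory Set Real Matrix
open scoped ENNReal ComplexOrder

namespace Pool.Agent.Helper766.M


theorem mInt_der_integrable {N : ℕ} {R : ℝ → CM N} (hc : ∀ i j, Continuous fun t => R t i j)
    (M : ℝ) (hM : ∀ t, M < |t| → R t = 0) (i j : Fin N) :
    Integrable (fun t => R t i j) := by
  refine (hc i j).integrable_of_hasCompactSupport ?_
  refine HasCompactSupport.intro (isCompact_Icc (a := -M) (b := M)) fun t ht => ?_
  have h : M < |t| := by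
    by_contra hcon
    exact ht (abs_le.1 (not_lt.1 hcon))
  rw [hM t h]
  rfl

theorem mInt_der_cnonneg (f : ℝ → ℂ) (s : Set ℝ) (h : ∀ t, 0 ≤ f t) : 0 ≤ ∫ t in s, f t := by
  have h1 : ∀ t, f t = (((f t).re : ℝ) : ℂ) := by
    intro t
    have := Complex.nonneg_iff.1 (h t)
    apply Complex.ext
    · simp
    · simp [← this.2]
  have h2 : ∫ t in s, f t = ((∫ t in s, (f t).re : ℝ) : ℂ) := by
    rw [← integral_complex_ofReal]
    exact integral_congr_ae (Filter.Eventually.of_forall fun t => h1 t)
  rw [h2]
  rw [Complex.zero_le_real]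
  exact integral_nonneg fun t => (Complex.nonneg_iff.1 (h t)).1

theorem mInt_der {N : ℕ} {R : ℝ → CM N} (hc : ∀ i j, Continuous fun t => R t i j) (M : ℝ)
    (hM : ∀ t, M < |t| → R t = 0) (i j : Fin N) (x : ℝ) :
    HasDerivAt (fun t => mInt (Iic t) R i j) (R x i j) x := by
  have hint := mInt_der_integrable hc M hM i j
  have h1 : (fun t => mInt (Iic t) R i j) =
      fun t => mInt (Iic 0) R i j + ∫ u in (0:ℝ)..t, R u i j := by
    funext t
    unfold mInt
    rw [Matrix.of_apply, Matrix.of_apply,
      ← intervalIntegral.integral_Iic_sub_Iic hint.integrableOn hint.integrableOn]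
    ring
  rw [h1]
  exact ((hc i j).integral_hasStrictDerivAt 0 x).hasDerivAt.const_add _

theorem mInt_psd {N : ℕ} {R : ℝ → CM N} (hc : ∀ i j, Continuous fun t => R t i j)
    (hpos : ∀ t, (R t).PosSemidef) (M : ℝ) (hM : ∀ t, M < |t| → R t = 0) (s : Set ℝ)
    (hs : MeasurableSet s) : (mInt s R).PosSemidef := by
  have hint := fun i j => mInt_der_integrable hc M hM i j
  refine Matrix.PosSemidef.of_dotProduct_mulVec_nonneg ?_ fun x => ?_
  · ext i j
    rw [Matrix.conjTranspose_apply]
    unfold mInt
    rw [Matrix.of_apply, Matrix.of_apply]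
    have h1 : star (∫ t in s, R t j i) = ∫ t in s, star (R t j i) := integral_conj.symm
    rw [h1]
    refine integral_congr_ae (Filter.Eventually.of_forall fun t => ?_)
    exact (hpos t).isHermitian.apply i j
  · have h1 : star x ⬝ᵥ (mInt s R *ᵥ x) = ∫ t in s, star x ⬝ᵥ (R t *ᵥ x) := by
      simp only [dotProduct, Matrix.mulVec, mInt, Matrix.of_apply]
      rw [integral_finsetSum]
      · refine Finset.sum_congr rfl fun i _ => ?_
        rw [integral_const_mul]
        congr 1
        rw [integral_finsetSum]
        · refine Finset.sum_congr rfl fun j _ => ?_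
          rw [integral_mul_const]
        · intro j _
          exact (hint i j).integrableOn.mul_const _
      · intro i _
        refine Integrable.const_mul ?_ _
        exact integrable_finsetSum _ fun j _ => (hint i j).integrableOn.mul_const _
    rw [h1]
    exact mInt_der_cnonneg _ s fun t => (hpos t).dotProduct_mulVec_nonneg x

theorem mInt_split {N : ℕ} {R : ℝ → CM N} (hc : ∀ i j, Continuous fun t => R t i j) (M : ℝ)
    (hM : ∀ t, M < |t| → R t = 0) (x : ℝ) :
    mInt univ R = mInt (Iic x) R + mInt (Ioi x) R := by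
  ext i j
  have hint := mInt_der_integrable hc M hM i j
  rw [Matrix.add_apply]
  unfold mInt
  rw [Matrix.of_apply, Matrix.of_apply, Matrix.of_apply, setIntegral_univ,
    intervalIntegral.integral_Iic_add_Ioi hint.integrableOn hint.integrableOn]


end Pool.Agent.Helper766.M
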