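import Mathlib
import Pool.Agent.Helper766.M.Defs
import Pool.Agent.Helper766.M.L_mInt_facts


set_option autoImplicit false

open MeasureTheory Set Real Matrix
open scoped ENNReal ComplexOrder

namespace Pool.Agent.Helper766.M


/-- entrywise derivative -/
def cal2_D {N : ℕ} (A A' : ℝ → CM N) : Prop :=
  ∀ i j t, HasDerivAt (fun t => A t i j) (A' t i j) t

theorem cal2_mul {N : ℕ} {A A' B B' : ℝ → CM N} (hA : cal2_D A A') (hB : cal2_D B B') :
    cal2_D (fun t => A t * B t) (fun t => A' t * B t + A t * B' t) := by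
  intro i j t
  have h1 : (fun t => (A t * B t) i j) = fun t => ∑ k, A t i k * B t k j := by
    funext t
    rw [Matrix.mul_apply]
  have h2 : (A' t * B t + A t * B' t) i j = ∑ k, (A' t i k * B t k j + A t i k * B' t k j) := by
    rw [Matrix.add_apply, Matrix.mul_apply, Matrix.mul_apply, Finset.sum_add_distrib]
  show HasDerivAt (fun t => (A t * B t) i j) ((A' t * B t + A t * B' t) i j) t
  rw [h1, h2]
  exact HasDerivAt.fun_sum fun k _ => (hA i k t).mul (hB k j t)

theorem cal2_sub {N : ℕ} {A A' B B' : ℝ → CM N} (hA : cal2_D A A') (hB : cal2_D B B') :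
    cal2_D (fun t => A t - B t) (fun t => A' t - B' t) :=
  fun i j t => (hA i j t).sub (hB i j t)

theorem cal2_const {N : ℕ} (G : CM N) : cal2_D (fun _ => G) (fun _ => 0) :=
  fun i j t => hasDerivAt_const t (G i j)

theorem cal2_tr {N : ℕ} {A A' : ℝ → CM N} (hA : cal2_D A A') (t : ℝ) :
    HasDerivAt (fun t => (A t).trace) ((A' t).trace) t := by
  unfold Matrix.trace
  exact HasDerivAt.fun_sum fun k _ => hA k k t

theorem cal2_re {f : ℝ → ℂ} {f' : ℂ} {t : ℝ} (h : HasDerivAt f f' t) :
    HasDerivAt (fun t => (f t).re) f'.re t :=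
  Complex.reCLM.hasFDerivAt.comp_hasDerivAt t h

theorem cal2_id {N : ℕ} (G Γ R R' : CM N) :
    (((0 : CM N) - R - R) * R + (G - Γ - Γ) * R').trace -
      ((((0 : CM N) * G + G * 0) * Γ + (G * G) * R).trace -
        2 * (((0 : CM N) * Γ + G * R) * Γ + (G * Γ) * R).trace +
        4 / 3 * ((R * Γ + Γ * R) * Γ + (Γ * Γ) * R).trace) =
      -2 * (R * R).trace + (((G - Γ - Γ) * R').trace - ((G - Γ - Γ) * R * (G - Γ - Γ)).trace) := by
  have c1 : (G * R * G).trace = (G * G * R).trace := by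
    rw [Matrix.trace_mul_comm, ← Matrix.mul_assoc]
  have c2 : (Γ * R * G).trace = (G * Γ * R).trace := by
    rw [Matrix.trace_mul_comm, ← Matrix.mul_assoc]
  have c3 : (Γ * R * Γ).trace = (Γ * Γ * R).trace := by
    rw [Matrix.trace_mul_comm, ← Matrix.mul_assoc]
  have c4 : (R * Γ * Γ).trace = (Γ * Γ * R).trace := by
    rw [Matrix.mul_assoc, Matrix.trace_mul_comm]
  simp only [Matrix.sub_mul, Matrix.mul_sub, Matrix.add_mul, Matrix.zero_mul, Matrix.mul_zero,
    zero_add, zero_sub, Matrix.trace_sub, Matrix.trace_add, Matrix.neg_mul, Matrix.trace_neg,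
    add_zero]
  linear_combination c1 - 2 * c2 + 8 / 3 * c3 - 4 / 3 * c4

/-- The calibration theorem for `γ = 3/2`. -/
theorem cal2 {N : ℕ} (R R' : ℝ → CM N)
    (hR : ∀ i j t, HasDerivAt (fun t => R t i j) (R' t i j) t)
    (hR'c : ∀ i j, Continuous fun t => R' t i j)
    (hpos : ∀ t, (R t).PosSemidef) (M : ℝ) (hM : ∀ t, M < |t| → R t = 0) (τ : ℝ → ℝ≥0∞)
    (hτ : ∀ t, ∀ Y : CM N, Y.IsHermitian →
      ENNReal.ofReal ((Y * R' t).trace.re - (Y * R t * Y).trace.re) ≤ τ t) :
    ENNReal.ofReal (2 * ∫ t, (R t * R t).trace.re) ≤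
      (∫⁻ t, τ t) + ENNReal.ofReal (1 / 3 * (mInt univ R * mInt univ R * mInt univ R).trace.re) := by
  have hc : ∀ i j, Continuous fun t => R t i j := fun i j =>
    continuous_iff_continuousAt.2 fun t => (hR i j t).continuousAt
  obtain ⟨G, hG⟩ : ∃ G : CM N, G = mInt univ R := ⟨_, rfl⟩
  obtain ⟨Γ, hΓ⟩ : ∃ Γ : ℝ → CM N, Γ = fun t => mInt (Iic t) R := ⟨_, rfl⟩
  have hΓD : cal2_D Γ R := by
    rw [hΓ]
    exact fun i j t => mInt_der hc M hM i j t
  have hGh : G.IsHermitian := by
    rw [hG]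
    exact (mInt_psd hc hpos M hM univ MeasurableSet.univ).isHermitian
  have hΓh : ∀ t, (Γ t).IsHermitian := by
    intro t
    rw [hΓ]
    exact (mInt_psd hc hpos M hM (Iic t) measurableSet_Iic).isHermitian
  have hYh : ∀ t, (G - Γ t - Γ t).IsHermitian := fun t => (hGh.sub (hΓh t)).sub (hΓh t)
  -- continuity
  have cR : Continuous R := continuous_matrix hc
  have cR' : Continuous R' := continuous_matrix hR'c
  have cΓ : Continuous Γ := continuous_matrix fun i j =>
    continuous_iff_continuousAt.2 fun t => (hΓD i j t).continuousAt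
  have cY : Continuous fun t => G - Γ t - Γ t := (continuous_const.sub cΓ).sub cΓ
  obtain ⟨h, hh⟩ : ∃ h : ℝ → ℝ, h = fun t =>
      ((G - Γ t - Γ t) * R' t).trace.re - ((G - Γ t - Γ t) * R t * (G - Γ t - Γ t)).trace.re :=
    ⟨_, rfl⟩
  have ch : Continuous h := by
    rw [hh]
    exact (Complex.continuous_re.comp (cY.matrix_mul cR').matrix_trace).sub
      (Complex.continuous_re.comp ((cY.matrix_mul cR).matrix_mul cY).matrix_trace)
  have cRR : Continuous fun t => (R t * R t).trace.re :=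
    Complex.continuous_re.comp (cR.matrix_mul cR).matrix_trace
  -- the primitive
  obtain ⟨Φ, hΦ⟩ : ∃ Φ : ℝ → ℝ, Φ = fun t => (((G - Γ t - Γ t) * R t).trace -
      ((G * G * Γ t).trace - 2 * (G * Γ t * Γ t).trace + 4 / 3 * (Γ t * Γ t * Γ t).trace)).re :=
    ⟨_, rfl⟩
  have hΦd : ∀ t, HasDerivAt Φ (-2 * (R t * R t).trace.re + h t) t := by
    intro t
    have hRD : cal2_D R R' := hR
    have d1 := cal2_tr (cal2_mul (cal2_sub (cal2_sub (cal2_const G) hΓD) hΓD) hRD) t
    have d2 := cal2_tr (cal2_mul (cal2_mul (cal2_const G) (cal2_const G)) hΓD) t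
    have d3 := (cal2_tr (cal2_mul (cal2_mul (cal2_const G) hΓD) hΓD) t).const_mul 2
    have d4 := (cal2_tr (cal2_mul (cal2_mul hΓD hΓD) hΓD) t).const_mul (4 / 3)
    have d5 := cal2_re (d1.sub ((d2.sub d3).add d4))
    have e1 := congrArg Complex.re (cal2_id G (Γ t) (R t) (R' t))
    have e2 : (-2 * (R t * R t).trace + (((G - Γ t - Γ t) * R' t).trace -
        ((G - Γ t - Γ t) * R t * (G - Γ t - Γ t)).trace)).re =
        -2 * (R t * R t).trace.re + h t := by
      rw [hh, Complex.add_re, Complex.sub_re, Complex.mul_re]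
      simp
    rw [e2] at e1
    rw [← e1, hΦ]
    exact d5
  obtain ⟨b, hb⟩ : ∃ b : ℝ, b = |M| + 1 := ⟨_, rfl⟩
  have hb0 : 0 < b := by rw [hb]; positivity
  have hbM : M < b := by rw [hb]; linarith [le_abs_self M]
  have hzero : ∀ t, b ≤ |t| → R t = 0 := fun t ht => hM t (by linarith)
  have hRb : R b = 0 := hzero b (by rw [abs_of_pos hb0])
  have hRa : R (-b) = 0 := hzero (-b) (by rw [abs_neg, abs_of_pos hb0])
  have hΓa : Γ (-b) = 0 := by
    rw [hΓ]
    ext i j
    show ∫ t in Iic (-b), R t i j = 0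
    rw [setIntegral_eq_zero_of_forall_eq_zero]
    intro t ht
    rw [mem_Iic] at ht
    rw [hzero t (by rw [abs_of_neg (by linarith)]; linarith)]
    rfl
  have hΓb : Γ b = G := by
    have h1 := mInt_split hc M hM b
    have h2 : mInt (Ioi b) R = 0 := by
      ext i j
      show ∫ t in Ioi b, R t i j = 0
      rw [setIntegral_eq_zero_of_forall_eq_zero]
      intro t ht
      rw [mem_Ioi] at ht
      rw [hzero t (by rw [abs_of_pos (by linarith)]; linarith)]
      rfl
    rw [h2, add_zero] at h1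
    rw [hG, hΓ, h1]
  have hFTC := intervalIntegral.integral_eq_sub_of_hasDerivAt (a := -b) (b := b)
    (fun t _ => hΦd t) (((continuous_const.mul cRR).add ch).intervalIntegrable _ _)
  have i1 : IntervalIntegrable (fun t => -2 * (R t * R t).trace.re) volume (-b) b :=
    (continuous_const.mul cRR).intervalIntegrable _ _
  have i2 : IntervalIntegrable h volume (-b) b := ch.intervalIntegrable _ _
  have hΦb : Φ b = -(1 / 3 * (G * G * G).trace.re) := by
    rw [hΦ]
    show (((G - Γ b - Γ b) * R b).trace -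
      ((G * G * Γ b).trace - 2 * (G * Γ b * Γ b).trace + 4 / 3 * (Γ b * Γ b * Γ b).trace)).re = _
    rw [hRb, hΓb, Matrix.mul_zero, Matrix.trace_zero]
    have e1 : (0 : ℂ) - ((G * G * G).trace - 2 * (G * G * G).trace + 4 / 3 * (G * G * G).trace) =
        ((-(1 / 3) : ℝ) : ℂ) * (G * G * G).trace := by
      push_cast
      ring
    rw [e1, Complex.re_ofReal_mul]
    ring
  have hΦa : Φ (-b) = 0 := by
    rw [hΦ]
    show (((G - Γ (-b) - Γ (-b)) * R (-b)).trace - ((G * G * Γ (-b)).trace -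
      2 * (G * Γ (-b) * Γ (-b)).trace + 4 / 3 * (Γ (-b) * Γ (-b) * Γ (-b)).trace)).re = _
    rw [hRa, hΓa]
    simp
  rw [intervalIntegral.integral_add i1 i2, intervalIntegral.integral_const_mul, hΦb, hΦa] at hFTC
  have hsupp : ∫ t in (-b)..b, (R t * R t).trace.re = ∫ t, (R t * R t).trace.re := by
    refine intervalIntegral.integral_eq_integral_of_support_subset ?_
    intro t ht
    rw [Function.mem_support] at ht
    by_contra hcon
    refine ht ?_
    have h3 : b ≤ |t| := by
      rw [mem_Ioc, not_and_or, not_lt, not_le] at hcon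
      rcases hcon with h4 | h4
      · rw [abs_of_neg (by linarith)]
        linarith
      · rw [abs_of_pos (by linarith)]
        exact h4.le
    rw [hzero t h3]
    simp
  rw [← hsupp, ← hG]
  have hmain : 2 * ∫ t in (-b)..b, (R t * R t).trace.re =
      (∫ t in (-b)..b, h t) + 1 / 3 * (G * G * G).trace.re := by linarith
  rw [hmain]
  refine ENNReal.ofReal_add_le.trans (add_le_add ?_ le_rfl)
  rw [intervalIntegral.integral_of_le (by linarith)]
  have ih : IntegrableOn h (Ioc (-b) b) := (ch.integrableOn_Icc).mono_set Ioc_subset_Icc_self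
  have ih' : IntegrableOn (fun t => max (h t) 0) (Ioc (-b) b) := ih.pos_part
  have h5 : ∫ t in Ioc (-b) b, h t ≤ ∫ t in Ioc (-b) b, max (h t) 0 :=
    integral_mono ih ih' fun t => le_max_left _ _
  refine (ENNReal.ofReal_le_ofReal h5).trans ?_
  rw [ofReal_integral_eq_lintegral_ofReal ih' (Filter.Eventually.of_forall fun t => le_max_right _ _)]
  refine (lintegral_mono fun t => ?_).trans (setLIntegral_le_lintegral _ _)
  have h6 : ENNReal.ofReal (max (h t) 0) = ENNReal.ofReal (h t) := by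
    rcases le_total (h t) 0 with h7 | h7
    · rw [max_eq_right h7, ENNReal.ofReal_zero, ENNReal.ofReal_of_nonpos h7]
    · rw [max_eq_left h7]
  show ENNReal.ofReal (max (h t) 0) ≤ τ t
  rw [h6, hh]
  exact hτ t _ (hYh t)


end Pool.Agent.Helper766.M
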