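import Mathlib
import Pool.Agent.Helper766.M.Defs
import Pool.Agent.Helper766.M.L_slice_reg


set_option autoImplicit false

open MeasureTheory Set Real Matrix
open scoped ENNReal ComplexOrder

namespace Pool.Agent.Helper766.M


theorem tau_ineq_pt {N : ℕ} (Y : Fin N → Fin N → ℂ) (hY : ∀ i j, star (Y j i) = Y i j)
    (p d : Fin N → ℂ) (a : ℝ) :
    (∑ i, ∑ j, Y i j * (d j * starRingEnd ℂ (p i) + p j * starRingEnd ℂ (d i))).re -
      (∑ i, ∑ k, (∑ j, Y i j * (p j * starRingEnd ℂ (p k))) * Y k i).re ≤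
      ∑ i, ‖d i - Complex.I * (a : ℂ) * p i‖ ^ 2 := by
  obtain ⟨q, hq⟩ : ∃ q : Fin N → ℂ, ∀ i, q i = d i - Complex.I * (a : ℂ) * p i :=
    ⟨_, fun i => rfl⟩
  obtain ⟨w, hw⟩ : ∃ w : Fin N → ℂ, ∀ i, w i = ∑ j, Y i j * p j := ⟨_, fun i => rfl⟩
  have hcw : ∀ i, starRingEnd ℂ (w i) = ∑ k, Y k i * starRingEnd ℂ (p k) := by
    intro i
    rw [hw, map_sum]
    refine Finset.sum_congr rfl fun k _ => ?_
    rw [map_mul]
    congr 1
    exact hY k i
  have hdq : ∀ i j, d j * starRingEnd ℂ (p i) + p j * starRingEnd ℂ (d i) =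
      q j * starRingEnd ℂ (p i) + p j * starRingEnd ℂ (q i) := by
    intro i j
    rw [hq, hq, map_sub, map_mul, map_mul, Complex.conj_I, Complex.conj_ofReal]
    ring
  have E1 : ∑ i, ∑ j, Y i j * (d j * starRingEnd ℂ (p i) + p j * starRingEnd ℂ (d i)) =
      ∑ i, (q i * starRingEnd ℂ (w i) + w i * starRingEnd ℂ (q i)) := by
    have h1 : ∑ i, ∑ j, Y i j * (q j * starRingEnd ℂ (p i)) = ∑ i, q i * starRingEnd ℂ (w i) := by
      rw [Finset.sum_comm]
      refine Finset.sum_congr rfl fun j _ => ?_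
      rw [hcw, Finset.mul_sum]
      refine Finset.sum_congr rfl fun i _ => ?_
      ring
    have h2 : ∑ i, ∑ j, Y i j * (p j * starRingEnd ℂ (q i)) = ∑ i, w i * starRingEnd ℂ (q i) := by
      refine Finset.sum_congr rfl fun i _ => ?_
      rw [hw, Finset.sum_mul]
      refine Finset.sum_congr rfl fun j _ => ?_
      ring
    rw [Finset.sum_add_distrib, ← h1, ← h2, ← Finset.sum_add_distrib]
    refine Finset.sum_congr rfl fun i _ => ?_
    rw [← Finset.sum_add_distrib]
    refine Finset.sum_congr rfl fun j _ => ?_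
    rw [hdq]
    ring
  have E2 : ∑ i, ∑ k, (∑ j, Y i j * (p j * starRingEnd ℂ (p k))) * Y k i =
      ∑ i, w i * starRingEnd ℂ (w i) := by
    refine Finset.sum_congr rfl fun i _ => ?_
    rw [hcw, Finset.mul_sum]
    refine Finset.sum_congr rfl fun k _ => ?_
    rw [hw, Finset.sum_mul, Finset.sum_mul]
    refine Finset.sum_congr rfl fun j _ => ?_
    ring
  rw [E1, E2, Complex.re_sum, Complex.re_sum, ← Finset.sum_sub_distrib]
  refine Finset.sum_le_sum fun i _ => ?_
  rw [← hq i, ← Complex.normSq_eq_norm_sq, Complex.normSq_apply]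
  simp only [Complex.add_re, Complex.mul_re, Complex.conj_re, Complex.conj_im]
  nlinarith [sq_nonneg ((w i).re - (q i).re), sq_nonneg ((w i).im - (q i).im)]

theorem tau_ineq_ofReal {α : Type} [MeasurableSpace α] {μ : Measure α} (G : α → ℝ)
    (hG : Integrable G μ) : ENNReal.ofReal (∫ y, G y ∂μ) ≤ ∫⁻ y, ENNReal.ofReal (G y) ∂μ := by
  have h1 : ∫ y, G y ∂μ ≤ ∫ y, max (G y) 0 ∂μ :=
    integral_mono hG hG.pos_part fun y => le_max_left _ _
  refine le_trans (ENNReal.ofReal_le_ofReal h1) ?_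
  rw [ofReal_integral_eq_lintegral_ofReal hG.pos_part
    (Filter.Eventually.of_forall fun y => le_max_right _ _)]
  refine lintegral_mono fun y => ?_
  beta_reduce
  rcases le_total (G y) 0 with h | h
  · rw [max_eq_right h, ENNReal.ofReal_zero]
    exact zero_le
  · rw [max_eq_left h]

theorem tau_ineq {n N : ℕ} (A : (Fin (n + 1) → ℝ) → (Fin (n + 1) → ℝ))
    (u : Fin N → (Fin (n + 1) → ℝ) → ℂ) (hu : ∀ i, ContDiff ℝ 1 (u i))
    (hc : ∀ i, HasCompactSupport (u i)) (t : ℝ) (Y : CM N) (hY : Y.IsHermitian) :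
    ENNReal.ofReal ((Y * Gram' u t).trace.re - (Y * Gram (slice u t) * Y).trace.re) ≤
      tau A u t := by
  obtain ⟨hs1, hs2, -⟩ := slice_reg u hu hc t
  obtain ⟨Yf, hYf⟩ : ∃ Yf : Fin N → Fin N → ℂ, ∀ i j, Y i j = Yf i j := ⟨fun i j => Y i j,
    fun i j => rfl⟩
  obtain ⟨p, hp⟩ : ∃ p : Fin N → (Fin n → ℝ) → ℂ, ∀ i y, p i y =
      u i (Fin.cons t y : Fin (n + 1) → ℝ) := ⟨_, fun i y => rfl⟩
  obtain ⟨d, hd⟩ : ∃ d : Fin N → (Fin n → ℝ) → ℂ, ∀ i y, d i y =
      pd0 (u i) (Fin.cons t y : Fin (n + 1) → ℝ) := ⟨_, fun i y => rfl⟩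
  have hps : ∀ i, p i = slice u t i := fun i => funext fun y => hp i y
  have hpc : ∀ i, Continuous (p i) := fun i => by rw [hps]; exact (hs1 i).continuous
  have hpk : ∀ i, HasCompactSupport (p i) := fun i => by rw [hps]; exact hs2 i
  have hcons : Continuous fun y : Fin n → ℝ => (Fin.cons t y : Fin (n + 1) → ℝ) := by
    refine continuous_pi fun i => ?_
    refine Fin.cases ?_ (fun j => ?_) i
    · simp only [Fin.cons_zero]
      exact continuous_const
    · simp only [Fin.cons_succ]
      exact continuous_apply j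
  have hdc : ∀ i, Continuous (d i) := by
    intro i
    have h1 : Continuous fun x => fderiv ℝ (u i) x (Pi.single 0 1) :=
      ((hu i).continuous_fderiv one_ne_zero).clm_apply continuous_const
    have h2 : d i = (fun x => fderiv ℝ (u i) x (Pi.single 0 1)) ∘
        fun y : Fin n → ℝ => (Fin.cons t y : Fin (n + 1) → ℝ) := funext fun y => hd i y
    rw [h2]
    exact h1.comp hcons
  have hconj : ∀ f : (Fin n → ℝ) → ℂ, Continuous f → Continuous fun y => starRingEnd ℂ (f y) :=
    fun f hf => Complex.continuous_conj.comp hf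
  have hconjk : ∀ f : (Fin n → ℝ) → ℂ, HasCompactSupport f →
      HasCompactSupport fun y => starRingEnd ℂ (f y) :=
    fun f hf => hf.comp_left (g := starRingEnd ℂ) (map_zero _)
  have hI2 : ∀ i j, Integrable fun y => p i y * starRingEnd ℂ (p j y) := fun i j =>
    ((hpc i).mul (hconj _ (hpc j))).integrable_of_hasCompactSupport
      ((hpk i).mul_right)
  have hI1 : ∀ i j, Integrable fun y => d i y * starRingEnd ℂ (p j y) +
      p i y * starRingEnd ℂ (d j y) := fun i j =>
    (((hdc i).mul (hconj _ (hpc j))).integrable_of_hasCompactSupport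
      ((hconjk _ (hpk j)).mul_left)).add
    (((hpc i).mul (hconj _ (hdc j))).integrable_of_hasCompactSupport
      ((hpk i).mul_right))
  have hG' : ∀ i j, Gram' u t i j = ∫ y, (d i y * starRingEnd ℂ (p j y) +
      p i y * starRingEnd ℂ (d j y)) := by
    intro i j
    simp only [hp, hd]
    rfl
  have hGr : ∀ i j, Gram (slice u t) i j = ∫ y, p i y * starRingEnd ℂ (p j y) := by
    intro i j
    simp only [hp]
    rfl
  have hJ1 : Integrable fun y => ∑ i, ∑ j, Yf i j * (d j y * starRingEnd ℂ (p i y) +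
      p j y * starRingEnd ℂ (d i y)) :=
    integrable_finsetSum _ fun i _ => integrable_finsetSum _ fun j _ => (hI1 j i).const_mul _
  have hJ2 : Integrable fun y => ∑ i, ∑ k, (∑ j, Yf i j * (p j y * starRingEnd ℂ (p k y))) *
      Yf k i :=
    integrable_finsetSum _ fun i _ => integrable_finsetSum _ fun k _ =>
      (integrable_finsetSum _ fun j _ => (hI2 j k).const_mul _).mul_const _
  have hT1 : (Y * Gram' u t).trace = ∫ y, ∑ i, ∑ j, Yf i j * (d j y * starRingEnd ℂ (p i y) +
      p j y * starRingEnd ℂ (d i y)) := by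
    rw [integral_finsetSum _ fun i _ => integrable_finsetSum _ fun j _ =>
      (hI1 j i).const_mul _]
    simp only [Matrix.trace, Matrix.diag_apply, Matrix.mul_apply, hYf]
    refine Finset.sum_congr rfl fun i _ => ?_
    rw [integral_finsetSum _ fun j _ => (hI1 j i).const_mul _]
    refine Finset.sum_congr rfl fun j _ => ?_
    rw [integral_const_mul, hG']
  have hT2 : (Y * Gram (slice u t) * Y).trace = ∫ y, ∑ i, ∑ k,
      (∑ j, Yf i j * (p j y * starRingEnd ℂ (p k y))) * Yf k i := by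
    rw [integral_finsetSum _ fun i _ => integrable_finsetSum _ fun k _ =>
      (integrable_finsetSum _ fun j _ => (hI2 j k).const_mul _).mul_const _]
    simp only [Matrix.trace, Matrix.diag_apply, Matrix.mul_apply, hYf]
    refine Finset.sum_congr rfl fun i _ => ?_
    rw [integral_finsetSum _ fun k _ =>
      (integrable_finsetSum _ fun j _ => (hI2 j k).const_mul _).mul_const _]
    refine Finset.sum_congr rfl fun k _ => ?_
    rw [integral_mul_const, integral_finsetSum _ fun j _ => (hI2 j k).const_mul _]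
    congr 1
    refine Finset.sum_congr rfl fun j _ => ?_
    rw [integral_const_mul, hGr]
  have hre : ∀ f : (Fin n → ℝ) → ℂ, Integrable f → (∫ y, f y).re = ∫ y, (f y).re := by
    intro f hf
    exact (integral_re hf).symm
  have hR1 : Integrable fun y => (∑ i, ∑ j, Yf i j * (d j y * starRingEnd ℂ (p i y) +
      p j y * starRingEnd ℂ (d i y))).re := hJ1.re
  have hR2 : Integrable fun y => (∑ i, ∑ k, (∑ j, Yf i j *
      (p j y * starRingEnd ℂ (p k y))) * Yf k i).re := hJ2.re
  rw [hT1, hT2, hre _ hJ1, hre _ hJ2, ← integral_sub hR1 hR2]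
  refine le_trans (tau_ineq_ofReal _ (hR1.sub hR2)) ?_
  unfold tau
  refine lintegral_mono fun y => ?_
  beta_reduce
  have hpt := tau_ineq_pt Yf (fun i j => by
    rw [← hYf, ← hYf]; exact hY.apply i j) (fun i => p i y) (fun i => d i y)
    (A (Fin.cons t y : Fin (n + 1) → ℝ) 0)
  refine le_trans (ENNReal.ofReal_le_ofReal hpt) ?_
  rw [ENNReal.ofReal_sum_of_nonneg fun i _ => by positivity]
  refine le_of_eq (Finset.sum_congr rfl fun i _ => ?_)
  rw [ENNReal.ofReal_pow (norm_nonneg _), ofReal_norm_eq_enorm]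
  beta_reduce
  rw [hp, hd]


end Pool.Agent.Helper766.M
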