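import Mathlib
import Pool.Agent.Helper766.M.Defs
import Pool.Agent.Helper766.M.L_Gram_basic
import Pool.Agent.Helper766.M.L_Gram_der
import Pool.Agent.Helper766.M.L_Tmag_split
import Pool.Agent.Helper766.M.L_cal2
import Pool.Agent.Helper766.M.L_lint_cons
import Pool.Agent.Helper766.M.L_slice_reg
import Pool.Agent.Helper766.M.L_tau_ineq


set_option autoImplicit false

open MeasureTheory Set Real Matrix
open scoped ENNReal ComplexOrder

namespace Pool.Agent.Helper766.M


theorem PP'_to_PP_cons {n : ℕ} (t : ℝ) :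
    Continuous fun y : Fin n → ℝ => (Fin.cons t y : Fin (n + 1) → ℝ) := by
  refine continuous_pi (fun i => ?_)
  refine Fin.cases ?_ (fun j => ?_) i
  · simp only [Fin.cons_zero]
    exact continuous_const
  · simp only [Fin.cons_succ]
    exact continuous_apply j

theorem PP'_to_PP_rho {n N : ℕ} (u : Fin N → (Fin n → ℝ) → ℂ) (hu : ∀ i, Continuous (u i)) :
    Measurable (rho u) := by
  unfold rho
  refine Finset.measurable_sum _ (fun i _ => ?_)
  exact ((hu i).enorm.measurable).pow_const 2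

theorem PP'_to_PP_nonneg {N : ℕ} (G : CM N) (hG : G.PosSemidef) : 0 ≤ (G * G).trace.re := by
  have h1 : G * G = Gᴴ * G := by rw [hG.1.eq]
  rw [h1]
  have h2 := (Matrix.posSemidef_conjTranspose_mul_self G).trace_nonneg
  exact (Complex.nonneg_iff.1 h2).1

theorem PP'_to_PP (n : ℕ) (c : ℝ≥0∞) (h : PP' n c) : PP (n + 1) c := by
  intro N u A V hu hc hA hV
  have hcont : ∀ i, Continuous (u i) := fun i => (hu i).continuous
  have hVr : Measurable fun x => V x * rho u x := hV.mul (PP'_to_PP_rho u hcont)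
  have hVp : Measurable fun x => V x ^ (((n : ℝ) + 4) / 2) := hV.pow_const _
  obtain ⟨e1, m1⟩ := lint_cons _ hVr
  obtain ⟨e2, m2⟩ := lint_cons _ hVp
  obtain ⟨hT, mT⟩ := Tmag_split A hA u hu hc
  obtain ⟨hd, hdc⟩ := Gram_der u hu hc
  obtain ⟨M, hM⟩ := Gram_supp u hc
  have hpos : ∀ t, (Gram (slice u t)).PosSemidef := fun t =>
    Gram_psd _ (fun i => ((slice_reg u hu hc t).1 i).continuous) (slice_reg u hu hc t).2.1
  have hGc : ∀ i j, Continuous fun t => Gram (slice u t) i j := fun i j =>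
    continuous_iff_continuousAt.2 (fun t => (hd i j t).continuousAt)
  have hqc : Continuous fun t => (Gram (slice u t) * Gram (slice u t)).trace.re := by
    refine Complex.continuous_re.comp ?_
    simp only [Matrix.trace, Matrix.diag_apply, Matrix.mul_apply]
    exact continuous_finsetSum _ (fun i _ => continuous_finsetSum _ (fun j _ =>
      (hGc i j).mul (hGc j i)))
  have hq0 : ∀ t, 0 ≤ (Gram (slice u t) * Gram (slice u t)).trace.re := fun t =>
    PP'_to_PP_nonneg _ (hpos t)
  have hqi : Integrable fun t => (Gram (slice u t) * Gram (slice u t)).trace.re := by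
    refine hqc.integrable_of_hasCompactSupport ?_
    refine HasCompactSupport.intro (isCompact_Icc : IsCompact (Icc (-M) M)) (fun t ht => ?_)
    have h1 : M < |t| := by
      rw [lt_abs]
      by_contra hcon
      push Not at hcon
      exact ht ⟨by linarith [hcon.2], hcon.1⟩
    simp only [hM t h1, Matrix.mul_zero, Matrix.trace_zero, Complex.zero_re]
  have key : ∀ t : ℝ, (∫⁻ y : Fin n → ℝ, V (Fin.cons t y : Fin (n + 1) → ℝ) *
      rho u (Fin.cons t y : Fin (n + 1) → ℝ)) ≤
      (Tmag (sliceA A t) (slice u t) +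
        ENNReal.ofReal (2 * (Gram (slice u t) * Gram (slice u t)).trace.re)) +
        c * ∫⁻ y : Fin n → ℝ, V (Fin.cons t y : Fin (n + 1) → ℝ) ^ (((n : ℝ) + 4) / 2) := by
    intro t
    refine h N (slice u t) (sliceA A t) (fun y => V (Fin.cons t y : Fin (n + 1) → ℝ))
      (slice_reg u hu hc t).1 (slice_reg u hu hc t).2.1 ?_
      (hV.comp (PP'_to_PP_cons t).measurable)
    refine measurable_pi_lambda _ (fun j => ?_)
    exact (measurable_pi_apply j.succ).comp (hA.comp (PP'_to_PP_cons t).measurable)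
  have mR : Measurable fun t =>
      ENNReal.ofReal (2 * (Gram (slice u t) * Gram (slice u t)).trace.re) :=
    ((continuous_const.mul hqc).measurable).ennreal_ofReal
  have e3 : ∫⁻ t, ENNReal.ofReal (2 * (Gram (slice u t) * Gram (slice u t)).trace.re) =
      ENNReal.ofReal (2 * ∫ t, (Gram (slice u t) * Gram (slice u t)).trace.re) := by
    rw [← integral_const_mul, ofReal_integral_eq_lintegral_ofReal (hqi.const_mul 2)
      (Filter.Eventually.of_forall (fun t => mul_nonneg zero_le_two (hq0 t)))]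
  have e4 := cal2 (fun t => Gram (slice u t)) (Gram' u) hd hdc hpos M hM (tau A u)
    (fun t Y hY => tau_ineq A u hu hc t Y hY)
  rw [Gram_int u hcont hc] at e4
  have e5 : (((n + 1 : ℕ) : ℝ) + 3) / 2 = ((n : ℝ) + 4) / 2 := by
    push_cast
    ring
  rw [e5, e1, e2]
  calc ∫⁻ t : ℝ, ∫⁻ y : Fin n → ℝ, V (Fin.cons t y : Fin (n + 1) → ℝ) *
        rho u (Fin.cons t y : Fin (n + 1) → ℝ)
      ≤ ∫⁻ t : ℝ, ((Tmag (sliceA A t) (slice u t) +
        ENNReal.ofReal (2 * (Gram (slice u t) * Gram (slice u t)).trace.re)) +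
        c * ∫⁻ y : Fin n → ℝ, V (Fin.cons t y : Fin (n + 1) → ℝ) ^ (((n : ℝ) + 4) / 2)) :=
          lintegral_mono key
    _ = (∫⁻ t, Tmag (sliceA A t) (slice u t)) +
          ENNReal.ofReal (2 * ∫ t, (Gram (slice u t) * Gram (slice u t)).trace.re) +
          c * ∫⁻ t : ℝ, ∫⁻ y : Fin n → ℝ,
            V (Fin.cons t y : Fin (n + 1) → ℝ) ^ (((n : ℝ) + 4) / 2) := by
        have a1 := lintegral_add_left (μ := (volume : Measure ℝ)) (mT.add mR) (fun t =>
          c * ∫⁻ y : Fin n → ℝ, V (Fin.cons t y : Fin (n + 1) → ℝ) ^ (((n : ℝ) + 4) / 2))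
        have a2 := lintegral_add_left (μ := (volume : Measure ℝ)) mT (fun t =>
          ENNReal.ofReal (2 * (Gram (slice u t) * Gram (slice u t)).trace.re))
        have a3 := lintegral_const_mul (μ := (volume : Measure ℝ)) c m2
        simp only [Pi.add_apply] at a1
        rw [a1, a2, e3, a3]
    _ ≤ (∫⁻ t, Tmag (sliceA A t) (slice u t)) +
          ((∫⁻ t, tau A u t) + ENNReal.ofReal (1 / 3 * (Gram u * Gram u * Gram u).trace.re)) +
          c * ∫⁻ t : ℝ, ∫⁻ y : Fin n → ℝ,
            V (Fin.cons t y : Fin (n + 1) → ℝ) ^ (((n : ℝ) + 4) / 2) := by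
        gcongr
    _ = _ := by
        rw [← add_assoc, hT]


end Pool.Agent.Helper766.M
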