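import Mathlib
import Pool.Agent.Helper766.M.Defs


set_option autoImplicit false

open MeasureTheory Set Real Matrix
open scoped ENNReal ComplexOrder

namespace Pool.Agent.Helper766.M


theorem YK_herm_pow {N : ℕ} {U : CM N} (h1 : star U * U = 1) (h2 : U * star U = 1)
    (d : Fin N → ℂ) (k : ℕ) :
    (U * Matrix.diagonal d * star U) ^ k = U * Matrix.diagonal (fun i => d i ^ k) * star U := by
  induction k with
  | zero =>
    simp only [pow_zero]
    have : Matrix.diagonal (fun _ : Fin N => (1 : ℂ)) = 1 := Matrix.diagonal_one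
    rw [this, Matrix.mul_one, h2]
  | succ k ih =>
    rw [pow_succ, ih]
    calc U * Matrix.diagonal (fun i => d i ^ k) * star U * (U * Matrix.diagonal d * star U)
        = U * (Matrix.diagonal (fun i => d i ^ k) * ((star U * U) * Matrix.diagonal d)) * star U := by
          simp only [Matrix.mul_assoc]
      _ = _ := by
          rw [h1, Matrix.one_mul, Matrix.diagonal_mul_diagonal]
          rfl

theorem YK_herm_conj {N : ℕ} {U : CM N} (h1 : star U * U = 1) (h2 : U * star U = 1)
    (d : Fin N → ℂ) (R : CM N) (a b : ℕ) (i j : Fin N) :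
    (star U * ((U * Matrix.diagonal d * star U) ^ a * R * (U * Matrix.diagonal d * star U) ^ b) * U) i j
      = d i ^ a * (star U * R * U) i j * d j ^ b := by
  rw [YK_herm_pow h1 h2, YK_herm_pow h1 h2]
  have e : star U * (U * Matrix.diagonal (fun i => d i ^ a) * star U * R *
      (U * Matrix.diagonal (fun i => d i ^ b) * star U)) * U =
      Matrix.diagonal (fun i => d i ^ a) * (star U * R * U) * Matrix.diagonal (fun i => d i ^ b) := by
    calc star U * (U * Matrix.diagonal (fun i => d i ^ a) * star U * R *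
          (U * Matrix.diagonal (fun i => d i ^ b) * star U)) * U
        = (star U * U) * (Matrix.diagonal (fun i => d i ^ a) * (star U * R * U) *
          Matrix.diagonal (fun i => d i ^ b)) * (star U * U) := by simp only [Matrix.mul_assoc]
      _ = _ := by rw [h1, Matrix.one_mul, Matrix.mul_one]
  rw [e, Matrix.mul_diagonal, Matrix.diagonal_mul]

theorem YK_herm_eq {N : ℕ} (A : Finset (ℕ × ℕ)) (w : ℕ × ℕ → ℝ)
    (hsym : ∀ s t, PK A w s t = PK A w t s) (B R : CM N) (hB : B.IsHermitian) :
    YK A w B R = ∑ q ∈ A, ((w q : ℝ) : ℂ) • (B ^ q.2 * R * B ^ q.1) := by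
  classical
  set U : CM N := (hB.eigenvectorUnitary : CM N) with hU
  have hUm : U ∈ unitary (CM N) := hB.eigenvectorUnitary.2
  have h1 : star U * U = 1 := (Unitary.mem_iff.1 hUm).1
  have h2 : U * star U = 1 := (Unitary.mem_iff.1 hUm).2
  set e : Fin N → ℝ := hB.eigenvalues with he
  have hBU : B = U * Matrix.diagonal (fun i => (e i : ℂ)) * star U := by
    have h3 := hB.spectral_theorem
    rw [Unitary.conjStarAlgAut_apply] at h3
    exact h3
  have key : ∀ v : ℕ × ℕ → ℕ × ℕ, ∀ i j,
      (star U * (∑ q ∈ A, ((w q : ℝ) : ℂ) • (B ^ (v q).1 * R * B ^ (v q).2)) * U) i j =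
      ((∑ q ∈ A, w q * (e i ^ (v q).1 * e j ^ (v q).2) : ℝ) : ℂ) * (star U * R * U) i j := by
    intro v i j
    rw [Matrix.mul_sum, Matrix.sum_mul, Matrix.sum_apply]
    push_cast
    rw [Finset.sum_mul]
    refine Finset.sum_congr rfl fun q _ => ?_
    rw [Matrix.mul_smul, Matrix.smul_mul, Matrix.smul_apply, hBU, YK_herm_conj h1 h2, smul_eq_mul]
    ring
  have hc : star U * YK A w B R * U =
      star U * (∑ q ∈ A, ((w q : ℝ) : ℂ) • (B ^ q.2 * R * B ^ q.1)) * U := by
    ext i j
    unfold YK
    rw [key (fun q => q) i j, key (fun q => (q.2, q.1)) i j]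
    congr 2
    have := hsym (e i) (e j)
    unfold PK at this
    rw [this]
    refine Finset.sum_congr rfl fun q _ => ?_
    ring
  have hinj : ∀ X : CM N, U * (star U * X * U) * star U = X := by
    intro X
    calc U * (star U * X * U) * star U = (U * star U) * X * (U * star U) := by
          simp only [Matrix.mul_assoc]
      _ = X := by rw [h2, Matrix.one_mul, Matrix.mul_one]
  rw [← hinj (YK A w B R), hc, hinj]

theorem YK_herm {N : ℕ} (A : Finset (ℕ × ℕ)) (w : ℕ × ℕ → ℝ)
    (hsym : ∀ s t, PK A w s t = PK A w t s) (B R : CM N) (hB : B.IsHermitian)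
    (hR : R.IsHermitian) :
    (YK A w B R).IsHermitian ∧
      YK A w B R = ∑ q ∈ A, ((w q : ℝ) : ℂ) • (B ^ q.2 * R * B ^ q.1) := by
  refine ⟨?_, YK_herm_eq A w hsym B R hB⟩
  have h1 := YK_herm_eq A w hsym B R hB
  show (YK A w B R)ᴴ = YK A w B R
  conv_rhs => rw [h1]
  unfold YK
  rw [Matrix.conjTranspose_sum]
  refine Finset.sum_congr rfl fun q _ => ?_
  rw [Matrix.conjTranspose_smul, Matrix.conjTranspose_mul, Matrix.conjTranspose_mul,
    Matrix.conjTranspose_pow, Matrix.conjTranspose_pow, hB.eq, hR.eq, Matrix.mul_assoc]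
  congr 1
  simp


end Pool.Agent.Helper766.M
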