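import Mathlib
import Pool.Agent.Helper766.M.Defs
import Pool.Agent.Helper766.M.AKernel
import Pool.Agent.Helper766.M.L_A_deriv
import Pool.Agent.Helper766.M.L_A_point
import Pool.Agent.Helper766.M.L_YK_herm
import Pool.Agent.Helper766.M.L_mInt_facts


set_option autoImplicit false

open MeasureTheory Set Real Matrix
open scoped ENNReal ComplexOrder

namespace Pool.Agent.Helper766.M


theorem cal1_eps_herm_smul {N : ℕ} (r : ℝ) {Y : CM N} (hY : Y.IsHermitian) :
    (((r : ℝ) : ℂ) • Y).IsHermitian := by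
  unfold Matrix.IsHermitian
  rw [Matrix.conjTranspose_smul, hY.eq, Complex.star_def, Complex.conj_ofReal]

theorem cal1_eps_pt {N : ℕ} (A : Finset (ℕ × ℕ)) (w : ℕ × ℕ → ℝ)
    (hsym : ∀ s t, PK A w s t = PK A w t s) (B R R' : CM N)
    (hB : B.IsHermitian) (hR : R.IsHermitian) :
    ∑ q ∈ A, w q * ((R' * B ^ q.1 * R * B ^ q.2).trace.re +
      (R * B ^ q.1 * R' * B ^ q.2).trace.re) = 2 * (YK A w B R * R').trace.re := by
  have h1 : ∀ q : ℕ × ℕ, (R * B ^ q.1 * R' * B ^ q.2).trace =
      (R' * B ^ q.2 * R * B ^ q.1).trace := by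
    intro q
    rw [Matrix.mul_assoc (R * B ^ q.1), Matrix.trace_mul_comm]
    simp only [Matrix.mul_assoc]
  have h2 : ∑ q ∈ A, w q * (R' * B ^ q.1 * R * B ^ q.2).trace.re =
      (YK A w B R * R').trace.re := by
    rw [Matrix.trace_mul_comm]
    unfold YK
    rw [Matrix.mul_sum, Matrix.trace_sum, Complex.re_sum]
    refine Finset.sum_congr rfl (fun q _ => ?_)
    rw [Matrix.mul_smul, Matrix.trace_smul, smul_eq_mul, Complex.re_ofReal_mul]
    simp only [Matrix.mul_assoc]
  have h3 : ∑ q ∈ A, w q * (R' * B ^ q.2 * R * B ^ q.1).trace.re =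
      (YK A w B R * R').trace.re := by
    rw [Matrix.trace_mul_comm, (YK_herm A w hsym B R hB hR).2]
    rw [Matrix.mul_sum, Matrix.trace_sum, Complex.re_sum]
    refine Finset.sum_congr rfl (fun q _ => ?_)
    rw [Matrix.mul_smul, Matrix.trace_smul, smul_eq_mul, Complex.re_ofReal_mul]
    simp only [Matrix.mul_assoc]
  simp only [mul_add, Finset.sum_add_distrib, h1]
  rw [h2, h3]
  ring

theorem cal1_eps {N : ℕ} (R R' : ℝ → CM N)
    (hR : ∀ i j t, HasDerivAt (fun t => R t i j) (R' t i j) t)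
    (hR'c : ∀ i j, Continuous fun t => R' t i j)
    (hpos : ∀ t, (R t).PosSemidef) (M : ℝ) (hM : ∀ t, M < |t| → R t = 0)
    (hG : (1 - mInt univ R).PosSemidef) (τ : ℝ → ℝ≥0∞)
    (hτ : ∀ t, ∀ Y : CM N, Y.IsHermitian →
      ENNReal.ofReal ((Y * R' t).trace.re - (Y * R t * Y).trace.re) ≤ τ t)
    {θ ε : ℝ} (hθ0 : 0 < θ) (hθ : θ < π) (hε : 0 < ε) :
    ENNReal.ofReal ((θ ^ 2 / 4 - ε * (N : ℝ) ^ 5) * ∫ t, (R t * R t * R t).trace.re) ≤
      ∫⁻ t, τ t := by
  obtain ⟨A, w, hsym, hK⟩ := A_kernel hθ0 hθ hε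
  have hRe : ∀ i j, Continuous fun t => R t i j := fun i j =>
    continuous_iff_continuousAt.2 (fun x => (hR i j x).continuousAt)
  have hRc : Continuous R := continuous_matrix hRe
  have hR'cc : Continuous R' := continuous_matrix hR'c
  obtain ⟨B, hBdef⟩ : ∃ B : ℝ → CM N, B = fun x => mInt (Iic x) R - ((1 / 2 : ℝ) : ℂ) • 1 := ⟨_, rfl⟩
  have hBd : ∀ i j x, HasDerivAt (fun t => B t i j) (R x i j) x := by
    intro i j x
    rw [hBdef]
    exact (mInt_der hRe M hM i j x).sub_const _
  have hBc : Continuous B := by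
    refine continuous_matrix (fun i j => ?_)
    exact continuous_iff_continuousAt.2 (fun x => (hBd i j x).continuousAt)
  have hBs : ∀ x, (B x).IsHermitian := by
    intro x
    rw [hBdef]
    exact (mInt_psd hRe hpos M hM (Iic x) measurableSet_Iic).1.sub
      (cal1_eps_herm_smul _ Matrix.isHermitian_one)
  have hcs : ∀ g : ℝ → ℝ, Continuous g → (∀ x, R x = 0 → g x = 0) → Integrable g := by
    intro g hg hg0
    refine hg.integrable_of_hasCompactSupport (HasCompactSupport.intro (isCompact_Icc (a := -M) (b := M)) ?_)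
    intro x hx
    have h1 : M < |x| := by
      by_contra hc
      push Not at hc
      exact hx (mem_Icc.2 (abs_le.1 hc))
    exact hg0 x (hM x h1)
  have hdc : ∀ a : ℕ, Continuous (fun x => dpow (B x) (R x) a) := by
    intro a
    unfold dpow
    fun_prop
  have hΦd : ∀ x, HasDerivAt (fun t => θ / 4 * ∑ q ∈ A, w q * (R t * B t ^ q.1 * R t * B t ^ q.2).trace.re)
      (θ / 4 * ∑ q ∈ A, w q * ((R' x * B x ^ q.1 * R x * B x ^ q.2).trace +
        (R x * dpow (B x) (R x) q.1 * R x * B x ^ q.2).trace +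
        (R x * B x ^ q.1 * R' x * B x ^ q.2).trace +
        (R x * B x ^ q.1 * R x * dpow (B x) (R x) q.2).trace).re) x := by
    intro x
    refine HasDerivAt.const_mul _ (HasDerivAt.fun_sum (fun q _ => HasDerivAt.const_mul _ ?_))
    exact Complex.reCLM.hasFDerivAt.comp_hasDerivAt x (A_deriv hBd hR q.1 q.2 x)
  have hre : ∀ g : ℝ → CM N, Continuous g → Continuous fun t => (g t).trace.re := by
    intro g hg
    exact Complex.continuous_re.comp (Continuous.matrix_trace hg)
  have hΦi : Integrable (fun t => θ / 4 * ∑ q ∈ A, w q * (R t * B t ^ q.1 * R t * B t ^ q.2).trace.re) := by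
    refine hcs _ ?_ (fun x h1 => ?_)
    · refine Continuous.mul continuous_const (continuous_finsetSum _ (fun q _ =>
        Continuous.mul continuous_const (hre _ ?_)))
      fun_prop
    · simp [h1]
  have hΦ'i : Integrable (fun x => θ / 4 * ∑ q ∈ A, w q * ((R' x * B x ^ q.1 * R x * B x ^ q.2).trace +
        (R x * dpow (B x) (R x) q.1 * R x * B x ^ q.2).trace +
        (R x * B x ^ q.1 * R' x * B x ^ q.2).trace +
        (R x * B x ^ q.1 * R x * dpow (B x) (R x) q.2).trace).re) := by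
    refine hcs _ ?_ (fun x h1 => ?_)
    · have := hdc
      refine Continuous.mul continuous_const (continuous_finsetSum _ (fun q _ =>
        Continuous.mul continuous_const (Complex.continuous_re.comp ?_)))
      fun_prop
    · simp [h1]
  have hint0 := integral_eq_zero_of_hasDerivAt_of_integrable hΦd hΦ'i hΦi
  have hR3i : Integrable (fun x => (R x * R x * R x).trace.re) := by
    refine hcs _ (hre _ (by fun_prop)) (fun x h1 => ?_)
    simp [h1]
  have hpt : ∀ x, ENNReal.ofReal ((θ / 4 * ∑ q ∈ A, w q * ((R' x * B x ^ q.1 * R x * B x ^ q.2).trace +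
        (R x * dpow (B x) (R x) q.1 * R x * B x ^ q.2).trace +
        (R x * B x ^ q.1 * R' x * B x ^ q.2).trace +
        (R x * B x ^ q.1 * R x * dpow (B x) (R x) q.2).trace).re) +
      (θ ^ 2 / 4 - ε * (N : ℝ) ^ 5) * (R x * R x * R x).trace.re) ≤ τ x := by
    intro x
    have h1 := cal1_eps_pt A w hsym (B x) (R x) (R' x) (hBs x) (hpos x).1
    have h2 := hτ x (((θ / 2 : ℝ) : ℂ) • YK A w (B x) (R x))
      (cal1_eps_herm_smul _ (YK_herm A w hsym (B x) (R x) (hBs x) (hpos x).1).1)
    have h3 := A_point hθ0 hθ hε.le A w hsym hK (B x) (R x) (hBs x)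
      (by
        have e : ((((1 / 2 : ℝ) : ℂ) • (1 : CM N)) + B x) = mInt (Iic x) R := by
          rw [hBdef]
          module
        rw [e]
        exact mInt_psd hRe hpos M hM (Iic x) measurableSet_Iic)
      (by
        have e : ((((1 / 2 : ℝ) : ℂ) • (1 : CM N)) - B x) =
            (1 - mInt univ R) + mInt (Ioi x) R := by
          have e2 : (((1 / 2 : ℝ) : ℂ) • (1 : CM N)) + (((1 / 2 : ℝ) : ℂ) • (1 : CM N)) = 1 := by
            rw [← add_smul, ← Complex.ofReal_add]
            norm_num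
          rw [mInt_split hRe M hM x, hBdef]
          show (((1 / 2 : ℝ) : ℂ) • (1 : CM N)) -
            (mInt (Iic x) R - (((1 / 2 : ℝ) : ℂ) • (1 : CM N))) =
            1 - (mInt (Iic x) R + mInt (Ioi x) R) + mInt (Ioi x) R
          calc (((1 / 2 : ℝ) : ℂ) • (1 : CM N)) -
            (mInt (Iic x) R - (((1 / 2 : ℝ) : ℂ) • (1 : CM N))) =
              ((((1 / 2 : ℝ) : ℂ) • (1 : CM N)) + (((1 / 2 : ℝ) : ℂ) • (1 : CM N))) -
                mInt (Iic x) R := by abel
            _ = _ := by rw [e2]; abel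
        rw [e]
        exact hG.add (mInt_psd hRe hpos M hM (Ioi x) measurableSet_Ioi))
      (hpos x)
    have h4 : (θ / 4 * ∑ q ∈ A, w q * ((R' x * B x ^ q.1 * R x * B x ^ q.2).trace +
        (R x * dpow (B x) (R x) q.1 * R x * B x ^ q.2).trace +
        (R x * B x ^ q.1 * R' x * B x ^ q.2).trace +
        (R x * B x ^ q.1 * R x * dpow (B x) (R x) q.2).trace).re) =
        θ / 4 * (∑ q ∈ A, w q * ((R' x * B x ^ q.1 * R x * B x ^ q.2).trace.re +
          (R x * B x ^ q.1 * R' x * B x ^ q.2).trace.re)) +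
        θ / 4 * (∑ q ∈ A, w q * ((R x * dpow (B x) (R x) q.1 * R x * B x ^ q.2).trace.re +
        (R x * B x ^ q.1 * R x * dpow (B x) (R x) q.2).trace.re)) := by
      rw [← mul_add, ← Finset.sum_add_distrib]
      congr 1
      refine Finset.sum_congr rfl (fun q _ => ?_)
      rw [Complex.add_re, Complex.add_re, Complex.add_re]
      ring
    refine le_trans (ENNReal.ofReal_le_ofReal ?_) h2
    rw [h4, h1]
    simp only [Matrix.smul_mul, Matrix.mul_smul, Matrix.trace_smul, smul_eq_mul,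
      Complex.re_ofReal_mul]
    nlinarith [h3]
  have hfi : Integrable (fun x => (θ / 4 * ∑ q ∈ A, w q * ((R' x * B x ^ q.1 * R x * B x ^ q.2).trace +
        (R x * dpow (B x) (R x) q.1 * R x * B x ^ q.2).trace +
        (R x * B x ^ q.1 * R' x * B x ^ q.2).trace +
        (R x * B x ^ q.1 * R x * dpow (B x) (R x) q.2).trace).re) +
      (θ ^ 2 / 4 - ε * (N : ℝ) ^ 5) * (R x * R x * R x).trace.re) :=
    hΦ'i.add (hR3i.const_mul _)
  have e5 := integral_add hΦ'i (hR3i.const_mul (θ ^ 2 / 4 - ε * (N : ℝ) ^ 5))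
  rw [hint0, zero_add, integral_const_mul] at e5
  rw [← e5]
  refine le_trans ?_ (lintegral_mono hpt)
  have hmax := hfi.pos_part
  refine le_trans (ENNReal.ofReal_le_ofReal (integral_mono hfi hmax (fun x => le_max_left _ _))) ?_
  rw [ofReal_integral_eq_lintegral_ofReal hmax (Filter.Eventually.of_forall fun x => le_max_right _ _)]
  refine lintegral_mono (fun x => ?_)
  show ENNReal.ofReal (max _ 0) ≤ _
  rw [ENNReal.ofReal_max]
  simp


end Pool.Agent.Helper766.M
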