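import Mathlib
import Pool.Agent.Helper766.M.Defs
import Pool.Agent.Helper766.M.L_cal1_eps


set_option autoImplicit false

open MeasureTheory Set Real Matrix
open scoped ENNReal ComplexOrder

namespace Pool.Agent.Helper766.M


/-- The calibration theorem for `γ = 1`. -/
theorem cal1 {N : ℕ} (R R' : ℝ → CM N)
    (hR : ∀ i j t, HasDerivAt (fun t => R t i j) (R' t i j) t)
    (hR'c : ∀ i j, Continuous fun t => R' t i j)
    (hpos : ∀ t, (R t).PosSemidef) (M : ℝ) (hM : ∀ t, M < |t| → R t = 0)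
    (hG : (1 - mInt univ R).PosSemidef) (τ : ℝ → ℝ≥0∞)
    (hτ : ∀ t, ∀ Y : CM N, Y.IsHermitian →
      ENNReal.ofReal ((Y * R' t).trace.re - (Y * R t * Y).trace.re) ≤ τ t) :
    ENNReal.ofReal (π ^ 2 / 4 * ∫ t, (R t * R t * R t).trace.re) ≤ ∫⁻ t, τ t := by
  have hz : Filter.Tendsto (fun k : ℕ => 1 / ((k : ℝ) + 1)) Filter.atTop (nhds 0) :=
    tendsto_one_div_add_atTop_nhds_zero_nat
  have h1 : Filter.Tendsto (fun k : ℕ => ((π - 1 / ((k : ℝ) + 1)) ^ 2 / 4 - 1 / ((k : ℝ) + 1) * (N : ℝ) ^ 5)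
      * ∫ t, (R t * R t * R t).trace.re) Filter.atTop
      (nhds (((π - 0) ^ 2 / 4 - 0 * (N : ℝ) ^ 5) * ∫ t, (R t * R t * R t).trace.re)) :=
    (((((tendsto_const_nhds.sub hz).pow 2).div_const 4).sub (hz.mul_const _)).mul_const _)
  have h2 := ENNReal.tendsto_ofReal h1
  have h3 : ((π - 0) ^ 2 / 4 - 0 * (N : ℝ) ^ 5) * ∫ t, (R t * R t * R t).trace.re
      = π ^ 2 / 4 * ∫ t, (R t * R t * R t).trace.re := by ring
  rw [h3] at h2
  refine le_of_tendsto' h2 fun k => ?_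
  have hk : (0 : ℝ) < 1 / ((k : ℝ) + 1) := by positivity
  have hk1 : 1 / ((k : ℝ) + 1) ≤ 1 := by
    rw [div_le_one (by positivity)]
    have : (0 : ℝ) ≤ k := Nat.cast_nonneg k
    linarith
  have hpi := Real.pi_gt_three
  exact cal1_eps R R' hR hR'c hpos M hM hG τ hτ (by linarith) (by linarith) hk


end Pool.Agent.Helper766.M
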