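import Mathlib
import Pool.Agent.Helper766.M.Defs
import Pool.Agent.Helper766.M.L_Gram_basic
import Pool.Agent.Helper766.M.L_Gram_der
import Pool.Agent.Helper766.M.L_Tmag_split
import Pool.Agent.Helper766.M.L_cal1
import Pool.Agent.Helper766.M.L_lint_cons
import Pool.Agent.Helper766.M.L_slice_reg
import Pool.Agent.Helper766.M.L_tau_ineq


set_option autoImplicit false

open MeasureTheory Set Real Matrix
open scoped ENNReal ComplexOrder

namespace Pool.Agent.Helper766.M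


theorem QQ_trace_nonneg {N : ℕ} {G : CM N} (hG : G.PosSemidef) :
    0 ≤ (G * G * G).trace.re := by
  have h1 := hG.conjTranspose_mul_mul_same G
  rw [hG.isHermitian.eq] at h1
  have h2 := h1.trace_nonneg
  exact (Complex.le_def.1 h2).1

theorem QQ_scale {n N : ℕ} (h : PP n (ENNReal.ofReal (cc n))) (w : Fin N → (Fin n → ℝ) → ℂ)
    (A : (Fin n → ℝ) → (Fin n → ℝ)) (V : (Fin n → ℝ) → ℝ≥0∞)
    (hw : ∀ i, ContDiff ℝ 1 (w i)) (hc : ∀ i, HasCompactSupport (w i)) (hA : Measurable A)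
    (hV : Measurable V) :
    ∫⁻ x, V x * rho w x ≤ Tmag A w +
      (ENNReal.ofReal (π ^ 2 / 4 * (Gram w * Gram w * Gram w).trace.re) +
        ENNReal.ofReal (2 / (√3 * π) * cc n) * ∫⁻ x, V x ^ (((n : ℝ) + 3) / 2)) := by
  obtain ⟨a, ha⟩ : ∃ a : ℝ, a = √3 * π / 2 := ⟨_, rfl⟩
  have hs3 : (0:ℝ) < √3 := Real.sqrt_pos.2 (by norm_num)
  have ha0 : 0 < a := by rw [ha]; positivity
  have haa : a ^ 2 = 3 * π ^ 2 / 4 := by
    rw [ha, div_pow, mul_pow, Real.sq_sqrt (by norm_num)]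
    norm_num
  have hb : 2 / (√3 * π) = a⁻¹ := by
    rw [ha, inv_div]
  obtain ⟨s, hs⟩ : ∃ s : ℝ, s = √a := ⟨_, rfl⟩
  have hs0 : 0 ≤ s := by rw [hs]; exact Real.sqrt_nonneg a
  have hss : s * s = a := by rw [hs]; exact Real.mul_self_sqrt ha0.le
  have hen : ‖(s : ℂ)‖ₑ ^ 2 = ENNReal.ofReal a := by
    rw [← ofReal_norm_eq_enorm, Complex.norm_real, Real.norm_eq_abs, abs_of_nonneg hs0,
      ← ENNReal.ofReal_pow hs0, pow_two, hss]
  have hat : ENNReal.ofReal a ≠ ⊤ := ENNReal.ofReal_ne_top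
  have h1 := h N (fun i x => (s : ℂ) * w i x) A V (fun i => contDiff_const.mul (hw i))
    (fun i => (hc i).mul_left (f := fun _ => (s : ℂ))) hA hV
  have hrho : ∀ x, rho (fun i x => (s : ℂ) * w i x) x = ENNReal.ofReal a * rho w x := by
    intro x
    unfold rho
    rw [Finset.mul_sum]
    refine Finset.sum_congr rfl fun i _ => ?_
    rw [enorm_mul, mul_pow, hen]
  have heT : ∀ i x, eT A (fun x => (s : ℂ) * w i x) x = ENNReal.ofReal a * eT A (w i) x := by
    intro i x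
    unfold eT
    rw [Finset.mul_sum]
    refine Finset.sum_congr rfl fun j _ => ?_
    have hd : DifferentiableAt ℝ (w i) x := ((hw i).differentiable one_ne_zero) x
    have hf : fderiv ℝ (fun x => (s : ℂ) * w i x) x (Pi.single j 1) =
        (s : ℂ) * fderiv ℝ (w i) x (Pi.single j 1) := by
      rw [(hd.hasFDerivAt.const_mul (s : ℂ)).fderiv]
      rfl
    rw [hf]
    have he : (s : ℂ) * fderiv ℝ (w i) x (Pi.single j 1) -
        Complex.I * ((A x j : ℝ) : ℂ) * ((s : ℂ) * w i x) =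
        (s : ℂ) * (fderiv ℝ (w i) x (Pi.single j 1) -
          Complex.I * ((A x j : ℝ) : ℂ) * w i x) := by ring
    rw [he, enorm_mul, mul_pow, hen]
  have hT : Tmag A (fun i x => (s : ℂ) * w i x) = ENNReal.ofReal a * Tmag A w := by
    unfold Tmag
    rw [Finset.mul_sum]
    refine Finset.sum_congr rfl fun i _ => ?_
    simp only [heT]
    rw [lintegral_const_mul' _ _ hat]
  have hGr : Gram (fun i x => (s : ℂ) * w i x) = ((a : ℝ) : ℂ) • Gram w := by
    ext i j
    simp only [Gram, Matrix.of_apply, Matrix.smul_apply, smul_eq_mul]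
    rw [← integral_const_mul]
    congr 1
    funext x
    rw [map_mul, Complex.conj_ofReal, ← hss]
    push_cast
    ring
  have hL : ∫⁻ x, V x * rho (fun i x => (s : ℂ) * w i x) x =
      ENNReal.ofReal a * ∫⁻ x, V x * rho w x := by
    rw [← lintegral_const_mul' _ _ hat]
    congr 1
    funext x
    rw [hrho]
    ring
  have htr : (Gram (fun i x => (s : ℂ) * w i x) * Gram (fun i x => (s : ℂ) * w i x) *
      Gram (fun i x => (s : ℂ) * w i x)).trace.re = a ^ 3 * (Gram w * Gram w * Gram w).trace.re := by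
    rw [hGr]
    simp only [Matrix.smul_mul, Matrix.mul_smul, Matrix.trace_smul, smul_eq_mul]
    rw [← mul_assoc, ← mul_assoc, ← Complex.ofReal_mul, ← Complex.ofReal_mul,
      Complex.re_ofReal_mul]
    ring
  rw [hL, hT, htr] at h1
  have hinv : ENNReal.ofReal a⁻¹ * ENNReal.ofReal a = 1 := by
    rw [← ENNReal.ofReal_mul (inv_nonneg.2 ha0.le), inv_mul_cancel₀ ha0.ne', ENNReal.ofReal_one]
  have h3 : a⁻¹ * (1 / 3 * (a ^ 3 * (Gram w * Gram w * Gram w).trace.re)) =
      π ^ 2 / 4 * (Gram w * Gram w * Gram w).trace.re := by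
    have : a⁻¹ * a ^ 3 = a ^ 2 := by field_simp
    calc a⁻¹ * (1 / 3 * (a ^ 3 * (Gram w * Gram w * Gram w).trace.re)) =
        1 / 3 * (a⁻¹ * a ^ 3) * (Gram w * Gram w * Gram w).trace.re := by ring
      _ = _ := by rw [this, haa]; ring
  rw [hb]
  obtain ⟨X, hX⟩ : ∃ X, X = ∫⁻ x, V x * rho w x := ⟨_, rfl⟩
  obtain ⟨Y, hY⟩ : ∃ Y, Y = ∫⁻ x, V x ^ (((n : ℝ) + 3) / 2) := ⟨_, rfl⟩
  obtain ⟨T, hT⟩ : ∃ T, T = Tmag A w := ⟨_, rfl⟩
  obtain ⟨g, hg⟩ : ∃ g, g = (Gram w * Gram w * Gram w).trace.re := ⟨_, rfl⟩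
  rw [← hX, ← hY, ← hT, ← hg] at h1
  rw [← hg] at h3
  rw [← hX, ← hY, ← hT, ← hg]
  have hai : 0 ≤ a⁻¹ := inv_nonneg.2 ha0.le
  calc X = ENNReal.ofReal a⁻¹ * (ENNReal.ofReal a * X) := by rw [← mul_assoc, hinv, one_mul]
    _ ≤ ENNReal.ofReal a⁻¹ * (ENNReal.ofReal a * T + ENNReal.ofReal (1 / 3 * (a ^ 3 * g)) +
        ENNReal.ofReal (cc n) * Y) := mul_le_mul_right h1 _
    _ = ENNReal.ofReal a⁻¹ * ENNReal.ofReal a * T +
        ENNReal.ofReal a⁻¹ * ENNReal.ofReal (1 / 3 * (a ^ 3 * g)) +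
        ENNReal.ofReal a⁻¹ * ENNReal.ofReal (cc n) * Y := by ring
    _ = T + (ENNReal.ofReal (π ^ 2 / 4 * g) + ENNReal.ofReal (a⁻¹ * cc n) * Y) := by
        rw [hinv, one_mul, ← ENNReal.ofReal_mul hai, ← ENNReal.ofReal_mul hai, h3, add_assoc]

theorem QQ {n N : ℕ} (h : PP n (ENNReal.ofReal (cc n))) (u : Fin N → (Fin (n + 1) → ℝ) → ℂ)
    (A : (Fin (n + 1) → ℝ) → (Fin (n + 1) → ℝ)) (V : (Fin (n + 1) → ℝ) → ℝ≥0∞)
    (hu : ∀ i, ContDiff ℝ 1 (u i)) (hc : ∀ i, HasCompactSupport (u i)) (hA : Measurable A)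
    (hV : Measurable V) (hG : (1 - Gram u).PosSemidef) :
    ∫⁻ x, V x * rho u x ≤ Tmag A u +
      ENNReal.ofReal (2 / (√3 * π) * cc n) * ∫⁻ x, V x ^ (((n : ℝ) + 3) / 2) := by
  have hcons : ∀ t : ℝ, Measurable fun y : Fin n → ℝ => (Fin.cons t y : Fin (n + 1) → ℝ) := by
    intro t
    rw [measurable_pi_iff]
    intro i
    refine Fin.cases ?_ (fun j => ?_) i
    · simp only [Fin.cons_zero]
      exact measurable_const
    · simp only [Fin.cons_succ]
      exact measurable_pi_apply j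
  have hsc : ∀ t i, Continuous (slice u t i) := fun t i => ((slice_reg u hu hc t).1 i).continuous
  have hstep : ∀ t : ℝ, ∫⁻ y : Fin n → ℝ, V (Fin.cons t y : Fin (n + 1) → ℝ) *
      rho u (Fin.cons t y : Fin (n + 1) → ℝ) ≤ Tmag (sliceA A t) (slice u t) +
      (ENNReal.ofReal (π ^ 2 / 4 * (Gram (slice u t) * Gram (slice u t) *
        Gram (slice u t)).trace.re) +
        ENNReal.ofReal (2 / (√3 * π) * cc n) *
          ∫⁻ y : Fin n → ℝ, V (Fin.cons t y : Fin (n + 1) → ℝ) ^ (((n : ℝ) + 3) / 2)) := by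
    intro t
    have hr := slice_reg u hu hc t
    refine QQ_scale h (slice u t) (sliceA A t) (fun y => V (Fin.cons t y : Fin (n + 1) → ℝ))
      hr.1 hr.2.1 ?_ (hV.comp (hcons t))
    rw [measurable_pi_iff]
    intro j
    exact (measurable_pi_apply j.succ).comp (hA.comp (hcons t))
  have hrm : Measurable (rho u) := by
    unfold rho
    refine Finset.measurable_sum _ fun i _ => ?_
    exact ((hu i).continuous.measurable.enorm).pow_const 2
  have hVq : Measurable fun x => V x ^ (((n : ℝ) + 3) / 2) := hV.pow_const _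
  have hGc : Continuous fun t => Gram (slice u t) := by
    refine continuous_matrix fun i j => ?_
    exact continuous_iff_continuousAt.2 fun t => ((Gram_der u hu hc).1 i j t).continuousAt
  have hgc : Continuous fun t => π ^ 2 / 4 * (Gram (slice u t) * Gram (slice u t) *
        Gram (slice u t)).trace.re :=
    continuous_const.mul
      (Complex.continuous_re.comp (((hGc.matrix_mul hGc).matrix_mul hGc).matrix_trace))
  obtain ⟨M, hM⟩ := Gram_supp u hc
  have hgs : HasCompactSupport fun t => π ^ 2 / 4 * (Gram (slice u t) * Gram (slice u t) *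
        Gram (slice u t)).trace.re := by
    refine HasCompactSupport.intro (isCompact_Icc (a := -M) (b := M)) ?_
    intro t ht
    have : M < |t| := by
      by_contra hcon
      push Not at hcon
      exact ht (abs_le.1 hcon)
    rw [hM t this]
    simp
  have hgi := hgc.integrable_of_hasCompactSupport (μ := volume) hgs
  have hgn : ∀ t, 0 ≤ π ^ 2 / 4 * (Gram (slice u t) * Gram (slice u t) *
        Gram (slice u t)).trace.re := by
    intro t
    exact mul_nonneg (by positivity)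
      (QQ_trace_nonneg (Gram_psd (slice u t) (hsc t) (slice_reg u hu hc t).2.1))
  have hcal := cal1 (fun t => Gram (slice u t)) (Gram' u) (Gram_der u hu hc).1
    (Gram_der u hu hc).2
    (fun t => Gram_psd (slice u t) (hsc t) (slice_reg u hu hc t).2.1) M hM
    (by rw [Gram_int u (fun i => (hu i).continuous) hc]; exact hG)
    (tau A u) (fun t Y hY => tau_ineq A u hu hc t Y hY)
  have hcal2 : ∫⁻ t, ENNReal.ofReal (π ^ 2 / 4 * (Gram (slice u t) * Gram (slice u t) *
        Gram (slice u t)).trace.re) ≤ ∫⁻ t, tau A u t := by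
    rw [← ofReal_integral_eq_lintegral_ofReal hgi (Filter.Eventually.of_forall hgn),
      integral_const_mul]
    exact hcal
  obtain ⟨hTs, hTm⟩ := Tmag_split A hA u hu hc
  calc ∫⁻ x, V x * rho u x
      = ∫⁻ t : ℝ, ∫⁻ y : Fin n → ℝ, V (Fin.cons t y : Fin (n + 1) → ℝ) *
          rho u (Fin.cons t y : Fin (n + 1) → ℝ) :=
        (lint_cons (fun x => V x * rho u x) (hV.mul hrm)).1
    _ ≤ ∫⁻ t : ℝ, (Tmag (sliceA A t) (slice u t) +
      (ENNReal.ofReal (π ^ 2 / 4 * (Gram (slice u t) * Gram (slice u t) *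
        Gram (slice u t)).trace.re) +
        ENNReal.ofReal (2 / (√3 * π) * cc n) *
          ∫⁻ y : Fin n → ℝ, V (Fin.cons t y : Fin (n + 1) → ℝ) ^ (((n : ℝ) + 3) / 2))) :=
        lintegral_mono hstep
    _ = (∫⁻ t : ℝ, Tmag (sliceA A t) (slice u t)) +
      ((∫⁻ t : ℝ, ENNReal.ofReal (π ^ 2 / 4 * (Gram (slice u t) * Gram (slice u t) *
        Gram (slice u t)).trace.re)) +
        ENNReal.ofReal (2 / (√3 * π) * cc n) * ∫⁻ t : ℝ,
          ∫⁻ y : Fin n → ℝ, V (Fin.cons t y : Fin (n + 1) → ℝ) ^ (((n : ℝ) + 3) / 2)) := by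
        rw [lintegral_add_left hTm, lintegral_add_left hgc.measurable.ennreal_ofReal,
          lintegral_const_mul' _ _ ENNReal.ofReal_ne_top]
    _ ≤ (∫⁻ t : ℝ, Tmag (sliceA A t) (slice u t)) +
      ((∫⁻ t : ℝ, tau A u t) +
        ENNReal.ofReal (2 / (√3 * π) * cc n) * ∫⁻ t : ℝ,
          ∫⁻ y : Fin n → ℝ, V (Fin.cons t y : Fin (n + 1) → ℝ) ^ (((n : ℝ) + 3) / 2)) := by
        gcongr
    _ = Tmag A u +
      ENNReal.ofReal (2 / (√3 * π) * cc n) * ∫⁻ x, V x ^ (((n : ℝ) + 3) / 2) := by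
        rw [← add_assoc, hTs, (lint_cons (fun x => V x ^ (((n : ℝ) + 3) / 2)) hVq).1]


end Pool.Agent.Helper766.M
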