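import Mathlib
import Pool.Agent.Helper766.M.Defs
import Pool.Agent.Helper766.M.L_beta_lint
import Pool.Agent.Helper766.M.L_lint_cons


set_option autoImplicit false

open MeasureTheory Set Real Matrix
open scoped ENNReal ComplexOrder

namespace Pool.Agent.Helper766.M


theorem ball_int_even (F : ℝ → ℝ≥0∞) (hF : ∀ t, F (-t) = F t) :
    ∫⁻ t, F t = 2 * ∫⁻ t in Ioi (0:ℝ), F t := by
  have h1 : ∫⁻ t in Iio (0:ℝ), F t = ∫⁻ t in Ioi (0:ℝ), F t := by
    have h2 : (fun x : ℝ => -x) '' Ioi (0:ℝ) = Iio 0 := by simp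
    rw [← h2, lintegral_image_eq_lintegral_abs_deriv_mul (f' := fun _ => (-1:ℝ)) measurableSet_Ioi
      (fun x _ => (hasDerivAt_neg x).hasDerivWithinAt) neg_injective.injOn]
    refine setLIntegral_congr_fun measurableSet_Ioi fun x _ => ?_
    simp [hF]
  rw [← lintegral_add_compl F (measurableSet_Ioi (a := (0:ℝ))), compl_Ioi, two_mul,
    setLIntegral_congr (Iio_ae_eq_Iic (a := (0:ℝ))).symm, h1]

theorem ball_int_one (a : ℝ) {b q : ℝ} (hb : 0 < b) (hq : 0 < q) :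
    ∫⁻ t : ℝ, ENNReal.ofReal (a - b * t ^ 2) ^ q =
      ENNReal.ofReal a ^ (q + 1 / 2) * ENNReal.ofReal (b ^ (-(1 / 2 : ℝ)) *
        (π ^ (1 / 2 : ℝ) * Gamma (q + 1) / Gamma (q + 1 + 1 / 2))) := by
  rw [ball_int_even _ (fun t => by rw [neg_sq])]
  have hbs : (0:ℝ) < b ^ (1 / 2 : ℝ) := Real.rpow_pos_of_pos hb _
  have h1 : (fun t : ℝ => b * t ^ 2) '' Ioi (0:ℝ) = Ioi 0 := by
    ext s
    simp only [mem_image, mem_Ioi]
    constructor
    · rintro ⟨t, ht, rfl⟩; positivity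
    · intro hs
      refine ⟨√(s / b), Real.sqrt_pos.2 (by positivity), ?_⟩
      rw [Real.sq_sqrt (by positivity)]
      field_simp
  have h2 := beta_lint (ENNReal.ofReal a) (δ := 1 / 2) (q := q) (by norm_num) hq
  rw [← h1, lintegral_image_eq_lintegral_abs_deriv_mul (f' := fun t => b * (2 * t))
    measurableSet_Ioi (fun x _ => by
      have := ((hasDerivAt_pow 2 x).const_mul b).hasDerivWithinAt (s := Ioi 0)
      simpa using this)
    (fun x hx y hy hxy => by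
      have hx' : 0 < x := hx
      have hy' : 0 < y := hy
      have h3 : x ^ 2 = y ^ 2 := mul_left_cancel₀ hb.ne' hxy
      exact (pow_left_inj₀ hx'.le hy'.le two_ne_zero).1 h3)] at h2
  have h3 : ∫⁻ t in Ioi (0:ℝ), ENNReal.ofReal |b * (2 * t)| *
      (ENNReal.ofReal ((b * t ^ 2) ^ ((1 / 2 : ℝ) - 1)) *
        (ENNReal.ofReal a - ENNReal.ofReal (b * t ^ 2)) ^ q)
      = ENNReal.ofReal (2 * b ^ (1 / 2 : ℝ)) * ∫⁻ t in Ioi (0:ℝ),
        ENNReal.ofReal (a - b * t ^ 2) ^ q := by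
    rw [← lintegral_const_mul']
    · refine setLIntegral_congr_fun measurableSet_Ioi fun t ht => ?_
      have ht' : (0:ℝ) < t := ht
      change ENNReal.ofReal |b * (2 * t)| *
        (ENNReal.ofReal ((b * t ^ 2) ^ ((1 / 2 : ℝ) - 1)) *
        (ENNReal.ofReal a - ENNReal.ofReal (b * t ^ 2)) ^ q) = _
      rw [← mul_assoc, ← ENNReal.ofReal_mul (abs_nonneg _), ← ENNReal.ofReal_sub _ (by positivity)]
      congr 2
      rw [abs_of_pos (by positivity), Real.mul_rpow hb.le (by positivity),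
        ← Real.rpow_natCast t 2, ← Real.rpow_mul ht'.le]
      have e1 : ((2 : ℕ) : ℝ) * (1 / 2 - 1) = -1 := by norm_num
      rw [e1, Real.rpow_neg_one, Real.rpow_sub hb, Real.rpow_one]
      field_simp
    · exact ENNReal.ofReal_ne_top
  rw [h3] at h2
  have h4 : ENNReal.ofReal (b ^ (-(1 / 2 : ℝ))) * ENNReal.ofReal (2 * b ^ (1 / 2 : ℝ)) = 2 := by
    rw [← ENNReal.ofReal_mul (by positivity), Real.rpow_neg hb.le]
    have : (b ^ (1 / 2 : ℝ))⁻¹ * (2 * b ^ (1 / 2 : ℝ)) = 2 := by field_simp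
    rw [this]
    norm_num
  have hG : 0 ≤ π ^ (1 / 2 : ℝ) * Gamma (q + 1) / Gamma (q + 1 + 1 / 2) := by
    have g1 : 0 < Gamma (q + 1) := Real.Gamma_pos_of_pos (by linarith)
    have g2 : 0 < Gamma (q + 1 + 1 / 2) := Real.Gamma_pos_of_pos (by linarith)
    positivity
  rw [← h4, mul_assoc, h2, ENNReal.ofReal_mul (by positivity), Real.Gamma_one_half_eq,
    Real.sqrt_eq_rpow]
  have e2 : (1 / 2 : ℝ) + q + 1 = q + 1 + 1 / 2 := by ring
  rw [e2]
  ring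

theorem ball_int_gen (d : ℕ) {γ b : ℝ} (hγ : 0 < γ) (hb : 0 < b) : ∀ a : ℝ,
    ∫⁻ x : Fin d → ℝ, ENNReal.ofReal (a - b * ∑ j, x j ^ 2) ^ γ =
      ENNReal.ofReal a ^ (γ + (d : ℝ) / 2) * ENNReal.ofReal (b ^ (-((d : ℝ) / 2)) *
        (π ^ ((d : ℝ) / 2) * Gamma (γ + 1) / Gamma (γ + 1 + (d : ℝ) / 2))) := by
  induction d with
  | zero =>
    intro a
    have g1 : Gamma (γ + 1) ≠ 0 := (Real.Gamma_pos_of_pos (by linarith)).ne'
    have g2 : volume (univ : Set (Fin 0 → ℝ)) = 1 := by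
      rw [volume_pi, Measure.pi_univ]; simp
    simp [lintegral_unique, g1, g2]
  | succ d ih =>
    intro a
    have hm : Measurable fun x : Fin (d + 1) → ℝ => ENNReal.ofReal (a - b * ∑ j, x j ^ 2) ^ γ := by
      fun_prop
    rw [(lint_cons _ hm).1]
    have h1 : ∀ t : ℝ, ∫⁻ y : Fin d → ℝ, ENNReal.ofReal
        (a - b * ∑ j, (Fin.cons t y : Fin (d + 1) → ℝ) j ^ 2) ^ γ
        = ENNReal.ofReal (a - b * t ^ 2) ^ (γ + (d : ℝ) / 2) *
          ENNReal.ofReal (b ^ (-((d : ℝ) / 2)) *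
        (π ^ ((d : ℝ) / 2) * Gamma (γ + 1) / Gamma (γ + 1 + (d : ℝ) / 2))) := by
      intro t
      rw [← ih (a - b * t ^ 2)]
      refine lintegral_congr fun y => ?_
      rw [Fin.sum_univ_succ]
      simp only [Fin.cons_zero, Fin.cons_succ]
      congr 2
      ring
    simp only [h1]
    rw [lintegral_mul_const', ball_int_one a hb (by positivity)]
    · have g0 : 0 < Gamma (γ + 1) := Real.Gamma_pos_of_pos (by linarith)
      have g1 : 0 < Gamma (γ + 1 + (d : ℝ) / 2) := Real.Gamma_pos_of_pos (by positivity)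
      have g2 : 0 < Gamma (γ + 1 + ((d + 1 : ℕ) : ℝ) / 2) := Real.Gamma_pos_of_pos (by positivity)
      have e1 : γ + (d : ℝ) / 2 + 1 = γ + 1 + (d : ℝ) / 2 := by ring
      have e2 : γ + 1 + (d : ℝ) / 2 + 1 / 2 = γ + 1 + ((d + 1 : ℕ) : ℝ) / 2 := by push_cast; ring
      have e3 : γ + (d : ℝ) / 2 + 1 / 2 = γ + ((d + 1 : ℕ) : ℝ) / 2 := by push_cast; ring
      rw [e1, e2, e3, mul_assoc, ← ENNReal.ofReal_mul (by positivity)]
      congr 2
      have e4 : b ^ (-(((d + 1 : ℕ) : ℝ) / 2)) = b ^ (-(1 / 2 : ℝ)) * b ^ (-((d : ℝ) / 2)) := by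
        rw [← Real.rpow_add hb]; congr 1; push_cast; ring
      have e5 : π ^ (((d + 1 : ℕ) : ℝ) / 2) = π ^ (1 / 2 : ℝ) * π ^ ((d : ℝ) / 2) := by
        rw [← Real.rpow_add Real.pi_pos]; congr 1; push_cast; ring
      rw [e4, e5]
      field_simp
    · exact ENNReal.ofReal_ne_top

theorem ball_int (d : ℕ) {γ a b : ℝ} (hγ : 0 < γ) (ha : 0 < a) (hb : 0 < b) :
    ∫⁻ x : Fin d → ℝ, ENNReal.ofReal (a - b * ∑ j, x j ^ 2) ^ γ =
      ENNReal.ofReal (a ^ (γ + (d : ℝ) / 2) * b ^ (-((d : ℝ) / 2)) *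
        (π ^ ((d : ℝ) / 2) * Gamma (γ + 1) / Gamma (γ + 1 + (d : ℝ) / 2))) := by
  rw [ball_int_gen d hγ hb a, ENNReal.ofReal_rpow_of_pos ha, mul_assoc,
    ← ENNReal.ofReal_mul (by positivity)]


end Pool.Agent.Helper766.M
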