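import Mathlib
import Pool.Agent.Helper766.M.Defs


set_option autoImplicit false

open MeasureTheory Set Real Matrix
open scoped ENNReal ComplexOrder

namespace Pool.Agent.Helper766.M


theorem box_int_one (k : ℤ) : ∫ t in Icc (0 : ℝ) 2, Complex.exp (2 * π * Complex.I * ((k : ℂ) * (t : ℂ))) =
    if k = 0 then (2 : ℂ) else 0 := by
  split_ifs with hk
  · subst hk
    have : ∀ t : ℝ, Complex.exp (2 * π * Complex.I * (((0 : ℤ) : ℂ) * (t : ℂ))) = 1 := by
      intro t
      simp
    simp only [this]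
    rw [setIntegral_const, measureReal_def, Real.volume_Icc]
    simp
  · rw [integral_Icc_eq_integral_Ioc, ← intervalIntegral.integral_of_le (by norm_num)]
    have hc : (2 * π * Complex.I * (k : ℂ)) ≠ 0 := by
      have h1 : (π : ℂ) ≠ 0 := by exact_mod_cast Real.pi_ne_zero
      have h2 : (k : ℂ) ≠ 0 := by exact_mod_cast hk
      exact mul_ne_zero (mul_ne_zero (mul_ne_zero two_ne_zero h1) Complex.I_ne_zero) h2
    have h3 : ∀ t : ℝ, Complex.exp (2 * π * Complex.I * ((k : ℂ) * (t : ℂ))) =
        Complex.exp ((2 * π * Complex.I * (k : ℂ)) * (t : ℂ)) := by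
      intro t
      rw [mul_assoc (2 * (π : ℂ) * Complex.I)]
    simp only [h3]
    rw [integral_exp_mul_complex hc]
    have h4 : (2 * π * Complex.I * (k : ℂ)) * ((2 : ℝ) : ℂ) = ((2 * k : ℤ) : ℂ) * (2 * π * Complex.I) := by
      push_cast
      ring
    rw [h4, Complex.exp_int_mul_two_pi_mul_I]
    simp

theorem box_int {d : ℕ} (m : Fin d → ℤ) :
    ∫ x in Set.pi univ (fun _ : Fin d => Icc (0 : ℝ) 2), em m x =
      if m = 0 then (2 : ℂ) ^ d else 0 := by
  have h1 : ∀ x : Fin d → ℝ, em m x = ∏ j, Complex.exp (2 * π * Complex.I * ((m j : ℂ) * (x j : ℂ))) := by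
    intro x
    unfold em
    rw [← Complex.exp_sum]
    congr 1
    push_cast
    rw [Finset.mul_sum]
  simp only [h1]
  rw [volume_pi, Measure.restrict_pi_pi, integral_fintype_prod_eq_prod (fun (j : Fin d) (t : ℝ) =>
    Complex.exp (2 * π * Complex.I * ((m j : ℂ) * (t : ℂ))))]
  simp only [box_int_one]
  split_ifs with hm
  · subst hm
    simp
  · obtain ⟨j, hj⟩ := Function.ne_iff.mp hm
    exact Finset.prod_eq_zero (Finset.mem_univ j) (if_neg hj)


end Pool.Agent.Helper766.M
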