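import Mathlib
import Pool.Agent.Helper766.M.Defs


set_option autoImplicit false

open MeasureTheory Set Real Matrix
open scoped ENNReal ComplexOrder

namespace Pool.Agent.Helper766.M


theorem const_QQ (n : ℕ) : 2 / (√3 * π) * cc n = 2 / √3 * Lcl 1 (n + 1) := by
  have h1 : Gamma (5 / 2 : ℝ) = 3 / 4 * √π := by
    rw [show (5 / 2 : ℝ) = 3 / 2 + 1 by norm_num, Gamma_add_one (by norm_num),
      show (3 / 2 : ℝ) = 1 / 2 + 1 by norm_num, Gamma_add_one (by norm_num), Gamma_one_half_eq]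
    ring
  have h2 : Gamma (1 + 1 : ℝ) = 1 := by
    rw [Gamma_add_one one_ne_zero, Gamma_one, mul_one]
  have h3 : (1 : ℝ) + 1 + ((n + 1 : ℕ) : ℝ) / 2 = ((n : ℝ) + 5) / 2 := by
    push_cast; ring
  have hpi := pi_pos
  have h4p : (0 : ℝ) < 4 * π := by positivity
  have h4 : (4 * π) ^ (((n + 1 : ℕ) : ℝ) / 2) = (4 * π) ^ ((n : ℝ) / 2) * (2 * √π) := by
    rw [show (((n + 1 : ℕ) : ℝ) / 2) = (n : ℝ) / 2 + 1 / 2 by push_cast; ring,
      rpow_add h4p, ← sqrt_eq_rpow, sqrt_mul (by norm_num) π,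
      show (4 : ℝ) = 2 ^ 2 by norm_num, sqrt_sq (by norm_num)]
  unfold cc Lcl
  rw [h1, h2, h3, h4]
  have h5 : 0 < Gamma (((n : ℝ) + 5) / 2) := Gamma_pos_of_pos (by positivity)
  have h6 : 0 < (4 * π) ^ ((n : ℝ) / 2) := rpow_pos_of_pos h4p _
  have h7 : 0 < √π := sqrt_pos.mpr hpi
  have h8 : √π * √π = π := mul_self_sqrt hpi.le
  have h9 : (0 : ℝ) < √3 := sqrt_pos.mpr (by norm_num)
  generalize (4 * π) ^ ((n : ℝ) / 2) = A at *
  generalize Gamma (((n : ℝ) + 5) / 2) = B at *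
  rw [show (2 / (√3 * π)) = 2 / (√3 * (√π * √π)) by rw [h8]]
  field_simp
  ring

theorem const_gam (n : ℕ) {γ : ℝ} (hγ : 1 < γ) :
    ENNReal.ofReal (2 / √3 * Lcl 1 n) * ENNReal.ofReal (Gamma (γ - 1) *
        Gamma (1 + (n : ℝ) / 2 + 1) / Gamma (γ - 1 + (1 + (n : ℝ) / 2) + 1)) =
      ENNReal.ofReal (Gamma (γ - 1) * Gamma (1 + 1) / Gamma (γ - 1 + 1 + 1)) *
        ENNReal.ofReal (2 / √3 * Lcl γ n) ∧
    0 < Gamma (γ - 1) * Gamma (1 + 1) / Gamma (γ - 1 + 1 + 1) := by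
  have hpi := pi_pos
  have h4p : (0 : ℝ) < 4 * π := by positivity
  have h2 : Gamma (1 + 1 : ℝ) = 1 := by
    rw [Gamma_add_one one_ne_zero, Gamma_one, mul_one]
  have e1 : (1 : ℝ) + (n : ℝ) / 2 + 1 = 1 + 1 + (n : ℝ) / 2 := by ring
  have e2 : γ - 1 + (1 + (n : ℝ) / 2) + 1 = γ + 1 + (n : ℝ) / 2 := by ring
  have e3 : γ - 1 + 1 + 1 = γ + 1 := by ring
  have hn : (0 : ℝ) ≤ n := Nat.cast_nonneg n
  have g1 : 0 < Gamma (γ - 1) := Gamma_pos_of_pos (by linarith)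
  have g2 : 0 < Gamma (1 + 1 + (n : ℝ) / 2) := Gamma_pos_of_pos (by positivity)
  have g3 : 0 < Gamma (γ + 1 + (n : ℝ) / 2) := Gamma_pos_of_pos (by linarith [div_nonneg hn (by norm_num : (0:ℝ) ≤ 2)])
  have g4 : 0 < Gamma (γ + 1) := Gamma_pos_of_pos (by linarith)
  have h6 : 0 < (4 * π) ^ ((n : ℝ) / 2) := rpow_pos_of_pos h4p _
  have h9 : (0 : ℝ) < √3 := sqrt_pos.mpr (by norm_num)
  rw [e1, e2, e3, h2]
  unfold Lcl
  rw [h2]
  generalize (4 * π) ^ ((n : ℝ) / 2) = A at *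
  generalize Gamma (1 + 1 + (n : ℝ) / 2) = B at *
  generalize Gamma (γ + 1 + (n : ℝ) / 2) = D at *
  generalize Gamma (γ + 1) = E at *
  generalize Gamma (γ - 1) = F at *
  refine ⟨?_, by positivity⟩
  rw [← ENNReal.ofReal_mul (by positivity), ← ENNReal.ofReal_mul (by positivity)]
  congr 1
  field_simp


end Pool.Agent.Helper766.M
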