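import Mathlib
import Pool.Agent.Helper766.M.Defs


set_option autoImplicit false

open MeasureTheory Set Real Matrix
open scoped ENNReal ComplexOrder

namespace Pool.Agent.Helper766.M


theorem cutoff_smooth_arg (ε c : ℝ) : ContDiff ℝ 1
    (fun x : ℝ => (Real.pi / 2) * Real.smoothTransition ((x - c) / ε)) := by
  have h1 : ContDiff ℝ 1 (fun x : ℝ => (x - c) / ε) := by fun_prop
  exact contDiff_const.mul (Real.smoothTransition.contDiff.comp h1)

theorem cutoff (ε : ℝ) (hε : 0 < ε) (hε1 : ε ≤ 1) : ∃ (g : ℝ → ℝ) (K : ℝ), IsCut ε K g := by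
  set g : ℝ → ℝ := fun x => Real.sin ((Real.pi / 2) * Real.smoothTransition ((x - 0) / ε))
    * Real.cos ((Real.pi / 2) * Real.smoothTransition ((x - 1) / ε)) with hg
  have hsm : ContDiff ℝ 1 g :=
    (Real.contDiff_sin.comp (cutoff_smooth_arg ε 0)).mul
      (Real.contDiff_cos.comp (cutoff_smooth_arg ε 1))
  have hsupp : ∀ x, x ∉ Icc 0 (1 + ε) → g x = 0 := by
    intro x hx
    rw [mem_Icc, not_and_or, not_le, not_le] at hx
    rcases hx with hx | hx
    · have h0 : Real.smoothTransition ((x - 0) / ε) = 0 :=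
        Real.smoothTransition.zero_of_nonpos
          (div_nonpos_of_nonpos_of_nonneg (by linarith) hε.le)
      simp only [hg]
      rw [h0, mul_zero, Real.sin_zero, zero_mul]
    · have h0 : Real.smoothTransition ((x - 1) / ε) = 1 :=
        Real.smoothTransition.one_of_one_le (by rw [le_div_iff₀ hε]; linarith)
      simp only [hg]
      rw [h0, mul_one, Real.cos_pi_div_two, mul_zero]
  have hbd : ∀ x, |g x| ≤ 1 := by
    intro x
    simp only [hg]
    rw [abs_mul]
    exact mul_le_one₀ (Real.abs_sin_le_one _) (abs_nonneg _) (Real.abs_cos_le_one _)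
  have hcs : HasCompactSupport g :=
    HasCompactSupport.intro (isCompact_Icc (a := (0:ℝ)) (b := 1 + ε)) hsupp
  have hdc : Continuous (deriv g) := hsm.continuous_deriv le_rfl
  obtain ⟨K, hK⟩ := (hcs.deriv).exists_bound_of_continuous hdc
  refine ⟨g, max K 0, hsm, hsupp, hbd, le_max_right _ _, ?_, ?_⟩
  · intro x
    have := hK x
    rw [Real.norm_eq_abs] at this
    exact this.trans (le_max_left _ _)
  · intro x hx
    have h1 : Real.smoothTransition ((x - 1) / ε) = 0 :=
        Real.smoothTransition.zero_of_nonpos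
          (div_nonpos_of_nonpos_of_nonneg (by linarith [hx.2]) hε.le)
    have h2 : Real.smoothTransition ((x + 1 - 0) / ε) = 1 :=
        Real.smoothTransition.one_of_one_le (by rw [le_div_iff₀ hε]; linarith [hx.1])
    have h3 : (x + 1 - 1) / ε = (x - 0) / ε := by ring
    simp only [hg]
    rw [h1, h2, h3, mul_zero, Real.cos_zero, mul_one, mul_one, Real.sin_pi_div_two, one_mul]
    exact Real.sin_sq_add_cos_sq _


end Pool.Agent.Helper766.M
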