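import Mathlib
import Pool.Agent.Helper766.M.Defs


set_option autoImplicit false

open MeasureTheory Set Real Matrix
open scoped ENNReal ComplexOrder

namespace Pool.Agent.Helper766.M


theorem dirichlet_link_N {n : ℕ} (u : (Fin n → ℝ) → ℂ) (hc : Continuous u)
    (hs : HasCompactSupport u) (hu : u ≠ 0) :
    (∫⁻ x, ‖u x‖ₑ ^ 2) ≠ 0 ∧ (∫⁻ x, ‖u x‖ₑ ^ 2) ≠ ⊤ := by
  constructor
  · intro h
    rw [lintegral_eq_zero_iff (by fun_prop)] at h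
    apply hu
    have h2 : u =ᵐ[volume] (0 : (Fin n → ℝ) → ℂ) := by
      filter_upwards [h] with x hx
      simpa using hx
    exact (Continuous.ae_eq_iff_eq volume hc continuous_zero).1 h2
  · have hs2 : HasCompactSupport (fun x => ‖u x‖ ^ 2) := by
      have := hs.comp_left (g := fun t : ℂ => ‖t‖ ^ 2) (by simp)
      exact this
    have hc2 : Continuous (fun x => ‖u x‖ ^ 2) := by fun_prop
    have h1 : Integrable (fun x => ‖u x‖ ^ 2) volume :=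
      Continuous.integrable_of_hasCompactSupport hc2 hs2
    have h2 := h1.lintegral_lt_top
    have h3 : (fun x => ENNReal.ofReal (‖u x‖ ^ 2)) = fun x => ‖u x‖ₑ ^ 2 := by
      funext x
      rw [ENNReal.ofReal_pow (norm_nonneg _), ofReal_norm_eq_enorm]
    rw [h3] at h2
    exact h2.ne

theorem dirichlet_link_iSup {α : Type*} (p q : α → Prop) (r : α → ℝ≥0∞) (L : ℝ≥0∞) (hL : L ≠ ⊤)
    (hne : ∃ u, p u ∧ q u) :
    L - (⨆ (u : α) (_ : p u) (_ : q u), r u) = ⨅ (u : α) (_ : p u) (_ : q u), (L - r u) := by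
  have h1 : (⨆ (u : α) (_ : p u) (_ : q u), r u) = ⨆ u : {u // p u ∧ q u}, r u := by
    rw [iSup_subtype]; simp only [iSup_and]
  have h2 : (⨅ (u : α) (_ : p u) (_ : q u), (L - r u)) = ⨅ u : {u // p u ∧ q u}, (L - r u) := by
    rw [iInf_subtype]; simp only [iInf_and]
  obtain ⟨u, hu⟩ := hne
  have : Nonempty {u // p u ∧ q u} := ⟨⟨u, hu⟩⟩
  rw [h1, h2, ENNReal.sub_iSup hL]

theorem dirichlet_link_one {n : ℕ} (Ω : Set (Fin n → ℝ))
    (A : (Fin n → ℝ) → (Fin n → ℝ)) (L : ℝ≥0∞) (hL : L ≠ ⊤) (u : (Fin n → ℝ) → ℂ)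
    (hc : Continuous u) (hs : HasCompactSupport u) (hΩ : tsupport u ⊆ Ω) (hu : u ≠ 0) :
    L - (∫⁻ x, ∑ j : Fin n,
        (‖fderiv ℝ u x (Pi.single j 1) - Complex.I * ((A x j : ℝ) : ℂ) * u x‖₊ : ENNReal) ^ 2)
              / ∫⁻ x, (‖u x‖₊ : ENNReal) ^ 2 =
      ((∫⁻ x, (Ω.indicator fun _ => L) x * ‖u x‖ₑ ^ 2) -
        ((∫⁻ x, eT A u x) + ∫⁻ x, (0 : (Fin n → ℝ) → ℝ≥0∞) x * ‖u x‖ₑ ^ 2)) /
        ∫⁻ x, ‖u x‖ₑ ^ 2 := by
  obtain ⟨hN0, hNt⟩ := dirichlet_link_N u hc hs hu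
  have h1 : (∫⁻ x, (Ω.indicator fun _ => L) x * ‖u x‖ₑ ^ 2) = L * ∫⁻ x, ‖u x‖ₑ ^ 2 := by
    rw [← lintegral_const_mul' _ _ hL]
    refine lintegral_congr (fun x => ?_)
    by_cases hx : x ∈ Ω
    · rw [Set.indicator_of_mem hx]
    · have : u x = 0 := by
        by_contra h
        exact hx (hΩ (subset_tsupport u h))
      rw [this]; simp
  have h2 : ((∫⁻ x, eT A u x) + ∫⁻ x, (0 : (Fin n → ℝ) → ℝ≥0∞) x * ‖u x‖ₑ ^ 2) =
      ∫⁻ x, ∑ j : Fin n,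
        (‖fderiv ℝ u x (Pi.single j 1) - Complex.I * ((A x j : ℝ) : ℂ) * u x‖₊ : ENNReal) ^ 2 := by
    simp only [Pi.zero_apply, zero_mul, lintegral_zero, add_zero]
    rfl
  rw [h1, h2, ENNReal.sub_div (fun _ _ => hN0), ENNReal.mul_div_cancel_right hN0 hNt]
  rfl

theorem dirichlet_link {n : ℕ} (Ω : Set (Fin n → ℝ)) (hΩ : IsOpen Ω)
    (A : (Fin n → ℝ) → (Fin n → ℝ)) (Λ : ℝ) (hΛ : 0 < Λ) (k : ℕ) :
    (ENNReal.ofReal Λ -
        ⨅ (V : Submodule ℂ ((Fin n → ℝ) → ℂ))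
          (_ : ∀ u ∈ V, ContDiff ℝ 1 u ∧ HasCompactSupport u ∧ tsupport u ⊆ Ω)
          (_ : Module.finrank ℂ V = k + 1),
          ⨆ (u : (Fin n → ℝ) → ℂ) (_ : u ∈ V) (_ : u ≠ 0),
            (∫⁻ x, ∑ j : Fin n,
                (‖fderiv ℝ u x (Pi.single j 1) - Complex.I * ((A x j : ℝ) : ℂ) * u x‖₊ : ENNReal) ^ 2)
              / ∫⁻ x, (‖u x‖₊ : ENNReal) ^ 2) =
      negE Ω A 0 (Ω.indicator fun _ => ENNReal.ofReal Λ) k := by
  unfold negE Dom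
  rw [ENNReal.sub_iInf]
  refine iSup_congr (fun V => ?_)
  rw [ENNReal.sub_iInf]
  refine iSup_congr (fun h1 => ?_)
  rw [ENNReal.sub_iInf]
  refine iSup_congr (fun h2 => ?_)
  have hne : ∃ u, u ∈ V ∧ u ≠ 0 := by
    have hb : V ≠ ⊥ := by
      rintro rfl
      rw [finrank_bot] at h2
      omega
    exact Submodule.exists_mem_ne_zero_of_ne_bot hb
  rw [dirichlet_link_iSup (fun u => u ∈ V) (fun u => u ≠ 0) _ _ ENNReal.ofReal_ne_top hne]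
  refine iInf_congr (fun u => iInf_congr (fun hu => iInf_congr (fun hu0 => ?_)))
  obtain ⟨hc, hs, hΩ'⟩ := h1 u hu
  exact dirichlet_link_one Ω A _ ENNReal.ofReal_ne_top u hc.continuous hs hΩ' hu0


end Pool.Agent.Helper766.M
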