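import Mathlib
import Pool.Agent.Helper766.M.Defs
import Pool.Agent.Helper766.M.L_GG_int
import Pool.Agent.Helper766.M.L_box_int


set_option autoImplicit false

open MeasureTheory Set Real Matrix
open scoped ENNReal ComplexOrder

namespace Pool.Agent.Helper766.M


theorem energy_est_em_norm {d : ℕ} (m : Fin d → ℤ) (x : Fin d → ℝ) : ‖em m x‖ = 1 := by
  unfold em
  rw [Complex.norm_exp]
  simp

theorem energy_est_em_conj {d : ℕ} (m m' : Fin d → ℤ) (x : Fin d → ℝ) :
    em m x * (starRingEnd ℂ) (em m' x) = em (m - m') x := by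
  unfold em
  rw [← Complex.exp_conj, ← Complex.exp_add]
  congr 1
  simp only [map_mul, Complex.conj_I, Complex.conj_ofReal, map_ofNat, Pi.sub_apply, Int.cast_sub,
    sub_mul, Finset.sum_sub_distrib]
  push_cast
  ring

theorem energy_est_em_fderiv {d : ℕ} (m : Fin d → ℤ) (x : Fin d → ℝ) :
    HasFDerivAt (em m) (em m x • ((2 * π * Complex.I) • (Complex.ofRealCLM.comp
      (∑ j, (m j : ℝ) • (ContinuousLinearMap.proj j : (Fin d → ℝ) →L[ℝ] ℝ))))) x := by
  unfold em
  have h1 : HasFDerivAt (fun x : Fin d → ℝ => (∑ j, (m j : ℝ) * x j : ℝ))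
      (∑ j, (m j : ℝ) • (ContinuousLinearMap.proj j : (Fin d → ℝ) →L[ℝ] ℝ)) x := by
    apply HasFDerivAt.fun_sum
    intro j _
    exact ((ContinuousLinearMap.proj j : (Fin d → ℝ) →L[ℝ] ℝ).hasFDerivAt).const_mul _
  have h2 := (Complex.ofRealCLM.hasFDerivAt (x := (∑ j, (m j : ℝ) * x j : ℝ))).comp x h1
  have h3 := (h2.const_mul (2 * π * Complex.I)).cexp
  exact h3

theorem energy_est_em_contDiff {d : ℕ} (m : Fin d → ℤ) : ContDiff ℝ 1 (em m) := by
  have h1 : ContDiff ℝ 1 (fun x : Fin d → ℝ => (∑ j, (m j : ℝ) * x j : ℝ)) := by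
    apply ContDiff.sum
    intro j _
    exact contDiff_const.mul (contDiff_apply ℝ ℝ j)
  have h2 : ContDiff ℝ 1 (fun x : Fin d → ℝ => ((∑ j, (m j : ℝ) * x j : ℝ) : ℂ)) :=
    Complex.ofRealCLM.contDiff.comp h1
  unfold em
  exact (contDiff_const.mul h2).cexp

theorem energy_est_GG_contDiff {d : ℕ} {ε K : ℝ} {g : ℝ → ℝ} (hg : IsCut ε K g) :
    ContDiff ℝ 1 (GG (d := d) g) := by
  unfold GG
  apply contDiff_prod
  intro j _
  exact hg.smooth.comp (contDiff_apply ℝ ℝ j)

theorem energy_est_GG_zero {d : ℕ} {ε K : ℝ} {g : ℝ → ℝ} (hg : IsCut ε K g) (x : Fin d → ℝ)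
    (hx : x ∉ Set.pi univ (fun _ : Fin d => Icc (0 : ℝ) (1 + ε))) : GG g x = 0 := by
  simp only [Set.mem_pi, Set.mem_univ, true_implies, not_forall] at hx
  obtain ⟨j, hj⟩ := hx
  exact Finset.prod_eq_zero (Finset.mem_univ j) (hg.supp _ hj)

theorem energy_est_GG_fderiv {d : ℕ} {ε K : ℝ} {g : ℝ → ℝ} (hg : IsCut ε K g) (x : Fin d → ℝ)
    (j : Fin d) : fderiv ℝ (GG g) x (Pi.single j 1) =
      (∏ i ∈ Finset.univ.erase j, g (x i)) * deriv g (x j) := by
  have h : HasFDerivAt (GG (d := d) g) (∑ i, (∏ k ∈ Finset.univ.erase i, g (x k)) •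
      (deriv g (x i) • (ContinuousLinearMap.proj i : (Fin d → ℝ) →L[ℝ] ℝ))) x := by
    unfold GG
    have := HasFDerivAt.finsetProd (𝕜 := ℝ) (u := (Finset.univ : Finset (Fin d)))
      (g := fun i (x : Fin d → ℝ) => g (x i))
      (g' := fun i => deriv g (x i) • (ContinuousLinearMap.proj i : (Fin d → ℝ) →L[ℝ] ℝ))
      (x := x) (fun i _ => by
        have h1 : HasDerivAt g (deriv g (x i)) (x i) :=
          ((hg.smooth.differentiable one_ne_zero) (x i)).hasDerivAt
        exact h1.comp_hasFDerivAt x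
          ((ContinuousLinearMap.proj i : (Fin d → ℝ) →L[ℝ] ℝ).hasFDerivAt))
    convert this using 2
  rw [h.fderiv]
  rw [_root_.sum_apply, Finset.sum_eq_single j]
  · simp
  · intro i _ hij
    simp [hij]
  · simp

theorem energy_est_deriv_zero {ε K : ℝ} {g : ℝ → ℝ} (hg : IsCut ε K g) (t : ℝ)
    (ht : t ∉ Icc (0 : ℝ) (1 + ε)) : deriv g t = 0 := by
  have h : g =ᶠ[nhds t] fun _ => 0 := by
    filter_upwards [isClosed_Icc.isOpen_compl.mem_nhds ht] with y hy using hg.supp y hy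
  rw [h.deriv_eq]
  simp

theorem energy_est_GG_fderiv_zero {d : ℕ} {ε K : ℝ} {g : ℝ → ℝ} (hg : IsCut ε K g)
    (x : Fin d → ℝ) (j : Fin d)
    (hx : x ∉ Set.pi univ (fun _ : Fin d => Icc (0 : ℝ) (1 + ε))) :
    fderiv ℝ (GG g) x (Pi.single j 1) = 0 := by
  rw [energy_est_GG_fderiv hg]
  simp only [Set.mem_pi, Set.mem_univ, true_implies, not_forall] at hx
  obtain ⟨i, hi⟩ := hx
  by_cases hij : i = j
  · subst hij
    rw [energy_est_deriv_zero hg _ hi, mul_zero]
  · rw [Finset.prod_eq_zero (Finset.mem_erase.2 ⟨hij, Finset.mem_univ i⟩) (hg.supp _ hi), zero_mul]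

theorem energy_est_GG_fderiv_bd {d : ℕ} {ε K : ℝ} {g : ℝ → ℝ} (hg : IsCut ε K g)
    (x : Fin d → ℝ) (j : Fin d) : |fderiv ℝ (GG g) x (Pi.single j 1)| ≤ K := by
  rw [energy_est_GG_fderiv hg, abs_mul, Finset.abs_prod]
  calc (∏ i ∈ Finset.univ.erase j, |g (x i)|) * |deriv g (x j)| ≤ 1 * K := by
        apply mul_le_mul
        · exact Finset.prod_le_one (fun i _ => abs_nonneg _) (fun i _ => hg.bd _)
        · exact hg.der _
        · exact abs_nonneg _
        · norm_num
    _ = K := one_mul K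

/-- Parseval with a weight. -/
theorem energy_est_par {d : ℕ} (μ : Measure (Fin d → ℝ)) (w : (Fin d → ℝ) → ℝ)
    (hw0 : ∀ x, 0 ≤ w x) (hint : Integrable w μ) (κ : ℝ)
    (h : ∀ m : Fin d → ℤ, ∫ x, ((w x : ℝ) : ℂ) * em m x ∂μ = if m = 0 then (κ : ℂ) else 0)
    (M : Finset (Fin d → ℤ)) (a : (Fin d → ℤ) → ℂ) :
    ∫⁻ x, ENNReal.ofReal (w x * ‖∑ m ∈ M, a m * em m x‖ ^ 2) ∂μ =
      ENNReal.ofReal (κ * ∑ m ∈ M, ‖a m‖ ^ 2) := by
  classical
  have hmeas : ∀ m : Fin d → ℤ, Continuous (em m) := fun m => (energy_est_em_contDiff m).continuous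
  have hi1 : ∀ m : Fin d → ℤ, Integrable (fun x => ((w x : ℝ) : ℂ) * em m x) μ := by
    intro m
    refine (hint.ofReal (𝕜 := ℂ)).mul_bdd (c := 1) (hmeas m).aestronglyMeasurable ?_
    exact Filter.Eventually.of_forall fun x => (energy_est_em_norm m x).le
  have hexp : ∀ x, ((w x * ‖∑ m ∈ M, a m * em m x‖ ^ 2 : ℝ) : ℂ) =
      ∑ m ∈ M, ∑ m' ∈ M, (a m * (starRingEnd ℂ) (a m')) * (((w x : ℝ) : ℂ) * em (m - m') x) := by
    intro x
    push_cast
    rw [← Complex.mul_conj', map_sum, Finset.sum_mul_sum, Finset.mul_sum]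
    refine Finset.sum_congr rfl fun m _ => ?_
    rw [Finset.mul_sum]
    refine Finset.sum_congr rfl fun m' _ => ?_
    rw [map_mul, ← energy_est_em_conj]
    ring
  have hintC : Integrable (fun x => ((w x * ‖∑ m ∈ M, a m * em m x‖ ^ 2 : ℝ) : ℂ)) μ := by
    simp_rw [hexp]
    refine integrable_finsetSum _ fun m _ => integrable_finsetSum _ fun m' _ => ?_
    exact (hi1 _).const_mul _
  have hintR : Integrable (fun x => w x * ‖∑ m ∈ M, a m * em m x‖ ^ 2) μ := by
    refine hintC.re.congr (Filter.Eventually.of_forall fun x => ?_)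
    exact Complex.ofReal_re _
  rw [← ofReal_integral_eq_lintegral_ofReal hintR
    (Filter.Eventually.of_forall fun x => mul_nonneg (hw0 x) (by positivity))]
  congr 1
  have hC : ((∫ x, w x * ‖∑ m ∈ M, a m * em m x‖ ^ 2 ∂μ : ℝ) : ℂ) =
      ((κ * ∑ m ∈ M, ‖a m‖ ^ 2 : ℝ) : ℂ) := by
    refine (integral_ofReal (𝕜 := ℂ) (μ := μ)
      (f := fun x => w x * ‖∑ m ∈ M, a m * em m x‖ ^ 2)).symm.trans ?_
    refine (integral_congr_ae (Filter.Eventually.of_forall hexp)).trans ?_
    rw [integral_finsetSum _ fun m _ => integrable_finsetSum _ fun m' _ => (hi1 _).const_mul _]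
    have : ∀ m ∈ M, ∫ x, ∑ m' ∈ M, (a m * (starRingEnd ℂ) (a m')) *
        (((w x : ℝ) : ℂ) * em (m - m') x) ∂μ = (κ : ℂ) * (‖a m‖ ^ 2 : ℝ) := by
      intro m hm
      rw [integral_finsetSum _ fun m' _ => (hi1 _).const_mul _]
      rw [Finset.sum_eq_single m]
      · rw [integral_const_mul, h, sub_self, if_pos rfl, Complex.mul_conj']
        push_cast
        ring
      · intro m' _ hne
        rw [integral_const_mul, h, if_neg (sub_ne_zero.2 hne.symm), mul_zero]
      · intro h'; exact absurd hm h'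
    rw [Finset.sum_congr rfl this, ← Finset.mul_sum]
    push_cast
    rfl
  exact_mod_cast hC

theorem energy_est_GG_le_one {d : ℕ} {ε K : ℝ} {g : ℝ → ℝ} (hg : IsCut ε K g)
    (x : Fin d → ℝ) : |GG g x| ≤ 1 := by
  unfold GG
  rw [Finset.abs_prod]
  exact Finset.prod_le_one (fun i _ => abs_nonneg _) (fun i _ => hg.bd _)

theorem energy_est_GG_cs {d : ℕ} {ε K : ℝ} {g : ℝ → ℝ} (hg : IsCut ε K g) :
    HasCompactSupport (GG (d := d) g) :=
  HasCompactSupport.intro (isCompact_univ_pi fun _ => isCompact_Icc)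
    (fun x hx => energy_est_GG_zero hg x hx)

theorem energy_est_sq {ε : ℝ} (hε : 0 < ε) (a b : ℂ) :
    ‖a + b‖ ^ 2 ≤ (1 + 1 / ε) * ‖a‖ ^ 2 + (1 + ε) * ‖b‖ ^ 2 := by
  have h1 : ‖a + b‖ ≤ ‖a‖ + ‖b‖ := norm_add_le _ _
  have h2 : ‖a + b‖ ^ 2 ≤ (‖a‖ + ‖b‖) ^ 2 := by
    apply pow_le_pow_left₀ (norm_nonneg _) h1
  have h3 : 2 * ‖a‖ * ‖b‖ ≤ 1 / ε * ‖a‖ ^ 2 + ε * ‖b‖ ^ 2 := by
    have h4 : 0 ≤ 1 / ε * (‖a‖ - ε * ‖b‖) ^ 2 := by positivity
    have h5 : 1 / ε * (‖a‖ - ε * ‖b‖) ^ 2 =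
        1 / ε * ‖a‖ ^ 2 - 2 * ‖a‖ * ‖b‖ + ε * ‖b‖ ^ 2 := by
      field_simp
      ring
    linarith
  nlinarith

theorem energy_est {d : ℕ} {ε K : ℝ} (hε : 0 < ε) (hε1 : ε ≤ 1) {g : ℝ → ℝ}
    (hg : IsCut ε K g) :
    ∃ K' : ℝ, 0 ≤ K' ∧ ∀ (M : Finset (Fin d → ℤ)) (c : (Fin d → ℤ) → ℂ)
      (u : (Fin d → ℝ) → ℂ), u = (fun x => ∑ m ∈ M, c m * ((GG g x : ℂ) * em m x)) →
      ContDiff ℝ 1 u ∧ HasCompactSupport u ∧
      (∀ x, x ∉ Set.pi univ (fun _ : Fin d => Icc (0 : ℝ) (1 + ε)) → u x = 0) ∧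
      ∫⁻ x, ‖u x‖ₑ ^ 2 = ENNReal.ofReal (∑ m ∈ M, ‖c m‖ ^ 2) ∧
      ∫⁻ x, eT 0 u x ≤ ENNReal.ofReal
        (∑ m ∈ M, ((1 + ε) * (4 * π ^ 2 * ∑ j, (m j : ℝ) ^ 2) + K') * ‖c m‖ ^ 2) := by
  classical
  refine ⟨d * ((1 + 1 / ε) * K ^ 2 * 2 ^ d), by positivity, ?_⟩
  intro M c u hu
  -- the trigonometric polynomials
  have hGs := energy_est_GG_contDiff (d := d) hg
  have hzero : ∀ x, x ∉ Set.pi univ (fun _ : Fin d => Icc (0 : ℝ) (1 + ε)) → u x = 0 := by
    intro x hx
    rw [hu]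
    simp only
    rw [energy_est_GG_zero hg x hx]
    simp
  have hu' : ∀ x, u x = (GG g x : ℂ) * ∑ m ∈ M, c m * em m x := by
    intro x
    rw [hu, Finset.mul_sum]
    refine Finset.sum_congr rfl fun m _ => ?_
    ring
  have hGc : ContDiff ℝ 1 (fun x : Fin d → ℝ => (GG g x : ℂ)) := Complex.ofRealCLM.contDiff.comp hGs
  have hPc : ∀ a : (Fin d → ℤ) → ℂ, ContDiff ℝ 1 (fun x => ∑ m ∈ M, a m * em m x) := by
    intro a
    apply ContDiff.sum
    intro m _
    exact contDiff_const.mul (energy_est_em_contDiff m)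
  have hus : ContDiff ℝ 1 u := by
    have : u = fun x => (GG g x : ℂ) * ∑ m ∈ M, c m * em m x := funext hu'
    rw [this]
    exact hGc.mul (hPc c)
  have hGint : Integrable (fun x : Fin d → ℝ => GG g x ^ 2) := by
    apply (hGs.continuous.pow 2).integrable_of_hasCompactSupport
    apply HasCompactSupport.intro (isCompact_univ_pi fun _ => isCompact_Icc)
    intro x hx
    rw [Pi.pow_apply, energy_est_GG_zero hg x hx]
    norm_num
  have parG := fun a => energy_est_par volume (fun x : Fin d → ℝ => GG g x ^ 2)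
    (fun x => sq_nonneg _) hGint 1 (fun m => by
      rw [GG_int hε hε1 hg m]; simp) M a
  have hboxfin : volume (Set.pi univ (fun _ : Fin d => Icc (0 : ℝ) 2)) ≠ ⊤ :=
    (isCompact_univ_pi fun _ => isCompact_Icc).measure_lt_top.ne
  have parB := energy_est_par (volume.restrict (Set.pi univ (fun _ : Fin d => Icc (0 : ℝ) 2)))
    (fun x : Fin d → ℝ => 1) (fun x => zero_le_one)
    (by
      haveI : IsFiniteMeasure (volume.restrict (Set.pi univ (fun _ : Fin d => Icc (0 : ℝ) 2))) :=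
        ⟨by rw [Measure.restrict_apply_univ]; exact hboxfin.lt_top⟩
      exact integrable_const _) (2 ^ d) (fun m => by
      have := box_int m
      simpa using this) M c
  refine ⟨hus, HasCompactSupport.intro (isCompact_univ_pi fun _ => isCompact_Icc) hzero, hzero,
    ?_, ?_⟩
  · have h1 := parG c
    rw [one_mul] at h1
    rw [← h1]
    refine lintegral_congr fun x => ?_
    rw [hu' x, ← ofReal_norm_eq_enorm, ← ENNReal.ofReal_pow (norm_nonneg _), norm_mul, mul_pow,
      Complex.norm_real, Real.norm_eq_abs, sq_abs]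
  · -- energy
    have hfd : ∀ x j, fderiv ℝ u x (Pi.single j 1) =
        ((fderiv ℝ (GG g) x (Pi.single j 1) : ℝ) : ℂ) * (∑ m ∈ M, c m * em m x) +
        (GG g x : ℂ) * ∑ m ∈ M, (c m * (2 * π * Complex.I * (m j : ℂ))) * em m x := by
      intro x j
      have h1 : HasFDerivAt (GG (d := d) g) (fderiv ℝ (GG g) x) x :=
        ((hGs.differentiable one_ne_zero) x).hasFDerivAt
      have h2 : HasFDerivAt (fun x : Fin d → ℝ => (GG g x : ℂ))
        (Complex.ofRealCLM.comp (fderiv ℝ (GG g) x)) x :=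
        (Complex.ofRealCLM.hasFDerivAt (x := GG g x)).comp x h1
      have h3 : HasFDerivAt (fun x => ∑ m ∈ M, c m * em m x)
          (∑ m ∈ M, c m • (em m x • ((2 * π * Complex.I) • (Complex.ofRealCLM.comp
      (∑ j, (m j : ℝ) • (ContinuousLinearMap.proj j : (Fin d → ℝ) →L[ℝ] ℝ)))))) x := by
        apply HasFDerivAt.fun_sum
        intro m _
        exact (energy_est_em_fderiv m x).const_mul (c m)
      have h4 : HasFDerivAt u ((GG g x : ℂ) • (∑ m ∈ M, c m • (em m x • ((2 * π * Complex.I) •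
          (Complex.ofRealCLM.comp
      (∑ j, (m j : ℝ) • (ContinuousLinearMap.proj j : (Fin d → ℝ) →L[ℝ] ℝ)))))) +
          (∑ m ∈ M, c m * em m x) • (Complex.ofRealCLM.comp (fderiv ℝ (GG g) x))) x := by
        have : u = fun x => (GG g x : ℂ) * ∑ m ∈ M, c m * em m x := funext hu'
        rw [this]
        exact h2.mul h3
      rw [h4.fderiv]
      have h5 : ∀ m : Fin d → ℤ, (∑ j, (m j : ℝ) • (ContinuousLinearMap.proj j :
          (Fin d → ℝ) →L[ℝ] ℝ)) (Pi.single j 1) = (m j : ℝ) := by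
        intro m
        rw [_root_.sum_apply, Finset.sum_eq_single j]
        · simp
        · intro i _ hij
          simp [hij]
        · simp
      simp only [ContinuousLinearMap.add_apply, ContinuousLinearMap.smul_apply, _root_.sum_apply,
        ContinuousLinearMap.comp_apply, h5, smul_eq_mul, Complex.ofRealCLM_apply]
      rw [add_comm, mul_comm (∑ m ∈ M, c m * em m x)]
      congr 1
      congr 1
      refine Finset.sum_congr rfl fun m _ => ?_
      push_cast
      ring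
    have hpt : ∀ x, eT 0 u x ≤ ∑ j : Fin d,
        ((Set.pi univ (fun _ : Fin d => Icc (0 : ℝ) 2)).indicator
          (fun x => ENNReal.ofReal ((1 + 1 / ε) * K ^ 2) *
            ENNReal.ofReal (1 * ‖∑ m ∈ M, c m * em m x‖ ^ 2)) x +
        ENNReal.ofReal (1 + ε) * ENNReal.ofReal (GG g x ^ 2 *
          ‖∑ m ∈ M, (c m * (2 * π * Complex.I * (m j : ℂ))) * em m x‖ ^ 2)) := by
      intro x
      unfold eT
      refine Finset.sum_le_sum fun j _ => ?_
      have e0 : fderiv ℝ u x (Pi.single j 1) - Complex.I * (((0 : (Fin d → ℝ) → (Fin d → ℝ)) x j : ℝ) : ℂ) * u x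
          = fderiv ℝ u x (Pi.single j 1) := by simp
      rw [e0, ← ofReal_norm_eq_enorm, ← ENNReal.ofReal_pow (norm_nonneg _), hfd]
      set P := ∑ m ∈ M, c m * em m x with hP
      set Q := ∑ m ∈ M, (c m * (2 * π * Complex.I * (m j : ℂ))) * em m x with hQ
      set D := fderiv ℝ (GG g) x (Pi.single j 1) with hD
      have hsq := energy_est_sq hε ((D : ℂ) * P) ((GG g x : ℂ) * Q)
      have hb : ‖(GG g x : ℂ) * Q‖ ^ 2 = GG g x ^ 2 * ‖Q‖ ^ 2 := by
        rw [norm_mul, mul_pow, Complex.norm_real, Real.norm_eq_abs, sq_abs]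
      have ha : ‖(D : ℂ) * P‖ ^ 2 = D ^ 2 * ‖P‖ ^ 2 := by
        rw [norm_mul, mul_pow, Complex.norm_real, Real.norm_eq_abs, sq_abs]
      rw [ha, hb] at hsq
      by_cases hx : x ∈ Set.pi univ (fun _ : Fin d => Icc (0 : ℝ) 2)
      · rw [Set.indicator_of_mem hx]
        rw [← ENNReal.ofReal_mul (by positivity), ← ENNReal.ofReal_mul (by positivity),
          ← ENNReal.ofReal_add (by positivity) (by positivity)]
        apply ENNReal.ofReal_le_ofReal
        refine hsq.trans ?_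
        have hDK : D ^ 2 ≤ K ^ 2 := by
          have := energy_est_GG_fderiv_bd hg x j
          rw [← hD] at this
          exact sq_le_sq' (by linarith [neg_abs_le D, hg.K0, (abs_le.1 this).1]) (abs_le.1 this).2
        have : (1 + 1 / ε) * (D ^ 2 * ‖P‖ ^ 2) ≤ (1 + 1 / ε) * (K ^ 2 * ‖P‖ ^ 2) := by
          apply mul_le_mul_of_nonneg_left _ (by positivity)
          exact mul_le_mul_of_nonneg_right hDK (by positivity)
        nlinarith [this]
      · rw [Set.indicator_of_notMem hx, zero_add, ← ENNReal.ofReal_mul (by positivity)]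
        apply ENNReal.ofReal_le_ofReal
        refine hsq.trans ?_
        have hx2 : x ∉ Set.pi univ (fun _ : Fin d => Icc (0 : ℝ) (1 + ε)) := by
          intro h
          apply hx
          intro i hi
          have := h i hi
          exact ⟨this.1, this.2.trans (by linarith)⟩
        have hD0 : D = 0 := energy_est_GG_fderiv_zero hg x j hx2
        rw [hD0]
        simp
    have hmeasP : ∀ a : (Fin d → ℤ) → ℂ, Measurable (fun x => ∑ m ∈ M, a m * em m x) :=
      fun a => (hPc a).continuous.measurable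
    have hboxm : MeasurableSet (Set.pi univ (fun _ : Fin d => Icc (0 : ℝ) 2)) :=
      MeasurableSet.univ_pi fun _ => measurableSet_Icc
    calc ∫⁻ x, eT 0 u x ≤ ∫⁻ x, ∑ j : Fin d,
        ((Set.pi univ (fun _ : Fin d => Icc (0 : ℝ) 2)).indicator
          (fun x => ENNReal.ofReal ((1 + 1 / ε) * K ^ 2) *
            ENNReal.ofReal (1 * ‖∑ m ∈ M, c m * em m x‖ ^ 2)) x +
        ENNReal.ofReal (1 + ε) * ENNReal.ofReal (GG g x ^ 2 *
          ‖∑ m ∈ M, (c m * (2 * π * Complex.I * (m j : ℂ))) * em m x‖ ^ 2)) :=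
          lintegral_mono hpt
      _ = ∑ j : Fin d, (ENNReal.ofReal ((1 + 1 / ε) * K ^ 2) *
            ENNReal.ofReal (2 ^ d * ∑ m ∈ M, ‖c m‖ ^ 2) +
          ENNReal.ofReal (1 + ε) * ENNReal.ofReal (1 * ∑ m ∈ M,
            ‖c m * (2 * π * Complex.I * (m j : ℂ))‖ ^ 2)) := by
          rw [lintegral_finset_sum']
          · refine Finset.sum_congr rfl fun j _ => ?_
            rw [lintegral_add_left']
            · rw [lintegral_indicator hboxm, lintegral_const_mul', lintegral_const_mul', parB,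
                parG]
              · exact ENNReal.ofReal_ne_top
              · exact ENNReal.ofReal_ne_top
            · apply AEMeasurable.indicator _ hboxm
              apply AEMeasurable.const_mul
              apply Measurable.aemeasurable
              exact ((hmeasP c).norm.pow_const 2 |>.const_mul 1).ennreal_ofReal
          · intro j _
            apply AEMeasurable.add
            · apply AEMeasurable.indicator _ hboxm
              apply AEMeasurable.const_mul
              apply Measurable.aemeasurable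
              exact ((hmeasP c).norm.pow_const 2 |>.const_mul 1).ennreal_ofReal
            · apply AEMeasurable.const_mul
              apply Measurable.aemeasurable
              exact (((hGs.continuous.measurable).pow_const 2).mul
                ((hmeasP _).norm.pow_const 2)).ennreal_ofReal
      _ = ∑ j : Fin d, ENNReal.ofReal ((1 + 1 / ε) * K ^ 2 * (2 ^ d * ∑ m ∈ M, ‖c m‖ ^ 2) +
          (1 + ε) * ∑ m ∈ M, 4 * π ^ 2 * (m j : ℝ) ^ 2 * ‖c m‖ ^ 2) := by
          refine Finset.sum_congr rfl fun j _ => ?_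
          rw [← ENNReal.ofReal_mul (by positivity), ← ENNReal.ofReal_mul (by positivity),
            ← ENNReal.ofReal_add (by positivity) (by positivity), one_mul]
          congr 3
          refine Finset.sum_congr rfl fun m _ => ?_
          rw [norm_mul, mul_pow]
          have : ‖(2 * π * Complex.I * (m j : ℂ))‖ ^ 2 = 4 * π ^ 2 * (m j : ℝ) ^ 2 := by
            rw [norm_mul, norm_mul, norm_mul, Complex.norm_I, Complex.norm_real,
              Complex.norm_intCast, Complex.norm_ofNat, Real.norm_eq_abs, mul_pow, mul_pow,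
              mul_pow, sq_abs, sq_abs]
            norm_num
          rw [this]
          ring
      _ = ENNReal.ofReal (∑ j : Fin d, ((1 + 1 / ε) * K ^ 2 * (2 ^ d * ∑ m ∈ M, ‖c m‖ ^ 2) +
          (1 + ε) * ∑ m ∈ M, 4 * π ^ 2 * (m j : ℝ) ^ 2 * ‖c m‖ ^ 2)) := by
          rw [ENNReal.ofReal_sum_of_nonneg]
          intro j _
          positivity
      _ = _ := by
          congr 1
          have e1 : ∑ j : Fin d, (1 + ε) * ∑ m ∈ M, 4 * π ^ 2 * (m j : ℝ) ^ 2 * ‖c m‖ ^ 2 =
              ∑ m ∈ M, (1 + ε) * (4 * π ^ 2 * ∑ j, (m j : ℝ) ^ 2) * ‖c m‖ ^ 2 := by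
            rw [← Finset.mul_sum, Finset.sum_comm, Finset.mul_sum]
            refine Finset.sum_congr rfl fun m _ => ?_
            rw [← Finset.sum_mul, ← Finset.mul_sum]
            ring
          have e2 : ∀ m : Fin d → ℤ, ((1 + ε) * (4 * π ^ 2 * ∑ j, (m j : ℝ) ^ 2) +
              d * ((1 + 1 / ε) * K ^ 2 * 2 ^ d)) * ‖c m‖ ^ 2 =
              (1 + ε) * (4 * π ^ 2 * ∑ j, (m j : ℝ) ^ 2) * ‖c m‖ ^ 2 +
              d * ((1 + 1 / ε) * K ^ 2 * 2 ^ d) * ‖c m‖ ^ 2 := fun m => add_mul _ _ _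
          simp only [e2]
          rw [Finset.sum_add_distrib, Finset.sum_const, Finset.card_univ, Fintype.card_fin,
            Finset.sum_add_distrib, e1, nsmul_eq_mul, ← Finset.mul_sum]
          ring


end Pool.Agent.Helper766.M
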