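import Mathlib
import Pool.Agent.Helper766.M.Defs


set_option autoImplicit false

open MeasureTheory Set Real Matrix
open scoped ENNReal ComplexOrder

namespace Pool.Agent.Helper766.M


theorem negE_shift_pt {n : ℕ} (W : (Fin n → ℝ) → ℝ≥0∞) (T X : ℝ≥0∞)
    (u : (Fin n → ℝ) → ℂ) (hu : Continuous u) :
    ((∫⁻ x, W x * ‖u x‖ₑ ^ 2) - X) / ∫⁻ x, ‖u x‖ₑ ^ 2
      ≤ ((∫⁻ x, (W x - T) * ‖u x‖ₑ ^ 2) - X) / (∫⁻ x, ‖u x‖ₑ ^ 2) + T := by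
  have hm : Measurable (fun x => ‖u x‖ₑ ^ 2) := hu.measurable.enorm.pow_const 2
  obtain ⟨N, hN⟩ : ∃ N, N = ∫⁻ x, ‖u x‖ₑ ^ 2 := ⟨_, rfl⟩
  have h1 : (∫⁻ x, W x * ‖u x‖ₑ ^ 2) ≤ (∫⁻ x, (W x - T) * ‖u x‖ₑ ^ 2) + T * N := by
    rw [hN, ← lintegral_const_mul _ hm, ← lintegral_add_right _ (hm.const_mul T)]
    apply lintegral_mono
    intro x
    show W x * ‖u x‖ₑ ^ 2 ≤ (W x - T) * ‖u x‖ₑ ^ 2 + T * ‖u x‖ₑ ^ 2
    rw [← add_mul]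
    exact mul_le_mul_left le_tsub_add _
  rw [← hN]
  obtain ⟨b, hb⟩ : ∃ b, b = ∫⁻ x, (W x - T) * ‖u x‖ₑ ^ 2 := ⟨_, rfl⟩
  rw [← hb] at h1 ⊢
  have h2 : (∫⁻ x, W x * ‖u x‖ₑ ^ 2) - X ≤ (b - X) + T * N := by
    rw [tsub_le_iff_right]
    calc (∫⁻ x, W x * ‖u x‖ₑ ^ 2) ≤ b + T * N := h1
      _ ≤ (b - X + X) + T * N := add_le_add le_tsub_add le_rfl
      _ = b - X + T * N + X := by rw [add_right_comm]
  calc ((∫⁻ x, W x * ‖u x‖ₑ ^ 2) - X) / N ≤ ((b - X) + T * N) / N :=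
        ENNReal.div_le_div_right h2 N
    _ = (b - X) / N + T * N / N := ENNReal.add_div
    _ ≤ (b - X) / N + T := by
        refine add_le_add le_rfl ?_
        rw [mul_div_assoc]
        calc T * (N / N) ≤ T * 1 := mul_le_mul_right ENNReal.div_self_le_one _
          _ = T := mul_one T

theorem negE_shift {n : ℕ} (Ω : Set (Fin n → ℝ)) (A : (Fin n → ℝ) → (Fin n → ℝ))
    (P W : (Fin n → ℝ) → ℝ≥0∞) (hW : Measurable W) (t : ℝ) (ht : 0 < t) (k : ℕ) :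
    negE Ω A P W k - ENNReal.ofReal t ≤ negE Ω A P (fun x => W x - ENNReal.ofReal t) k := by
  rw [tsub_le_iff_right]
  obtain ⟨T, hT⟩ : ∃ T, T = ENNReal.ofReal t := ⟨_, rfl⟩
  rw [← hT]
  conv_lhs => unfold negE
  refine iSup_le fun S => iSup_le fun hD => iSup_le fun hr => ?_
  have h1 : (⨅ (u : (Fin n → ℝ) → ℂ) (_ : u ∈ S) (_ : u ≠ 0),
      ((∫⁻ x, (W x - T) * ‖u x‖ₑ ^ 2) - ((∫⁻ x, eT A u x) + ∫⁻ x, P x * ‖u x‖ₑ ^ 2)) /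
        ∫⁻ x, ‖u x‖ₑ ^ 2) ≤ negE Ω A P (fun x => W x - T) k := by
    unfold negE
    exact le_iSup_of_le S (le_iSup_of_le hD (le_iSup_of_le hr le_rfl))
  refine le_trans ?_ (add_le_add h1 le_rfl)
  rw [← tsub_le_iff_right]
  refine le_iInf fun u => le_iInf fun hu => le_iInf fun hu0 => ?_
  rw [tsub_le_iff_right]
  refine le_trans (iInf_le _ u) (le_trans (iInf_le _ hu) (le_trans (iInf_le _ hu0) ?_))
  exact negE_shift_pt W T _ u (hD u hu).1.continuous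


end Pool.Agent.Helper766.M
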