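import Mathlib
import Pool.Agent.Helper766.M.Defs


set_option autoImplicit false

open MeasureTheory Set Real Matrix
open scoped ENNReal ComplexOrder

namespace Pool.Agent.Helper766.M


theorem orth_choice_int {n : ℕ} {u v : (Fin n → ℝ) → ℂ} (hu : ContDiff ℝ 1 u ∧ HasCompactSupport u)
    (hv : ContDiff ℝ 1 v ∧ HasCompactSupport v) :
    Integrable (fun x => u x * starRingEnd ℂ (v x)) := by
  refine Continuous.integrable_of_hasCompactSupport ?_ ?_
  · exact hu.1.continuous.mul (Complex.continuous_conj.comp hv.1.continuous)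
  · exact hu.2.mul_right

theorem orth_choice_step {n K : ℕ} (L : Submodule ℂ ((Fin n → ℝ) → ℂ))
    (hL : ∀ u ∈ L, ContDiff ℝ 1 u ∧ HasCompactSupport u) (hd : K < Module.finrank ℂ L)
    (φ : Fin K → (Fin n → ℝ) → ℂ) (hφ : ∀ i, ContDiff ℝ 1 (φ i) ∧ HasCompactSupport (φ i)) :
    ∃ u ∈ L, (∫ x, u x * starRingEnd ℂ (u x) = 1) ∧
      ∀ j, ∫ x, u x * starRingEnd ℂ (φ j x) = 0 := by
  have hfin : Module.Finite ℂ L := Module.finite_of_finrank_pos (by omega)
  let T : L →ₗ[ℂ] (Fin K → ℂ) :=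
    { toFun := fun u j => ∫ x, (u : (Fin n → ℝ) → ℂ) x * starRingEnd ℂ (φ j x)
      map_add' := by
        intro u v
        funext j
        have e : ∀ x, ((u + v : L) : (Fin n → ℝ) → ℂ) x * starRingEnd ℂ (φ j x) =
            (u : (Fin n → ℝ) → ℂ) x * starRingEnd ℂ (φ j x) +
              (v : (Fin n → ℝ) → ℂ) x * starRingEnd ℂ (φ j x) := by
          intro x
          rw [Submodule.coe_add, Pi.add_apply, add_mul]
        simp only [e]
        exact integral_add (orth_choice_int (hL _ u.2) (hφ j)) (orth_choice_int (hL _ v.2) (hφ j))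
      map_smul' := by
        intro r u
        funext j
        have e : ∀ x, ((r • u : L) : (Fin n → ℝ) → ℂ) x * starRingEnd ℂ (φ j x) =
            r * ((u : (Fin n → ℝ) → ℂ) x * starRingEnd ℂ (φ j x)) := by
          intro x
          rw [Submodule.coe_smul, Pi.smul_apply, smul_eq_mul, mul_assoc]
        simp only [e, RingHom.id_apply, Pi.smul_apply, smul_eq_mul]
        exact integral_const_mul _ _ }
  have hker : LinearMap.ker T ≠ ⊥ := by
    apply LinearMap.ker_ne_bot_of_finrank_lt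
    simpa using hd
  obtain ⟨u, hu, hu0⟩ := Submodule.exists_mem_ne_zero_of_ne_bot hker
  have hu' : ∀ j, ∫ x, (u : (Fin n → ℝ) → ℂ) x * starRingEnd ℂ (φ j x) = 0 := by
    intro j
    have := congrFun (LinearMap.mem_ker.1 hu) j
    exact this
  have hune : (u : (Fin n → ℝ) → ℂ) ≠ 0 := fun h => hu0 (Subtype.ext h)
  obtain ⟨x0, hx0⟩ := Function.ne_iff.1 hune
  have hI : 0 < ∫ x, ‖(u : (Fin n → ℝ) → ℂ) x‖ ^ 2 := by
    have hc : Continuous (u : (Fin n → ℝ) → ℂ) := (hL _ u.2).1.continuous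
    refine Continuous.integral_pos_of_hasCompactSupport_nonneg_nonzero (x := x0)
      (hc.norm.pow 2) ?_ (fun x => by positivity) ?_
    · exact (hL _ u.2).2.norm.comp_left (g := fun t : ℝ => t ^ 2) (by simp)
    · simpa using hx0
  set I : ℝ := ∫ x, ‖(u : (Fin n → ℝ) → ℂ) x‖ ^ 2 with hIdef
  have hsq : (Real.sqrt I) ≠ 0 := (Real.sqrt_pos.2 hI).ne'
  have huu : ∫ x, (u : (Fin n → ℝ) → ℂ) x * starRingEnd ℂ ((u : (Fin n → ℝ) → ℂ) x) = (I : ℂ) := by
    have e : ∀ x, (u : (Fin n → ℝ) → ℂ) x * starRingEnd ℂ ((u : (Fin n → ℝ) → ℂ) x) =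
        ((‖(u : (Fin n → ℝ) → ℂ) x‖ ^ 2 : ℝ) : ℂ) := by
      intro x
      rw [Complex.mul_conj']
      push_cast
      rfl
    simp only [e]
    exact integral_ofReal
  refine ⟨(((Real.sqrt I)⁻¹ : ℝ) : ℂ) • (u : (Fin n → ℝ) → ℂ), L.smul_mem _ u.2, ?_, ?_⟩
  · have e : ∀ x, ((((Real.sqrt I)⁻¹ : ℝ) : ℂ) • (u : (Fin n → ℝ) → ℂ)) x *
        starRingEnd ℂ (((((Real.sqrt I)⁻¹ : ℝ) : ℂ) • (u : (Fin n → ℝ) → ℂ)) x) =
        ((I⁻¹ : ℝ) : ℂ) * ((u : (Fin n → ℝ) → ℂ) x *
          starRingEnd ℂ ((u : (Fin n → ℝ) → ℂ) x)) := by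
      intro x
      rw [Pi.smul_apply, smul_eq_mul, map_mul, Complex.conj_ofReal]
      have h1 : ((I⁻¹ : ℝ) : ℂ) = (((Real.sqrt I)⁻¹ : ℝ) : ℂ) * (((Real.sqrt I)⁻¹ : ℝ) : ℂ) := by
        rw [← Complex.ofReal_mul, ← mul_inv, Real.mul_self_sqrt hI.le]
      rw [h1]
      ring
    simp only [e]
    rw [integral_const_mul, huu, ← Complex.ofReal_mul, inv_mul_cancel₀ hI.ne', Complex.ofReal_one]
  · intro j
    have e : ∀ x, ((((Real.sqrt I)⁻¹ : ℝ) : ℂ) • (u : (Fin n → ℝ) → ℂ)) x *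
        starRingEnd ℂ (φ j x) = (((Real.sqrt I)⁻¹ : ℝ) : ℂ) *
          ((u : (Fin n → ℝ) → ℂ) x * starRingEnd ℂ (φ j x)) := by
      intro x
      rw [Pi.smul_apply, smul_eq_mul, mul_assoc]
    simp only [e]
    rw [integral_const_mul, hu' j, mul_zero]

theorem orth_choice {n K : ℕ} (S : Fin K → Submodule ℂ ((Fin n → ℝ) → ℂ)) (κ : Fin K → ℕ)
    (hκ : ∀ i : Fin K, (i : ℕ) ≤ κ i)
    (hS : ∀ i, ∀ u ∈ S i, ContDiff ℝ 1 u ∧ HasCompactSupport u)
    (hd : ∀ i, Module.finrank ℂ (S i) = κ i + 1) :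
    ∃ φ : Fin K → (Fin n → ℝ) → ℂ, (∀ i, φ i ∈ S i) ∧
      ∀ i j, ∫ x, φ i x * starRingEnd ℂ (φ j x) = if i = j then 1 else 0 := by
  induction K with
  | zero => exact ⟨fun i => i.elim0, fun i => i.elim0, fun i => i.elim0⟩
  | succ K ih =>
    obtain ⟨φ, h1, h2⟩ := ih (fun i => S i.castSucc) (fun i => κ i.castSucc)
      (fun i => hκ i.castSucc) (fun i => hS i.castSucc) (fun i => hd i.castSucc)
    have hlast := hκ (Fin.last K)
    rw [Fin.val_last] at hlast
    obtain ⟨u, hu, huu, huφ⟩ := orth_choice_step (K := K) (S (Fin.last K)) (hS (Fin.last K))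
      (by rw [hd]; omega) φ (fun i => hS _ _ (h1 i))
    refine ⟨Fin.snoc (α := fun _ => (Fin n → ℝ) → ℂ) φ u, ?_, ?_⟩
    · intro i
      refine Fin.lastCases ?_ (fun i => ?_) i
      · rw [Fin.snoc_last]; exact hu
      · rw [Fin.snoc_castSucc]; exact h1 i
    · intro i j
      refine Fin.lastCases ?_ (fun i => ?_) i
      · refine Fin.lastCases ?_ (fun j => ?_) j
        · rw [Fin.snoc_last, if_pos rfl]
          exact huu
        · rw [Fin.snoc_last, Fin.snoc_castSucc, if_neg (Fin.castSucc_ne_last j).symm]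
          exact huφ j
      · refine Fin.lastCases ?_ (fun j => ?_) j
        · rw [Fin.snoc_last, Fin.snoc_castSucc, if_neg (Fin.castSucc_ne_last i)]
          have h3 : ∀ x, φ i x * starRingEnd ℂ (u x) =
              starRingEnd ℂ (u x * starRingEnd ℂ (φ i x)) := by
            intro x
            rw [map_mul, Complex.conj_conj, mul_comm]
          simp only [h3]
          rw [integral_conj, huφ i, map_zero]
        · rw [Fin.snoc_castSucc, Fin.snoc_castSucc, h2 i j]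
          simp only [Fin.castSucc_inj]


end Pool.Agent.Helper766.M
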