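import Mathlib
import Pool.Agent.Helper766.M.Defs
import Pool.Agent.Helper766.M.L_orth_choice


set_option autoImplicit false

open MeasureTheory Set Real Matrix
open scoped ENNReal ComplexOrder

namespace Pool.Agent.Helper766.M


theorem negE_sum_sup {ι : Type*} [DecidableEq ι] (F : Finset ι) (f : ι → ℝ≥0∞) :
    ∀ (R : ℝ≥0∞), (∀ k ∈ F, f k ≠ 0) →
      (∀ a : ι → ℝ≥0∞, (∀ k ∈ F, a k < f k) → ∑ k ∈ F, a k ≤ R) → ∑ k ∈ F, f k ≤ R := by
  induction F using Finset.induction_on with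
  | empty => intro R _ _; simp
  | insert k F hk ih =>
    intro R h0 h
    rw [Finset.sum_insert hk]
    have hkey : ∀ b : ℝ≥0∞, b < f k → b + ∑ j ∈ F, f j ≤ R := by
      intro b hb
      have hbt : b ≠ ⊤ := ne_top_of_lt hb
      have h1 : ∀ a : ι → ℝ≥0∞, (∀ j ∈ F, a j < f j) → b + ∑ j ∈ F, a j ≤ R := by
        intro a ha
        have h2 := h (Function.update a k b) (by
          intro j hj
          rcases Finset.mem_insert.1 hj with rfl | hj
          · simpa using hb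
          · have hne : j ≠ k := fun h => hk (h ▸ hj)
            rw [Function.update_of_ne hne]
            exact ha j hj)
        rw [Finset.sum_insert hk, Function.update_self] at h2
        have h3 : ∑ j ∈ F, Function.update a k b j = ∑ j ∈ F, a j := by
          apply Finset.sum_congr rfl
          intro j hj
          have hne : j ≠ k := fun h => hk (h ▸ hj)
          rw [Function.update_of_ne hne]
        rwa [h3] at h2
      have hbR : b ≤ R := by
        have := h1 (fun _ => 0) (fun j hj => pos_iff_ne_zero.2 (h0 j (Finset.mem_insert_of_mem hj)))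
        exact le_trans le_self_add this
      have h4 : ∑ j ∈ F, f j ≤ R - b := by
        apply ih (R - b) (fun j hj => h0 j (Finset.mem_insert_of_mem hj))
        intro a ha
        exact ENNReal.le_sub_of_add_le_left hbt (h1 a ha)
      calc b + ∑ j ∈ F, f j ≤ b + (R - b) := add_le_add_right h4 b
        _ = R := add_tsub_cancel_of_le hbR
    have hF : ∑ j ∈ F, f j ≤ R := by
      have := hkey 0 (pos_iff_ne_zero.2 (h0 k (Finset.mem_insert_self _ _)))
      simpa using this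
    by_cases htop : ∑ j ∈ F, f j = ⊤
    · rw [htop] at hF
      rw [top_le_iff.1 hF]
      exact le_top
    · have h5 : f k ≤ R - ∑ j ∈ F, f j := by
        apply le_of_forall_lt
        intro b hb
        by_contra hcon
        push Not at hcon
        obtain ⟨c, hc1, hc2⟩ := exists_between hb
        have h6 := hkey c hc2
        have h7 : c ≤ R - ∑ j ∈ F, f j := ENNReal.le_sub_of_add_le_right htop h6
        exact absurd (lt_of_lt_of_le hc1 h7) (not_lt.2 hcon)
      calc f k + ∑ j ∈ F, f j ≤ (R - ∑ j ∈ F, f j) + ∑ j ∈ F, f j := by gcongr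
        _ = R := tsub_add_cancel_of_le hF

theorem negE_sum_norm {n : ℕ} (f : (Fin n → ℝ) → ℂ) (hf : Continuous f)
    (hc : HasCompactSupport f) (h : ∫ x, f x * starRingEnd ℂ (f x) = 1) :
    ∫⁻ x, ‖f x‖ₑ ^ 2 = 1 := by
  have h1 : ∀ x, f x * starRingEnd ℂ (f x) = ((‖f x‖ ^ 2 : ℝ) : ℂ) := by
    intro x
    rw [Complex.mul_conj, Complex.normSq_eq_norm_sq]
  simp_rw [h1] at h
  have h0 : ∫ x, ((‖f x‖ ^ 2 : ℝ) : ℂ) = ((∫ x, ‖f x‖ ^ 2 : ℝ) : ℂ) := integral_ofReal
  rw [h0] at h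
  have h2 : ∫ x, ‖f x‖ ^ 2 = 1 := by exact_mod_cast h
  have hint : Integrable (fun x => ‖f x‖ ^ 2) := by
    apply Continuous.integrable_of_hasCompactSupport (by fun_prop)
    have : HasCompactSupport (fun x => ‖f x‖) := hc.norm
    exact this.comp_left (g := fun t : ℝ => t ^ 2) (by simp)
  have h3 := ofReal_integral_eq_lintegral_ofReal hint (Filter.Eventually.of_forall (fun x => by positivity))
  rw [h2, ENNReal.ofReal_one] at h3
  rw [h3]
  apply lintegral_congr
  intro x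
  rw [ENNReal.ofReal_pow (norm_nonneg _), ofReal_norm_eq_enorm]

theorem negE_sum_eT_meas {n : ℕ} (A : (Fin n → ℝ) → (Fin n → ℝ)) (hA : Measurable A)
    (f : (Fin n → ℝ) → ℂ) (hf : ContDiff ℝ 1 f) : Measurable (eT A f) := by
  unfold eT
  apply Finset.measurable_fun_sum
  intro j _
  have h1 : Continuous (fun x => fderiv ℝ f x (Pi.single j 1)) :=
    (hf.continuous_fderiv (by norm_num)).clm_apply continuous_const
  have h2 : Measurable (fun x => ((A x j : ℝ) : ℂ)) :=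
    Complex.measurable_ofReal.comp ((measurable_pi_apply j).comp hA)
  have h3 : Measurable f := hf.continuous.measurable
  exact ((h1.measurable.sub ((measurable_const.mul h2).mul h3)).enorm).pow_const 2

theorem negE_sum_fin {n : ℕ} {C : ℝ≥0∞} {q : ℝ} (A : (Fin n → ℝ) → (Fin n → ℝ))
    (W : (Fin n → ℝ) → ℝ≥0∞) (hA : Measurable A) (hW : Measurable W)
    (h : ∀ (N : ℕ) (u : Fin N → (Fin n → ℝ) → ℂ), (∀ i, ContDiff ℝ 1 (u i)) →
      (∀ i, HasCompactSupport (u i)) → (1 - Gram u).PosSemidef →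
      ∫⁻ x, W x * rho u x ≤ Tmag A u + C * ∫⁻ x, W x ^ q)
    (Ω : Set (Fin n → ℝ)) (P : (Fin n → ℝ) → ℝ≥0∞) (F : Finset ℕ) (a : ℕ → ℝ≥0∞)
    (ha : ∀ k ∈ F, a k < negE Ω A P W k) :
    ∑ k ∈ F, a k ≤ C * ∫⁻ x, W x ^ q := by
  classical
  have h1 : ∀ k ∈ F, ∃ S : Submodule ℂ ((Fin n → ℝ) → ℂ), Dom Ω S ∧
      Module.finrank ℂ S = k + 1 ∧ ∀ u ∈ S, u ≠ 0 → ∫⁻ x, ‖u x‖ₑ ^ 2 = 1 →
        a k + ∫⁻ x, eT A u x < ∫⁻ x, W x * ‖u x‖ₑ ^ 2 := by
    intro k hk
    have h2 := ha k hk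
    unfold negE at h2
    obtain ⟨S, h2⟩ := lt_iSup_iff.1 h2
    obtain ⟨h3, h2⟩ := lt_iSup_iff.1 h2
    obtain ⟨h4, h2⟩ := lt_iSup_iff.1 h2
    refine ⟨S, h3, h4, ?_⟩
    intro u hu hne hnorm
    have h5 := lt_of_lt_of_le h2 (iInf_le_of_le u (iInf_le_of_le hu (iInf_le _ hne)))
    rw [hnorm, div_one] at h5
    have h6 := lt_tsub_iff_right.1 h5
    refine lt_of_le_of_lt ?_ h6
    gcongr
    exact le_self_add
  choose! S hSD hSf hSa using h1
  obtain ⟨K, hK⟩ : ∃ K, F.card = K := ⟨_, rfl⟩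
  obtain ⟨e, he⟩ : ∃ e : Fin K ↪o ℕ, e = F.orderEmbOfFin hK := ⟨_, rfl⟩
  have heF : ∀ i, e i ∈ F := by
    intro i
    rw [he]
    exact Finset.orderEmbOfFin_mem F hK i
  have hsum : ∀ g : ℕ → ℝ≥0∞, ∑ k ∈ F, g k = ∑ i : Fin K, g (e i) := by
    intro g
    have h2 : Finset.map e.toEmbedding Finset.univ = F := by
      rw [he]
      exact Finset.map_orderEmbOfFin_univ F hK
    conv_lhs => rw [← h2]
    rw [Finset.sum_map]
    rfl
  have hκ : ∀ i : Fin K, (i : ℕ) ≤ e i := by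
    have : ∀ m : ℕ, ∀ hm : m < K, m ≤ e ⟨m, hm⟩ := by
      intro m
      induction m with
      | zero => intro _; exact Nat.zero_le _
      | succ m ih =>
        intro hm
        have h2 := ih (by omega)
        have h3 : e ⟨m, by omega⟩ < e ⟨m + 1, hm⟩ := e.strictMono (by simp [Fin.lt_def])
        omega
    intro i
    exact this i.1 i.2
  obtain ⟨φ, hφS, hφo⟩ := orth_choice (fun i : Fin K => S (e i)) (fun i => e i) hκ
    (fun i u hu => ⟨(hSD (e i) (heF i) u hu).1, (hSD (e i) (heF i) u hu).2.1⟩)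
    (fun i => hSf (e i) (heF i))
  have hφC : ∀ i, ContDiff ℝ 1 (φ i) := fun i => (hSD (e i) (heF i) _ (hφS i)).1
  have hφK : ∀ i, HasCompactSupport (φ i) := fun i => (hSD (e i) (heF i) _ (hφS i)).2.1
  have hnorm : ∀ i, ∫⁻ x, ‖φ i x‖ₑ ^ 2 = 1 := by
    intro i
    apply negE_sum_norm (φ i) (hφC i).continuous (hφK i)
    simpa using hφo i i
  have hne : ∀ i, φ i ≠ 0 := by
    intro i h0
    have h2 := hnorm i
    rw [h0] at h2
    simp at h2
  have hone : ∀ i, a (e i) + ∫⁻ x, eT A (φ i) x < ∫⁻ x, W x * ‖φ i x‖ₑ ^ 2 := by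
    intro i
    exact hSa (e i) (heF i) _ (hφS i) (hne i) (hnorm i)
  have hfin : Tmag A φ ≠ ⊤ := by
    unfold Tmag
    rw [ENNReal.sum_ne_top]
    intro i _
    have h2 := hone i
    have h3 : a (e i) + ∫⁻ x, eT A (φ i) x ≠ ⊤ := ne_top_of_lt h2
    exact (ENNReal.add_ne_top.1 h3).2
  have hgram : (1 - Gram φ) = 0 := by
    rw [sub_eq_zero]
    ext i j
    rw [Matrix.one_apply]
    exact (hφo i j).symm
  have h5 := h K φ hφC hφK (by rw [hgram]; exact Matrix.PosSemidef.zero)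
  have h6 : ∫⁻ x, W x * rho φ x = ∑ i, ∫⁻ x, W x * ‖φ i x‖ₑ ^ 2 := by
    unfold rho
    simp_rw [Finset.mul_sum]
    rw [lintegral_finsetSum]
    intro i _
    exact hW.mul (((hφC i).continuous.measurable.enorm).pow_const 2)
  rw [hsum]
  have h7 : ∑ i : Fin K, a (e i) + Tmag A φ ≤ Tmag A φ + C * ∫⁻ x, W x ^ q := by
    refine le_trans ?_ h5
    rw [h6]
    unfold Tmag
    rw [← Finset.sum_add_distrib]
    exact Finset.sum_le_sum (fun i _ => (hone i).le)
  rw [add_comm] at h7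
  exact (ENNReal.add_le_add_iff_left hfin).1 h7

theorem negE_sum {n : ℕ} {C : ℝ≥0∞} {q : ℝ} (A : (Fin n → ℝ) → (Fin n → ℝ))
    (W : (Fin n → ℝ) → ℝ≥0∞) (hA : Measurable A) (hW : Measurable W)
    (h : ∀ (N : ℕ) (u : Fin N → (Fin n → ℝ) → ℂ), (∀ i, ContDiff ℝ 1 (u i)) →
      (∀ i, HasCompactSupport (u i)) → (1 - Gram u).PosSemidef →
      ∫⁻ x, W x * rho u x ≤ Tmag A u + C * ∫⁻ x, W x ^ q)
    (Ω : Set (Fin n → ℝ)) (P : (Fin n → ℝ) → ℝ≥0∞) :
    ∑' k, negE Ω A P W k ≤ C * ∫⁻ x, W x ^ q := by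
  classical
  apply ENNReal.tsum_le_of_sum_range_le
  intro K
  rw [← Finset.sum_filter_ne_zero]
  apply negE_sum_sup
  · intro k hk
    exact (Finset.mem_filter.1 hk).2
  · intro a ha
    exact negE_sum_fin A W hA hW h Ω P _ a ha


end Pool.Agent.Helper766.M
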