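import Mathlib
import Pool.Agent.Helper766.M.Defs
import Pool.Agent.Helper766.M.L_QQ
import Pool.Agent.Helper766.M.L_W_int
import Pool.Agent.Helper766.M.L_beta_lint
import Pool.Agent.Helper766.M.L_consts2
import Pool.Agent.Helper766.M.L_negE_shift
import Pool.Agent.Helper766.M.L_negE_sum


set_option autoImplicit false

open MeasureTheory Set Real Matrix
open scoped ENNReal ComplexOrder

namespace Pool.Agent.Helper766.M


theorem main_gen {d : ℕ} (hd : 1 ≤ d) (hPP : ∀ n, PP n (ENNReal.ofReal (cc n)))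
    (Ω : Set (Fin d → ℝ)) (A : (Fin d → ℝ) → (Fin d → ℝ)) (hA : Measurable A)
    (P W : (Fin d → ℝ) → ℝ≥0∞) (hW : Measurable W) {γ : ℝ} (hγ : 1 ≤ γ) :
    ∑' k, negE Ω A P W k ^ γ ≤
      ENNReal.ofReal (2 / √3 * Lcl γ d) * ∫⁻ x, W x ^ (γ + (d : ℝ) / 2) := by
  obtain ⟨n, rfl⟩ : ∃ n, d = n + 1 := ⟨d - 1, by omega⟩
  have hbase : ∀ V : (Fin (n + 1) → ℝ) → ℝ≥0∞, Measurable V → ∑' k, negE Ω A P V k ≤
      ENNReal.ofReal (2 / √3 * Lcl 1 (n + 1)) * ∫⁻ x, V x ^ (1 + ((n + 1 : ℕ) : ℝ) / 2) := by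
    intro V hV
    have h1 := negE_sum (C := ENNReal.ofReal (2 / (√3 * π) * cc n)) (q := ((n : ℝ) + 3) / 2)
      A V hA hV (fun N u h1 h2 h3 => QQ (hPP n) u A V h1 h2 hA hV h3) Ω P
    rw [const_QQ] at h1
    have h2 : 1 + ((n + 1 : ℕ) : ℝ) / 2 = ((n : ℝ) + 3) / 2 := by
      push_cast
      ring
    rw [h2]
    exact h1
  rcases hγ.eq_or_lt with rfl | hγ1
  · simp only [ENNReal.rpow_one]
    exact hbase W hW
  · have hδ : 0 < γ - 1 := by linarith
    have hq : (0 : ℝ) < 1 + ((n + 1 : ℕ) : ℝ) / 2 := by positivity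
    obtain ⟨hc1, hc2⟩ := const_gam (n + 1) hγ1
    set B1 := ENNReal.ofReal (Gamma (γ - 1) * Gamma (1 + 1) / Gamma (γ - 1 + 1 + 1)) with hB1
    set C0 := ENNReal.ofReal (2 / √3 * Lcl 1 (n + 1)) with hC0
    have hstep : ∀ t ∈ Ioi (0 : ℝ), ∑' k, (negE Ω A P W k - ENNReal.ofReal t) ≤
        C0 * ∫⁻ x, (W x - ENNReal.ofReal t) ^ (1 + ((n + 1 : ℕ) : ℝ) / 2) := by
      intro t ht
      calc ∑' k, (negE Ω A P W k - ENNReal.ofReal t) ≤
          ∑' k, negE Ω A P (fun x => W x - ENNReal.ofReal t) k :=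
            ENNReal.tsum_le_tsum fun k => negE_shift Ω A P W hW t ht k
        _ ≤ _ := hbase _ (hW.sub measurable_const)
    have hL : ∫⁻ t in Ioi (0 : ℝ), ENNReal.ofReal (t ^ ((γ - 1) - 1)) *
        ∑' k, (negE Ω A P W k - ENNReal.ofReal t) = B1 * ∑' k, negE Ω A P W k ^ γ := by
      have h1 : ∀ t : ℝ, ENNReal.ofReal (t ^ ((γ - 1) - 1)) *
          ∑' k, (negE Ω A P W k - ENNReal.ofReal t) =
          ∑' k, ENNReal.ofReal (t ^ ((γ - 1) - 1)) * (negE Ω A P W k - ENNReal.ofReal t) :=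
        fun t => ENNReal.tsum_mul_left.symm
      simp only [h1]
      rw [lintegral_tsum]
      · rw [← ENNReal.tsum_mul_left]
        congr 1
        funext k
        have h2 := beta_lint (negE Ω A P W k) (δ := γ - 1) (q := 1) hδ one_pos
        simp only [ENNReal.rpow_one] at h2
        rw [h2, add_sub_cancel]
      · intro k
        apply Measurable.aemeasurable
        refine Measurable.mul ?_ ?_
        · exact (measurable_id.pow_const _).ennreal_ofReal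
        · exact measurable_const.sub measurable_id.ennreal_ofReal
    have hR : ∫⁻ t in Ioi (0 : ℝ), ENNReal.ofReal (t ^ ((γ - 1) - 1)) *
        (C0 * ∫⁻ x, (W x - ENNReal.ofReal t) ^ (1 + ((n + 1 : ℕ) : ℝ) / 2)) =
        B1 * (ENNReal.ofReal (2 / √3 * Lcl γ (n + 1)) *
          ∫⁻ x, W x ^ (γ + ((n + 1 : ℕ) : ℝ) / 2)) := by
      have h1 : ∀ t : ℝ, ENNReal.ofReal (t ^ ((γ - 1) - 1)) *
          (C0 * ∫⁻ x, (W x - ENNReal.ofReal t) ^ (1 + ((n + 1 : ℕ) : ℝ) / 2)) =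
          C0 * (ENNReal.ofReal (t ^ ((γ - 1) - 1)) *
            ∫⁻ x, (W x - ENNReal.ofReal t) ^ (1 + ((n + 1 : ℕ) : ℝ) / 2)) :=
        fun t => mul_left_comm _ _ _
      simp only [h1]
      rw [lintegral_const_mul' _ _ ENNReal.ofReal_ne_top, W_int W hW hδ hq, ← mul_assoc, hc1,
        mul_assoc]
      congr 4
      ring_nf
    have hfin : B1 * ∑' k, negE Ω A P W k ^ γ ≤ B1 * (ENNReal.ofReal (2 / √3 * Lcl γ (n + 1)) *
          ∫⁻ x, W x ^ (γ + ((n + 1 : ℕ) : ℝ) / 2)) := by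
      rw [← hL, ← hR]
      apply setLIntegral_mono' measurableSet_Ioi
      intro t ht
      exact mul_le_mul_right (hstep t ht) _
    have hB0 : B1 ≠ 0 := (ENNReal.ofReal_pos.2 hc2).ne'
    exact (ENNReal.mul_le_mul_iff_right hB0 ENNReal.ofReal_ne_top).1 hfin


end Pool.Agent.Helper766.M
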