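import Mathlib
import Pool.Agent.Helper766.M.Defs


set_option autoImplicit false

open MeasureTheory Set Real Matrix
open scoped ENNReal ComplexOrder

namespace Pool.Agent.Helper766.M


theorem negE_lower_ext {ι β : Type} [DecidableEq ι] [AddCommMonoid β] {k : ℕ} (e : Fin k → ι)
    (he : Function.Injective e) (M : Finset ι) (hM : ∀ i, e i ∈ M) (c : Fin k → ℂ)
    (G : ℂ → ι → β) (hG : ∀ m, G 0 m = 0) :
    ∑ m ∈ M, G (Function.extend e c 0 m) m = ∑ i, G (c i) (e i) := by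
  classical
  have h1 : ∑ i, G (c i) (e i) = ∑ m ∈ Finset.univ.image e, G (Function.extend e c 0 m) m := by
    rw [Finset.sum_image (fun a _ b _ h => he h)]
    refine Finset.sum_congr rfl fun i _ => ?_
    rw [he.extend_apply]
  rw [h1]
  symm
  apply Finset.sum_subset
  · intro m hm
    obtain ⟨i, -, rfl⟩ := Finset.mem_image.1 hm
    exact hM i
  · intro m _ hm
    rw [Function.extend_apply', Pi.zero_apply, hG]
    rintro ⟨i, rfl⟩
    exact hm (Finset.mem_image_of_mem e (Finset.mem_univ i))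

/-- the linear map of trial functions. -/
noncomputable def negE_lower_T {n : ℕ} {ι : Type} (f : ι → (Fin n → ℝ) → ℂ) {k : ℕ} (e : Fin k → ι) :
    (Fin k → ℂ) →ₗ[ℂ] ((Fin n → ℝ) → ℂ) where
  toFun c := fun x => ∑ i, c i * f (e i) x
  map_add' a b := by
    funext x
    simp [add_mul, Finset.sum_add_distrib]
  map_smul' a b := by
    funext x
    simp [mul_assoc, Finset.mul_sum]

theorem negE_lower_one {n : ℕ} {ι : Type} [DecidableEq ι] (M : Finset ι)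
    (f : ι → (Fin n → ℝ) → ℂ) (E : ι → ℝ) (hE0 : ∀ i, 0 ≤ E i)
    (A : (Fin n → ℝ) → (Fin n → ℝ)) (P W : (Fin n → ℝ) → ℝ≥0∞) {Λ : ℝ}
    (hdom : ∀ (c : ι → ℂ) (u : (Fin n → ℝ) → ℂ), u = (fun x => ∑ m ∈ M, c m * f m x) →
      ContDiff ℝ 1 u ∧ HasCompactSupport u ∧
      ∫⁻ x, ‖u x‖ₑ ^ 2 = ENNReal.ofReal (∑ m ∈ M, ‖c m‖ ^ 2) ∧
      ∫⁻ x, W x * ‖u x‖ₑ ^ 2 = ENNReal.ofReal Λ * ∫⁻ x, ‖u x‖ₑ ^ 2 ∧
      (∫⁻ x, eT A u x) + ∫⁻ x, P x * ‖u x‖ₑ ^ 2 ≤
        ENNReal.ofReal (∑ m ∈ M, E m * ‖c m‖ ^ 2))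
    {k : ℕ} (e : Fin (k + 1) → ι) (he : Function.Injective e) (hM : ∀ i, e i ∈ M) (B : ℝ)
    (hB : ∀ i, E (e i) ≤ B) :
    ENNReal.ofReal (Λ - B) ≤ negE univ A P W k := by
  classical
  have key : ∀ c : Fin (k + 1) → ℂ,
      ContDiff ℝ 1 (negE_lower_T f e c) ∧ HasCompactSupport (negE_lower_T f e c) ∧
      ∫⁻ x, ‖negE_lower_T f e c x‖ₑ ^ 2 = ENNReal.ofReal (∑ i, ‖c i‖ ^ 2) ∧
      ∫⁻ x, W x * ‖negE_lower_T f e c x‖ₑ ^ 2 =
        ENNReal.ofReal Λ * ∫⁻ x, ‖negE_lower_T f e c x‖ₑ ^ 2 ∧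
      (∫⁻ x, eT A (negE_lower_T f e c) x) + ∫⁻ x, P x * ‖negE_lower_T f e c x‖ₑ ^ 2 ≤
        ENNReal.ofReal (∑ i, E (e i) * ‖c i‖ ^ 2) := by
    intro c
    have h1 := hdom (Function.extend e c 0) (negE_lower_T f e c) (by
      funext x
      exact (negE_lower_ext e he M hM c (fun z m => z * f m x) (fun m => by simp)).symm)
    rw [negE_lower_ext e he M hM c (fun z m => ‖z‖ ^ 2) (fun m => by simp),
      negE_lower_ext e he M hM c (fun z m => E m * ‖z‖ ^ 2) (fun m => by simp)] at h1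
    exact h1
  have hinj : Function.Injective (negE_lower_T f e) := by
    rw [← LinearMap.ker_eq_bot, LinearMap.ker_eq_bot']
    intro c hc
    have h1 := (key c).2.2.1
    rw [hc] at h1
    simp only [Pi.zero_apply, enorm_zero, ne_eq, OfNat.ofNat_ne_zero, not_false_eq_true, zero_pow,
      lintegral_const, zero_mul] at h1
    have h2 : ∑ i, ‖c i‖ ^ 2 ≤ 0 := ENNReal.ofReal_eq_zero.1 h1.symm
    have h3 : ∑ i, ‖c i‖ ^ 2 = 0 := le_antisymm h2 (Finset.sum_nonneg fun i _ => by positivity)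
    rw [Finset.sum_eq_zero_iff_of_nonneg (fun i _ => by positivity)] at h3
    funext i
    have h4 := h3 i (Finset.mem_univ i)
    simpa using h4
  unfold negE
  refine le_iSup_of_le (LinearMap.range (negE_lower_T f e)) (le_iSup_of_le ?_ (le_iSup_of_le ?_ ?_))
  · rintro u ⟨c, rfl⟩
    exact ⟨(key c).1, (key c).2.1, subset_univ _⟩
  · rw [LinearMap.finrank_range_of_inj hinj, Module.finrank_fin_fun]
  · refine le_iInf fun u => le_iInf fun hu => le_iInf fun hu0 => ?_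
    obtain ⟨c, rfl⟩ := hu
    obtain ⟨-, -, h3, h4, h5⟩ := key c
    have hc0 : c ≠ 0 := by
      rintro rfl
      exact hu0 (map_zero _)
    have hpos : 0 < ∑ i, ‖c i‖ ^ 2 := by
      obtain ⟨i, hi⟩ := Function.ne_iff.1 hc0
      refine Finset.sum_pos' (fun i _ => by positivity) ⟨i, Finset.mem_univ i, ?_⟩
      have : 0 < ‖c i‖ := norm_pos_iff.2 hi
      positivity
    have hB0 : 0 ≤ B := (hE0 _).trans (hB 0)
    have hle : (∫⁻ x, eT A (negE_lower_T f e c) x) + ∫⁻ x, P x * ‖negE_lower_T f e c x‖ₑ ^ 2 ≤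
        ENNReal.ofReal B * ENNReal.ofReal (∑ i, ‖c i‖ ^ 2) := by
      refine h5.trans ?_
      rw [← ENNReal.ofReal_mul hB0]
      apply ENNReal.ofReal_le_ofReal
      rw [Finset.mul_sum]
      exact Finset.sum_le_sum fun i _ => mul_le_mul_of_nonneg_right (hB i) (by positivity)
    rw [h4, h3]
    have hN0 : ENNReal.ofReal (∑ i, ‖c i‖ ^ 2) ≠ 0 := by
      rw [Ne, ENNReal.ofReal_eq_zero, not_le]; exact hpos
    have hNt : ENNReal.ofReal (∑ i, ‖c i‖ ^ 2) ≠ ⊤ := ENNReal.ofReal_ne_top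
    rw [ENNReal.le_div_iff_mul_le (Or.inl hN0) (Or.inl hNt)]
    refine le_trans ?_ (tsub_le_tsub_left hle _)
    rw [← ENNReal.sub_mul (fun _ _ => hNt), ← ENNReal.ofReal_sub _ hB0]

theorem negE_lower {n : ℕ} {ι : Type} [DecidableEq ι] (M : Finset ι)
    (f : ι → (Fin n → ℝ) → ℂ) (E : ι → ℝ) (hE0 : ∀ i, 0 ≤ E i)
    (A : (Fin n → ℝ) → (Fin n → ℝ)) (P W : (Fin n → ℝ) → ℝ≥0∞) {Λ γ : ℝ} (hΛ : 0 < Λ)
    (hγ : 0 < γ)
    (hdom : ∀ (c : ι → ℂ) (u : (Fin n → ℝ) → ℂ), u = (fun x => ∑ m ∈ M, c m * f m x) →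
      ContDiff ℝ 1 u ∧ HasCompactSupport u ∧
      ∫⁻ x, ‖u x‖ₑ ^ 2 = ENNReal.ofReal (∑ m ∈ M, ‖c m‖ ^ 2) ∧
      ∫⁻ x, W x * ‖u x‖ₑ ^ 2 = ENNReal.ofReal Λ * ∫⁻ x, ‖u x‖ₑ ^ 2 ∧
      (∫⁻ x, eT A u x) + ∫⁻ x, P x * ‖u x‖ₑ ^ 2 ≤
        ENNReal.ofReal (∑ m ∈ M, E m * ‖c m‖ ^ 2)) :
    ∑ m ∈ M, ENNReal.ofReal (Λ - E m) ^ γ ≤ ∑' k, negE univ A P W k ^ γ := by
  classical
  set K := M.card with hK
  let g : Fin K → ℝ := fun k => E (M.equivFin.symm k)
  let e : Fin K → ι := fun k => (M.equivFin.symm (Tuple.sort g k)).1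
  have he : Function.Injective e := by
    intro a b h
    exact (Tuple.sort g).injective (M.equivFin.symm.injective (Subtype.ext h))
  have heM : ∀ k, e k ∈ M := fun k => (M.equivFin.symm (Tuple.sort g k)).2
  have hmono : Monotone (fun k => E (e k)) := Tuple.monotone_sort g
  have hsum : ∑ m ∈ M, ENNReal.ofReal (Λ - E m) ^ γ = ∑ k, ENNReal.ofReal (Λ - E (e k)) ^ γ := by
    have him : Finset.univ.image e = M := by
      apply Finset.eq_of_subset_of_card_le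
      · intro m hm
        obtain ⟨i, -, rfl⟩ := Finset.mem_image.1 hm
        exact heM i
      · rw [Finset.card_image_of_injective _ he, Finset.card_univ, Fintype.card_fin]
    conv_lhs => rw [← him]
    rw [Finset.sum_image (fun a _ b _ h => he h)]
  rw [hsum]
  have hone : ∀ k : Fin K, ENNReal.ofReal (Λ - E (e k)) ≤ negE univ A P W k := by
    intro k
    refine negE_lower_one M f E hE0 A P W hdom (k := k)
      (fun i => e ⟨i, lt_of_lt_of_le i.2 (Nat.succ_le_of_lt k.2)⟩) ?_ (fun i => heM _) _ ?_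
    · intro a b h
      have := he h
      exact Fin.ext (Fin.mk.inj_iff.1 this)
    · intro i
      apply hmono
      exact Fin.mk_le_of_le_val (Nat.lt_succ_iff.1 i.2)
  calc ∑ k : Fin K, ENNReal.ofReal (Λ - E (e k)) ^ γ
      ≤ ∑ k : Fin K, negE univ A P W k ^ γ :=
        Finset.sum_le_sum fun k _ => ENNReal.rpow_le_rpow (hone k) hγ.le
    _ = ∑ k ∈ Finset.range K, negE univ A P W k ^ γ :=
        (Finset.sum_range fun k => negE univ A P W k ^ γ).symm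
    _ ≤ ∑' k, negE univ A P W k ^ γ := ENNReal.sum_le_tsum _


end Pool.Agent.Helper766.M
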