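import Mathlib
import Pool.Agent.Helper766.M.Defs


set_option autoImplicit false

open MeasureTheory Set Real Matrix
open scoped ENNReal ComplexOrder

namespace Pool.Agent.Helper766.M


open scoped Pointwise in
theorem riemann_set {d : ℕ} (R n : ℕ) (hn : 1 ≤ n) :
    (Set.Icc (fun _ : Fin d => -(R : ℝ)) (fun _ : Fin d => (R : ℝ)) ∩
      ((n : ℝ)⁻¹ • (Submodule.span ℤ (Set.range (Pi.basisFun ℝ (Fin d))) : Set (Fin d → ℝ)))) =
      ((Finset.image (fun (m : Fin d → ℤ) => (fun j => (m j : ℝ) / n : Fin d → ℝ))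
        (Fintype.piFinset (fun _ : Fin d => Finset.Icc (-((R : ℤ) * n)) ((R : ℤ) * n)))
        : Finset (Fin d → ℝ)) : Set (Fin d → ℝ)) := by
  have hnpos : (0 : ℝ) < n := by exact_mod_cast hn
  have hn0 : (n : ℝ) ≠ 0 := hnpos.ne'
  ext x
  rw [Set.mem_inter_iff, Set.mem_smul_set, Finset.mem_coe, Finset.mem_image, Set.mem_Icc]
  constructor
  · rintro ⟨⟨h1, h2⟩, y, hy, rfl⟩
    rw [SetLike.mem_coe, Module.Basis.mem_span_iff_repr_mem] at hy
    choose m hm using hy
    have hm' : ∀ j, (m j : ℝ) = y j := by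
      intro j
      have := hm j
      rw [Pi.basisFun_repr] at this
      exact this
    refine ⟨m, ?_, ?_⟩
    · rw [Fintype.mem_piFinset]
      intro j
      rw [Finset.mem_Icc]
      have h3 := h1 j
      have h4 := h2 j
      simp only [Pi.smul_apply, smul_eq_mul] at h3 h4
      rw [← hm' j] at h3 h4
      constructor
      · have h5 : -((R : ℝ) * n) ≤ m j := by
          rw [inv_mul_eq_div, le_div_iff₀ hnpos] at h3
          linarith
        exact_mod_cast h5
      · have h5 : (m j : ℝ) ≤ (R : ℝ) * n := by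
          rw [inv_mul_eq_div, div_le_iff₀ hnpos] at h4
          exact h4
        exact_mod_cast h5
    · funext j
      rw [hm' j, Pi.smul_apply, smul_eq_mul, inv_mul_eq_div]
  · rintro ⟨m, hm, rfl⟩
    rw [Fintype.mem_piFinset] at hm
    refine ⟨⟨?_, ?_⟩, fun j => (m j : ℝ), ?_, ?_⟩
    · intro j
      have h1 := (Finset.mem_Icc.mp (hm j)).1
      have h2 : -((R : ℝ) * n) ≤ m j := by exact_mod_cast h1
      show -(R : ℝ) ≤ (m j : ℝ) / n
      rw [le_div_iff₀ hnpos]
      linarith
    · intro j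
      have h1 := (Finset.mem_Icc.mp (hm j)).2
      have h2 : (m j : ℝ) ≤ (R : ℝ) * n := by exact_mod_cast h1
      show (m j : ℝ) / n ≤ (R : ℝ)
      rw [div_le_iff₀ hnpos]
      exact h2
    · rw [SetLike.mem_coe, Module.Basis.mem_span_iff_repr_mem]
      intro j
      rw [Pi.basisFun_repr]
      exact ⟨m j, rfl⟩
    · funext j
      rw [Pi.smul_apply, smul_eq_mul, inv_mul_eq_div]

open scoped Pointwise in
theorem riemann {d : ℕ} (F : (Fin d → ℝ) → ℝ) (hF : Continuous F) (R : ℕ)
    (hR : ∀ x, F x ≠ 0 → ∀ j, |x j| < R) :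
    Filter.Tendsto (fun n : ℕ => (∑ m ∈ Fintype.piFinset
      (fun _ : Fin d => Finset.Icc (-((R : ℤ) * n)) ((R : ℤ) * n)),
        F (fun j => (m j : ℝ) / n)) / (n : ℝ) ^ d) Filter.atTop (nhds (∫ x, F x)) := by
  classical
  have hsm : MeasurableSet (Set.Icc (fun _ : Fin d => -(R : ℝ)) (fun _ : Fin d => (R : ℝ))) :=
    measurableSet_Icc
  have hsb : Bornology.IsBounded (Set.Icc (fun _ : Fin d => -(R : ℝ)) (fun _ : Fin d => (R : ℝ))) :=
    Metric.isBounded_Icc _ _
  have hsf : volume (frontier (Set.Icc (fun _ : Fin d => -(R : ℝ)) (fun _ : Fin d => (R : ℝ)))) = 0 :=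
    (convex_Icc _ _).addHaar_frontier volume
  have key := tendsto_tsum_div_pow_atTop_integral
    (Set.Icc (fun _ : Fin d => -(R : ℝ)) (fun _ : Fin d => (R : ℝ))) F hF hsb hsm hsf
  have hint : ∫ x in Set.Icc (fun _ : Fin d => -(R : ℝ)) (fun _ : Fin d => (R : ℝ)), F x
      = ∫ x, F x := by
    apply setIntegral_eq_integral_of_forall_compl_eq_zero
    intro x hx
    by_contra hne
    apply hx
    have h1 := hR x hne
    rw [Set.mem_Icc]
    constructor
    · intro j
      exact (abs_lt.mp (h1 j)).1.le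
    · intro j
      exact (abs_lt.mp (h1 j)).2.le
  rw [hint] at key
  refine key.congr' ?_
  filter_upwards [Filter.eventually_ge_atTop 1] with n hn
  have hnpos : (0 : ℝ) < n := by exact_mod_cast hn
  have hn0 : (n : ℝ) ≠ 0 := hnpos.ne'
  have hinj : Function.Injective (fun (m : Fin d → ℤ) => (fun j => (m j : ℝ) / n : Fin d → ℝ)) := by
    intro a b hab
    funext j
    have h1 := congrFun hab j
    have h2 : (a j : ℝ) = b j := by
      field_simp at h1
      exact h1
    exact_mod_cast h2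
  have hc : (Fintype.card (Fin d)) = d := Fintype.card_fin d
  rw [hc]
  congr 1
  have h3 : ∀ S T : Set (Fin d → ℝ), S = T → ∑' x : S, F x = ∑' x : T, F x := by
    rintro S _ rfl
    rfl
  rw [h3 _ _ (riemann_set R n hn), Finset.tsum_subtype', Finset.sum_image (fun a _ b _ h => hinj h)]


end Pool.Agent.Helper766.M
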