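import Mathlib
import Pool.Agent.Helper766.M.Defs
import Pool.Agent.Helper766.M.L_ball_int
import Pool.Agent.Helper766.M.L_cutoff
import Pool.Agent.Helper766.M.L_energy_est
import Pool.Agent.Helper766.M.L_negE_lower
import Pool.Agent.Helper766.M.L_riemann


set_option autoImplicit false

open MeasureTheory Set Real Matrix
open scoped ENNReal ComplexOrder

namespace Pool.Agent.Helper766.M


noncomputable def weyl_eps_F {d : ℕ} (γ ε : ℝ) (x : Fin d → ℝ) : ℝ :=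
  (max (1 - ε - ((1 + ε) * (4 * π ^ 2)) * ∑ j, x j ^ 2) 0) ^ γ

theorem weyl_eps_nonneg {d : ℕ} (γ ε : ℝ) (x : Fin d → ℝ) : 0 ≤ weyl_eps_F γ ε x :=
  Real.rpow_nonneg (le_max_right _ _) _

theorem weyl_eps_cont {d : ℕ} {γ : ℝ} (ε : ℝ) (hγ : 0 < γ) :
    Continuous (weyl_eps_F (d := d) γ ε) := by
  unfold weyl_eps_F
  refine Continuous.rpow_const ?_ fun x => Or.inr hγ.le
  fun_prop

theorem weyl_eps_supp {d : ℕ} {γ ε : ℝ} (hγ : 0 < γ) (hε : 0 < ε) (x : Fin d → ℝ)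
    (hx : weyl_eps_F γ ε x ≠ 0) (j : Fin d) : |x j| < ((1 : ℕ) : ℝ) := by
  unfold weyl_eps_F at hx
  have h1 : max (1 - ε - ((1 + ε) * (4 * π ^ 2)) * ∑ j, x j ^ 2) 0 ≠ 0 := by
    intro h
    rw [h, Real.zero_rpow hγ.ne'] at hx
    exact hx rfl
  have h2 : 0 < 1 - ε - ((1 + ε) * (4 * π ^ 2)) * ∑ j, x j ^ 2 := by
    by_contra h
    exact h1 (max_eq_right (not_lt.1 h))
  have h3 : x j ^ 2 ≤ ∑ j, x j ^ 2 :=
    Finset.single_le_sum (f := fun j => x j ^ 2) (fun i _ => sq_nonneg _) (Finset.mem_univ j)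
  have hpi : 1 ≤ 4 * π ^ 2 := by nlinarith [Real.pi_gt_three]
  have hS : 0 ≤ ∑ j, x j ^ 2 := Finset.sum_nonneg fun i _ => sq_nonneg _
  have h4 : ∑ j, x j ^ 2 ≤ ((1 + ε) * (4 * π ^ 2)) * ∑ j, x j ^ 2 := by
    have : 1 ≤ (1 + ε) * (4 * π ^ 2) := by nlinarith
    nlinarith
  have h5 : x j ^ 2 < 1 := by linarith
  rw [Nat.cast_one]
  exact (sq_lt_one_iff_abs_lt_one _).1 h5

theorem weyl_eps_ofReal {γ : ℝ} (hγ : 0 < γ) (t : ℝ) :
    ENNReal.ofReal ((max t 0) ^ γ) = ENNReal.ofReal t ^ γ := by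
  rw [← ENNReal.ofReal_rpow_of_nonneg (le_max_right _ _) hγ.le]
  rcases le_total t 0 with h | h
  · rw [max_eq_right h, ENNReal.ofReal_zero, ENNReal.ofReal_of_nonpos h]
  · rw [max_eq_left h]

theorem weyl_eps_int {d : ℕ} {γ ε : ℝ} (hγ : 0 < γ) (hε : 0 < ε) (hε1 : ε < 1) :
    ENNReal.ofReal (∫ x : Fin d → ℝ, weyl_eps_F γ ε x) =
      ENNReal.ofReal ((1 - ε) ^ (γ + (d : ℝ) / 2) *
        ((1 + ε) * (4 * π ^ 2)) ^ (-((d : ℝ) / 2)) *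
        (π ^ ((d : ℝ) / 2) * Gamma (γ + 1) / Gamma (γ + 1 + (d : ℝ) / 2))) := by
  have hint : Integrable (fun x : Fin d → ℝ => weyl_eps_F γ ε x) := by
    refine (weyl_eps_cont ε hγ).integrable_of_hasCompactSupport ?_
    refine HasCompactSupport.intro (K := Set.pi univ fun _ : Fin d => Icc (-1 : ℝ) 1)
      (isCompact_univ_pi fun _ => isCompact_Icc) ?_
    intro x hx
    by_contra hne
    apply hx
    intro j _
    have := weyl_eps_supp hγ hε x hne j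
    rw [Nat.cast_one] at this
    exact abs_le.1 this.le
  rw [ofReal_integral_eq_lintegral_ofReal hint
    (Filter.Eventually.of_forall fun x => weyl_eps_nonneg γ ε x),
    ← ball_int d hγ (by linarith : (0 : ℝ) < 1 - ε)
      (by positivity : (0 : ℝ) < (1 + ε) * (4 * π ^ 2))]
  refine lintegral_congr fun x => ?_
  exact weyl_eps_ofReal hγ _

theorem weyl_eps_key {d : ℕ} {γ ε : ℝ} (hγ : 0 < γ) (hε : 0 < ε) (hε1 : ε < 1) (C : ℝ≥0∞)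
    (hC : ∀ Λ : ℝ, 0 < Λ → ∑' k, negE (univ : Set (Fin d → ℝ)) 0 0
        ((Set.pi univ fun _ : Fin d => Icc (0 : ℝ) (1 + ε)).indicator
          fun _ => ENNReal.ofReal Λ) k ^ γ ≤
      C * ENNReal.ofReal (Λ ^ (γ + (d : ℝ) / 2) * (1 + ε) ^ d)) :
    ∃ n₀ : ℕ, ∀ n : ℕ, n₀ ≤ n → ENNReal.ofReal ((∑ m ∈ Fintype.piFinset
      (fun _ : Fin d => Finset.Icc (-(((1 : ℕ) : ℤ) * n)) (((1 : ℕ) : ℤ) * n)),
        weyl_eps_F γ ε (fun j => (m j : ℝ) / n)) / (n : ℝ) ^ d) ≤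
      C * ENNReal.ofReal ((1 + ε) ^ d) := by
  obtain ⟨g, K, hg⟩ := cutoff ε hε hε1.le
  obtain ⟨K', hK', hen⟩ := energy_est (d := d) hε hε1.le hg
  obtain ⟨n₀, hn₀⟩ := exists_nat_ge (K' / ε)
  refine ⟨n₀ + 1, fun n hn => ?_⟩
  have hn1 : (1 : ℝ) ≤ n := by
    have : 1 ≤ n := by omega
    exact_mod_cast this
  have hn0 : (0 : ℝ) < n := by linarith
  have hKn : K' ≤ (n : ℝ) ^ 2 * ε := by
    have h1 : K' / ε ≤ n := by
      have : (n₀ : ℝ) ≤ n := by exact_mod_cast (by omega : n₀ ≤ n)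
      linarith
    rw [div_le_iff₀ hε] at h1
    have h2 : (n : ℝ) * ε ≤ (n : ℝ) ^ 2 * ε := mul_le_mul_of_nonneg_right (by nlinarith) hε.le
    linarith
  set M := Fintype.piFinset
      (fun _ : Fin d => Finset.Icc (-(((1 : ℕ) : ℤ) * n)) (((1 : ℕ) : ℤ) * n)) with hM
  have hLam : (0 : ℝ) < (n : ℝ) ^ 2 := by positivity
  have hC' := hC ((n : ℝ) ^ 2) hLam
  set Q : Set (Fin d → ℝ) := Set.pi univ fun _ : Fin d => Icc (0 : ℝ) (1 + ε) with hQ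
  have hlow := negE_lower M (fun (m : Fin d → ℤ) (x : Fin d → ℝ) => ((GG g x : ℂ) * em m x))
    (fun m => (1 + ε) * (4 * π ^ 2 * ∑ j, (m j : ℝ) ^ 2) + K')
    (fun m => by
      have : 0 ≤ ∑ j, (m j : ℝ) ^ 2 := Finset.sum_nonneg fun i _ => sq_nonneg _
      positivity) 0 0 (Q.indicator fun _ => ENNReal.ofReal ((n : ℝ) ^ 2)) hLam hγ
    (by
      intro c u hu
      obtain ⟨u1, u2, u3, u4, u5⟩ := hen M c u hu
      refine ⟨u1, u2, u4, ?_, ?_⟩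
      · rw [← lintegral_const_mul' _ _ ENNReal.ofReal_ne_top]
        refine lintegral_congr fun x => ?_
        by_cases hx : x ∈ Q
        · rw [Set.indicator_of_mem hx]
        · rw [Set.indicator_of_notMem hx, u3 x hx]; simp
      · have h0 : ∫⁻ x, (0 : (Fin d → ℝ) → ℝ≥0∞) x * ‖u x‖ₑ ^ 2 = 0 := by simp
        rw [h0, add_zero]
        exact u5)
  have hchain := hlow.trans hC'
  -- lower bound of the sum
  have hsum : ENNReal.ofReal (((n : ℝ) ^ 2) ^ γ) * ENNReal.ofReal (∑ m ∈ M,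
      weyl_eps_F γ ε (fun j => (m j : ℝ) / n)) ≤
      ∑ m ∈ M, ENNReal.ofReal ((n : ℝ) ^ 2 -
        ((1 + ε) * (4 * π ^ 2 * ∑ j, (m j : ℝ) ^ 2) + K')) ^ γ := by
    rw [ENNReal.ofReal_sum_of_nonneg (fun m _ => weyl_eps_nonneg γ ε _), Finset.mul_sum]
    refine Finset.sum_le_sum fun m _ => ?_
    rw [← ENNReal.ofReal_rpow_of_nonneg hLam.le hγ.le]
    unfold weyl_eps_F
    rw [weyl_eps_ofReal hγ, ← ENNReal.mul_rpow_of_nonneg _ _ hγ.le, ← ENNReal.ofReal_mul hLam.le]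
    refine ENNReal.rpow_le_rpow (ENNReal.ofReal_le_ofReal ?_) hγ.le
    have e1 : ∑ j, ((m j : ℝ) / n) ^ 2 = (∑ j, (m j : ℝ) ^ 2) / (n : ℝ) ^ 2 := by
      rw [Finset.sum_div]
      exact Finset.sum_congr rfl fun j _ => div_pow _ _ _
    rw [e1]
    have e2 : (n : ℝ) ^ 2 * (1 - ε - ((1 + ε) * (4 * π ^ 2)) *
        ((∑ j, (m j : ℝ) ^ 2) / (n : ℝ) ^ 2)) =
        (n : ℝ) ^ 2 - (n : ℝ) ^ 2 * ε - (1 + ε) * (4 * π ^ 2 * ∑ j, (m j : ℝ) ^ 2) := by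
      field_simp
    rw [e2]
    linarith
  have h6 := hsum.trans hchain
  have e3 : ((n : ℝ) ^ 2) ^ (γ + (d : ℝ) / 2) = ((n : ℝ) ^ 2) ^ γ * (n : ℝ) ^ d := by
    rw [Real.rpow_add hLam]
    congr 1
    rw [← Real.rpow_natCast (n : ℝ) 2, ← Real.rpow_mul hn0.le, ← Real.rpow_natCast (n : ℝ) d]
    congr 1
    push_cast
    ring
  have hN0 : 0 < ((n : ℝ) ^ 2) ^ γ := Real.rpow_pos_of_pos hLam _
  have hd0 : 0 < (n : ℝ) ^ d := by positivity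
  have e4 : C * ENNReal.ofReal (((n : ℝ) ^ 2) ^ (γ + (d : ℝ) / 2) * (1 + ε) ^ d) =
      ENNReal.ofReal (((n : ℝ) ^ 2) ^ γ) *
        (C * ENNReal.ofReal ((1 + ε) ^ d) * ENNReal.ofReal ((n : ℝ) ^ d)) := by
    rw [e3, ENNReal.ofReal_mul (by positivity), ENNReal.ofReal_mul hN0.le]
    ring
  rw [e4] at h6
  have h7 := (ENNReal.mul_le_mul_iff_right (ENNReal.ofReal_pos.2 hN0).ne'
    ENNReal.ofReal_ne_top).1 h6
  rw [ENNReal.ofReal_div_of_pos hd0]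
  exact ENNReal.div_le_of_le_mul h7

theorem weyl_eps {d : ℕ} {γ ε : ℝ} (hγ : 0 < γ) (hε : 0 < ε) (hε1 : ε < 1) (C : ℝ≥0∞)
    (hC : ∀ Λ : ℝ, 0 < Λ → ∑' k, negE (univ : Set (Fin d → ℝ)) 0 0
        ((Set.pi univ fun _ : Fin d => Icc (0 : ℝ) (1 + ε)).indicator
          fun _ => ENNReal.ofReal Λ) k ^ γ ≤
      C * ENNReal.ofReal (Λ ^ (γ + (d : ℝ) / 2) * (1 + ε) ^ d)) :
    ENNReal.ofReal ((1 - ε) ^ (γ + (d : ℝ) / 2) * ((1 + ε) * (4 * π ^ 2)) ^ (-((d : ℝ) / 2)) *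
        (π ^ ((d : ℝ) / 2) * Gamma (γ + 1) / Gamma (γ + 1 + (d : ℝ) / 2))) ≤
      C * ENNReal.ofReal ((1 + ε) ^ d) := by
  obtain ⟨n₀, hn₀⟩ := weyl_eps_key hγ hε hε1 C hC
  rw [← weyl_eps_int hγ hε hε1]
  have hr := riemann (d := d) (weyl_eps_F γ ε) (weyl_eps_cont ε hγ) 1
    (fun x hx j => weyl_eps_supp hγ hε x hx j)
  have hr' := (ENNReal.continuous_ofReal.tendsto _).comp hr
  refine le_of_tendsto hr' ?_
  filter_upwards [Filter.eventually_ge_atTop n₀] with n hn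
  exact hn₀ n hn


end Pool.Agent.Helper766.M
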