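import Mathlib
import Pool.Agent.Helper766.M.Defs
import Pool.Agent.Helper766.M.L_weyl_eps


set_option autoImplicit false

open MeasureTheory Set Real Matrix
open scoped ENNReal ComplexOrder

namespace Pool.Agent.Helper766.M


theorem weyl_lower_lint {d : ℕ} {p Λ ε : ℝ} (hp : 0 < p) (hΛ : 0 < Λ) (hε : 0 < ε) :
    ∫⁻ x : Fin d → ℝ, ((Set.pi univ fun _ : Fin d => Icc (0 : ℝ) (1 + ε)).indicator
      (fun _ => ENNReal.ofReal Λ) x) ^ p = ENNReal.ofReal (Λ ^ p * (1 + ε) ^ d) := by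
  have hm : MeasurableSet (Set.pi univ fun _ : Fin d => Icc (0 : ℝ) (1 + ε)) :=
    MeasurableSet.univ_pi fun _ => measurableSet_Icc
  have h1 : ∀ x : Fin d → ℝ, ((Set.pi univ fun _ : Fin d => Icc (0 : ℝ) (1 + ε)).indicator
      (fun _ => ENNReal.ofReal Λ) x) ^ p =
      (Set.pi univ fun _ : Fin d => Icc (0 : ℝ) (1 + ε)).indicator
      (fun _ => ENNReal.ofReal (Λ ^ p)) x := by
    intro x
    by_cases hx : x ∈ Set.pi univ fun _ : Fin d => Icc (0 : ℝ) (1 + ε)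
    · rw [indicator_of_mem hx, indicator_of_mem hx, ENNReal.ofReal_rpow_of_pos hΛ]
    · rw [indicator_of_notMem hx, indicator_of_notMem hx, ENNReal.zero_rpow_of_pos hp]
  rw [lintegral_congr h1, lintegral_indicator_const hm, volume_pi_pi]
  simp only [Real.volume_Icc, sub_zero, Finset.prod_const, Finset.card_univ, Fintype.card_fin]
  rw [← ENNReal.ofReal_pow (by linarith), ← ENNReal.ofReal_mul (by positivity)]

theorem weyl_lower_const (d : ℕ) (γ : ℝ) :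
    (4 * π ^ 2) ^ (-((d : ℝ) / 2)) *
        (π ^ ((d : ℝ) / 2) * Gamma (γ + 1) / Gamma (γ + 1 + (d : ℝ) / 2)) = Lcl γ d := by
  unfold Lcl
  have hpi : (0:ℝ) < π := Real.pi_pos
  have h1 : (4 * π ^ 2 : ℝ) = (4 * π) * π := by ring
  have h2 : (4 * π ^ 2 : ℝ) ^ (-((d : ℝ) / 2)) =
      ((4 * π) ^ ((d : ℝ) / 2))⁻¹ * (π ^ ((d : ℝ) / 2))⁻¹ := by
    rw [h1, Real.mul_rpow (by positivity) hpi.le, Real.rpow_neg (by positivity),
      Real.rpow_neg hpi.le]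
  rw [h2]
  have h3 : π ^ ((d : ℝ) / 2) ≠ 0 := (Real.rpow_pos_of_pos hpi _).ne'
  have h4 : (4 * π) ^ ((d : ℝ) / 2) ≠ 0 := (Real.rpow_pos_of_pos (by positivity) _).ne'
  have hgen : ∀ A B G1 G2 : ℝ, A ≠ 0 → B⁻¹ * A⁻¹ * (A * G1 / G2) = G1 / (B * G2) := by
    intro A B G1 G2 hA
    rw [div_eq_mul_inv, div_eq_mul_inv, mul_inv]
    calc B⁻¹ * A⁻¹ * (A * G1 * G2⁻¹) = (A⁻¹ * A) * (B⁻¹ * (G1 * G2⁻¹)) := by ring
      _ = G1 * (B⁻¹ * G2⁻¹) := by rw [inv_mul_cancel₀ hA]; ring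
  exact hgen _ _ _ _ h3

theorem weyl_lower {d : ℕ} {γ : ℝ} (hγ : 0 < γ) (C : ℝ≥0∞)
    (hC : ∀ W : (Fin d → ℝ) → ℝ≥0∞, Measurable W → (∀ x, W x ≠ ⊤) →
      ∫⁻ x, W x ^ (γ + (d : ℝ) / 2) ≠ ⊤ →
      ∑' k, negE (univ : Set (Fin d → ℝ)) 0 0 W k ^ γ ≤
        C * ∫⁻ x, W x ^ (γ + (d : ℝ) / 2)) :
    ENNReal.ofReal (Lcl γ d) ≤ C := by
  by_cases hC' : C = ⊤
  · rw [hC']; exact le_top
  have hp : 0 < γ + (d : ℝ) / 2 := by positivity
  have key : ∀ ε : ℝ, 0 < ε → ε < 1 →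
      ENNReal.ofReal ((1 - ε) ^ (γ + (d : ℝ) / 2) * ((1 + ε) * (4 * π ^ 2)) ^ (-((d : ℝ) / 2)) *
        (π ^ ((d : ℝ) / 2) * Gamma (γ + 1) / Gamma (γ + 1 + (d : ℝ) / 2))) ≤
      C * ENNReal.ofReal ((1 + ε) ^ d) := by
    intro ε hε hε1
    refine weyl_eps hγ hε hε1 C ?_
    intro Λ hΛ
    have hm : MeasurableSet (Set.pi univ fun _ : Fin d => Icc (0 : ℝ) (1 + ε)) :=
      MeasurableSet.univ_pi fun _ => measurableSet_Icc
    have h1 := hC ((Set.pi univ fun _ : Fin d => Icc (0 : ℝ) (1 + ε)).indicator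
          fun _ => ENNReal.ofReal Λ) (measurable_const.indicator hm) (by
        intro x
        by_cases hx : x ∈ Set.pi univ fun _ : Fin d => Icc (0 : ℝ) (1 + ε)
        · rw [indicator_of_mem hx]; exact ENNReal.ofReal_ne_top
        · rw [indicator_of_notMem hx]; exact ENNReal.zero_ne_top) (by
        rw [weyl_lower_lint hp hΛ hε]; exact ENNReal.ofReal_ne_top)
    rwa [weyl_lower_lint hp hΛ hε] at h1
  have hcont : ContinuousAt (fun ε : ℝ => (1 - ε) ^ (γ + (d : ℝ) / 2) *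
      ((1 + ε) * (4 * π ^ 2)) ^ (-((d : ℝ) / 2)) *
        (π ^ ((d : ℝ) / 2) * Gamma (γ + 1) / Gamma (γ + 1 + (d : ℝ) / 2))) 0 := by
    have hpi : (0:ℝ) < π := Real.pi_pos
    refine ContinuousAt.mul (ContinuousAt.mul ?_ ?_) continuousAt_const
    · refine ContinuousAt.rpow_const (by fun_prop) (Or.inl (by norm_num))
    · refine ContinuousAt.rpow_const (by fun_prop) (Or.inl ?_)
      have : (0:ℝ) < (1 + 0) * (4 * π ^ 2) := by positivity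
      exact this.ne'
  have hval : (1 - (0:ℝ)) ^ (γ + (d : ℝ) / 2) *
      ((1 + (0:ℝ)) * (4 * π ^ 2)) ^ (-((d : ℝ) / 2)) *
        (π ^ ((d : ℝ) / 2) * Gamma (γ + 1) / Gamma (γ + 1 + (d : ℝ) / 2)) = Lcl γ d := by
    rw [← weyl_lower_const d γ]
    rw [sub_zero, add_zero, Real.one_rpow, one_mul, one_mul]
  have hT1 : Filter.Tendsto (fun ε : ℝ => ENNReal.ofReal ((1 - ε) ^ (γ + (d : ℝ) / 2) *
      ((1 + ε) * (4 * π ^ 2)) ^ (-((d : ℝ) / 2)) *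
        (π ^ ((d : ℝ) / 2) * Gamma (γ + 1) / Gamma (γ + 1 + (d : ℝ) / 2))))
      (nhdsWithin 0 (Ioi 0)) (nhds (ENNReal.ofReal (Lcl γ d))) := by
    rw [← hval]
    exact ENNReal.tendsto_ofReal (hcont.tendsto.mono_left nhdsWithin_le_nhds)
  have hT2 : Filter.Tendsto (fun ε : ℝ => C * ENNReal.ofReal ((1 + ε) ^ d))
      (nhdsWithin 0 (Ioi 0)) (nhds (C * ENNReal.ofReal 1)) := by
    refine ENNReal.Tendsto.const_mul ?_ (Or.inr hC')
    apply ENNReal.tendsto_ofReal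
    have hc : ContinuousAt (fun ε : ℝ => (1 + ε) ^ d) 0 := by fun_prop
    have h2 := hc.tendsto
    simp only [add_zero, one_pow] at h2
    exact h2.mono_left nhdsWithin_le_nhds
  rw [ENNReal.ofReal_one, mul_one] at hT2
  refine le_of_tendsto_of_tendsto hT1 hT2 ?_
  have hev : ∀ᶠ ε : ℝ in nhdsWithin 0 (Ioi 0), ε ∈ Ioo (0:ℝ) 1 := Ioo_mem_nhdsGT one_pos
  filter_upwards [hev] with ε hε
  exact key ε hε.1 hε.2


end Pool.Agent.Helper766.M
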