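import Mathlib
import Pool.Agent.Helper766.M.Defs
import Pool.Agent.Helper766.M.L_main_gen
import Pool.Agent.Helper766.M.L_PP_to_PPp
import Pool.Agent.Helper766.M.L_PPp_to_PP
import Pool.Agent.Helper766.M.L_PP_zero
import Pool.Agent.Helper766.M.L_cc
import Pool.Agent.Helper766.M.L_dirichlet_link

set_option autoImplicit false

open MeasureTheory Set Real Matrix
open scoped ENNReal ComplexOrder

namespace Pool.Agent.Helper766.M

/-- The sharp magnetic inequality for `γ = 3/2` in the form for families of functions. -/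
theorem PP_all (n : ℕ) : PP n (ENNReal.ofReal (cc n)) := by
  induction n with
  | zero => rw [cc_zero]; exact PP_zero
  | succ n ih => exact PP'_to_PP n _ (PP_to_PP' n ih)

/-- The magnetic Lieb-Thirring inequality with constant `(2/√3) L^cl` for all `γ ≥ 1`. -/
theorem magnetic_LT {d : ℕ} (hd : 1 ≤ d) (Ω : Set (Fin d → ℝ))
    (A : (Fin d → ℝ) → (Fin d → ℝ)) (hA : Measurable A)
    (P W : (Fin d → ℝ) → ℝ≥0∞) (hW : Measurable W) {γ : ℝ} (hγ : 1 ≤ γ) :
    ∑' k, negE Ω A P W k ^ γ ≤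
      ENNReal.ofReal (2 / √3 * Lcl γ d) * ∫⁻ x, W x ^ (γ + (d : ℝ) / 2) :=
  main_gen hd PP_all Ω A hA P W hW hγ

/-- The kinetic energy inequality for orthonormal families. -/
theorem magnetic_Q {n N : ℕ} (u : Fin N → (Fin (n + 1) → ℝ) → ℂ)
    (A : (Fin (n + 1) → ℝ) → (Fin (n + 1) → ℝ)) (V : (Fin (n + 1) → ℝ) → ℝ≥0∞)
    (hu : ∀ i, ContDiff ℝ 1 (u i)) (hc : ∀ i, HasCompactSupport (u i)) (hA : Measurable A)
    (hV : Measurable V) (hG : (1 - Gram u).PosSemidef) :
    ∫⁻ x, V x * rho u x ≤ Tmag A u +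
      ENNReal.ofReal (2 / (√3 * π) * cc n) * ∫⁻ x, V x ^ (((n : ℝ) + 3) / 2) :=
  QQ (PP_all n) u A V hu hc hA hV hG

end Pool.Agent.Helper766.M
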